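import Mathlib

/-!
# An edge-Ramsey theorem for edge-coloured graphs without monochromatic cliques

The partite construction of Nešetřil and Rödl, with the Hales-Jewett theorem as partite lemma.
-/

namespace Pool.Agent.Helper37.NR

open Classical Combinatorics

/-- `r` pairwise edge-disjoint graphs on `V`, none of which has a clique on `k` vertices. -/
structure St (r k : ℕ) (V : Type) where
  R : Fin r → V → V → Prop
  symm : ∀ j x y, R j x y → R j y x
  irr : ∀ j x, ¬ R j x x
  disj : ∀ i j x y, R i x y → R j x y → i = j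
  free : ∀ j (s : Finset V), (∀ x ∈ s, ∀ y ∈ s, x ≠ y → R j x y) → s.card < k

structure Emb {r k : ℕ} {V W : Type} (S : St r k V) (T : St r k W) (f : V → W) : Prop where
  inj : Function.Injective f
  map : ∀ j x y, S.R j x y → T.R j (f x) (f y)

theorem Emb.comp {r k : ℕ} {V W U : Type} {S : St r k V} {T : St r k W} {Z : St r k U}
    {f : V → W} {g : W → U} (hg : Emb T Z g) (hf : Emb S T f) : Emb S Z (g ∘ f) where
  inj := hg.inj.comp hf.inj
  map j x y h := hg.map j _ _ (hf.map j x y h)

theorem Emb.refl {r k : ℕ} {V : Type} (S : St r k V) : Emb S S id where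
  inj := Function.injective_id
  map _ _ _ h := h

/-! ### The partite lemma and one amalgamation step -/

section Step

variable {p r k : ℕ} {X : Type} (S : St r k X) (π : X → Fin p) (i0 : Fin r) (a b : Fin p)

/-- Edges of colour `i0` between the parts `a` and `b`. -/
abbrev EE : Type := {e : X × X // π e.1 = a ∧ π e.2 = b ∧ S.R i0 e.1 e.2}

variable {S π i0 a b} {ι : Type}

/-- The copy of `X` given by the line `L`. -/
noncomputable def phi (L : Line (EE S π i0 a b) ι) (x : X) : (ι → X) ⊕ (Line (EE S π i0 a b) ι × X) :=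
  if π x = a then Sum.inl (fun t => ((L.idxFun t).map (fun e => e.1.1)).getD x)
  else if π x = b then Sum.inl (fun t => ((L.idxFun t).map (fun e => e.1.2)).getD x)
  else Sum.inr (L, x)

noncomputable def rho : (ι → X) ⊕ (Line (EE S π i0 a b) ι × X) → Fin p :=
  Sum.elim (fun u => if ∀ t, π (u t) = a then a else b) (fun z => π z.2)

theorem phi_a (L : Line (EE S π i0 a b) ι) {x : X} (h : π x = a) :
    phi L x = Sum.inl (fun t => ((L.idxFun t).map (fun e => e.1.1)).getD x) := by
  simp [phi, h]

theorem phi_b (hab : a ≠ b) (L : Line (EE S π i0 a b) ι) {x : X} (h : π x = b) :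
    phi L x = Sum.inl (fun t => ((L.idxFun t).map (fun e => e.1.2)).getD x) := by
  have : ¬ b = a := fun e => hab e.symm
  simp [phi, h, this]

theorem phi_o (L : Line (EE S π i0 a b) ι) {x : X} (h1 : π x ≠ a) (h2 : π x ≠ b) :
    phi L x = Sum.inr (L, x) := by
  simp [phi, h1, h2]

theorem rho_phi (hab : a ≠ b) (L : Line (EE S π i0 a b) ι) (x : X) : rho (phi L x) = π x := by
  by_cases h1 : π x = a
  · rw [phi_a L h1]
    simp only [rho, Sum.elim_inl]
    rw [if_pos, h1]
    intro t
    cases ht : L.idxFun t with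
    | none => simp [h1]
    | some e => simp [e.2.1]
  · by_cases h2 : π x = b
    · rw [phi_b hab L h2]
      simp only [rho, Sum.elim_inl]
      rw [if_neg, h2]
      intro hall
      obtain ⟨t, ht⟩ := L.proper
      have := hall t
      rw [ht] at this
      simp only [Option.map_none, Option.getD_none] at this
      exact h1 this
    · rw [phi_o L h1 h2]
      simp [rho]

theorem phi_inj (hab : a ≠ b) (L : Line (EE S π i0 a b) ι) : Function.Injective (phi L) := by
  intro x y h
  have hπ : π x = π y := by rw [← rho_phi hab L x, ← rho_phi hab L y, h]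
  obtain ⟨t, ht⟩ := L.proper
  by_cases h1 : π x = a
  · rw [phi_a L h1, phi_a L (hπ ▸ h1)] at h
    have := congrFun (Sum.inl.inj h) t
    simpa [ht] using this
  · by_cases h2 : π x = b
    · rw [phi_b hab L h2, phi_b hab L (hπ ▸ h2)] at h
      have := congrFun (Sum.inl.inj h) t
      simpa [ht] using this
    · rw [phi_o L h1 h2, phi_o L (hπ ▸ h1) (hπ ▸ h2)] at h
      have := Sum.inr.inj h
      simpa using this

theorem key_ab (hab : a ≠ b) {j : Fin r} {L L' : Line (EE S π i0 a b) ι} {x x' y y' : X}
    (hR : S.R j x x') (hx : π x = a) (hx' : π x' = b) (h1 : phi L y = phi L' x)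
    (h2 : phi L y' = phi L' x') : S.R j y y' := by
  have hy : π y = a := by rw [← rho_phi hab L y, h1, rho_phi hab, hx]
  have hy' : π y' = b := by rw [← rho_phi hab L y', h2, rho_phi hab, hx']
  rw [phi_a L hy, phi_a L' hx] at h1
  rw [phi_b hab L hy', phi_b hab L' hx'] at h2
  have g1 := congrFun (Sum.inl.inj h1)
  have g2 := congrFun (Sum.inl.inj h2)
  obtain ⟨t, ht⟩ := L.proper
  obtain ⟨t', ht'⟩ := L'.proper
  have e1 := g1 t
  have e2 := g2 t
  simp only [ht, Option.map_none, Option.getD_none] at e1 e2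
  cases hL' : L'.idxFun t with
  | none =>
    rw [hL'] at e1 e2
    simp only [Option.map_none, Option.getD_none] at e1 e2
    rw [e1, e2]; exact hR
  | some e =>
    rw [hL'] at e1 e2
    simp only [Option.map_some, Option.getD_some] at e1 e2
    have f1 := g1 t'
    have f2 := g2 t'
    simp only [ht', Option.map_none, Option.getD_none] at f1 f2
    cases hL : L.idxFun t' with
    | none =>
      rw [hL] at f1 f2
      simp only [Option.map_none, Option.getD_none] at f1 f2
      rw [f1, f2]; exact hR
    | some e' =>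
      rw [hL] at f1 f2
      simp only [Option.map_some, Option.getD_some] at f1 f2
      have hj : j = i0 := S.disj j i0 x x' hR (by rw [← f1, ← f2]; exact e'.2.2.2)
      rw [hj, e1, e2]
      exact e.2.2.2

/-- Copies are induced. -/
theorem key (hab : a ≠ b) (hπ : ∀ j x y, S.R j x y → π x ≠ π y) {j : Fin r}
    {L L' : Line (EE S π i0 a b) ι} {x x' y y' : X}
    (hR : S.R j x x') (h1 : phi L y = phi L' x) (h2 : phi L y' = phi L' x') : S.R j y y' := by
  have hy : π y = π x := by rw [← rho_phi hab L y, h1, rho_phi hab]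
  have hy' : π y' = π x' := by rw [← rho_phi hab L y', h2, rho_phi hab]
  have hne := hπ j x x' hR
  by_cases ho : π x ≠ a ∧ π x ≠ b
  · rw [phi_o L (hy ▸ ho.1) (hy ▸ ho.2), phi_o L' ho.1 ho.2] at h1
    have := Sum.inr.inj h1
    simp only [Prod.mk.injEq] at this
    obtain ⟨rfl, rfl⟩ := this
    have := phi_inj hab L h2
    rw [this]; exact hR
  · by_cases ho' : π x' ≠ a ∧ π x' ≠ b
    · rw [phi_o L (hy' ▸ ho'.1) (hy' ▸ ho'.2), phi_o L' ho'.1 ho'.2] at h2
      have := Sum.inr.inj h2
      simp only [Prod.mk.injEq] at this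
      obtain ⟨rfl, rfl⟩ := this
      have := phi_inj hab L h1
      rw [this]; exact hR
    · have c1 : π x = a ∨ π x = b := by tauto
      have c2 : π x' = a ∨ π x' = b := by tauto
      rcases c1 with c1 | c1 <;> rcases c2 with c2 | c2
      · exact absurd (c1.trans c2.symm) hne
      · exact key_ab hab hR c1 c2 h1 h2
      · exact S.symm _ _ _ (key_ab hab (S.symm _ _ _ hR) c2 c1 h2 h1)
      · exact absurd (c1.trans c2.symm) hne

/-- The amalgam. -/
noncomputable def amalg (hk : 3 ≤ k) (hab : a ≠ b) (hπ : ∀ j x y, S.R j x y → π x ≠ π y)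
    (ι : Type) : St r k ((ι → X) ⊕ (Line (EE S π i0 a b) ι × X)) where
  R j u w := ∃ (L : Line (EE S π i0 a b) ι) (x y : X), S.R j x y ∧ u = phi L x ∧ w = phi L y
  symm := by
    rintro j u w ⟨L, x, y, h, rfl, rfl⟩
    exact ⟨L, y, x, S.symm _ _ _ h, rfl, rfl⟩
  irr := by
    rintro j u ⟨L, x, y, h, h1, h2⟩
    have : phi L x = phi L y := h1.symm.trans h2
    have := phi_inj hab L this
    rw [this] at h
    exact S.irr _ _ h
  disj := by
    rintro i j u w ⟨L, x, y, h, rfl, rfl⟩ ⟨L', x', y', h', h1, h2⟩
    have := key hab hπ h' h1 h2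
    exact S.disj i j x y h this
  free := by
    intro j s hs
    by_cases hout : ∃ z ∈ s, ∃ (L : Line (EE S π i0 a b) ι) (x : X), z = Sum.inr (L, x)
    · obtain ⟨z, hz, L, x0, rfl⟩ := hout
      -- every element of `s` is in the copy of `L`
      by_cases hcard : s.card ≤ 1
      · omega
      have hall : ∀ w ∈ s, ∃ y, w = phi L y := by
        have hother : ∀ w ∈ s, w ≠ Sum.inr (L, x0) → ∃ y, w = phi L y ∧ phi L x0 = Sum.inr (L, x0) := by
          intro w hw hne
          obtain ⟨L', x, y, h, h1, h2⟩ := hs _ hz w hw hne.symm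
          have hx : π x ≠ a := by
            intro hx; rw [phi_a L' hx] at h1; exact absurd h1 (by simp)
          have hx' : π x ≠ b := by
            intro hx'; rw [phi_b hab L' hx'] at h1; exact absurd h1 (by simp)
          have h1' := h1
          rw [phi_o L' hx hx'] at h1'
          have := Sum.inr.inj h1'
          simp only [Prod.mk.injEq] at this
          obtain ⟨rfl, rfl⟩ := this
          exact ⟨y, h2, h1.symm⟩
        intro w hw
        by_cases hwz : w = Sum.inr (L, x0)
        · -- take another element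
          obtain ⟨w', hw', hne⟩ : ∃ w' ∈ s, w' ≠ Sum.inr (L, x0) := by
            by_contra hcon
            push Not at hcon
            apply hcard
            rw [Finset.card_le_one]
            intro u hu v hv
            rw [hcon u hu, hcon v hv]
          obtain ⟨y, _, hy⟩ := hother w' hw' hne
          exact ⟨x0, by rw [hwz, hy]⟩
        · obtain ⟨y, hy, _⟩ := hother w hw hwz
          exact ⟨y, hy⟩
      -- pull back
      have : Nonempty X := ⟨x0⟩
      choose! g hg using hall
      have hginj : ∀ u ∈ s, ∀ v ∈ s, g u = g v → u = v := by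
        intro u hu v hv h
        rw [hg u hu, hg v hv, h]
      have hcard' : (s.image g).card = s.card := by
        apply Finset.card_image_of_injOn
        intro u hu v hv h
        exact hginj u hu v hv h
      rw [← hcard']
      apply S.free j
      intro x hx y hy hxy
      rw [Finset.mem_image] at hx hy
      obtain ⟨u, hu, rfl⟩ := hx
      obtain ⟨v, hv, rfl⟩ := hy
      have huv : u ≠ v := fun e => hxy (by rw [e])
      obtain ⟨L', x, y, h, h1, h2⟩ := hs u hu v hv huv
      exact key hab hπ h ((hg u hu).symm.trans h1) ((hg v hv).symm.trans h2)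
    · -- all elements are in the parts `a` and `b`
      push Not at hout
      have hpart : ∀ u ∈ s, ∀ v ∈ s, u ≠ v → (rho u = a ∨ rho u = b) ∧ rho u ≠ rho v := by
        intro u hu v hv huv
        obtain ⟨L, x, y, h, h1, h2⟩ := hs u hu v hv huv
        rw [h1, h2, rho_phi hab, rho_phi hab]
        refine ⟨?_, hπ j x y h⟩
        by_contra hcon
        push Not at hcon
        rw [phi_o L hcon.1 hcon.2] at h1
        exact hout u hu L x h1
      by_contra hcon
      have hc : 3 ≤ s.card := by omega
      obtain ⟨t, hts, ht⟩ := Finset.exists_subset_card_eq hc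
      obtain ⟨u, v, w, huv, huw, hvw, rfl⟩ := Finset.card_eq_three.mp ht
      have hu : u ∈ s := hts (by simp)
      have hv : v ∈ s := hts (by simp)
      have hw : w ∈ s := hts (by simp)
      have a1 := hpart u hu v hv huv
      have a2 := hpart v hv w hw hvw
      have a3 := hpart w hw u hu huw.symm
      rcases a1.1 with b1 | b1 <;> rcases a2.1 with b2 | b2 <;> rcases a3.1 with b3 | b3 <;>
        rw [b1, b2] at a1 <;> rw [b2, b3] at a2 <;> rw [b3, b1] at a3 <;> simp at a1 a2 a3

instance lineFinite {α ι : Type} [Finite α] [Finite ι] : Finite (Line α ι) := by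
  apply Finite.of_injective (fun L : Line α ι => L.idxFun)
  intro L L' h
  cases L; cases L'
  simp only at h
  subst h
  rfl

end Step

/-- One amalgamation step: the edges of colour `i0` between parts `a` and `b` become
monochromatic. -/
theorem step {p r k : ℕ} (hk : 3 ≤ k) {X : Type} [Finite X] (S : St r k X) (π : X → Fin p)
    (hπ : ∀ j x y, S.R j x y → π x ≠ π y) (i0 : Fin r) (q : ℕ) (a b : Fin p) (hab : a ≠ b) :
    ∃ (Y : Type) (_ : Finite Y) (T : St r k Y) (ρ : Y → Fin p),
      (∀ j x y, T.R j x y → ρ x ≠ ρ y) ∧ ∀ χ : Y → Y → Fin q, ∃ f : X → Y, Emb S T f ∧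
        (∀ x, ρ (f x) = π x) ∧
        ∃ c0, ∀ x y, π x = a → π y = b → S.R i0 x y → χ (f x) (f y) = c0 := by
  obtain ⟨ι, hι, hHJ⟩ := Line.exists_mono_in_high_dimension (EE S π i0 a b) (Fin q)
  refine ⟨(ι → X) ⊕ (Line (EE S π i0 a b) ι × X), inferInstance, amalg hk hab hπ ι, rho, ?_, ?_⟩
  · rintro j u w ⟨L, x, y, h, rfl, rfl⟩
    rw [rho_phi hab, rho_phi hab]
    exact hπ j x y h
  · intro χ
    obtain ⟨L, c0, hL⟩ := hHJ (fun g => χ (Sum.inl (fun t => (g t).1.1)) (Sum.inl (fun t => (g t).1.2)))
    refine ⟨phi L, ⟨phi_inj hab L, fun j x y h => ⟨L, x, y, h, rfl, rfl⟩⟩, rho_phi hab L, c0, ?_⟩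
    intro x y hx hy hR
    have := hL ⟨(x, y), hx, hy, hR⟩
    rw [← this, phi_a L hx, phi_b hab L hy]
    congr 2
    · funext t
      rw [Line.apply_def]
      cases hc : L.idxFun t <;> simp [hc]
    · funext t
      rw [Line.apply_def]
      cases hc : L.idxFun t <;> simp [hc]

/-- Iterating over a set of pairs of parts. -/
theorem steps {p r k : ℕ} (hk : 3 ≤ k) (i0 : Fin r) (q : ℕ) (PP : Finset (Fin p × Fin p))
    (hPP : ∀ e ∈ PP, e.1 ≠ e.2) :
    ∀ {X : Type} [Finite X] (S : St r k X) (π : X → Fin p)
      (_ : ∀ j x y, S.R j x y → π x ≠ π y),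
    ∃ (Y : Type) (_ : Finite Y) (T : St r k Y) (ρ : Y → Fin p),
      (∀ j x y, T.R j x y → ρ x ≠ ρ y) ∧ ∀ χ : Y → Y → Fin q, ∃ f : X → Y, Emb S T f ∧
        (∀ x, ρ (f x) = π x) ∧
        ∀ e ∈ PP, ∃ c0, ∀ x y, π x = e.1 → π y = e.2 → S.R i0 x y → χ (f x) (f y) = c0 := by
  induction PP using Finset.induction_on with
  | empty =>
    intro X _ S π hπ
    exact ⟨X, inferInstance, S, π, hπ, fun χ => ⟨id, Emb.refl S, fun _ => rfl, by simp⟩⟩
  | insert e PP he ih =>
    intro X _ S π hπ
    obtain ⟨Y, hY, T, ρ, hρ, hT⟩ := ih (fun e' he' => hPP e' (Finset.mem_insert_of_mem he')) S π hπ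
    obtain ⟨Z, hZ, U, σ, hσ, hU⟩ := step hk T ρ hρ i0 q e.1 e.2 (hPP e (Finset.mem_insert_self _ _))
    refine ⟨Z, hZ, U, σ, hσ, ?_⟩
    intro χ
    obtain ⟨g, hg, hgσ, c0, hc0⟩ := hU χ
    obtain ⟨f, hf, hfρ, hmono⟩ := hT (fun u w => χ (g u) (g w))
    refine ⟨g ∘ f, hg.comp hf, fun x => by simp [hgσ, hfρ], ?_⟩
    intro e' he'
    rw [Finset.mem_insert] at he'
    rcases he' with rfl | he'
    · refine ⟨c0, ?_⟩
      intro x y hx hy hR
      exact hc0 (f x) (f y) (by rw [hfρ, hx]) (by rw [hfρ, hy]) (hf.map _ _ _ hR)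
    · exact hmono e' he'

/-! ### Finite Ramsey theorem for pairs -/

/-- End-homogeneous sequences. -/
theorem end_homogeneous (q : ℕ) (m : ℕ) : ∃ N : ℕ, ∀ {α : Type} (s : Finset α) (c : α → α → Fin q),
    N ≤ s.card → ∃ (l : List α) (d : α → Fin q), l.Nodup ∧ l.length = m ∧ (∀ x ∈ l, x ∈ s) ∧
      l.Pairwise (fun x y => c x y = d x) := by
  induction m with
  | zero =>
    refine ⟨1, ?_⟩
    intro α s c hs
    have : s.Nonempty := Finset.card_pos.mp (by omega)
    obtain ⟨x, hx⟩ := this
    exact ⟨[], fun _ => c x x, by simp, rfl, by simp, by simp⟩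
  | succ m ih =>
    obtain ⟨N, hN⟩ := ih
    refine ⟨q * N + 2, ?_⟩
    intro α s c hs
    have hne : s.Nonempty := Finset.card_pos.mp (by omega)
    obtain ⟨x, hx⟩ := hne
    -- popular colour
    have hcard : (s.erase x).card = s.card - 1 := Finset.card_erase_of_mem hx
    obtain ⟨i, hi⟩ : ∃ i : Fin q, N ≤ ((s.erase x).filter (fun y => c x y = i)).card := by
      by_contra hcon
      push Not at hcon
      have h1 : (s.erase x).card = ∑ i : Fin q, ((s.erase x).filter (fun y => c x y = i)).card :=
        Finset.card_eq_sum_card_fiberwise (fun y _ => Finset.mem_univ (c x y))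
      have h2 : ∑ i : Fin q, ((s.erase x).filter (fun y => c x y = i)).card ≤ ∑ _i : Fin q, N :=
        Finset.sum_le_sum (fun i _ => (hcon i).le)
      simp only [Finset.sum_const, Finset.card_univ, Fintype.card_fin, smul_eq_mul] at h2
      omega
    obtain ⟨l, d, h1, h2, h3, h4⟩ := hN _ c hi
    have hxl : x ∉ l := by
      intro hxl
      have := h3 x hxl
      simp at this
    refine ⟨x :: l, Function.update d x i, ?_, by simp [h2], ?_, ?_⟩
    · exact List.nodup_cons.mpr ⟨hxl, h1⟩
    · intro y hy
      rcases List.mem_cons.mp hy with rfl | hy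
      · exact hx
      · have := h3 y hy
        simp only [Finset.mem_filter, Finset.mem_erase] at this
        exact this.1.2
    · rw [List.pairwise_cons]
      constructor
      · intro y hy
        have := h3 y hy
        simp only [Finset.mem_filter, Finset.mem_erase] at this
        simp [this.2]
      · apply h4.imp_of_mem
        intro y z hy hz hyz
        have : y ≠ x := fun e => hxl (e ▸ hy)
        simp [Function.update_of_ne this, hyz]

/-- Ramsey's theorem for pairs and `q` colours. -/
theorem ramsey_pairs (q v : ℕ) : ∃ N : ℕ, ∀ c : Fin N → Fin N → Fin q,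
    ∃ (e : Fin v → Fin N) (c0 : Fin q), Function.Injective e ∧
      ∀ x y, x < y → c (e x) (e y) = c0 := by
  obtain ⟨N, hN⟩ := end_homogeneous q (q * v + 1)
  refine ⟨N, ?_⟩
  intro c
  obtain ⟨l, d, h1, h2, h3, h4⟩ := hN (Finset.univ : Finset (Fin N)) c (by simp)
  -- popular value of `d`
  obtain ⟨i, hi⟩ : ∃ i : Fin q, v ≤ (l.filter (fun x => d x = i)).length := by
    by_contra hcon
    push Not at hcon
    have hsum : ∀ l : List (Fin N), l.length = ∑ i : Fin q, (l.filter (fun x => d x = i)).length := by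
      intro l
      induction l with
      | nil => simp
      | cons x l ih =>
        have : ∀ i : Fin q, ((x :: l).filter (fun x => d x = i)).length =
            (if d x = i then 1 else 0) + (l.filter (fun x => d x = i)).length := by
          intro i
          by_cases h : d x = i
          · simp [h]; omega
          · simp [h]
        rw [Finset.sum_congr rfl (fun i _ => this i), Finset.sum_add_distrib, ← ih]
        simp; omega
    have h5 := hsum l
    have h6 : ∑ i : Fin q, (l.filter (fun x => d x = i)).length ≤ ∑ _i : Fin q, v :=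
      Finset.sum_le_sum (fun i _ => (hcon i).le)
    simp only [Finset.sum_const, Finset.card_univ, Fintype.card_fin, smul_eq_mul] at h6
    omega
  set l' := l.filter (fun x => d x = i) with hl'
  have hnd : l'.Nodup := h1.filter _
  have hpw : l'.Pairwise (fun x y => c x y = d x) := h4.filter _
  refine ⟨fun x => l'.get ⟨x, lt_of_lt_of_le x.2 hi⟩, i, ?_, ?_⟩
  · intro x y hxy
    have := hnd.injective_get hxy
    simpa [Fin.ext_iff] using this
  · intro x y hxy
    have := List.pairwise_iff_get.mp hpw ⟨x, lt_of_lt_of_le x.2 hi⟩ ⟨y, lt_of_lt_of_le y.2 hi⟩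
      (by simpa using hxy)
    rw [this]
    have hm : l'.get ⟨x, lt_of_lt_of_le x.2 hi⟩ ∈ l' := List.get_mem _ _
    have hm' := (List.mem_filter.mp hm).2
    simpa using hm'

/-! ### The theorem for one colour -/

theorem one_colour {r k : ℕ} (hk : 3 ≤ k) (q : ℕ) (hq : 0 < q) {V : Type} [Finite V] (S : St r k V)
    (i0 : Fin r) : ∃ (W : Type) (_ : Finite W) (T : St r k W), ∀ χ : W → W → Fin q,
      (∀ x y, χ x y = χ y x) → ∃ f : V → W, Emb S T f ∧ ∃ c0, ∀ x y, S.R i0 x y →
        χ (f x) (f y) = c0 := by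
  obtain ⟨v, ⟨eV⟩⟩ := Finite.exists_equiv_fin V
  obtain ⟨p, hp⟩ := ramsey_pairs q v
  -- picture zero
  let X := {e : Fin v → Fin p // Function.Injective e} × V
  let S0 : St r k X :=
    { R := fun j u w => u.1 = w.1 ∧ S.R j u.2 w.2
      symm := fun j u w h => ⟨h.1.symm, S.symm _ _ _ h.2⟩
      irr := fun j u h => S.irr _ _ h.2
      disj := fun i j u w h h' => S.disj i j _ _ h.2 h'.2
      free := by
        intro j s hs
        have hinj : ∀ u ∈ s, ∀ w ∈ s, u.2 = w.2 → u = w := by
          intro u hu w hw h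
          by_contra hne
          have := hs u hu w hw hne
          rw [h] at this
          exact S.irr _ _ this.2
        have : (s.image Prod.snd).card = s.card :=
          Finset.card_image_of_injOn (fun u hu w hw h => hinj u hu w hw h)
        rw [← this]
        apply S.free j
        intro x hx y hy hxy
        rw [Finset.mem_image] at hx hy
        obtain ⟨u, hu, rfl⟩ := hx
        obtain ⟨w, hw, rfl⟩ := hy
        exact (hs u hu w hw (fun e => hxy (by rw [e]))).2 }
  let π : X → Fin p := fun u => u.1.1 (eV u.2)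
  have hπ : ∀ j x y, S0.R j x y → π x ≠ π y := by
    intro j x y h he
    simp only [π] at he
    rw [h.1] at he
    have := eV.injective (y.1.2 he)
    have h2 := h.2
    rw [this] at h2
    exact S.irr _ _ h2
  obtain ⟨Y, hY, T, ρ, hρ, hT⟩ := steps hk i0 q
    ((Finset.univ : Finset (Fin p × Fin p)).filter (fun e => e.1 ≠ e.2))
    (by intro e he; simpa using he) S0 π hπ
  refine ⟨Y, hY, T, ?_⟩
  intro χ hχ
  obtain ⟨f, hf, _, hmono⟩ := hT χ
  have hmono' : ∀ a b : Fin p, ∃ c0 : Fin q, a ≠ b → ∀ x y, π x = a → π y = b → S0.R i0 x y →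
      χ (f x) (f y) = c0 := by
    intro a b
    by_cases hab : a = b
    · exact ⟨⟨0, hq⟩, fun h => absurd hab h⟩
    · obtain ⟨c0, hc0⟩ := hmono (a, b) (by simp [hab])
      exact ⟨c0, fun _ => hc0⟩
  choose c hc using hmono'
  obtain ⟨e, c0, he, hec⟩ := hp c
  refine ⟨fun x => f (⟨e, he⟩, x), ⟨?_, ?_⟩, c0, ?_⟩
  · intro x y hxy
    exact congrArg Prod.snd (hf.inj hxy)
  · intro j x y h
    exact hf.map j _ _ ⟨rfl, h⟩
  · have main : ∀ x y, eV x < eV y → S.R i0 x y → χ (f (⟨e, he⟩, x)) (f (⟨e, he⟩, y)) = c0 := by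
      intro x y hlt hR
      rw [← hec _ _ hlt]
      refine hc _ _ ?_ _ _ rfl rfl ⟨rfl, hR⟩
      intro h
      exact absurd (he h) hlt.ne
    intro x y hR
    rcases lt_trichotomy (eV x) (eV y) with h | h | h
    · exact main x y h hR
    · have := eV.injective h
      rw [this] at hR
      exact absurd hR (S.irr _ _)
    · rw [hχ]
      exact main y x h (S.symm _ _ _ hR)

/-- **Edge-Ramsey theorem** for edge-coloured graphs without monochromatic `K_k`: for every finite
such structure `S` there is a finite such structure `T` so that every colouring of the pairs of `T`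
has a copy of `S` on which the colour of an edge depends only on its relation. -/
theorem edge_ramsey {r k : ℕ} (hk : 3 ≤ k) (q : ℕ) (hq : 0 < q) (I : Finset (Fin r)) :
    ∀ {V : Type} [Finite V] (S : St r k V),
    ∃ (W : Type) (_ : Finite W) (T : St r k W), ∀ χ : W → W → Fin q,
      (∀ x y, χ x y = χ y x) → ∃ f : V → W, Emb S T f ∧ ∃ c : Fin r → Fin q,
        ∀ i ∈ I, ∀ x y, S.R i x y → χ (f x) (f y) = c i := by
  induction I using Finset.induction_on with
  | empty =>
    intro V _ S
    exact ⟨V, inferInstance, S, fun χ _ => ⟨id, Emb.refl S, fun _ => ⟨0, hq⟩, by simp⟩⟩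
  | insert i I hi ih =>
    intro V _ S
    obtain ⟨W, hW, T, hT⟩ := ih S
    obtain ⟨U, hU, Z, hZ⟩ := one_colour hk q hq T i
    refine ⟨U, hU, Z, ?_⟩
    intro χ hχ
    obtain ⟨g, hg, c0, hc0⟩ := hZ χ hχ
    obtain ⟨f, hf, c, hc⟩ := hT (fun u w => χ (g u) (g w)) (fun u w => hχ _ _)
    refine ⟨g ∘ f, hg.comp hf, Function.update c i c0, ?_⟩
    intro j hj x y hR
    rw [Finset.mem_insert] at hj
    by_cases hji : j = i
    · subst hji
      rw [Function.update_self]
      exact hc0 _ _ (hf.map _ _ _ hR)
    · rw [Function.update_of_ne hji]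
      rcases hj with hj | hj
      · exact absurd hj hji
      · exact hc j hj x y hR

end Pool.Agent.Helper37.NR
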