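import Pool.Agent.Helper37.Af.Main
import Pool.Agent.Helper37.Kr.KernC

/-!
# MP_6cbef8_nt: the field cut out by the projective representation of `f` and torsion fields

`V` is a strongly irreducible two-dimensional representation over a finite extension `E` of `ℚ_p`,
and `T j` are finitely many representations over `ℚ_p` (in the application Tate modules of abelian
varieties).  If on an open subgroup the common kernel of the `T j` acts by scalars on `V` then `V` is
contained in some `T j` (over `E`) on an open subgroup, and conversely.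
-/

set_option autoImplicit false
open Pool.Agent.Helper27.FM Pool.Agent.Helper37.Af Pool.Agent.Helper37.Kr

namespace Pool.Agent.Results.MP_6cbef8_nt.TorsionFieldCrit

theorem result (p : ℕ) [hp : Fact p.Prime]
    -- the coefficient field, a finite extension of `ℚ_p`
    {E : Type*} [NontriviallyNormedField E] [IsUltrametricDist E] [NormedAlgebra ℚ_[p] E]
    [FiniteDimensional ℚ_[p] E]
    -- a profinite group
    {G : Type*} [Group G] [TopologicalSpace G] [IsTopologicalGroup G] [CompactSpace G]
    [TotallyDisconnectedSpace G]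
    -- a strongly irreducible representation
    (V : G →* GL (Fin 2) E) (hV : Continuous V) (hirr : StronglyIrreducible V)
    -- finitely many representations over `ℚ_p`
    {J : Type*} [Finite J] (n : J → ℕ) (T : ∀ j, G →* GL (Fin (n j)) ℚ_[p])
    (hT : ∀ j, Continuous (T j))
    (h : ∀ j, ¬ AdOccurs V (bc E (T j)) ∨
      (Semisimple (bc E (T j)) ∧ IdempotentGenerated p V (bc E (T j)))) :
    (∃ U : Subgroup G, IsOpen (U : Set G) ∧ ∀ g ∈ U, (∀ j, T j g = 1) →
      ∃ c : E, (V g : Matrix (Fin 2) (Fin 2) E) = c • (1 : Matrix (Fin 2) (Fin 2) E)) ↔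
      ∃ j, PotentiallyContained V (bc E (T j)) := by
  haveI : CompleteSpace E := FiniteDimensional.complete ℚ_[p] E
  have hbcc : ∀ j, Continuous (bc E (T j)) := by
    intro j
    have h1 : Continuous fun g => (T j g : Matrix (Fin (n j)) (Fin (n j)) ℚ_[p]) :=
      Units.continuous_val.comp (hT j)
    have h2 : Continuous fun g =>
        (((T j g)⁻¹ : GL (Fin (n j)) ℚ_[p]) : Matrix (Fin (n j)) (Fin (n j)) ℚ_[p]) :=
      Units.continuous_coe_inv.comp (hT j)
    refine Units.continuous_iff.mpr ⟨?_, ?_⟩
    · refine continuous_matrix fun a b => ?_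
      exact (continuous_algebraMap ℚ_[p] E).comp ((continuous_apply_apply a b).comp h1)
    · refine continuous_matrix fun a b => ?_
      exact (continuous_algebraMap ℚ_[p] E).comp ((continuous_apply_apply a b).comp h2)
  constructor
  · rintro ⟨U₀, hU₀, hker⟩
    have hocc : ∃ j, AdOccurs V (bc E (T j)) := by
      by_contra hcon
      push Not at hcon
      obtain ⟨U₁, hU₁, hU₁o, hs₁⟩ := exists_small3 p (ρ := fun i : Fin 0 => i.elim0) hV
        (fun i => i.elim0) hbcc
      obtain ⟨H, hH⟩ := ProfiniteGrp.exist_openNormalSubgroup_sub_open_nhds_of_one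
        (hU₁o.inter hU₀) ⟨U₁.one_mem, U₀.one_mem⟩
      have hsm : ∀ x ∈ H.toSubgroup, _ := fun x hx => hs₁ x (hH hx).1
      rcases sl_in_span p hV ((strIrr_iff _).mp hirr) hcon H.isNormal' H.isOpen' hsm with
        ⟨i, _⟩ | hfull
      · exact i.elim0
      · have h1 := hfull (Matrix.single 0 1 1) (by simp)
        obtain ⟨c, hc⟩ := scalar_of_kernel p hV hT H.isOpen' (fun x hx => ⟨(hsm x hx).1, by
          intro k i j
          have h2 := (hsm x hx).2.2 k i j
          have h3 : ((bc E (T k) x : Matrix (Fin (n k)) (Fin (n k)) E) - 1) i j =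
              algebraMap ℚ_[p] E (((T k x : Matrix (Fin (n k)) (Fin (n k)) ℚ_[p]) - 1) i j) := by
            rw [Matrix.sub_apply, Matrix.sub_apply, map_sub, Matrix.one_apply, Matrix.one_apply,
              apply_ite (algebraMap ℚ_[p] E), map_one, map_zero]
            rfl
          rw [h3, norm_algebraMap'] at h2
          exact h2⟩) (fun g hg h0 => hker g (hH hg).2 h0) _ h1 (fun j => rfl)
        have := congrFun (congrFun hc 0) 1
        simp at this
    obtain ⟨j, hj⟩ := hocc
    rcases h j with h1 | ⟨h1, h2⟩
    · exact absurd hj h1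
    · exact ⟨j, contained_of_adOccurs p hV hirr (hbcc j) h1 h2 hj⟩
  · rintro ⟨j, U, hU, i, hi, hUi⟩
    refine ⟨U, hU, fun g hg h0 => ⟨1, ?_⟩⟩
    have h1 := hUi g hg
    have h2 : bc E (T j) g = 1 := by
      change Matrix.GeneralLinearGroup.map (algebraMap ℚ_[p] E) (T j g) = 1
      rw [h0 j, map_one]
    rw [h2, Units.val_one, Matrix.one_mul] at h1
    rw [one_smul]
    apply Matrix.ext_of_mulVec_single
    intro k
    apply hi
    change i.mulVec _ = i.mulVec _
    rw [Matrix.mulVec_mulVec, ← h1, Matrix.one_mulVec]

end Pool.Agent.Results.MP_6cbef8_nt.TorsionFieldCrit
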