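import Pool.Agent.Helper37.Ad.Main

/-!
# MP_6cbef8_nt: an adelic dichotomy for newforms and torsion fields

`(V v)` is a family of two-dimensional representations over the completions `E v` of a number field
`M`, `(T l)` a family of representations over the `ℚ_l`, `l` prime (in the application `ρ_f` and the
Tate modules of an abelian variety `B` over a number field `K`), with common Frobenius polynomials
`f r`, `g r` over the integers of `M`, and the image of `(V v)` is adelically open (for a newform
without complex multiplication this is known: Serre, Ribet, Momose, Nekovar, Loeffler).  Then EITHER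
`V v` is potentially contained in `T (ℓ v)` (over a finite extension `F v` of `E v`), for one and then
for every place `v`, OR the elements of `G` on which ALL `T l` are trivial (the Galois group over the
field generated by all torsion points of `B`) still have adelically open image under `(V v)`.
-/

set_option autoImplicit false
open NumberField Polynomial Pool.Agent.Helper27.FM Pool.Agent.Helper37.Af Pool.Agent.Helper37.Fd
  Pool.Agent.Helper37.Ad

namespace Pool.Agent.Helper37.AdelicDichotomyArchive

theorem result
    -- the field of coefficients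
    {M : Type} [Field M] [NumberField M]
    -- places `v` of residue characteristic `ℓ v`, finitely many for every prime
    {Λ : Type} [Nonempty Λ] (ℓ : Λ → ℕ) [∀ v, Fact (ℓ v).Prime] (hℓ : ∀ l, {v | ℓ v = l}.Finite)
    -- the local fields `E v`, extensions of `ℚ_(ℓ v)` of bounded degree, with embeddings of `M`
    (E : Λ → Type) [∀ v, NontriviallyNormedField (E v)] [∀ v, IsUltrametricDist (E v)]
    [∀ v, NormedAlgebra ℚ_[ℓ v] (E v)] [∀ v, FiniteDimensional ℚ_[ℓ v] (E v)] (a : ℕ)
    (ha : ∀ v, Module.finrank ℚ_[ℓ v] (E v) ≤ a) (j : ∀ v, M →+* E v)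
    -- finite extensions `F v` of the `E v`
    (F : Λ → Type) [∀ v, NontriviallyNormedField (F v)] [∀ v, IsUltrametricDist (F v)]
    [∀ v, NormedAlgebra ℚ_[ℓ v] (F v)] [∀ v, FiniteDimensional ℚ_[ℓ v] (F v)]
    (φ : ∀ v, E v →ₐ[ℚ_[ℓ v]] F v)
    -- a profinite group
    {G : Type} [Group G] [TopologicalSpace G] [IsTopologicalGroup G] [CompactSpace G]
    [TotallyDisconnectedSpace G]
    -- integral two-dimensional representations over the `E v` with adelically open image
    (V : ∀ v, G →* GL (Fin 2) (E v)) (hV : ∀ v, Continuous (V v))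
    (hVi : ∀ v x i k, ‖(V v x : Matrix (Fin 2) (Fin 2) (E v)) i k‖ ≤ 1)
    (hopen : AdelicallyOpen ⊤ V)
    -- integral `n`-dimensional representations over the `ℚ_l`, for all primes `l`
    {n : ℕ} (T : ∀ (l : ℕ) [Fact l.Prime], G →* GL (Fin n) ℚ_[l])
    (hT : ∀ (l : ℕ) [Fact l.Prime], Continuous (T l))
    (hTi : ∀ (l : ℕ) [Fact l.Prime] (x : G) (i k : Fin n),
      ‖(T l x : Matrix (Fin n) (Fin n) ℚ_[l]) i k‖ ≤ 1)
    (hss : ∀ v, Semisimple (baseChange (F v) (T (ℓ v))))
    (hgen : ∀ v, IdempotentGenerated (ℓ v) (extend (φ v : E v →+* F v) (V v))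
      (baseChange (F v) (T (ℓ v))))
    -- Frobenius elements `r ∈ D` and their polynomials: at each `r` compatibility holds for almost
    -- all `v`, and for finitely many `v` it holds for a dense set of elements `r`
    (D : Set G) (f g : G → (𝓞 M)[X])
    (hD : ∀ Φ : Finset Λ, Dense {r | r ∈ D ∧ ∀ v ∈ Φ, Matches ℓ E j V T f g v r})
    (hD' : ∀ r ∈ D, {v | ¬ Matches ℓ E j V T f g v r}.Finite) :
    List.TFAE [
      ∃ v, PotentiallyContained (extend (φ v : E v →+* F v) (V v))
        (baseChange (F v) (T (ℓ v))),
      ∀ v, PotentiallyContained (extend (φ v : E v →+* F v) (V v))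
        (baseChange (F v) (T (ℓ v))),
      ¬ AdelicallyOpen (commonKernel T) V] :=
  adelic ℓ E j F φ V T f g hℓ a ha hV hVi hT hTi hopen hss hgen D hD hD'

end Pool.Agent.Helper37.AdelicDichotomyArchive
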