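import Mathlib

namespace Pool.Agent.Helper37.Arrow

/-- `G → (K_{a 0}, …, K_{a (r-1)})`: in every colouring of the edges of `G` with `r` colours there
are a colour `i` and a set of `a i` vertices any two of which are joined by an edge of colour `i`. -/
def Arrows {V : Type} {r : ℕ} (G : SimpleGraph V) (a : Fin r → ℕ) : Prop :=
  ∀ c : G.edgeSet → Fin r, ∃ (i : Fin r) (s : Finset V), s.card = a i ∧
    ∀ x ∈ s, ∀ y ∈ s, x ≠ y → ∃ h : s(x, y) ∈ G.edgeSet, c ⟨s(x, y), h⟩ = i

end Pool.Agent.Helper37.Arrow
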