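import Pool.Agent.Helper37.NR
import Pool.Agent.Helper37.ArrowDefs

namespace Pool.Agent.Helper37.Arrow

open Classical Pool.Agent.Helper37.NR

/-- The two disjoint edges `01`, `23`. -/
def M (x y : ℕ) : Prop := x < 4 ∧ y < 4 ∧ x / 2 = y / 2

theorem M_symm {x y : ℕ} (h : M x y) : M y x := ⟨h.2.1, h.1, h.2.2.symm⟩

/-- All the ways to colour `K_{k+1}` by two of the `r` relations without monochromatic `K_k`:
relation `j` on the two edges `01`, `23` and relation `i` elsewhere. -/
def base (r k : ℕ) (hk : 3 ≤ k) : St r k ((Fin r × Fin r) × Fin (k + 1)) where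
  R m u w := u.1 = w.1 ∧ u.1.1 ≠ u.1.2 ∧ u.2 ≠ w.2 ∧
    ((m = u.1.1 ∧ ¬ M u.2 w.2) ∨ (m = u.1.2 ∧ M u.2 w.2))
  symm := by
    rintro m ⟨e, x⟩ ⟨e', y⟩ ⟨h1, h2, h3, h4⟩
    simp only at h1 h2 h3 h4 ⊢
    subst h1
    refine ⟨rfl, h2, h3.symm, ?_⟩
    rcases h4 with ⟨h4, h5⟩ | ⟨h4, h5⟩
    · exact Or.inl ⟨h4, fun h => h5 (M_symm h)⟩
    · exact Or.inr ⟨h4, M_symm h5⟩
  irr := by
    rintro m u ⟨_, _, h, _⟩
    exact h rfl
  disj := by
    rintro m m' u w ⟨_, _, _, h4⟩ ⟨_, _, _, h4'⟩
    rcases h4 with ⟨h4, h5⟩ | ⟨h4, h5⟩ <;> rcases h4' with ⟨h4', h5'⟩ | ⟨h4', h5'⟩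
    · rw [h4, h4']
    · exact absurd h5' h5
    · exact absurd h5 h5'
    · rw [h4, h4']
  free := by
    intro m s hs
    by_cases hc : s.card ≤ 1
    · omega
    -- a common piece
    obtain ⟨u0, hu0, w0, hw0, hne0⟩ : ∃ u0 ∈ s, ∃ w0 ∈ s, u0 ≠ w0 := by
      by_contra hcon
      push Not at hcon
      exact hc (Finset.card_le_one.mpr (fun a ha b hb => hcon a ha b hb))
    have hpiece : ∀ w ∈ s, w.1 = u0.1 := by
      intro w hw
      by_cases h : w = u0
      · rw [h]
      · exact (hs w hw u0 hu0 h).1
    have h0 := hs u0 hu0 w0 hw0 hne0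
    have hij : u0.1.1 ≠ u0.1.2 := h0.2.1
    rcases h0.2.2.2 with ⟨hm, _⟩ | ⟨hm, _⟩
    · -- bulk
      have hM : ∀ u ∈ s, ∀ w ∈ s, u ≠ w → ¬ M u.2 w.2 := by
        intro u hu w hw huw
        have := (hs u hu w hw huw).2.2.2
        rcases this with h | h
        · exact h.2
        · exfalso
          apply hij
          rw [← hm, h.1, hpiece u hu]
      have hcard : s.card ≤ (Finset.range (k - 1)).card := by
        apply Finset.card_le_card_of_injOn
          (fun u => if (u.2 : ℕ) < 4 then (u.2 : ℕ) / 2 else (u.2 : ℕ) - 2)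
        · intro u hu
          have := u.2.2
          simp only [Finset.coe_range, Set.mem_Iio]
          split_ifs <;> omega
        · intro u hu w hw h
          by_contra hne
          have h2 := hM u hu w hw hne
          have h3 : u.2 ≠ w.2 := by
            intro h3
            apply hne
            exact Prod.ext ((hpiece u hu).trans (hpiece w hw).symm) h3
          have h3' : (u.2 : ℕ) ≠ (w.2 : ℕ) := fun h => h3 (Fin.ext h)
          apply h2
          unfold M
          simp only at h
          split_ifs at h with c1 c2 c2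
          · exact ⟨c1, c2, h⟩
          · omega
          · omega
          · omega
      rw [Finset.card_range] at hcard
      omega
    · have hM : ∀ u ∈ s, ∀ w ∈ s, u ≠ w → M u.2 w.2 := by
        intro u hu w hw huw
        have := (hs u hu w hw huw).2.2.2
        rcases this with h | h
        · exfalso
          apply hij
          rw [← hm, h.1, hpiece u hu]
        · exact h.2
      have hcard : s.card ≤ (Finset.range 2).card := by
        apply Finset.card_le_card_of_injOn (fun u => (u.2 : ℕ) % 2)
        · intro u hu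
          simp only [Finset.coe_range, Set.mem_Iio]
          omega
        · intro u hu w hw h
          by_contra hne
          have h2 := hM u hu w hw hne
          apply hne
          apply Prod.ext ((hpiece u hu).trans (hpiece w hw).symm)
          apply Fin.ext
          simp only at h
          have := h2.2.2
          omega
      rw [Finset.card_range] at hcard
      omega

/-- The union graph of a structure. -/
def graph {r k : ℕ} {V : Type} (T : St r k V) : SimpleGraph V where
  Adj x y := ∃ m, T.R m x y
  symm := ⟨fun _ _ ⟨m, h⟩ => ⟨m, T.symm _ _ _ h⟩⟩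
  loopless := ⟨fun _ ⟨_, h⟩ => T.irr _ _ h⟩

/-- Clique of colour `i`. -/
def HasClique {V : Type} {q : ℕ} (G : SimpleGraph V) (c : G.edgeSet → Fin q) (i : Fin q) (n : ℕ) : Prop :=
  ∃ s : Finset V, s.card = n ∧
    ∀ x ∈ s, ∀ y ∈ s, x ≠ y → ∃ h : s(x, y) ∈ G.edgeSet, c ⟨s(x, y), h⟩ = i

theorem HasClique.mono {V : Type} {q : ℕ} {G : SimpleGraph V} {c : G.edgeSet → Fin q} {i : Fin q}
    {n m : ℕ} (h : HasClique G c i n) (hm : m ≤ n) : HasClique G c i m := by
  obtain ⟨s, hs, h⟩ := h
  obtain ⟨t, hts, ht⟩ := Finset.exists_subset_card_eq (show m ≤ s.card by omega)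
  exact ⟨t, ht, fun x hx y hy => h x (hts hx) y (hts hy)⟩

/-- Main consequence of the Ramsey theorem. -/
theorem exists_T (r k q : ℕ) (hk : 3 ≤ k) (hq : 0 < q) :
    ∃ (n : ℕ) (T : St r k (Fin n)), ∀ c : (graph T).edgeSet → Fin q, ∃ d : Fin r → Fin q,
      (∀ i j, i ≠ j → HasClique (graph T) c (d i) (k - 1)) ∧
      (∀ i j, i ≠ j → d i = d j → HasClique (graph T) c (d i) (k + 1)) := by
  obtain ⟨W, hW, T0, hT0⟩ := edge_ramsey hk q hq Finset.univ (base r k hk)
  obtain ⟨n, ⟨e⟩⟩ := Finite.exists_equiv_fin W
  let T : St r k (Fin n) :=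
    { R := fun m x y => T0.R m (e.symm x) (e.symm y)
      symm := fun j x y h => T0.symm _ _ _ h
      irr := fun j x h => T0.irr _ _ h
      disj := fun i j x y h h' => T0.disj _ _ _ _ h h'
      free := by
        intro j s hs
        rw [← Finset.card_map e.symm.toEmbedding]
        apply T0.free j
        intro x hx y hy hxy
        rw [Finset.mem_map] at hx hy
        obtain ⟨u, hu, rfl⟩ := hx
        obtain ⟨w, hw, rfl⟩ := hy
        exact hs u hu w hw (fun h => hxy (by rw [h])) }
  refine ⟨n, T, ?_⟩
  intro c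
  let χ' : Fin n → Fin n → Fin q := fun x y =>
    if h : s(x, y) ∈ (graph T).edgeSet then c ⟨s(x, y), h⟩ else ⟨0, hq⟩
  have hχ' : ∀ x y, χ' x y = χ' y x := by
    intro x y
    simp only [χ', Sym2.eq_swap (a := x) (b := y)]
  obtain ⟨f, hf, d, hd⟩ := hT0 (fun x y => χ' (e x) (e y)) (fun x y => hχ' _ _)
  -- the copy of a set inside a piece
  have key : ∀ (i j : Fin r) (s : Finset (Fin (k + 1))) (col : Fin q), i ≠ j →
      (∀ x ∈ s, ∀ y ∈ s, x ≠ y → ∃ m, (base r k hk).R m ((i, j), x) ((i, j), y) ∧ d m = col) →
      HasClique (graph T) c col s.card := by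
    intro i j s col hij hs
    refine ⟨s.image (fun x => e (f ((i, j), x))), ?_, ?_⟩
    · apply Finset.card_image_of_injective
      intro x y h
      have := hf.inj (e.injective h)
      exact congrArg Prod.snd this
    · intro x hx y hy hxy
      rw [Finset.mem_image] at hx hy
      obtain ⟨x, hx, rfl⟩ := hx
      obtain ⟨y, hy, rfl⟩ := hy
      obtain ⟨m, hm, hcol⟩ := hs x hx y hy (fun h => hxy (by rw [h]))
      have hadj : s(e (f ((i, j), x)), e (f ((i, j), y))) ∈ (graph T).edgeSet := by
        rw [SimpleGraph.mem_edgeSet]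
        refine ⟨m, ?_⟩
        simp only [T, Equiv.symm_apply_apply]
        exact hf.map m _ _ hm
      refine ⟨hadj, ?_⟩
      have := hd m (Finset.mem_univ _) _ _ hm
      simp only [χ', dif_pos hadj] at this
      rw [this, hcol]
  refine ⟨d, ?_, ?_⟩
  · intro i j hij
    -- the clique `{0, 2, 4, 5, …, k}`
    let s : Finset (Fin (k + 1)) := Finset.univ.filter (fun x => (x : ℕ) ≠ 1 ∧ (x : ℕ) ≠ 3)
    have hs : s.card = k - 1 := by
      have h1 : s = (Finset.univ.erase (⟨1, by omega⟩ : Fin (k + 1))).erase ⟨3, by omega⟩ := by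
        ext x
        simp only [s, Finset.mem_filter, Finset.mem_univ, true_and, Finset.mem_erase, ne_eq,
          Fin.ext_iff, and_true]
        tauto
      rw [h1, Finset.card_erase_of_mem, Finset.card_erase_of_mem (Finset.mem_univ _)]
      · simp
      · simp
    have := key i j s (d i) hij (by
      intro x hx y hy hxy
      refine ⟨i, ⟨rfl, hij, hxy, Or.inl ⟨rfl, ?_⟩⟩, rfl⟩
      simp only [s, Finset.mem_filter, Finset.mem_univ, true_and] at hx hy
      rintro ⟨h1, h2, h3⟩
      have : (x : ℕ) ≠ y := fun h => hxy (Fin.ext h)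
      simp only at h1 h2 h3
      omega)
    rwa [hs] at this
  · intro i j hij hdd
    have := key i j Finset.univ (d i) hij (by
      intro x _ y _ hxy
      by_cases hM : M x y
      · exact ⟨j, ⟨rfl, hij, hxy, Or.inr ⟨rfl, hM⟩⟩, hdd.symm⟩
      · exact ⟨i, ⟨rfl, hij, hxy, Or.inl ⟨rfl, hM⟩⟩, rfl⟩)
    simpa using this

/-- The structure itself gives a good colouring. -/
theorem not_arrows_of {r k q n : ℕ} (T : St r k (Fin n)) (ι : Fin r → Fin q)
    (hι : Function.Injective ι) (a : Fin q → ℕ) (ha : ∀ i, a (ι i) = k)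
    (ha2 : ∀ j, (∀ i, ι i ≠ j) → 2 ≤ a j) : ¬ Arrows (graph T) a := by
  intro hA
  have hex : ∀ e : (graph T).edgeSet, ∃ m : Fin r, ∀ x y, e.1 = s(x, y) → T.R m x y := by
    rintro ⟨e, he⟩
    induction e using Sym2.ind with
    | _ x y =>
      obtain ⟨m, hm⟩ := he
      refine ⟨m, ?_⟩
      intro x' y' h
      simp only [Sym2.eq_iff] at h
      rcases h with ⟨rfl, rfl⟩ | ⟨rfl, rfl⟩
      · exact hm
      · exact T.symm _ _ _ hm
  choose lab hlab using hex
  obtain ⟨i, s, hs, hmono⟩ := hA (fun e => ι (lab e))
  by_cases hi : ∃ m, ι m = i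
  · obtain ⟨m, rfl⟩ := hi
    have := T.free m s (by
      intro x hx y hy hxy
      obtain ⟨h, hc⟩ := hmono x hx y hy hxy
      have := hι hc
      rw [← this]
      exact hlab _ x y rfl)
    rw [hs, ha] at this
    exact lt_irrefl _ this
  · push Not at hi
    have h2 := ha2 i hi
    obtain ⟨x, hx, y, hy, hxy⟩ := Finset.one_lt_card.mp (show 1 < s.card by omega)
    obtain ⟨h, hc⟩ := hmono x hx y hy hxy
    exact hi _ hc

theorem main (k l : ℕ) (hl : 2 ≤ l) (hlk : l ≤ k) :
    ∃ (n : ℕ) (G : SimpleGraph (Fin n)),
      ¬ Arrows G ![k, k, l] ∧ Arrows G ![k + 1, k - 1, l] := by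
  rcases Nat.lt_or_ge k 3 with hk | hk
  · -- `k = l = 2`
    have hk2 : k = 2 := by omega
    have hl2 : l = 2 := by omega
    subst hk2 hl2
    refine ⟨1, ⊥, ?_, ?_⟩
    · intro h
      obtain ⟨i, s, hs, _⟩ := h (fun _ => 0)
      have h1 : s.card ≤ 1 := by
        have := Finset.card_le_univ s
        simpa using this
      fin_cases i <;> simp at hs <;> omega
    · intro c
      refine ⟨1, {0}, by simp, ?_⟩
      intro x hx y hy hxy
      simp only [Finset.mem_singleton] at hx hy
      exact absurd (hx.trans hy.symm) hxy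
  · rcases Nat.lt_or_ge l k with hlt | hge
    · -- `l < k`: two relations
      obtain ⟨n, T, hT⟩ := exists_T 2 k 3 hk (by norm_num)
      refine ⟨n, graph T, ?_, ?_⟩
      · refine not_arrows_of T ![0, 1] ?_ _ ?_ ?_
        · intro x y h
          fin_cases x <;> fin_cases y <;> simp_all
        · intro i; fin_cases i <;> simp
        · intro j hj
          fin_cases j
          · exact absurd rfl (hj 0)
          · exact absurd rfl (hj 1)
          · simpa using hl
      · intro c
        obtain ⟨d, h1, h2⟩ := hT c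
        have a0 := h1 0 1 (by decide)
        have a1 := h1 1 0 (by decide)
        have h01 := h2 0 1 (by decide)
        -- three possible values of each `d i`
        have fin : ∀ i : Fin 2, (d i = 0) ∨ (HasClique (graph T) c 1 (k - 1)) ∨
            (HasClique (graph T) c 2 l) := by
          intro i
          have hi : HasClique (graph T) c (d i) (k - 1) := by fin_cases i; exacts [a0, a1]
          have : d i = 0 ∨ d i = 1 ∨ d i = 2 := by
            generalize d i = z
            fin_cases z <;> simp
          rcases this with h | h | h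
          · exact Or.inl h
          · rw [h] at hi; exact Or.inr (Or.inl hi)
          · rw [h] at hi; exact Or.inr (Or.inr (hi.mono (by omega)))
        rcases fin 0 with f0 | ⟨s, hs⟩ | ⟨s, hs⟩
        · rcases fin 1 with f1 | ⟨s, hs⟩ | ⟨s, hs⟩
          · obtain ⟨s, hs⟩ := h01 (by rw [f0, f1])
            rw [f0] at hs
            exact ⟨0, s, by simpa using hs⟩
          · exact ⟨1, s, by simpa using hs⟩
          · exact ⟨2, s, by simpa using hs⟩
        · exact ⟨1, s, by simpa using hs⟩
        · exact ⟨2, s, by simpa using hs⟩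
    · -- `l = k`: three relations
      have hl' : l = k := by omega
      subst hl'
      obtain ⟨n, T, hT⟩ := exists_T 3 l 3 hk (by norm_num)
      refine ⟨n, graph T, ?_, ?_⟩
      · refine not_arrows_of T id Function.injective_id _ ?_ ?_
        · intro i; fin_cases i <;> simp
        · intro j hj
          exact absurd rfl (hj j)
      · intro c
        obtain ⟨d, h1, h2⟩ := hT c
        by_cases hone : ∃ i, d i = 1
        · obtain ⟨i, hi⟩ := hone
          obtain ⟨j, hj⟩ : ∃ j : Fin 3, i ≠ j := by
            fin_cases i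
            · exact ⟨1, by decide⟩
            · exact ⟨0, by decide⟩
            · exact ⟨0, by decide⟩
          obtain ⟨s, hs⟩ := h1 i j hj
          rw [hi] at hs
          exact ⟨1, s, by simpa using hs⟩
        · push Not at hone
          -- pigeonhole
          obtain ⟨i, j, hij, hdd⟩ : ∃ i j : Fin 3, i ≠ j ∧ d i = d j := by
            by_contra hcon
            push Not at hcon
            have hinj : Function.Injective d := by
              intro i j h
              by_contra hne
              exact hcon i j hne h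
            have hsurj := Finite.surjective_of_injective hinj
            obtain ⟨i, hi⟩ := hsurj 1
            exact hone i hi
          have hcl := h2 i j hij hdd
          have : d i = 0 ∨ d i = 1 ∨ d i = 2 := by
            generalize d i = z
            fin_cases z <;> simp
          rcases this with h | h | h
          · rw [h] at hcl
            obtain ⟨s, hs⟩ := hcl
            exact ⟨0, s, by simpa using hs⟩
          · exact absurd h (hone i)
          · rw [h] at hcl
            obtain ⟨s, hs⟩ := hcl.mono (show l ≤ l + 1 by omega)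
            exact ⟨2, s, by simpa using hs⟩

end Pool.Agent.Helper37.Arrow
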