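import Pool.Agent.Helper37.BPlane

/-!
Every action of a symmetric group with supports of at most three elements can be symmetrised.
-/

namespace Helper37.BlockSets

open Equiv

section

variable {A E X : Type} {ev : X → E → A}

theorem good3_congr {α β : Type} [Fintype α] [DecidableEq α] [Fintype β] [DecidableEq β]
    (e : α ≃ β) (h : Good3 ev α) : Good3 ev β := by
  intro Y _ ρ hρ S f
  let φ : Perm α →* Perm β := e.permCongrHom.toMonoidHom
  have hφ : ∀ (g : Perm α) (b : β), φ g b = e (g (e.symm b)) := fun g b => rfl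
  have hsupp : Supp3 (ρ.comp φ) := by
    intro y
    obtain ⟨s, hs, hfix⟩ := hρ y
    refine ⟨s.map e.symm.toEmbedding, by rw [Finset.card_map]; exact hs, fun g hg => ?_⟩
    apply hfix
    intro b hb
    rw [hφ, hg (e.symm b) (Finset.mem_map_of_mem _ hb), e.apply_symm_apply]
  obtain ⟨S', f', hd, hinv⟩ := h Y (ρ.comp φ) hsupp f
  refine ⟨S', f', der_hom hd, fun g y => ?_⟩
  have h1 := hinv (e.symm.permCongr g) y
  have h2 : φ (e.symm.permCongr g) = g := by
    ext b
    rw [hφ]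
    simp
  rw [MonoidHom.comp_apply, h2] at h1
  exact h1

theorem good3_of_card {α : Type} [Fintype α] [DecidableEq α] {n : ℕ}
    (h : Good3 ev (Fin n)) (hn : Fintype.card α = n) : Good3 ev α := by
  subst hn
  exact good3_congr (Fintype.equivFin α).symm h

theorem good3_of_subsingleton {α : Type} [Fintype α] [DecidableEq α] [Subsingleton α] :
    Good3 ev α := by
  intro Y _ ρ _
  exact good_of_subsingleton ρ

theorem good3_two [Finite X] : Good3 ev (Fin 2) := by
  intro Y _ ρ _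
  apply good_of_step
  intro S f y₀
  refine ⟨S, f, f y₀, f (ρ (swap 0 1) y₀), der_refl ρ f, fun g => ?_⟩
  have h : ∀ g : Perm (Fin 2), g = 1 ∨ g = swap 0 1 := by decide
  rcases h g with rfl | rfl
  · left; simp
  · right; rfl

/-- two values of an operation on the rearrangements of a word can be merged -/
theorem word_merge [Finite X] {α : Type} [Fintype α] [DecidableEq α] {S S' : Type}
    {F : (α → S) → S'} {D : α → ℕ} (hF : IsOp ev F D) (hD : ∃ a, 0 < D a) (w₀ : α → S)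
    (a b : S') (h : ∀ g : Perm α, F (w₀ ∘ g) = a ∨ F (w₀ ∘ g) = b) :
    ∃ (S'' : Type) (F' : (α → S) → S'') (D' : α → ℕ), IsOp ev F' D' ∧ (∃ a, 0 < D' a) ∧
      ∀ g : Perm α, F' (w₀ ∘ g) = F' w₀ := by
  classical
  let P : (α → S) → Prop := fun v => ∃ g : Perm α, v = w₀ ∘ g
  have hP : ∀ v (g : Perm α), P v → P (v ∘ g) := by
    rintro v g ⟨g', rfl⟩
    exact ⟨g' * g, rfl⟩
  have h0 : ∀ g : Perm α, wordAct P hP g ⟨w₀, 1, rfl⟩ = ⟨w₀ ∘ ⇑g⁻¹, g⁻¹, rfl⟩ := by
    intro g
    rfl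
  obtain ⟨f', ⟨F', D', hF', ⟨g₀, hg₀⟩, hf'⟩, hinv⟩ := der_merge (ev := ev) (wordAct P hP)
    (fun v => F v.1) ⟨w₀, 1, rfl⟩ a b (fun g => by rw [h0]; exact h g⁻¹)
  obtain ⟨a₀, ha₀⟩ := hD
  refine ⟨_, _, _, isOp_comp hF hF' (fun g i => Sum.inl (g⁻¹ i)), ⟨g₀⁻¹ a₀, ?_⟩, fun g => ?_⟩
  · apply Finset.sum_pos'
    · intro j _
      exact Nat.zero_le _
    · exact ⟨g₀, Finset.mem_univ _, Nat.mul_pos hg₀ (reCnt_pos (i := a₀) rfl ha₀)⟩
  · have h1 := hf' ⟨w₀, 1, rfl⟩
    have h2 := hf' ⟨w₀ ∘ g, g, rfl⟩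
    have h3 := hinv g⁻¹
    have h4 : wordAct P hP g⁻¹ ⟨w₀, 1, rfl⟩ = ⟨w₀ ∘ g, g, rfl⟩ := by
      rw [h0]
      apply Subtype.ext
      simp
    rw [h4, h1, h2] at h3
    exact h3

/-- words of length three -/
theorem word3_three [Finite X] : Word3 ev (Fin 3) := by
  classical
  intro S b w₀ s _ _
  let Ls : List (Unit → Fin 3 ⊕ S) :=
    [fun _ => Sum.inl 0, fun _ => Sum.inl 1, fun _ => Sum.inl 2]
  have hop := isOp_erase (ev := ev) (isOp_single (ev := ev) (S := S)) (w₀ 0) Ls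
  have hpos : ∃ a, 0 < (Ls.map (fun τ => reCnt (fun _ : Unit => 1) τ a)).sum :=
    ⟨0, isOp_sum_pos _ _ (fun _ => Sum.inl 0) (by simp [Ls]) (reCnt_pos (i := ()) rfl Nat.one_pos)⟩
  have hval : ∀ w : Fin 3 → S, (Ls.map (fun τ => (fun w : Unit → S => w ())
      (fun i => Sum.elim w id (τ i)))).filter (fun b => decide (b ≠ w₀ 0))
      = [w 0, w 1, w 2].filter (fun b => decide (b ≠ w₀ 0)) := fun w => rfl
  refine word_merge hop hpos w₀ ([w₀ 1, w₀ 2].filter (fun b => decide (b ≠ w₀ 0)))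
    ([w₀ 2, w₀ 1].filter (fun b => decide (b ≠ w₀ 0))) (fun g => ?_)
  rw [hval]
  have hg : ∀ g : Perm (Fin 3),
      (g 0 = 0 ∧ g 1 = 1 ∧ g 2 = 2) ∨ (g 0 = 0 ∧ g 1 = 2 ∧ g 2 = 1) ∨
      (g 0 = 1 ∧ g 1 = 0 ∧ g 2 = 2) ∨ (g 0 = 1 ∧ g 1 = 2 ∧ g 2 = 0) ∨
      (g 0 = 2 ∧ g 1 = 0 ∧ g 2 = 1) ∨ (g 0 = 2 ∧ g 1 = 1 ∧ g 2 = 0) := by decide
  simp only [Function.comp]
  rcases hg g with ⟨h0, h1, h2⟩ | ⟨h0, h1, h2⟩ | ⟨h0, h1, h2⟩ | ⟨h0, h1, h2⟩ | ⟨h0, h1, h2⟩ |
    ⟨h0, h1, h2⟩ <;> rw [h0, h1, h2]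
  · left; simp [List.filter_cons]
  · right; simp [List.filter_cons]
  · left; simp [List.filter_cons]
  · left; simp [List.filter_cons]
  · right; simp [List.filter_cons]
  · right; simp [List.filter_cons]

theorem exists_prime_aux (N : ℕ) (hN : 4 ≤ N) :
    ∃ p, p.Prime ∧ p + 1 ≤ N ∧ N + 1 ≤ p * p := by
  rcases Nat.lt_or_ge 4 N with h | h
  · obtain ⟨p, hp, h1, h2⟩ := Nat.exists_prime_lt_and_le_two_mul ((N - 1) / 2) (by omega)
    refine ⟨p, hp, by omega, ?_⟩
    have h3 : N ≤ 2 * p := by omega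
    nlinarith
  · exact ⟨3, Nat.prime_three, by omega, by omega⟩

theorem good3_fin [Finite X] (N : ℕ) : Good3 ev (Fin N) := by
  classical
  induction N using Nat.strong_induction_on with
  | _ N ih =>
    rcases Nat.lt_or_ge N 2 with h | h
    · have : Subsingleton (Fin N) := Fin.subsingleton_iff_le_one.mpr (by omega)
      exact good3_of_subsingleton
    rcases Nat.lt_or_ge N 3 with h' | h'
    · obtain rfl : N = 2 := by omega
      exact good3_two
    rcases Nat.lt_or_ge N 4 with h'' | h''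
    · obtain rfl : N = 3 := by omega
      apply good3_step (0 : Fin 3)
      · exact good3_of_card (ih 2 (by omega)) (by simp)
      · exact word3_three
    rcases Nat.lt_or_ge N 5 with h5 | h5
    · obtain rfl : N = 4 := by omega
      have h2 : Good3 ev (ZMod 2 × ZMod 2) := by
        have : Fact (Nat.Prime 2) := ⟨Nat.prime_two⟩
        apply good3_plane
        · exact good3_of_card (ih 2 (by omega)) (by simp)
        · exact good3_of_card (ih 3 (by omega)) (by simp)
      exact good3_congr (Fintype.equivFinOfCardEq (by simp)) h2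
    · obtain ⟨p, hp, hp1, hp2⟩ := exists_prime_aux (N - 1) (by omega)
      have : Fact p.Prime := ⟨hp⟩
      have h2 : Good3 ev (ZMod p × ZMod p) := by
        apply good3_plane
        · exact good3_of_card (ih p (by omega)) (by simp [ZMod.card])
        · exact good3_of_card (ih (p + 1) (by omega)) (by simp [ZMod.card])
      have hW : Word3 ev (Fin N) := by
        have hle : Fintype.card (Fin N) ≤ Fintype.card (ZMod p × ZMod p) := by
          rw [Fintype.card_fin, Fintype.card_prod, ZMod.card]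
          omega
        obtain ⟨j⟩ := Function.Embedding.nonempty_of_card_le hle
        have : Nonempty (Fin N) := ⟨⟨0, by omega⟩⟩
        intro S
        exact word3_embed j (word3_of_good3 h2)
      apply good3_step (⟨0, by omega⟩ : Fin N) _ hW
      exact good3_of_card (ih (N - 1) (by omega)) (by simp [Fintype.card_subtype_compl])

theorem word3_fin [Finite X] (N : ℕ) (hN : 0 < N) : Word3 ev (Fin N) := by
  have : Nonempty (Fin N) := ⟨⟨0, hN⟩⟩
  intro S
  exact word3_of_good3 (good3_fin N)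

end

end Helper37.BlockSets
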