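import Mathlib

/-!
Block sets (Leader, Russell, Walters).
-/

namespace Helper37.BlockSets

/-- The rearrangements of a word `T`. -/
def rearr {m l : ℕ} (T : Fin l → Fin m) : Set (Fin l → Fin m) :=
  {v | ∃ σ : Equiv.Perm (Fin l), v = T ∘ σ}

/-- The block set with template `T`, blocks `I` and background `a`: all words which agree with
`a` outside the blocks and whose block values form a rearrangement of `T`. -/
def blockSet {m l n : ℕ} (T : Fin l → Fin m) (I : Fin l → Finset (Fin n)) (a : Fin n → Fin m) :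
    Set (Fin n → Fin m) :=
  {w | (∀ i, (∀ j, i ∉ I j) → w i = a i) ∧ ∃ v ∈ rearr T, ∀ j, ∀ i ∈ I j, w i = v j}

/-- The template `T` has a block size `d ≥ 1` which works for every number of colours. -/
def ColourIndependent {m l : ℕ} (T : Fin l → Fin m) : Prop :=
  ∃ d, 1 ≤ d ∧ ∀ k, 1 ≤ k → ∃ n, ∀ c : (Fin n → Fin m) → Fin k,
    ∃ (I : Fin l → Finset (Fin n)) (a : Fin n → Fin m),
      (∀ j, (I j).card = d) ∧ (∀ i j, i ≠ j → Disjoint (I i) (I j)) ∧
        ∀ w ∈ blockSet T I a, ∀ w' ∈ blockSet T I a, c w = c w'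

/-- The number of letters of `T` which satisfy `p`. -/
def num {m l : ℕ} (T : Fin l → Fin m) (p : Fin m → Prop) [DecidablePred p] : ℕ :=
  (Finset.univ.filter (fun j => p (T j))).card

end Helper37.BlockSets
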