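import Pool.Agent.Helper37.BGood

/-!
Permutations of a finite set acting with supports of at most three elements.
-/

namespace Helper37.BlockSets

section

variable {A E X : Type} (ev : X → E → A)

/-- Every point is fixed by all permutations fixing some at most three elements. -/
def Supp3 {α Y : Type} (ρ : Equiv.Perm α →* Equiv.Perm Y) : Prop :=
  ∀ y, ∃ s : Finset α, s.card ≤ 3 ∧ ∀ g : Equiv.Perm α, (∀ a ∈ s, g a = a) → ρ g y = y

/-- Every action of the permutations of `α` with small supports can be symmetrised. -/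
def Good3 (α : Type) [Fintype α] [DecidableEq α] : Prop :=
  ∀ (Y : Type) [Finite Y] (ρ : Equiv.Perm α →* Equiv.Perm Y), Supp3 ρ → Good ev ρ

/-- words with at most three non-background letters can be symmetrised, one content at a time -/
def Word3 (α : Type) [Fintype α] : Prop :=
  ∀ {S : Type} (b : S) (w₀ : α → S) (s : Finset α), s.card ≤ 3 → (∀ a, a ∉ s → w₀ a = b) →
    ∃ (S' : Type) (F : (α → S) → S') (D : α → ℕ), IsOp ev F D ∧ (∃ a, 0 < D a) ∧
      ∀ g : Equiv.Perm α, F (w₀ ∘ g) = F w₀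

variable {ev}

/-- the action of permutations on a set of words closed under permutations -/
def wordAct {β S : Type} (P : (β → S) → Prop) (hP : ∀ v (g : Equiv.Perm β), P v → P (v ∘ g)) :
    Equiv.Perm β →* Equiv.Perm {v : β → S // P v} where
  toFun g :=
    { toFun := fun v => ⟨v.1 ∘ ⇑(g⁻¹), hP v.1 g⁻¹ v.2⟩
      invFun := fun v => ⟨v.1 ∘ g, hP v.1 g v.2⟩
      left_inv := fun v => by
        apply Subtype.ext
        funext a
        simp
      right_inv := fun v => by
        apply Subtype.ext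
        funext a
        simp }
  map_one' := by
    ext v a
    simp
  map_mul' g h := by
    ext v a
    simp

theorem wordAct_apply {β S : Type} (P : (β → S) → Prop)
    (hP : ∀ v (g : Equiv.Perm β), P v → P (v ∘ g)) (g : Equiv.Perm β) (v : {v : β → S // P v})
    (a : β) : (wordAct P hP g v).1 a = v.1 (g⁻¹ a) := rfl

/-- from actions to words (for finitely many words simultaneously) -/
theorem words_of_good3 {β : Type} [Fintype β] [DecidableEq β] [Nonempty β] (h : Good3 ev β)
    {Z S : Type} [Finite Z] (w : Z → β → S)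
    (hw : ∀ z, ∃ (b : S) (s : Finset β), s.card ≤ 3 ∧ ∀ a, a ∉ s → w z a = b) :
    ∃ (S' : Type) (F : (β → S) → S') (D : β → ℕ), IsOp ev F D ∧ (∃ a, 0 < D a) ∧
      ∀ z (g : Equiv.Perm β), F (w z ∘ g) = F (w z) := by
  classical
  obtain ⟨u₀⟩ := ‹Nonempty β›
  let P : (β → S) → Prop := fun v => ∃ z, ∃ g : Equiv.Perm β, v = w z ∘ g
  have hP : ∀ v (g : Equiv.Perm β), P v → P (v ∘ g) := by
    rintro v g ⟨z, g', rfl⟩
    exact ⟨z, g' * g, rfl⟩
  have hfin : Finite {v : β → S // P v} := by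
    have h1 : (Set.range (fun q : Z × Equiv.Perm β => w q.1 ∘ q.2)).Finite := Set.finite_range _
    have h2 : {v : β → S | P v} ⊆ Set.range (fun q : Z × Equiv.Perm β => w q.1 ∘ q.2) := by
      rintro v ⟨z, g, rfl⟩
      exact ⟨(z, g), rfl⟩
    exact (h1.subset h2).to_subtype
  have hsupp : Supp3 (wordAct P hP) := by
    rintro ⟨v, z, g, rfl⟩
    obtain ⟨b, s, hs, hb⟩ := hw z
    refine ⟨s.image ⇑(g⁻¹), le_trans Finset.card_image_le hs, fun k hk => ?_⟩
    apply Subtype.ext
    funext a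
    rw [wordAct_apply]
    simp only [Function.comp]
    by_cases ha : a ∈ s.image ⇑(g⁻¹)
    · have h1 : k⁻¹ a = a := by
        rw [Equiv.Perm.inv_eq_iff_eq]
        exact (hk a ha).symm
      rw [h1]
    · have h2 : k⁻¹ a ∉ s.image ⇑(g⁻¹) := by
        intro h3
        apply ha
        have h4 := hk _ h3
        have h4' : k (k⁻¹ a) = a := k.apply_symm_apply a
        rw [h4'] at h4
        rw [h4]
        exact h3
      have h5 : ∀ c : β, c ∉ s.image ⇑(g⁻¹) → g c ∉ s := by
        intro c hc h6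
        exact hc (Finset.mem_image.mpr ⟨g c, h6, by simp⟩)
      rw [hb _ (h5 _ ha), hb _ (h5 _ h2)]
  obtain ⟨S', f', ⟨F, D, hF, ⟨g₀, hg₀⟩, hf'⟩, hinv⟩ :=
    h {v : β → S // P v} (wordAct P hP) hsupp (fun v => v.1 u₀)
  refine ⟨S', _, _, isOp_reslot hF (fun g => Sum.inl (g⁻¹ u₀)), ⟨g₀⁻¹ u₀, reCnt_pos rfl hg₀⟩,
    fun z g => ?_⟩
  have h1 := hf' ⟨w z, z, 1, by simp⟩
  have h2 := hf' ⟨w z ∘ g, z, g, rfl⟩
  have h3 := hinv g⁻¹ ⟨w z, z, 1, by simp⟩
  have h4 : wordAct P hP g⁻¹ ⟨w z, z, 1, by simp⟩ = ⟨w z ∘ g, z, g, rfl⟩ := by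
    apply Subtype.ext
    funext a
    rw [wordAct_apply]
    simp
  rw [h4] at h3
  rw [h1, h2] at h3
  exact h3

theorem word3_of_good3 {β : Type} [Fintype β] [DecidableEq β] [Nonempty β] (h : Good3 ev β) :
    Word3 ev β := by
  intro S b w₀ s hs hb
  obtain ⟨S', F, D, hF, hD, hinv⟩ := words_of_good3 h (Z := Unit) (fun _ => w₀)
    (fun _ => ⟨b, s, hs, hb⟩)
  exact ⟨S', F, D, hF, hD, fun g => hinv () g⟩

/-- padding with background letters -/
theorem word3_embed {α β : Type} [Fintype α] [DecidableEq α] [Fintype β] [DecidableEq β]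
    [Nonempty α] (j : α ↪ β) (h : Word3 ev β) : Word3 ev α := by
  classical
  intro S b w₀ s hs hb
  obtain ⟨a₀⟩ := ‹Nonempty α›
  -- the padded word
  let ext : (α → S) → β → S := fun w c => if hc : ∃ a, j a = c then w hc.choose else b
  have hext : ∀ w a, ext w (j a) = w a := by
    intro w a
    have hc : ∃ a', j a' = j a := ⟨a, rfl⟩
    show (if hc : ∃ a', j a' = j a then w hc.choose else b) = w a
    rw [dif_pos hc]
    exact congrArg w (j.injective hc.choose_spec)
  have hext' : ∀ w c, (¬ ∃ a, j a = c) → ext w c = b := by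
    intro w c hc
    show (if hc : ∃ a', j a' = c then w hc.choose else b) = b
    rw [dif_neg hc]
  obtain ⟨S', F, D, hF, ⟨c₀, hc₀⟩, hinv⟩ := h b (ext w₀) (s.map j)
    (by rw [Finset.card_map]; exact hs) (by
      intro c hc
      by_cases h1 : ∃ a, j a = c
      · obtain ⟨a, rfl⟩ := h1
        rw [hext]
        apply hb
        intro h2
        exact hc (Finset.mem_map.mpr ⟨a, h2, rfl⟩)
      · exact hext' _ _ h1)
  -- move a used slot into `α`
  let σ : Equiv.Perm β := Equiv.swap (j a₀) c₀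
  let τ : β → α ⊕ S := fun c => if hc : ∃ a, j a = σ c then Sum.inl hc.choose else Sum.inr b
  have hτ : ∀ (w : α → S) c, Sum.elim w id (τ c) = ext w (σ c) := by
    intro w c
    show Sum.elim w id (if hc : ∃ a, j a = σ c then Sum.inl hc.choose else Sum.inr b)
      = (if hc : ∃ a', j a' = σ c then w hc.choose else b)
    split_ifs <;> rfl
  refine ⟨S', _, _, isOp_reslot hF τ, ⟨a₀, ?_⟩, fun g => ?_⟩
  · apply reCnt_pos (i := c₀) _ hc₀
    show (if hc : ∃ a, j a = σ c₀ then Sum.inl hc.choose else Sum.inr b) = Sum.inl a₀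
    have h1 : σ c₀ = j a₀ := Equiv.swap_apply_right _ _
    have hc : ∃ a, j a = σ c₀ := ⟨a₀, h1.symm⟩
    rw [dif_pos hc]
    congr 1
    exact j.injective (hc.choose_spec.trans h1)
  · have h1 : ∀ w : α → S, (fun i => Sum.elim w id (τ i)) = ext w ∘ σ := by
      intro w
      funext c
      exact hτ w c
    rw [h1, h1]
    have h2 : ext (w₀ ∘ g) = ext w₀ ∘ (g.viaEmbedding j) := by
      funext c
      by_cases hc : ∃ a, j a = c
      · obtain ⟨a, rfl⟩ := hc
        simp only [Function.comp]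
        rw [Equiv.Perm.viaEmbedding_apply, hext, hext]
        rfl
      · rw [hext' _ _ hc]
        simp only [Function.comp]
        rw [Equiv.Perm.viaEmbedding_apply_of_notMem, hext' _ _ hc]
        rintro ⟨a, ha⟩
        exact hc ⟨a, ha⟩
    rw [h2]
    have h3 := hinv (g.viaEmbedding j * σ)
    have h4 := hinv σ
    rw [h4]
    exact h3

open Equiv in
/-- adding one element, given the statement for words -/
theorem good3_step [Finite X] {α : Type} [Fintype α] [DecidableEq α] (u₀ : α)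
    (h : Good3 ev {a : α // a ≠ u₀}) (hW : Word3 ev α) : Good3 ev α := by
  intro Y _ ρ hρ
  apply good_of_step
  intro S f y₀
  -- the stabiliser of `u₀`
  let φ : Perm {a : α // a ≠ u₀} →* Perm α := Perm.ofSubtype
  have hsupp : Supp3 (ρ.comp φ) := by
    intro y
    obtain ⟨s, hs, hfix⟩ := hρ y
    refine ⟨s.subtype (fun a => a ≠ u₀), ?_, fun g hg => ?_⟩
    · rw [Finset.card_subtype]
      exact le_trans (Finset.card_filter_le _ _) hs
    · apply hfix
      intro a ha
      by_cases h1 : a = u₀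
      · exact Perm.ofSubtype_apply_of_not_mem g (by simpa using h1)
      · have h2 : φ g a = g ⟨a, h1⟩ := Perm.ofSubtype_apply_of_mem g h1
        rw [h2, hg ⟨a, h1⟩ (Finset.mem_subtype.mpr ha)]
  obtain ⟨S₁, f₁, hd₁, hinv₁⟩ := h Y (ρ.comp φ) hsupp f
  have hd₁' : Der ev ρ f f₁ := der_hom hd₁
  -- invariance under the stabiliser
  have hstab : ∀ k : Perm α, k u₀ = u₀ → ∀ y, f₁ (ρ k y) = f₁ y := by
    intro k hk y
    have h1 : ∀ a, a ≠ u₀ ↔ k a ≠ u₀ := by
      intro a
      constructor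
      · intro h2 h3
        exact h2 (k.injective (h3.trans hk.symm))
      · rintro h2 rfl
        exact h2 hk
    have h2 : φ (k.subtypePerm (fun a => (h1 a).symm)) = k := by
      apply Perm.ofSubtype_subtypePerm
      intro a ha h3
      rw [h3] at ha
      exact ha hk
    have h3 := hinv₁ (k.subtypePerm (fun a => (h1 a).symm)) y
    rw [MonoidHom.comp_apply, h2] at h3
    exact h3
  -- letter functions
  let wd : Y → α → S₁ := fun y u => f₁ (ρ (swap u u₀) y)
  have hwd : ∀ (k : Perm α) (u : α) (y : Y), k u = u₀ → f₁ (ρ k y) = wd y u := by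
    intro k u y hk
    show f₁ (ρ k y) = f₁ (ρ (swap u u₀) y)
    have h1 : k = (k * swap u u₀) * swap u u₀ := by
      rw [mul_assoc, swap_mul_self, mul_one]
    rw [h1, map_mul, Perm.mul_apply]
    apply hstab
    simp [hk]
  have hequiv : ∀ (k : Perm α) (y : Y), wd (ρ k y) = wd y ∘ ⇑(k⁻¹) := by
    intro k y
    funext u
    show f₁ (ρ (swap u u₀) (ρ k y)) = wd y (k⁻¹ u)
    rw [← Perm.mul_apply, ← map_mul]
    apply hwd
    simp
  obtain ⟨s, hs, hfix⟩ := hρ y₀
  -- background letter
  have hb : ∃ b : S₁, ∃ s' : Finset α, s'.card ≤ 3 ∧ ∀ a, a ∉ s' → wd y₀ a = b := by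
    by_cases hne : ∃ a, a ∉ s
    · obtain ⟨a₁, ha₁⟩ := hne
      refine ⟨wd y₀ a₁, s, hs, fun a ha => ?_⟩
      have h1 : ρ (swap a a₁) y₀ = y₀ := by
        apply hfix
        intro c hc
        apply swap_apply_of_ne_of_ne
        · rintro rfl; exact ha hc
        · rintro rfl; exact ha₁ hc
      have h2 := congrFun (hequiv (swap a a₁) y₀) a
      rw [h1] at h2
      rw [h2]
      simp
    · push Not at hne
      exact ⟨wd y₀ u₀, s, hs, fun a ha => absurd (hne a) ha⟩
  obtain ⟨b, s', hs', hb'⟩ := hb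
  obtain ⟨S₂, F, D, hF, hD, hinvF⟩ := hW b (wd y₀) s' hs' hb'
  refine ⟨S₂, fun y => F (wd y), F (wd y₀), F (wd y₀), ?_, fun k => Or.inl ?_⟩
  · apply der_trans hd₁'
    exact der_of_slots hF hD (fun u => swap u u₀) (fun y => rfl)
  · show F (wd (ρ k y₀)) = F (wd y₀)
    rw [hequiv]
    exact hinvF k⁻¹

end

end Helper37.BlockSets
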