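import Pool.Agent.Helper37.BAll
import Pool.Agent.Helper37.BDefs

/-!
Block sets with a block size which does not depend on the number of colours.
-/

namespace Helper37.BlockSets

open Equiv

section

/-- the rearrangements of a word, evaluated -/
def rev {m l : ℕ} (T : Fin l → Fin m) (x : {v : Fin l → Fin m // v ∈ rearr T}) (e : Fin l) :
    Fin m := x.1 e

theorem exists_pattern {m l : ℕ} (T : Fin l → Fin m) {S' : Type} {F : (Fin l → Fin m) → S'}
    {D : Fin l → ℕ} (hF : IsOp (rev T) F D) (hD : ∃ a, 0 < D a)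
    (hinv : ∀ g : Perm (Fin l), F (T ∘ g) = F T) :
    ∃ d, 1 ≤ d ∧ ∀ (k : ℕ) (χ : List (Fin m) → Fin k), ∃ p : List (Fin l ⊕ Fin m),
      (∀ e, tot dlt p e = d) ∧
      ∀ x x', χ (p.map (slotVal (fun e x => rev T x e) x))
        = χ (p.map (slotVal (fun e x => rev T x e) x')) := by
  classical
  let Ls : List (Fin l → Fin l ⊕ Fin m) :=
    (Finset.univ : Finset (Perm (Fin l))).toList.map (fun g i => Sum.inl (g i))
  have hop := isOp_list (ev := rev T) hF Ls
  have hcnt : ∀ e, (Ls.map (fun τ => reCnt D τ e)).sum = ∑ g : Perm (Fin l), D (g e) := by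
    intro e
    show (((Finset.univ : Finset (Perm (Fin l))).toList.map
      (fun g (i : Fin l) => (Sum.inl (g i) : Fin l ⊕ Fin m))).map (fun τ => reCnt D τ e)).sum = _
    rw [List.map_map]
    have h1 : ∀ g : Perm (Fin l), ((fun τ => reCnt D τ e) ∘
        fun (g : Perm (Fin l)) (i : Fin l) => (Sum.inl (g i) : Fin l ⊕ Fin m)) g
        = D (g⁻¹ e) := by
      intro g
      simp only [Function.comp, reCnt]
      rw [Finset.sum_eq_single (g⁻¹ e)]
      · simp
      · intro b _ hb
        have : g b ≠ e := by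
          intro h
          apply hb
          rw [← h]
          simp
        simp [this]
      · intro h
        exact absurd (Finset.mem_univ _) h
    rw [List.map_congr_left (fun g _ => h1 g)]
    rw [← Equiv.sum_comp (Equiv.inv (Perm (Fin l))) (fun g => D (g e)), Finset.sum_map_toList]
    rfl
  have hsame : ∀ e e' : Fin l, ∑ g : Perm (Fin l), D (g e) = ∑ g : Perm (Fin l), D (g e') := by
    intro e e'
    rw [← Equiv.sum_comp (Equiv.mulRight (swap e e')) (fun g : Perm (Fin l) => D (g e))]
    apply Finset.sum_congr rfl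
    intro g _
    simp
  obtain ⟨a₀, ha₀⟩ := hD
  refine ⟨∑ g : Perm (Fin l), D (g a₀), ?_, ?_⟩
  · have h1 : 0 < ∑ g : Perm (Fin l), D (g a₀) := by
      apply Finset.sum_pos'
      · intro g _
        exact Nat.zero_le _
      · exact ⟨1, Finset.mem_univ _, by simpa using ha₀⟩
    exact h1
  · intro k χ
    obtain ⟨χ', hχ'⟩ := hop.real (Fin l) (fun e x => rev T x e) dlt (real_base (rev T)) k χ
    obtain ⟨p, hp1, hp2⟩ := hχ' [Sum.inl (fun i => Sum.inl i)]
    refine ⟨p, fun e => ?_, fun x x' => ?_⟩
    · rw [hp1 e]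
      have h1 : tot (S := List S') (fun (t : Fin l → Fin l ⊕ Fin m) e =>
          ∑ i, (Ls.map (fun τ => reCnt D τ i)).sum * slotCnt (dlt (E := Fin l)) e (t i))
          [Sum.inl (fun i => Sum.inl i)] e
          = ∑ i, (Ls.map (fun τ => reCnt D τ i)).sum * (if i = e then 1 else 0) := by
        simp [tot, slotCnt, dlt]
      rw [h1]
      simp_rw [hcnt]
      simp only [mul_ite, mul_one, mul_zero, Finset.sum_ite_eq', Finset.mem_univ, if_true]
      exact hsame e a₀
    · rw [hp2 x, hp2 x']
      congr 1
      simp only [List.map_cons, List.map_nil, slotVal, Sum.elim_inl]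
      congr 1
      rw [List.map_inj_left]
      intro τ hτ
      obtain ⟨g, -, rfl⟩ := List.mem_map.mp hτ
      obtain ⟨v, σ, rfl⟩ := x
      obtain ⟨v', σ', rfl⟩ := x'
      simp only [Sum.elim_inl, rev]
      have h1 := hinv (σ * g)
      have h2 := hinv (σ' * g)
      exact h1.trans h2.symm

theorem colour_aux {m k : ℕ} (c : (n : ℕ) → (Fin n → Fin m) → Fin k) (n : ℕ) (w : Fin n → Fin m)
    (L : List (Fin m)) (h : L.length = n) (h' : ∀ i : Fin n, L.get (i.cast h.symm) = w i) :
    c L.length L.get = c n w := by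
  subst h
  congr 1
  funext i
  exact h' i

theorem tot_dlt_eq_card {m l : ℕ} (p : List (Fin l ⊕ Fin m)) (e : Fin l) :
    tot dlt p e = (Finset.univ.filter (fun i : Fin p.length => p.get i = Sum.inl e)).card := by
  classical
  rw [Finset.card_filter]
  have h1 : tot dlt p e = (p.map (fun s => if s = Sum.inl e then 1 else 0)).sum := by
    unfold tot
    congr 1
    apply List.map_congr_left
    rintro (e' | a) _
    · simp [slotCnt, dlt]
    · simp [slotCnt]
  rw [h1]
  conv_lhs => rw [← List.ofFn_get p, List.map_ofFn, List.sum_ofFn]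
  rfl

theorem colourIndependent_of_op {m l : ℕ} (hl : 0 < l) (T : Fin l → Fin m) {S' : Type}
    {F : (Fin l → Fin m) → S'} {D : Fin l → ℕ} (hF : IsOp (rev T) F D) (hD : ∃ a, 0 < D a)
    (hinv : ∀ g : Perm (Fin l), F (T ∘ g) = F T) : ColourIndependent T := by
  classical
  obtain ⟨d, hd, hpat⟩ := exists_pattern T hF hD hinv
  refine ⟨d, hd, fun k _ => ?_⟩
  by_contra hcon
  push Not at hcon
  choose c hc using hcon
  obtain ⟨p, hp1, hp2⟩ := hpat k (fun L => c L.length L.get)
  -- the block set of the pattern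
  let I : Fin l → Finset (Fin p.length) :=
    fun e => Finset.univ.filter (fun i => p.get i = Sum.inl e)
  let a : Fin p.length → Fin m := fun i => Sum.elim (fun _ => T ⟨0, hl⟩) id (p.get i)
  obtain ⟨w, hw, w', hw', hne⟩ := hc p.length I a
    (fun e => by rw [← hp1 e, tot_dlt_eq_card]) (by
      intro i j hij
      rw [Finset.disjoint_left]
      intro q hq hq'
      simp only [I, Finset.mem_filter, Finset.mem_univ, true_and] at hq hq'
      rw [hq] at hq'
      exact hij (Sum.inl_injective hq'))
  apply hne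
  have key : ∀ u ∈ blockSet T I a, ∃ x : {v : Fin l → Fin m // v ∈ rearr T},
      c p.length u = (fun L : List (Fin m) => c L.length L.get)
        (p.map (slotVal (fun e x => rev T x e) x)) := by
    rintro u ⟨hu1, v, hv, hu2⟩
    refine ⟨⟨v, hv⟩, ?_⟩
    symm
    apply colour_aux c p.length u _ (by simp)
    intro i
    have h1 : (p.map (slotVal (fun e x => rev T x e) ⟨v, hv⟩)).get (i.cast (by simp))
        = slotVal (fun e x => rev T x e) ⟨v, hv⟩ (p.get i) := by
      simp
    rw [h1]
    rcases hpi : p.get i with e | b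
    · have h2 := hu2 e i (by simp only [I, Finset.mem_filter, Finset.mem_univ, true_and]; exact hpi)
      rw [h2]
      rfl
    · have h2 := hu1 i (by
        intro j hj
        simp only [I, Finset.mem_filter, Finset.mem_univ, true_and] at hj
        rw [hpi] at hj
        cases hj)
      rw [h2]
      show b = Sum.elim (fun _ => T ⟨0, hl⟩) id (p.get i)
      rw [hpi]
      rfl
  obtain ⟨x, hx⟩ := key w hw
  obtain ⟨x', hx'⟩ := key w' hw'
  rw [hx, hx']
  exact hp2 x x'

end

end Helper37.BlockSets
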