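import Pool.Agent.Helper37.BOps

/-!
Symmetrising a function on a finite set with a group action by an operation applied to its
translates.
-/

namespace Helper37.BlockSets

section

variable {A E X : Type} (ev : X → E → A)

/-- `f'` is obtained by an operation from the translates of `f`. -/
def Der {G Y S S' : Type} [Group G] [Fintype G] (ρ : G →* Equiv.Perm Y) (f : Y → S)
    (f' : Y → S') : Prop :=
  ∃ (F : (G → S) → S') (D : G → ℕ), IsOp ev F D ∧ (∃ g, 0 < D g) ∧
    ∀ y, f' y = F (fun g => f (ρ g y))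

/-- Every function can be made invariant. -/
def Good {G Y : Type} [Group G] [Fintype G] (ρ : G →* Equiv.Perm Y) : Prop :=
  ∀ {S : Type} (f : Y → S), ∃ (S' : Type) (f' : Y → S'), Der ev ρ f f' ∧ ∀ g y, f' (ρ g y) = f' y

variable {ev}

theorem reCnt_pos {ι κ S : Type} [Fintype ι] {D : ι → ℕ} {τ : ι → κ ⊕ S} {i : ι} {k : κ}
    (h : τ i = Sum.inl k) (hD : 0 < D i) : 0 < reCnt D τ k := by
  unfold reCnt
  apply Finset.sum_pos'
  · intro j _
    exact Nat.zero_le _
  · exact ⟨i, Finset.mem_univ i, by simp [h, hD]⟩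

theorem der_of_slots {G Y S S' ι : Type} [Group G] [Fintype G] [Fintype ι]
    {ρ : G →* Equiv.Perm Y} {f : Y → S} {f' : Y → S'} {F : (ι → S) → S'} {D : ι → ℕ}
    (hF : IsOp ev F D) (hD : ∃ i, 0 < D i) (T : ι → G)
    (h : ∀ y, f' y = F (fun i => f (ρ (T i) y))) : Der ev ρ f f' := by
  obtain ⟨i, hi⟩ := hD
  refine ⟨_, _, isOp_reslot hF (fun i => Sum.inl (T i)), ⟨T i, reCnt_pos rfl hi⟩, fun y => ?_⟩
  rw [h y]
  rfl

theorem der_refl {G Y S : Type} [Group G] [Fintype G] (ρ : G →* Equiv.Perm Y) (f : Y → S) :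
    Der ev ρ f f :=
  der_of_slots (isOp_single (ev := ev) (S := S)) ⟨(), Nat.one_pos⟩ (fun _ => 1) (fun y => by simp)

theorem der_trans {G Y S S' S'' : Type} [Group G] [Fintype G] {ρ : G →* Equiv.Perm Y}
    {f : Y → S} {f' : Y → S'} {f'' : Y → S''} (h : Der ev ρ f f') (h' : Der ev ρ f' f'') :
    Der ev ρ f f'' := by
  obtain ⟨F, D, hF, ⟨g, hg⟩, hf⟩ := h
  obtain ⟨F', D', hF', ⟨g', hg'⟩, hf'⟩ := h'
  refine ⟨_, _, isOp_comp hF hF' (fun k i => Sum.inl (i * k)), ⟨g * g', ?_⟩, fun y => ?_⟩
  · apply Finset.sum_pos'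
    · intro j _
      exact Nat.zero_le _
    · refine ⟨g', Finset.mem_univ _, Nat.mul_pos hg' (reCnt_pos (i := g) rfl hg)⟩
  · rw [hf' y]
    congr 1
    funext k
    rw [hf (ρ k y)]
    congr 1
    funext i
    simp

theorem der_hom {G H Y S S' : Type} [Group G] [Fintype G] [Group H] [Fintype H]
    {ρ : G →* Equiv.Perm Y} {φ : H →* G}
    {f : Y → S} {f' : Y → S'} (h : Der ev (ρ.comp φ) f f') : Der ev ρ f f' := by
  obtain ⟨F, D, hF, hD, hf⟩ := h
  exact der_of_slots hF hD φ hf

theorem der_const {G Y S S' : Type} [Group G] [Fintype G] {ρ : G →* Equiv.Perm Y}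
    {f : Y → S} {f' : Y → S'} (h : Der ev ρ f f') {y y' : Y}
    (hy : ∀ g, f (ρ g y) = f (ρ g y')) : f' y = f' y' := by
  obtain ⟨F, D, hF, hD, hf⟩ := h
  rw [hf, hf]
  congr 1
  funext g
  exact hy g

theorem isOp_sum_pos {κ : Type} (Ls : List κ) (n : κ → ℕ) (x : κ) (hx : x ∈ Ls) (h : 0 < n x) :
    0 < (Ls.map n).sum := by
  have := List.single_le_sum (l := Ls.map n) (fun _ _ => Nat.zero_le _) (n x)
    (List.mem_map.mpr ⟨x, hx, rfl⟩)
  omega

open Classical in
/-- Two values on an orbit can be merged. -/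
theorem der_merge [Finite X] {G Y S : Type} [Group G] [Fintype G] (ρ : G →* Equiv.Perm Y)
    (f : Y → S) (y₀ : Y) (a b : S) (h : ∀ g, f (ρ g y₀) = a ∨ f (ρ g y₀) = b) :
    ∃ f' : Y → List S, Der ev ρ f f' ∧ ∀ g, f' (ρ g y₀) = f' y₀ := by
  refine ⟨fun y => ((Finset.univ : Finset G).toList.map (fun g => f (ρ g y))).filter
    (fun s => decide (s ≠ a)), ?_, ?_⟩
  · refine ⟨_, _, isOp_erase (isOp_single (ev := ev) (S := S)) a
      ((Finset.univ : Finset G).toList.map (fun g => fun _ : Unit => (Sum.inl g : G ⊕ S))),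
      ⟨1, ?_⟩, fun y => ?_⟩
    · apply isOp_sum_pos _ _ (fun _ : Unit => Sum.inl (1 : G))
      · exact List.mem_map.mpr ⟨1, by simp, rfl⟩
      · exact reCnt_pos (i := ()) rfl Nat.one_pos
    · rw [List.map_map]
      rfl
  · have key : ∀ y, (∀ g, f (ρ g y) = a ∨ f (ρ g y) = b) →
        ((Finset.univ : Finset G).toList.map (fun g => f (ρ g y))).filter
          (fun s => decide (s ≠ a))
        = List.replicate ((Finset.univ : Finset G).filter (fun g => f (ρ g y) ≠ a)).card b := by
      intro y hy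
      rw [List.eq_replicate_iff]
      constructor
      · rw [← List.countP_eq_length_filter, List.countP_map]
        have h1 : List.countP ((fun s => decide (s ≠ a)) ∘ fun g => f (ρ g y))
            (Finset.univ : Finset G).toList
            = Multiset.countP (fun g => f (ρ g y) ≠ a) (Finset.univ : Finset G).val := by
          rw [← Finset.coe_toList, Multiset.coe_countP]
          rfl
        rw [h1, Multiset.countP_eq_card_filter]
        rfl
      · intro s hs
        rw [List.mem_filter] at hs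
        obtain ⟨hs1, hs2⟩ := hs
        obtain ⟨g, _, rfl⟩ := List.mem_map.mp hs1
        rcases hy g with h1 | h1
        · simp [h1] at hs2
        · exact h1
    intro g
    beta_reduce
    rw [key (ρ g y₀) (fun g' => by
      have := h (g' * g)
      rwa [map_mul, Equiv.Perm.mul_apply] at this), key y₀ h]
    congr 1
    apply Finset.card_bij (fun g' _ => g' * g)
    · intro g' hg'
      simp only [Finset.mem_filter, Finset.mem_univ, true_and] at hg' ⊢
      rwa [map_mul, Equiv.Perm.mul_apply]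
    · intro a _ b _ hab
      exact mul_right_cancel hab
    · intro g' hg'
      refine ⟨g' * g⁻¹, ?_, by simp⟩
      simp only [Finset.mem_filter, Finset.mem_univ, true_and] at hg' ⊢
      rw [← Equiv.Perm.mul_apply, ← map_mul]
      simpa using hg'

open Classical in
/-- It suffices to make any single orbit two-valued. -/
theorem good_of_step [Finite X] {G Y : Type} [Group G] [Fintype G] [Finite Y]
    (ρ : G →* Equiv.Perm Y)
    (hstep : ∀ {S : Type} (f : Y → S) (y₀ : Y), ∃ (S' : Type) (f' : Y → S') (a b : S'),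
      Der ev ρ f f' ∧ ∀ g, f' (ρ g y₀) = a ∨ f' (ρ g y₀) = b) :
    Good ev ρ := by
  have main : ∀ (n : ℕ) {S : Type} (f : Y → S),
      {y : Y | ∃ g, f (ρ g y) ≠ f y}.ncard ≤ n →
      ∃ (S' : Type) (f' : Y → S'), Der ev ρ f f' ∧ ∀ g y, f' (ρ g y) = f' y := by
    intro n
    induction n with
    | zero =>
      intro S f hf
      refine ⟨S, f, der_refl ρ f, fun g y => ?_⟩
      have h0 : {y : Y | ∃ g, f (ρ g y) ≠ f y} = ∅ := by
        rw [← Set.ncard_eq_zero (Set.toFinite _)]
        omega
      by_contra hne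
      have h1 : y ∈ {y : Y | ∃ g, f (ρ g y) ≠ f y} := ⟨g, hne⟩
      rw [h0] at h1
      exact h1
    | succ n ih =>
      intro S f hf
      by_cases hbad : ∃ y₀, ∃ g, f (ρ g y₀) ≠ f y₀
      · obtain ⟨y₀, g₀, hg₀⟩ := hbad
        obtain ⟨S', f', a, b, hd, hab⟩ := hstep f y₀
        obtain ⟨f'', hd', hc⟩ := der_merge (ev := ev) ρ f' y₀ a b hab
        have hd'' := der_trans hd hd'
        have hcard : {y : Y | ∃ g, f'' (ρ g y) ≠ f'' y}.ncard
            < {y : Y | ∃ g, f (ρ g y) ≠ f y}.ncard := by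
          apply Set.ncard_lt_ncard _ (Set.toFinite _)
          rw [Set.ssubset_iff_exists]
          constructor
          · intro y hy
            by_contra hcon
            simp only [Set.mem_ofPred_eq, not_exists, not_not] at hcon
            obtain ⟨g, hg⟩ := hy
            apply hg
            apply der_const hd''
            intro g'
            rw [← Equiv.Perm.mul_apply, ← map_mul, hcon, hcon]
          · refine ⟨y₀, ⟨g₀, hg₀⟩, ?_⟩
            simp only [Set.mem_ofPred_eq, not_exists, not_not]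
            exact hc
        obtain ⟨S₃, f₃, hd₃, hc₃⟩ := ih f'' (by omega)
        exact ⟨S₃, f₃, der_trans hd'' hd₃, hc₃⟩
      · push Not at hbad
        exact ⟨S, f, der_refl ρ f, fun g y => hbad y g⟩
  intro S f
  exact main _ f le_rfl

/-- a trivial group -/
theorem good_of_subsingleton {G Y : Type} [Group G] [Fintype G] [Subsingleton G]
    (ρ : G →* Equiv.Perm Y) : Good ev ρ := by
  intro S f
  refine ⟨S, f, der_refl ρ f, fun g y => ?_⟩
  rw [Subsingleton.elim g 1]
  simp

end

end Helper37.BlockSets
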