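import Pool.Agent.Helper37.BFinal

/-!
The two families of templates.
-/

namespace Helper37.BlockSets

open Equiv

section

variable {A E X : Type} {ev : X → E → A}

/-- at most three letters are different from the background -/
theorem few {m l : ℕ} (hl : 0 < l) (T : Fin l → Fin m) (b : Fin m)
    (h : num T (fun a => a ≠ b) ≤ 3) : ColourIndependent T := by
  obtain ⟨S', F, D, hF, hD, hinv⟩ := word3_fin (ev := rev T) l hl b T
    (Finset.univ.filter (fun j => T j ≠ b)) h (fun a ha => by simpa using ha)
  exact colourIndependent_of_op hl T hF hD hinv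

theorem perm_cases {S : Type} {a c : S} {L : List S} (h : L.Perm (a :: List.replicate 3 c)) :
    L = [a, c, c, c] ∨ L = [c, a, c, c] ∨ L = [c, c, a, c] ∨ L = [c, c, c, a] := by
  have h1 : a ∈ L := h.symm.subset (by simp)
  obtain ⟨L₁, L₂, rfl⟩ := List.append_of_mem h1
  have h2 : (L₁ ++ L₂).Perm (List.replicate 3 c) := by
    have h3 : (a :: (L₁ ++ L₂)).Perm (a :: List.replicate 3 c) :=
      (List.perm_middle).symm.trans h
    exact (List.perm_cons a).mp h3
  rw [List.perm_replicate] at h2
  rw [List.append_eq_replicate_iff] at h2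
  obtain ⟨hlen, h3, h4⟩ := h2
  generalize L₁.length = i at *
  generalize L₂.length = j at *
  subst h3 h4
  have hi : i ≤ 3 := by omega
  interval_cases i
  · obtain rfl : j = 3 := by omega
    left; rfl
  · obtain rfl : j = 2 := by omega
    right; left; rfl
  · obtain rfl : j = 1 := by omega
    right; right; left; rfl
  · obtain rfl : j = 0 := by omega
    right; right; right; rfl

/-- four letters different from the background, three of them equal -/
theorem four_word [Finite X] {l : ℕ} {S : Type} [DecidableEq S] (b a c : S) (w₀ : Fin l → S)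
    (hl : 0 < l)
    (h : ∀ g : Perm (Fin l), (((List.finRange l).map (w₀ ∘ g)).filter
      (fun s => decide (s ≠ b))).Perm (a :: List.replicate 3 c)) :
    ∃ (S' : Type) (F : (Fin l → S) → S') (D : Fin l → ℕ), IsOp ev F D ∧ (∃ a, 0 < D a) ∧
      ∀ g : Perm (Fin l), F (w₀ ∘ g) = F w₀ := by
  classical
  have hop := isOp_erase (ev := ev) (isOp_single (ev := ev) (S := S)) b
    ((List.finRange l).map (fun i => fun _ : Unit => (Sum.inl i : Fin l ⊕ S)))
  have hval : ∀ w : Fin l → S, ((((List.finRange l).map
      (fun i => fun _ : Unit => (Sum.inl i : Fin l ⊕ S))).map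
      (fun τ => (fun w : Unit → S => w ()) (fun i => Sum.elim w id (τ i)))).filter
        (fun s => decide (s ≠ b))) = ((List.finRange l).map w).filter (fun s => decide (s ≠ b)) := by
    intro w
    rw [List.map_map]
    rfl
  have hpos : ∀ a : Fin l, 0 < ((((List.finRange l).map
      (fun i => fun _ : Unit => (Sum.inl i : Fin l ⊕ S))).map
      (fun τ => reCnt (fun _ : Unit => 1) τ a)).sum) := by
    intro a
    exact isOp_sum_pos _ _ (fun _ => Sum.inl a) (List.mem_map.mpr ⟨a, List.mem_finRange a, rfl⟩)
      (reCnt_pos (i := ()) rfl Nat.one_pos)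
  -- the operation on two letters
  obtain ⟨S₂, Ψ, D₂, hΨ, ⟨k₀, hk₀⟩, hinv⟩ := words_of_good3 (ev := ev) (good3_two (ev := ev))
    (Z := Bool) (fun z => if z then ![[a, c, c, c], [c, c, c, a]] else ![[c, a, c, c], [c, c, a, c]])
    (fun z => ⟨[], Finset.univ, by simp, fun a ha => absurd (Finset.mem_univ a) ha⟩)
  have hcomp := isOp_comp hop hΨ (fun k i => if k = 0 then Sum.inl i else Sum.inl (Fin.rev i))
  have hsw : ∀ (x y : List S), ![x, y] ∘ (swap (0 : Fin 2) 1) = ![y, x] := by
    intro x y
    funext i
    fin_cases i
    · simp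
    · simp
  have e1 : Ψ ![[c, c, c, a], [a, c, c, c]] = Ψ ![[a, c, c, c], [c, c, c, a]] := by
    have := hinv true (swap 0 1)
    simp only [if_true] at this
    rwa [hsw] at this
  have e2 : Ψ ![[c, c, a, c], [c, a, c, c]] = Ψ ![[c, a, c, c], [c, c, a, c]] := by
    have := hinv false (swap 0 1)
    simp only [Bool.false_eq_true, if_false] at this
    rwa [hsw] at this
  refine word_merge hcomp ?_ w₀ (Ψ ![[a, c, c, c], [c, c, c, a]]) (Ψ ![[c, a, c, c], [c, c, a, c]])
    (fun g => ?_)
  · by_cases hk : k₀ = 0
    · refine ⟨⟨0, hl⟩, ?_⟩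
      apply Finset.sum_pos'
      · intro j _
        exact Nat.zero_le _
      · refine ⟨k₀, Finset.mem_univ _, Nat.mul_pos hk₀ ?_⟩
        exact reCnt_pos (i := ⟨0, hl⟩) (by rw [if_pos hk]) (hpos _)
    · refine ⟨Fin.rev ⟨0, hl⟩, ?_⟩
      apply Finset.sum_pos'
      · intro j _
        exact Nat.zero_le _
      · refine ⟨k₀, Finset.mem_univ _, Nat.mul_pos hk₀ ?_⟩
        exact reCnt_pos (i := ⟨0, hl⟩) (by rw [if_neg hk]) (hpos _)
  · beta_reduce
    simp only [hval]
    have h1 : (fun k : Fin 2 => ((List.finRange l).map (fun i => Sum.elim (w₀ ∘ g) id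
        (if k = 0 then (Sum.inl i : Fin l ⊕ S) else Sum.inl (Fin.rev i)))).filter
        (fun s => decide (s ≠ b)))
        = ![((List.finRange l).map (w₀ ∘ g)).filter (fun s => decide (s ≠ b)),
            (((List.finRange l).map (w₀ ∘ g)).filter (fun s => decide (s ≠ b))).reverse] := by
      funext k
      fin_cases k
      · rfl
      · simp only [Fin.mk_one, Fin.isValue, one_ne_zero, if_false, Matrix.cons_val_one,
          Matrix.cons_val_fin_one]
        rw [← List.filter_reverse, ← List.map_reverse]
        congr 1
        have h2 : (List.finRange l).reverse = (List.finRange l).map Fin.rev :=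
          List.finRange_reverse
        rw [h2, List.map_map]
        rfl
    rw [h1]
    rcases perm_cases (h g) with h3 | h3 | h3 | h3
    · left
      rw [h3]
      rfl
    · right
      rw [h3]
      rfl
    · right
      rw [h3]
      exact e2
    · left
      rw [h3]
      exact e1

end

theorem four {m l : ℕ} (hl : 0 < l) (T : Fin l → Fin m) (b c : Fin m) (hbc : c ≠ b)
    (h : num T (fun a => a ≠ b) = 4) (h' : 3 ≤ num T (fun a => a = c)) : ColourIndependent T := by
  classical
  -- the letters different from `b` as a multiset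
  let M : Multiset (Fin m) := ((Finset.univ : Finset (Fin l)).val.map T).filter (fun a => a ≠ b)
  have hcard : Multiset.card M = 4 := by
    rw [← h]
    show Multiset.card (Multiset.filter _ (Multiset.map T _)) = _
    rw [Multiset.filter_map, Multiset.card_map]
    rfl
  have hcount : 3 ≤ Multiset.count c M := by
    refine le_trans h' (le_of_eq ?_)
    show _ = Multiset.count c (Multiset.filter _ (Multiset.map T _))
    rw [Multiset.count_filter_of_pos (p := fun a => a ≠ b) hbc, Multiset.count_map]
    unfold num
    rw [← Finset.filter_val]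
    show Finset.card _ = Finset.card _
    congr 1
    ext j
    simp [eq_comm]
  rw [Multiset.le_count_iff_replicate_le] at hcount
  obtain ⟨u, hu⟩ := Multiset.le_iff_exists_add.mp hcount
  have hu1 : Multiset.card u = 1 := by
    rw [hu, Multiset.card_add, Multiset.card_replicate] at hcard
    omega
  obtain ⟨a, rfl⟩ := Multiset.card_eq_one.mp hu1
  obtain ⟨S', F, D, hF, hD, hinv⟩ := four_word (ev := rev T) b a c T hl (by
    intro g
    rw [← Multiset.coe_eq_coe]
    have h0 : ((((List.finRange l).map (T ∘ g)).filter
        (fun s => decide (s ≠ b)) : List (Fin m)) : Multiset (Fin m))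
        = Multiset.filter (fun a => a ≠ b) (Multiset.map (T ∘ g) Finset.univ.val) := by
      have h1 : ((List.finRange l : List (Fin l)) : Multiset (Fin l)) = Finset.univ.val := rfl
      rw [← h1, Multiset.map_coe, Multiset.filter_coe]
    rw [h0]
    have h2 : Multiset.map (T ∘ g) Finset.univ.val = Multiset.map T Finset.univ.val := by
      rw [← Multiset.map_map, Multiset.map_univ_val_equiv]
    rw [h2]
    have h3 : (((a :: List.replicate 3 c : List (Fin m))) : Multiset (Fin m))
        = Multiset.replicate 3 c + {a} := by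
      rw [← Multiset.cons_coe, Multiset.coe_replicate, add_comm, Multiset.singleton_add]
    rw [h3, ← hu])
  exact colourIndependent_of_op hl T hF hD hinv

/-- The main theorem. -/
theorem colourIndependent_main {m l : ℕ} (hl : 1 ≤ l) (T : Fin l → Fin m) (b : Fin m)
    (h : num T (fun a => a ≠ b) ≤ 3 ∨
      num T (fun a => a ≠ b) = 4 ∧ ∃ c, c ≠ b ∧ 3 ≤ num T (fun a => a = c)) :
    ColourIndependent T := by
  rcases h with h | ⟨h, c, hc, h'⟩
  · exact few hl T b h
  · exact four hl T b c hc h h'

end Helper37.BlockSets
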