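import Pool.Agent.Helper37.BSim

/-!
Operations on realised families.
-/

namespace Helper37.BlockSets

section

variable {A E X : Type} (ev : X → E → A)

/-- `F` (a function of the values of the slots `i : ι`, the slot `i` being used `D i` times)
preserves realised families. -/
structure IsOp {ι S S' : Type} [Fintype ι] (F : (ι → S) → S') (D : ι → ℕ) : Prop where
  real : ∀ (I : Type) (f : I → X → S) (c : I → E → ℕ), Real ev f c →
    Real ev (fun (t : ι → I ⊕ S) x => F (fun i => slotVal f x (t i)))
      (fun t e => ∑ i, D i * slotCnt c e (t i))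

variable {ev}

theorem real_congr {I S : Type} {f f' : I → X → S} {c c' : I → E → ℕ} (h : Real ev f c)
    (hf : f = f') (hc : c = c') : Real ev f' c' := by
  subst hf hc
  exact h

/-- the word of one slot -/
theorem isOp_single {S : Type} : IsOp ev (fun w : Unit → S => w ()) (fun _ => 1) := by
  constructor
  intro I f c h
  refine real_congr (real_reindex h (fun t : Unit → I ⊕ S => t ())) rfl ?_
  funext t e
  simp

theorem slotVal_subst {I κ S : Type} (f : I → X → S) (x : X) (t : κ → I ⊕ S) (s : κ ⊕ S) :
    slotVal f x (Sum.elim t Sum.inr s) = Sum.elim (fun k => slotVal f x (t k)) id s := by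
  rcases s with k | s <;> rfl

open Classical in
theorem slotCnt_subst {I κ S : Type} [Fintype κ] (c : I → E → ℕ) (e : E) (t : κ → I ⊕ S)
    (s : κ ⊕ S) :
    slotCnt c e (Sum.elim t Sum.inr s)
      = ∑ k, (if s = Sum.inl k then 1 else 0) * slotCnt c e (t k) := by
  rcases s with k | s
  · simp
  · simp [slotCnt]

open Classical in
/-- The number of uses of the slots after substituting. -/
noncomputable def reCnt {ι κ S : Type} [Fintype ι] (D : ι → ℕ) (τ : ι → κ ⊕ S) (k : κ) : ℕ :=
  ∑ i, D i * (if τ i = Sum.inl k then 1 else 0)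

open Classical in
theorem sum_reCnt {ι κ I S : Type} [Fintype ι] [Fintype κ] (D : ι → ℕ) (τ : ι → κ ⊕ S)
    (c : I → E → ℕ) (e : E) (t : κ → I ⊕ S) :
    ∑ i, D i * slotCnt c e (Sum.elim t Sum.inr (τ i)) = ∑ k, reCnt D τ k * slotCnt c e (t k) := by
  have h1 : ∀ i, D i * slotCnt c e (Sum.elim t Sum.inr (τ i))
      = ∑ k, D i * (if τ i = Sum.inl k then 1 else 0) * slotCnt c e (t k) := by
    intro i
    rw [slotCnt_subst, Finset.mul_sum]
    apply Finset.sum_congr rfl
    intro k _
    ring
  simp_rw [h1]
  rw [Finset.sum_comm]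
  apply Finset.sum_congr rfl
  intro k _
  rw [reCnt, Finset.sum_mul]

/-- Changing the slots. -/
theorem isOp_reslot {ι κ S S' : Type} [Fintype ι] [Fintype κ] {F : (ι → S) → S'} {D : ι → ℕ}
    (hF : IsOp ev F D) (τ : ι → κ ⊕ S) :
    IsOp ev (fun w : κ → S => F (fun i => Sum.elim w id (τ i))) (reCnt D τ) := by
  constructor
  intro I f c h
  refine real_congr (real_reindex (hF.real I f c h)
    (fun t : κ → I ⊕ S => Sum.inl (fun i => Sum.elim t Sum.inr (τ i)))) ?_ ?_
  · funext t x
    simp only [slotVal, Sum.elim_inl]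
    congr 1
    funext i
    exact slotVal_subst f x t (τ i)
  · funext t e
    simp only [slotCnt, Sum.elim_inl]
    exact sum_reCnt D τ c e t

/-- A finite list of applications of an operation, with a letter erased. -/
theorem isOp_erase [Finite X] {ι κ S S' : Type} [Fintype ι] [Fintype κ] [DecidableEq S']
    {F : (ι → S) → S'} {D : ι → ℕ} (hF : IsOp ev F D) (a : S') (Ls : List (ι → κ ⊕ S)) :
    IsOp ev (fun w : κ → S =>
        (Ls.map (fun τ => F (fun i => Sum.elim w id (τ i)))).filter (fun b => decide (b ≠ a)))
      (fun k => (Ls.map (fun τ => reCnt D τ k)).sum) := by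
  constructor
  intro I f c h
  refine real_congr (real_erase (hF.real I f c h) a
    (fun t : κ → I ⊕ S => Ls.map (fun τ => Sum.inl (fun i => Sum.elim t Sum.inr (τ i))))) ?_ ?_
  · funext t x
    rw [List.map_map]
    congr 1
    · funext b
      congr
    · apply List.map_congr_left
      intro τ _
      simp only [Function.comp, slotVal, Sum.elim_inl]
      congr 1
      funext i
      exact slotVal_subst f x t (τ i)
  · funext t e
    unfold tot
    rw [List.map_map]
    have h1 : ∀ τ : ι → κ ⊕ S,
        (slotCnt (fun (t : ι → I ⊕ S) e => ∑ i, D i * slotCnt c e (t i)) e ∘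
          fun τ : ι → κ ⊕ S => (Sum.inl (fun i => Sum.elim t Sum.inr (τ i)) : (ι → I ⊕ S) ⊕ S')) τ
        = ∑ k, reCnt D τ k * slotCnt c e (t k) := by
      intro τ
      simp only [Function.comp, slotCnt, Sum.elim_inl]
      exact sum_reCnt D τ c e t
    rw [List.map_congr_left (fun τ _ => h1 τ)]
    clear h1
    induction Ls with
    | nil => simp
    | cons τ Ls ih =>
      simp only [List.map_cons, List.sum_cons]
      rw [ih, ← Finset.sum_add_distrib]
      apply Finset.sum_congr rfl
      intro k _
      ring

/-- A finite list of applications of an operation. -/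
theorem isOp_list {ι κ S S' : Type} [Fintype ι] [Fintype κ]
    {F : (ι → S) → S'} {D : ι → ℕ} (hF : IsOp ev F D) (Ls : List (ι → κ ⊕ S)) :
    IsOp ev (fun w : κ → S => Ls.map (fun τ => F (fun i => Sum.elim w id (τ i))))
      (fun k => (Ls.map (fun τ => reCnt D τ k)).sum) := by
  constructor
  intro I f c h
  refine real_congr (real_list (hF.real I f c h)
    (fun t : κ → I ⊕ S => Ls.map (fun τ => Sum.inl (fun i => Sum.elim t Sum.inr (τ i))))) ?_ ?_
  · funext t x
    rw [List.map_map]
    apply List.map_congr_left
    intro τ _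
    simp only [Function.comp, slotVal, Sum.elim_inl]
    congr 1
    funext i
    exact slotVal_subst f x t (τ i)
  · funext t e
    unfold tot
    rw [List.map_map]
    have h1 : ∀ τ : ι → κ ⊕ S,
        (slotCnt (fun (t : ι → I ⊕ S) e => ∑ i, D i * slotCnt c e (t i)) e ∘
          fun τ : ι → κ ⊕ S => (Sum.inl (fun i => Sum.elim t Sum.inr (τ i)) : (ι → I ⊕ S) ⊕ S')) τ
        = ∑ k, reCnt D τ k * slotCnt c e (t k) := by
      intro τ
      simp only [Function.comp, slotCnt, Sum.elim_inl]
      exact sum_reCnt D τ c e t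
    rw [List.map_congr_left (fun τ _ => h1 τ)]
    clear h1
    induction Ls with
    | nil => simp
    | cons τ Ls ih =>
      simp only [List.map_cons, List.sum_cons]
      rw [ih, ← Finset.sum_add_distrib]
      apply Finset.sum_congr rfl
      intro k _
      ring

/-- Composition. -/
theorem isOp_comp {ι κ lam S S' S'' : Type} [Fintype ι] [Fintype κ] [Fintype lam]
    {F : (ι → S) → S'} {D : ι → ℕ} (hF : IsOp ev F D)
    {G : (κ → S') → S''} {D' : κ → ℕ} (hG : IsOp ev G D') (τ : κ → ι → lam ⊕ S) :
    IsOp ev (fun w : lam → S => G (fun k => F (fun i => Sum.elim w id (τ k i))))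
      (fun l => ∑ k, D' k * reCnt D (τ k) l) := by
  constructor
  intro I f c h
  refine real_congr (real_reindex (hG.real _ _ _ (hF.real I f c h))
    (fun t : lam → I ⊕ S => Sum.inl (fun k => Sum.inl (fun i => Sum.elim t Sum.inr (τ k i))))) ?_ ?_
  · funext t x
    simp only [slotVal, Sum.elim_inl]
    congr 1
    funext k
    congr 1
    funext i
    exact slotVal_subst f x t (τ k i)
  · funext t e
    simp only [slotCnt, Sum.elim_inl]
    have h1 : ∀ k, ∑ i, D i * slotCnt c e (Sum.elim t Sum.inr (τ k i))
        = ∑ l, reCnt D (τ k) l * slotCnt c e (t l) := fun k => sum_reCnt D (τ k) c e t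
    simp only [slotCnt] at h1
    simp_rw [h1, Finset.mul_sum]
    rw [Finset.sum_comm]
    apply Finset.sum_congr rfl
    intro l _
    rw [Finset.sum_mul]
    apply Finset.sum_congr rfl
    intro k _
    ring

end

end Helper37.BlockSets
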