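import Pool.Agent.Helper37.BWreath

/-!
Symmetrising over the permutations of an affine plane.
-/

namespace Helper37.BlockSets

open Equiv

section

variable {A E X : Type} {ev : X → E → A}

/-- the linear form of direction `c` -/
def ell {F : Type} [Field F] (c : Option F) (p : F × F) : F :=
  match c with
  | none => p.1
  | some s => p.2 - s * p.1

/-- a linear change of coordinates with `ell c` as the first coordinate -/
def lin {F : Type} [Field F] (c : Option F) : Perm (F × F) :=
  match c with
  | none => Equiv.refl _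
  | some s =>
    { toFun := fun p => (p.2 - s * p.1, p.1)
      invFun := fun p => (p.2, p.1 + s * p.2)
      left_inv := fun p => by ext <;> simp
      right_inv := fun p => by ext <;> simp }

theorem lin_fst {F : Type} [Field F] (c : Option F) (p : F × F) : (lin c p).1 = ell c p := by
  cases c <;> rfl

/-- the direction of the line through two points -/
def dir {F : Type} [Field F] [DecidableEq F] (p q : F × F) : Option F :=
  if p.1 = q.1 then none else some ((q.2 - p.2) / (q.1 - p.1))

theorem ell_eq_iff {F : Type} [Field F] [DecidableEq F] (c : Option F) {p q : F × F}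
    (hpq : p ≠ q) : ell c p = ell c q ↔ c = dir p q := by
  unfold dir
  cases c with
  | none =>
    show p.1 = q.1 ↔ _
    split_ifs with h
    · simp [h]
    · simp [h]
  | some s =>
    show p.2 - s * p.1 = q.2 - s * q.1 ↔ _
    split_ifs with h
    · simp only [h, iff_false]
      intro h1
      apply hpq
      apply Prod.ext h
      exact sub_left_injective h1
    · have h1 : q.1 - p.1 ≠ 0 := fun h2 => h (sub_eq_zero.mp h2).symm
      rw [Option.some_inj, eq_div_iff h1]
      constructor
      · intro h2
        linear_combination h2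
      · intro h2
        linear_combination h2

/-- three directions are equal or pairwise distinct -/
theorem dir_cases {F : Type} [Field F] [DecidableEq F] {p q r : F × F} (hpq : p ≠ q)
    (hpr : p ≠ r) (hqr : q ≠ r) :
    (dir p q = dir p r ∧ dir p q = dir q r) ∨
      (dir p q ≠ dir p r ∧ dir p q ≠ dir q r ∧ dir p r ≠ dir q r) := by
  by_cases h1 : dir p q = dir p r
  · left
    refine ⟨h1, ?_⟩
    rw [← ell_eq_iff _ hqr]
    have h2 := (ell_eq_iff (dir p q) hpq).mpr rfl
    have h3 := (ell_eq_iff (dir p q) hpr).mpr h1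
    exact h2.symm.trans h3
  · right
    refine ⟨h1, ?_, ?_⟩
    · intro h2
      apply h1
      rw [← ell_eq_iff _ hpr]
      have h3 := (ell_eq_iff (dir p q) hpq).mpr rfl
      have h4 := (ell_eq_iff (dir p q) hqr).mpr h2
      exact h3.trans h4
    · intro h2
      apply h1
      symm
      rw [← ell_eq_iff _ hpq]
      have h3 := (ell_eq_iff (dir p r) hpr).mpr rfl
      have h4 := (ell_eq_iff (dir p r) hqr).mpr h2
      exact h3.trans h4.symm

theorem exists_const {G S : Type} [Nonempty S] (v : G → S) (P : G → Prop)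
    (h : ∀ g g', P g → P g' → v g = v g') : ∃ a, ∀ g, P g → v g = a := by
  by_cases hP : ∃ g, P g
  · obtain ⟨g₀, hg₀⟩ := hP
    exact ⟨v g₀, fun g hg => h g g₀ hg hg₀⟩
  · push Not at hP
    obtain ⟨a⟩ := ‹Nonempty S›
    exact ⟨a, fun g hg => absurd hg (hP g)⟩

/-- a function invariant under the wreath product sees only the partition of the support -/
theorem wreath_inv_eq {β γ : Type} [Finite β] [Finite γ] {Y : Type}
    (ρ : Perm (β × γ) →* Perm Y) {S : Type} (f : Y → S)
    (h1 : ∀ (σ : β → Perm γ) y, f (ρ (fibHom β γ σ) y) = f y)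
    (h2 : ∀ (τ : Perm β) y, f (ρ (topHom β γ τ) y) = f y)
    (y : Y) (s : Finset (β × γ)) (hs : ∀ g : Perm (β × γ), (∀ a ∈ s, g a = a) → ρ g y = y)
    (g g' : Perm (β × γ))
    (hgg' : ∀ p ∈ s, ∀ q ∈ s, (g p).1 = (g q).1 ↔ (g' p).1 = (g' q).1) :
    f (ρ g y) = f (ρ g' y) := by
  classical
  obtain ⟨τ, σ, hτσ⟩ := exists_wreath_extend (s.image ⇑g) (g' * g⁻¹) (by
    intro p hp q hq
    obtain ⟨a, ha, rfl⟩ := Finset.mem_image.mp hp
    obtain ⟨b, hb, rfl⟩ := Finset.mem_image.mp hq
    simpa using hgg' a ha b hb)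
  have h3 : ρ g' y = ρ (topHom β γ τ) (ρ (fibHom β γ σ) (ρ g y)) := by
    have h4 : ρ ((topHom β γ τ * fibHom β γ σ * g)⁻¹ * g') y = y := by
      apply hs
      intro a ha
      have h5 := hτσ (g a) (Finset.mem_image_of_mem _ ha)
      rw [Perm.mul_apply, Perm.inv_eq_iff_eq, Perm.mul_apply, Perm.mul_apply]
      have h6 : (g' * g⁻¹) (g a) = g' a := by simp
      rw [h6] at h5
      exact h5.symm
    rw [map_mul, map_inv, Perm.mul_apply, Perm.inv_eq_iff_eq] at h4
    rw [h4, map_mul, map_mul, Perm.mul_apply, Perm.mul_apply]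
  rw [h3, h2, h1]

/-- Symmetrisation over the permutations of an affine plane. -/
theorem good3_plane [Finite X] {F : Type} [Field F] [Fintype F] [DecidableEq F]
    (hF1 : Good3 ev F) (hF2 : Good3 ev (Option F)) : Good3 ev (F × F) := by
  intro Y _ ρ hρ
  apply good_of_step
  intro S f y₀
  obtain ⟨S₃, f₃, hd₃, hfib, htop⟩ := exists_wreath_inv hF1 hF1 ρ hρ f
  -- a support with exactly three points
  obtain ⟨s₀, hs₀, hfix₀⟩ := hρ y₀
  have hcard : 3 ≤ (Finset.univ : Finset (F × F)).card := by
    rw [Finset.card_univ, Fintype.card_prod]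
    have h1 : 1 < Fintype.card F := Fintype.one_lt_card
    nlinarith
  obtain ⟨s, hs₀s, -, hs3⟩ := Finset.exists_subsuperset_card_eq (Finset.subset_univ s₀) hs₀ hcard
  have hfix : ∀ g : Perm (F × F), (∀ a ∈ s, g a = a) → ρ g y₀ = y₀ :=
    fun g hg => hfix₀ g (fun a ha => hg a (hs₀s ha))
  obtain ⟨P, Q, R, hPQ, hPR, hQR, rfl⟩ := Finset.card_eq_three.mp hs3
  -- the key invariance
  have key : ∀ (z z' : Perm (F × F)) (c c' : Option F),
      (c = dir (z P) (z Q) ↔ c' = dir (z' P) (z' Q)) →
      (c = dir (z P) (z R) ↔ c' = dir (z' P) (z' R)) →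
      (c = dir (z Q) (z R) ↔ c' = dir (z' Q) (z' R)) →
      f₃ (ρ (lin c) (ρ z y₀)) = f₃ (ρ (lin c') (ρ z' y₀)) := by
    intro z z' c c' h1 h2 h3
    rw [← Perm.mul_apply, ← map_mul, ← Perm.mul_apply, ← map_mul]
    rw [← ell_eq_iff _ (fun h => hPQ (z.injective h)),
      ← ell_eq_iff _ (fun h => hPQ (z'.injective h))] at h1
    rw [← ell_eq_iff _ (fun h => hPR (z.injective h)),
      ← ell_eq_iff _ (fun h => hPR (z'.injective h))] at h2
    rw [← ell_eq_iff _ (fun h => hQR (z.injective h)),
      ← ell_eq_iff _ (fun h => hQR (z'.injective h))] at h3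
    apply wreath_inv_eq ρ f₃ hfib htop y₀ _ hfix
    intro p hp q hq
    simp only [Perm.mul_apply, lin_fst]
    simp only [Finset.mem_insert, Finset.mem_singleton] at hp hq
    rcases hp with rfl | rfl | rfl <;> rcases hq with rfl | rfl | rfl
    · simp
    · exact h1
    · exact h2
    · rw [eq_comm, h1, eq_comm]
    · simp
    · exact h3
    · rw [eq_comm, h2, eq_comm]
    · rw [eq_comm, h3, eq_comm]
    · simp
  have hne : Nonempty S₃ := ⟨f₃ y₀⟩
  obtain ⟨S₄, Ψ, D, hΨ, hD, hinv⟩ := words_of_good3 hF2 (Z := Perm (F × F))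
    (fun z c => f₃ (ρ (lin c) (ρ z y₀))) (by
      intro z
      obtain ⟨b, hb⟩ := exists_const (fun c => f₃ (ρ (lin c) (ρ z y₀)))
        (fun c => c ∉ ({dir (z P) (z Q), dir (z P) (z R), dir (z Q) (z R)} : Finset (Option F)))
        (by
          intro c c' hc hc'
          simp only [Finset.mem_insert, Finset.mem_singleton, not_or] at hc hc'
          apply key
          · simp [hc.1, hc'.1]
          · simp [hc.2.1, hc'.2.1]
          · simp [hc.2.2, hc'.2.2])
      exact ⟨b, _, Finset.card_le_three, hb⟩)
  -- two values on the orbit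
  have htwo : ∀ z z' : Perm (F × F),
      (dir (z P) (z Q) = dir (z P) (z R) ↔ dir (z' P) (z' Q) = dir (z' P) (z' R)) →
      Ψ (fun c => f₃ (ρ (lin c) (ρ z y₀))) = Ψ (fun c => f₃ (ρ (lin c) (ρ z' y₀))) := by
    intro z z' hzz'
    have hz := dir_cases (fun h => hPQ (z.injective h)) (fun h => hPR (z.injective h))
      (fun h => hQR (z.injective h))
    have hz' := dir_cases (fun h => hPQ (z'.injective h)) (fun h => hPR (z'.injective h))
      (fun h => hQR (z'.injective h))
    obtain ⟨π, h1, h2, h3⟩ : ∃ π : Perm (Option F), π (dir (z P) (z Q)) = dir (z' P) (z' Q) ∧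
        π (dir (z P) (z R)) = dir (z' P) (z' R) ∧ π (dir (z Q) (z R)) = dir (z' Q) (z' R) := by
      by_cases hc : dir (z P) (z Q) = dir (z P) (z R)
      · have hc' := hzz'.mp hc
        have e1 : dir (z P) (z Q) = dir (z Q) (z R) := by
          rcases hz with h | h
          · exact h.2
          · exact absurd hc h.1
        have e1' : dir (z' P) (z' Q) = dir (z' Q) (z' R) := by
          rcases hz' with h | h
          · exact h.2
          · exact absurd hc' h.1
        refine ⟨swap (dir (z P) (z Q)) (dir (z' P) (z' Q)), swap_apply_left _ _, ?_, ?_⟩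
        · rw [← hc, ← hc', swap_apply_left]
        · rw [← e1, ← e1', swap_apply_left]
      · have hc' := fun h => hc (hzz'.mpr h)
        have hz := hz.resolve_left (fun h => hc h.1)
        have hz' := hz'.resolve_left (fun h => hc' h.1)
        obtain ⟨π, hπ⟩ := exists_perm_extend
          ({dir (z P) (z Q), dir (z P) (z R), dir (z Q) (z R)} : Finset (Option F))
          (fun c => if c = dir (z P) (z Q) then dir (z' P) (z' Q) else
            if c = dir (z P) (z R) then dir (z' P) (z' R) else dir (z' Q) (z' R)) (by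
            intro a ha b hb hab
            simp only [Finset.mem_insert, Finset.mem_singleton] at ha hb
            rcases ha with rfl | rfl | rfl <;> rcases hb with rfl | rfl | rfl <;>
            simp only [hz.1, hz.1.symm, hz.2.1.symm, hz.2.2.symm,
              if_true, if_false] at hab <;>
            first
            | rfl
            | exact absurd hab hz'.1
            | exact absurd hab hz'.2.1
            | exact absurd hab hz'.2.2
            | exact absurd hab hz'.1.symm
            | exact absurd hab hz'.2.1.symm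
            | exact absurd hab hz'.2.2.symm)
        refine ⟨π, ?_, ?_, ?_⟩
        · rw [hπ _ (by simp)]; simp
        · rw [hπ _ (by simp)]; simp [hz.1.symm]
        · rw [hπ _ (by simp)]; simp [hz.2.1.symm, hz.2.2.symm]
    have h4 : (fun c => f₃ (ρ (lin c) (ρ z y₀)))
        = (fun c => f₃ (ρ (lin c) (ρ z' y₀))) ∘ π := by
      funext c
      simp only [Function.comp]
      apply key
      · rw [← h1]; exact π.injective.eq_iff.symm
      · rw [← h2]; exact π.injective.eq_iff.symm
      · rw [← h3]; exact π.injective.eq_iff.symm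
    rw [h4]
    exact hinv z' π
  have hne4 : Nonempty S₄ := ⟨Ψ (fun _ => f₃ y₀)⟩
  obtain ⟨a, ha⟩ := exists_const
    (fun z : Perm (F × F) => Ψ (fun c => f₃ (ρ (lin c) (ρ z y₀))))
    (fun z => dir (z P) (z Q) = dir (z P) (z R))
    (fun z z' hz hz' => htwo z z' (by simp [hz, hz']))
  obtain ⟨b, hb⟩ := exists_const
    (fun z : Perm (F × F) => Ψ (fun c => f₃ (ρ (lin c) (ρ z y₀))))
    (fun z => dir (z P) (z Q) ≠ dir (z P) (z R))
    (fun z z' hz hz' => htwo z z' (by simp [hz, hz']))
  refine ⟨S₄, fun y => Ψ (fun c => f₃ (ρ (lin c) y)), a, b, ?_, fun g => ?_⟩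
  · exact der_trans hd₃ (der_of_slots hΨ hD (fun c => lin c) (fun y => rfl))
  · by_cases h : dir (g P) (g Q) = dir (g P) (g R)
    · exact Or.inl (ha g h)
    · exact Or.inr (hb g h)

end

end Helper37.BlockSets
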