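import Mathlib

/-!
Simulation of colourings: a background letter can be erased (by an iterated ultrafilter limit,
i.e. Ramsey's theorem), and cells can be regrouped into super-letters.
-/

open Filter

namespace Helper37.BlockSets

/-! ### Ultrafilter limits of finite colourings -/

theorem exists_ulim {k : ℕ} (g : ℕ → Fin k) :
    ∃ c, ∀ᶠ n in (hyperfilter ℕ : Filter ℕ), g n = c := by
  obtain ⟨a, ha⟩ := Ultrafilter.eq_pure_of_finite ((hyperfilter ℕ).map g)
  refine ⟨a, ?_⟩
  have h : ({a} : Set (Fin k)) ∈ (hyperfilter ℕ).map g := by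
    rw [ha]
    exact Set.mem_singleton a
  exact h

noncomputable def ulim {k : ℕ} (g : ℕ → Fin k) : Fin k := Classical.choose (exists_ulim g)

theorem ulim_spec {k : ℕ} (g : ℕ → Fin k) :
    ∀ᶠ n in (hyperfilter ℕ : Filter ℕ), g n = ulim g := Classical.choose_spec (exists_ulim g)

theorem ulim_congr {k : ℕ} {g g' : ℕ → Fin k}
    (h : ∀ᶠ n in (hyperfilter ℕ : Filter ℕ), g n = g' n) : ulim g = ulim g' := by
  obtain ⟨n, h1, h2, h3⟩ := (h.and ((ulim_spec g).and (ulim_spec g'))).exists
  rw [← h2, ← h3, h1]

theorem eventually_ge_ulim (N : ℕ) : ∀ᶠ n in (hyperfilter ℕ : Filter ℕ), N ≤ n :=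
  Nat.hyperfilter_le_atTop (eventually_ge_atTop N)

/-! ### The limit colouring -/

section Kap

variable {S : Type} {k : ℕ}

/-- `kap χ e r w`: the iterated limit colour of the words `w e..e r₁ e..e r₂ .. e..e`. -/
noncomputable def kap (χ : List S → Fin k) (e : S) : List S → List S → Fin k
  | [], w => ulim (fun n => χ (w ++ List.replicate (n - w.length) e))
  | q :: r, w => ulim (fun n => kap χ e r (w ++ List.replicate (n - w.length) e ++ [q]))

theorem pad_aux (w : List S) (e : S) (s n : ℕ) (h : w.length + s ≤ n) :
    (w ++ List.replicate s e) ++ List.replicate (n - (w ++ List.replicate s e).length) e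
      = w ++ List.replicate (n - w.length) e := by
  rw [List.append_assoc, ← List.replicate_add]
  congr 2
  simp only [List.length_append, List.length_replicate]
  omega

theorem kap_pad (χ : List S → Fin k) (e : S) (r w : List S) (s : ℕ) :
    kap χ e r (w ++ List.replicate s e) = kap χ e r w := by
  cases r with
  | nil =>
    simp only [kap]
    apply ulim_congr
    filter_upwards [eventually_ge_ulim (w.length + s)] with n hn
    rw [pad_aux w e s n hn]
  | cons q r =>
    simp only [kap]
    apply ulim_congr
    filter_upwards [eventually_ge_ulim (w.length + s)] with n hn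
    rw [pad_aux w e s n hn]

/-- Spread the letters of a word by inserting copies of `e`. -/
def spread (e : S) : List ℕ → List S → List S
  | gs, [] => List.replicate (gs.headD 0) e
  | gs, a :: u => List.replicate (gs.headD 0) e ++ a :: spread e gs.tail u

theorem spread_map {T : Type} (g : S → T) (e : S) (gs : List ℕ) (u : List S) :
    (spread e gs u).map g = spread (g e) gs (u.map g) := by
  induction u generalizing gs with
  | nil => simp [spread]
  | cons a u ih => simp [spread, ih]

open Classical in
theorem exists_spread (χ : List S → Fin k) (e : S) {Ξ : Type} [Finite Ξ] (m : ℕ) :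
    ∀ (u w : Ξ → List S) (l : ℕ), (∀ ξ, (u ξ).length = m) → (∀ ξ, (w ξ).length = l) →
      ∃ gs : List ℕ, ∀ ξ, χ (w ξ ++ spread e gs (u ξ))
        = kap χ e ((u ξ).filter (fun a => decide (a ≠ e))) (w ξ) := by
  induction m with
  | zero =>
    intro u w l hu hw
    have h : ∀ᶠ n in (hyperfilter ℕ : Filter ℕ), ∀ ξ,
        χ (w ξ ++ List.replicate (n - (w ξ).length) e) = kap χ e [] (w ξ) := by
      rw [eventually_all]
      intro ξ
      exact ulim_spec _
    obtain ⟨n, hn⟩ := h.exists
    refine ⟨[n - l], fun ξ => ?_⟩
    have h0 : u ξ = [] := List.length_eq_zero_iff.mp (hu ξ)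
    rw [h0]
    simp only [spread, List.headD_cons, List.filter_nil]
    rw [← hn ξ, hw ξ]
  | succ m ih =>
    intro u w l hu hw
    have hcons : ∀ ξ, ∃ a v, u ξ = a :: v ∧ v.length = m := by
      intro ξ
      have h1 := hu ξ
      cases h2 : u ξ with
      | nil => rw [h2] at h1; simp at h1
      | cons a v => exact ⟨a, v, rfl, by rw [h2] at h1; simpa using h1⟩
    choose a v hav hv using hcons
    have h : ∀ᶠ n in (hyperfilter ℕ : Filter ℕ), ∀ ξ,
        kap χ e ((v ξ).filter (fun a => decide (a ≠ e)))
          (w ξ ++ List.replicate (n - (w ξ).length) e ++ [a ξ])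
        = kap χ e ((u ξ).filter (fun a => decide (a ≠ e))) (w ξ) := by
      rw [eventually_all]
      intro ξ
      rw [hav ξ]
      by_cases hae : a ξ = e
      · refine Eventually.of_forall fun n => ?_
        have h3 : (a ξ :: v ξ).filter (fun a => decide (a ≠ e))
            = (v ξ).filter (fun a => decide (a ≠ e)) := by
          simp [hae]
        rw [h3, hae]
        have h4 : w ξ ++ List.replicate (n - (w ξ).length) e ++ [e]
            = w ξ ++ List.replicate (n - (w ξ).length + 1) e := by
          rw [List.append_assoc, List.replicate_succ']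
        rw [h4, kap_pad]
      · have h3 : (a ξ :: v ξ).filter (fun a => decide (a ≠ e))
            = a ξ :: (v ξ).filter (fun a => decide (a ≠ e)) := by
          simp [hae]
        rw [h3]
        exact ulim_spec _
    obtain ⟨n, hn⟩ := h.exists
    obtain ⟨gs, hgs⟩ := ih v
      (fun ξ => w ξ ++ List.replicate (n - (w ξ).length) e ++ [a ξ]) (l + (n - l) + 1) hv
      (fun ξ => by simp [hw ξ]; omega)
    refine ⟨(n - l) :: gs, fun ξ => ?_⟩
    rw [← hn ξ, ← hgs ξ, hav ξ]
    simp only [spread, List.headD_cons, List.tail_cons, hw ξ, List.append_assoc,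
      List.cons_append, List.nil_append]

end Kap

/-! ### Realised families of functions -/

section Real

variable {A E X : Type}

/-- The value of a cell of a word: either one of the functions `f i` or a constant. -/
def slotVal {I S : Type} (f : I → X → S) (x : X) : I ⊕ S → S := Sum.elim (fun i => f i x) id

/-- The number of occurrences of the block `e` in a cell. -/
def slotCnt {I S : Type} (c : I → E → ℕ) (e : E) : I ⊕ S → ℕ := Sum.elim (fun i => c i e) (fun _ => 0)

def tot {I S : Type} (c : I → E → ℕ) (U : List (I ⊕ S)) (e : E) : ℕ := (U.map (slotCnt c e)).sum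

open Classical in
/-- the counting function of the blocks themselves -/
noncomputable def dlt (e e' : E) : ℕ := if e = e' then 1 else 0

variable (ev : X → E → A)

/-- A family of functions `f i : X → S`, the cell `i` using the block `e` exactly `c i e` times, is
realised if every colouring of words over `A` induces a colouring of words over `S` which it
simulates. -/
def Real {I S : Type} (f : I → X → S) (c : I → E → ℕ) : Prop :=
  ∀ (k : ℕ) (χ : List A → Fin k), ∃ χ' : List S → Fin k, ∀ U : List (I ⊕ S),
    ∃ p : List (E ⊕ A), (∀ e, tot dlt p e = tot c U e) ∧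
      ∀ x, χ (p.map (slotVal (fun e x => ev x e) x)) = χ' (U.map (slotVal f x))

theorem real_base : Real ev (fun (e : E) x => ev x e) dlt := fun _ χ =>
  ⟨χ, fun U => ⟨U, fun _ => rfl, fun _ => rfl⟩⟩

variable {ev}

theorem real_reindex {I J S : Type} {f : I → X → S} {c : I → E → ℕ} (h : Real ev f c)
    (t : J → I ⊕ S) :
    Real ev (fun j x => slotVal f x (t j)) (fun j e => slotCnt c e (t j)) := by
  intro k χ
  obtain ⟨χ', h'⟩ := h k χ
  refine ⟨χ', fun U => ?_⟩
  obtain ⟨p, hp1, hp2⟩ := h' (U.map (Sum.elim t Sum.inr))
  refine ⟨p, fun e => ?_, fun x => ?_⟩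
  · rw [hp1 e]
    unfold tot
    rw [List.map_map]
    congr 1
    apply List.map_congr_left
    rintro (j | s) _ <;> rfl
  · rw [hp2 x, List.map_map]
    congr 1
    apply List.map_congr_left
    rintro (j | s) _ <;> rfl

/-- expansion of a cell into smaller cells -/
def expand {I J S : Type} (L : J → List (I ⊕ S)) : J ⊕ List S → List (I ⊕ S) :=
  Sum.elim L (fun l => l.map Sum.inr)

theorem tot_append {I S : Type} (c : I → E → ℕ) (U V : List (I ⊕ S)) (e : E) :
    tot c (U ++ V) e = tot c U e + tot c V e := by
  simp [tot]

theorem tot_inr {I S : Type} (c : I → E → ℕ) (l : List S) (e : E) :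
    tot c (l.map (Sum.inr : S → I ⊕ S)) e = 0 := by
  induction l with
  | nil => rfl
  | cons a l ih =>
    have : tot c ((a :: l).map (Sum.inr : S → I ⊕ S)) e
      = 0 + tot c (l.map (Sum.inr : S → I ⊕ S)) e := by simp [tot, slotCnt]
    rw [this, ih]

theorem tot_expand {I J S : Type} (c : I → E → ℕ) (L : J → List (I ⊕ S))
    (U : List (J ⊕ List S)) (e : E) :
    tot c (U.flatMap (expand L)) e = tot (fun j e => tot c (L j) e) U e := by
  induction U with
  | nil => rfl
  | cons a U ih =>
    rw [List.flatMap_cons, tot_append, ih]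
    have : tot (fun j e => tot c (L j) e) (a :: U) e
      = slotCnt (fun j e => tot c (L j) e) e a + tot (fun j e => tot c (L j) e) U e := by
      simp [tot]
    rw [this]
    congr 1
    rcases a with j | l
    · rfl
    · exact tot_inr c l e

theorem tot_spread {I S : Type} (c : I → E → ℕ) (s : S) (gs : List ℕ) (U : List (I ⊕ S)) (e : E) :
    tot c (spread (Sum.inr s) gs U) e = tot c U e := by
  have hrep : ∀ n, tot c (List.replicate n (Sum.inr s : I ⊕ S)) e = 0 := by
    intro n
    simp [tot, slotCnt]
  induction U generalizing gs with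
  | nil => simp only [spread]; rw [hrep]; rfl
  | cons a U ih =>
    simp only [spread]
    rw [tot_append, hrep]
    have h1 : ∀ V : List (I ⊕ S), tot c (a :: V) e = slotCnt c e a + tot c V e := by
      intro V; simp [tot]
    rw [h1, h1, ih]
    omega

open Classical in
/-- Erasing a letter and regrouping. -/
theorem real_erase [Finite X] {I J S : Type} {f : I → X → S} {c : I → E → ℕ} (h : Real ev f c)
    (e : S) (L : J → List (I ⊕ S)) :
    Real ev (fun j x => ((L j).map (slotVal f x)).filter (fun a => decide (a ≠ e)))
      (fun j e' => tot c (L j) e') := by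
  intro k χ
  obtain ⟨χ', h'⟩ := h k χ
  refine ⟨fun W => kap χ' e (W.flatten.filter (fun a => decide (a ≠ e))) [], fun U => ?_⟩
  set U0 := U.flatMap (expand L) with hU0
  obtain ⟨gs, hgs⟩ := exists_spread χ' e (Ξ := X) U0.length
    (fun x => U0.map (slotVal f x)) (fun _ => []) 0 (fun x => by simp) (fun x => rfl)
  obtain ⟨p, hp1, hp2⟩ := h' (spread (Sum.inr e) gs U0)
  refine ⟨p, fun e' => ?_, fun x => ?_⟩
  · rw [hp1 e', tot_spread, hU0, tot_expand]
  · rw [hp2 x, spread_map]
    have h1 : slotVal f x (Sum.inr e) = e := rfl
    rw [h1]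
    have h2 := hgs x
    rw [List.nil_append] at h2
    rw [h2]
    congr 1
    rw [hU0, List.map_flatMap, List.filter_flatMap, List.filter_flatten, List.map_map,
      List.flatMap_def]
    congr 1
    apply List.map_congr_left
    rintro (j | l) _
    · simp only [expand, Sum.elim_inl, Function.comp, slotVal]
      rw [List.filter_filter]
      simp
    · simp only [expand, Sum.elim_inr, Function.comp, slotVal, List.map_map]
      congr 1
      conv_rhs => rw [← List.map_id l]
      apply List.map_congr_left
      intro a _
      rfl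

/-- Regrouping without erasing. -/
theorem real_list {I J S : Type} {f : I → X → S} {c : I → E → ℕ} (h : Real ev f c)
    (L : J → List (I ⊕ S)) :
    Real ev (fun j x => (L j).map (slotVal f x)) (fun j e' => tot c (L j) e') := by
  intro k χ
  obtain ⟨χ', h'⟩ := h k χ
  refine ⟨fun W => χ' W.flatten, fun U => ?_⟩
  obtain ⟨p, hp1, hp2⟩ := h' (U.flatMap (expand L))
  refine ⟨p, fun e' => ?_, fun x => ?_⟩
  · rw [hp1 e', tot_expand]
  · rw [hp2 x]
    congr 1
    rw [List.map_flatMap, List.flatMap_def]
    congr 1
    apply List.map_congr_left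
    rintro (j | l) _
    · rfl
    · simp only [expand, Sum.elim_inr, slotVal, List.map_map]
      conv_rhs => rw [id, ← List.map_id l]
      apply List.map_congr_left
      intro a _
      rfl

end Real

end Helper37.BlockSets
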