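import Pool.Agent.Helper37.BFew

/-!
Symmetrising over a wreath product.
-/

namespace Helper37.BlockSets

open Equiv

section

variable {A E X : Type} {ev : X → E → A}

/-- permute the second coordinate, depending on the first -/
def fibHom (β γ : Type) : (β → Perm γ) →* Perm (β × γ) where
  toFun σ := prodShear (Equiv.refl β) σ
  map_one' := by
    ext ⟨a, b⟩ <;> simp [prodShear]
  map_mul' σ τ := by
    ext ⟨a, b⟩ <;> simp [prodShear]

/-- permute the first coordinate -/
def topHom (β γ : Type) : Perm β →* Perm (β × γ) where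
  toFun τ := prodCongr τ (Equiv.refl γ)
  map_one' := by
    ext ⟨a, b⟩ <;> simp
  map_mul' σ τ := by
    ext ⟨a, b⟩ <;> simp

theorem fibHom_apply {β γ : Type} (σ : β → Perm γ) (p : β × γ) :
    fibHom β γ σ p = (p.1, σ p.1 p.2) := rfl

theorem topHom_apply {β γ : Type} (τ : Perm β) (p : β × γ) :
    topHom β γ τ p = (τ p.1, p.2) := rfl

theorem exists_fib_inv [Finite X] {β γ : Type} [Fintype β] [DecidableEq β] [Fintype γ]
    [DecidableEq γ] (hγ : Good3 ev γ) {Y : Type} [Finite Y] (ρ : Perm (β × γ) →* Perm Y)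
    (hρ : Supp3 ρ) {S : Type} (f : Y → S) (s : Finset β) :
    ∃ (S' : Type) (f' : Y → S'), Der ev ρ f f' ∧
      ∀ σ : β → Perm γ, (∀ a, a ∉ s → σ a = 1) → ∀ y, f' (ρ (fibHom β γ σ) y) = f' y := by
  classical
  induction s using Finset.induction_on with
  | empty =>
    refine ⟨S, f, der_refl ρ f, fun σ hσ y => ?_⟩
    have h1 : σ = 1 := by
      funext a
      exact hσ a (by simp)
    rw [h1]
    simp
  | insert b s hbs ih =>
    obtain ⟨S₁, f₁, hd₁, hinv₁⟩ := ih
    let ι : Perm γ →* Perm (β × γ) := (fibHom β γ).comp (MonoidHom.mulSingle (fun _ => Perm γ) b)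
    have hsupp : Supp3 (ρ.comp ι) := by
      intro y
      obtain ⟨t, ht, hfix⟩ := hρ y
      refine ⟨(t.filter (fun p => p.1 = b)).image Prod.snd, ?_, fun g hg => ?_⟩
      · exact le_trans Finset.card_image_le (le_trans (Finset.card_filter_le _ _) ht)
      · apply hfix
        rintro ⟨p, q⟩ hp
        show fibHom β γ (Pi.mulSingle b g) (p, q) = (p, q)
        rw [fibHom_apply]
        by_cases h1 : p = b
        · subst h1
          rw [Pi.mulSingle_eq_same, hg q]
          exact Finset.mem_image.mpr ⟨(p, q), by simp [hp], rfl⟩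
        · rw [Pi.mulSingle_eq_of_ne h1]
          simp
    obtain ⟨S₂, f₂, ⟨F, D, hF, hD, hf₂⟩, hinv₂⟩ := hγ Y (ρ.comp ι) hsupp f₁
    refine ⟨S₂, f₂, der_trans hd₁ (der_hom ⟨F, D, hF, hD, hf₂⟩), fun σ hσ y => ?_⟩
    -- split off the coordinate `b`
    let σ' : β → Perm γ := Function.update σ b 1
    have hσ' : ∀ a, a ∉ s → σ' a = 1 := by
      intro a ha
      by_cases h1 : a = b
      · subst h1; simp [σ']
      · have h2 : σ' a = σ a := by simp [σ', h1]
        rw [h2]
        apply hσ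
        simp [h1, ha]
    have hsplit : fibHom β γ σ = ι (σ b) * fibHom β γ σ' := by
      show fibHom β γ σ = fibHom β γ (Pi.mulSingle b (σ b)) * fibHom β γ σ'
      rw [← map_mul]
      congr 1
      funext a
      by_cases h1 : a = b
      · subst h1; simp [σ']
      · simp [σ', h1]
    rw [hsplit, map_mul, Perm.mul_apply]
    have h1 := hinv₂ (σ b) (ρ (fibHom β γ σ') y)
    rw [MonoidHom.comp_apply] at h1
    rw [h1, hf₂, hf₂]
    congr 1
    funext g
    rw [MonoidHom.comp_apply, ← Perm.mul_apply, ← map_mul]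
    have hcomm : ι g * fibHom β γ σ' = fibHom β γ σ' * ι g := by
      show fibHom β γ (Pi.mulSingle b g) * fibHom β γ σ'
        = fibHom β γ σ' * fibHom β γ (Pi.mulSingle b g)
      rw [← map_mul, ← map_mul]
      congr 1
      funext a
      by_cases h1 : a = b
      · subst h1; simp [σ']
      · simp [h1]
    rw [hcomm, map_mul, Perm.mul_apply]
    exact hinv₁ σ' hσ' _

/-- Symmetrisation over the full wreath product. -/
theorem exists_wreath_inv [Finite X] {β γ : Type} [Fintype β] [DecidableEq β] [Fintype γ]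
    [DecidableEq γ] (hβ : Good3 ev β) (hγ : Good3 ev γ) {Y : Type} [Finite Y]
    (ρ : Perm (β × γ) →* Perm Y) (hρ : Supp3 ρ) {S : Type} (f : Y → S) :
    ∃ (S' : Type) (f' : Y → S'), Der ev ρ f f' ∧
      (∀ (σ : β → Perm γ) y, f' (ρ (fibHom β γ σ) y) = f' y) ∧
      (∀ (τ : Perm β) y, f' (ρ (topHom β γ τ) y) = f' y) := by
  classical
  obtain ⟨S₁, f₁, hd₁, hinv₁⟩ := exists_fib_inv hγ ρ hρ f (Finset.univ : Finset β)
  have hsupp : Supp3 (ρ.comp (topHom β γ)) := by
    intro y
    obtain ⟨t, ht, hfix⟩ := hρ y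
    refine ⟨t.image Prod.fst, le_trans Finset.card_image_le ht, fun g hg => ?_⟩
    apply hfix
    rintro ⟨p, q⟩ hp
    rw [topHom_apply, hg p (Finset.mem_image.mpr ⟨(p, q), hp, rfl⟩)]
  obtain ⟨S₂, f₂, ⟨F, D, hF, hD, hf₂⟩, hinv₂⟩ := hβ Y (ρ.comp (topHom β γ)) hsupp f₁
  refine ⟨S₂, f₂, der_trans hd₁ (der_hom ⟨F, D, hF, hD, hf₂⟩), fun σ y => ?_, fun τ y => ?_⟩
  · rw [hf₂, hf₂]
    congr 1
    funext g
    rw [MonoidHom.comp_apply, ← Perm.mul_apply, ← map_mul]
    have hcomm : topHom β γ g * fibHom β γ σ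
        = fibHom β γ (fun b => σ (g⁻¹ b)) * topHom β γ g := by
      ext ⟨a, b⟩ <;> simp [topHom_apply, fibHom_apply]
    rw [hcomm, map_mul, Perm.mul_apply]
    exact hinv₁ _ (fun a ha => absurd (Finset.mem_univ a) ha) _
  · exact hinv₂ τ y

/-- Extension of a partial injection of a finite set. -/
theorem exists_perm_extend {α : Type} [Finite α] (t : Finset α) (g : α → α)
    (hg : ∀ a ∈ t, ∀ b ∈ t, g a = g b → a = b) : ∃ π : Perm α, ∀ a ∈ t, π a = g a := by
  classical
  have := Fintype.ofFinite α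
  let e : {a // a ∈ t} ≃ {a // a ∈ t.image g} := Equiv.ofBijective
    (fun a => ⟨g a.1, Finset.mem_image_of_mem g a.2⟩) (by
      constructor
      · rintro ⟨a, ha⟩ ⟨b, hb⟩ hab
        simp only [Subtype.mk.injEq] at hab
        exact Subtype.ext (hg a ha b hb hab)
      · rintro ⟨b, hb⟩
        obtain ⟨a, ha, rfl⟩ := Finset.mem_image.mp hb
        exact ⟨⟨a, ha⟩, rfl⟩)
  refine ⟨e.extendSubtype, fun a ha => ?_⟩
  rw [Equiv.extendSubtype_apply_of_mem e a ha]
  rfl

/-- An element of the wreath product which agrees with a permutation on a set on which the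
permutation respects the blocks. -/
theorem exists_wreath_extend {β γ : Type} [Finite β] [Finite γ] (t : Finset (β × γ))
    (φ : Perm (β × γ)) (h : ∀ p ∈ t, ∀ q ∈ t, p.1 = q.1 ↔ (φ p).1 = (φ q).1) :
    ∃ (τ : Perm β) (σ : β → Perm γ), ∀ p ∈ t, topHom β γ τ (fibHom β γ σ p) = φ p := by
  classical
  -- the permutation of the blocks
  have h1 : ∃ g : β → β, ∀ p ∈ t, g p.1 = (φ p).1 := by
    refine ⟨fun a => if ha : ∃ p ∈ t, p.1 = a then (φ ha.choose).1 else a, fun p hp => ?_⟩
    have ha : ∃ q ∈ t, q.1 = p.1 := ⟨p, hp, rfl⟩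
    beta_reduce
    rw [dif_pos ha]
    exact (h _ ha.choose_spec.1 p hp).mp ha.choose_spec.2
  obtain ⟨g, hg⟩ := h1
  obtain ⟨τ, hτ⟩ := exists_perm_extend (t.image Prod.fst) g (by
    intro a ha b hb hab
    obtain ⟨p, hp, rfl⟩ := Finset.mem_image.mp ha
    obtain ⟨q, hq, rfl⟩ := Finset.mem_image.mp hb
    rw [hg p hp, hg q hq] at hab
    exact (h p hp q hq).mpr hab)
  -- the permutations inside the blocks
  have h2 : ∀ a : β, ∃ π : Perm γ, ∀ b, (a, b) ∈ t → π b = (φ (a, b)).2 := by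
    intro a
    obtain ⟨π, hπ⟩ := exists_perm_extend ((t.filter (fun p => p.1 = a)).image Prod.snd)
      (fun b => (φ (a, b)).2) (by
        intro b hb c hc hbc
        obtain ⟨⟨a', b'⟩, hp, hb'⟩ := Finset.mem_image.mp hb
        obtain ⟨⟨a'', c'⟩, hq, hc'⟩ := Finset.mem_image.mp hc
        rw [Finset.mem_filter] at hp hq
        simp only at hb' hc' hp hq
        obtain ⟨hp, rfl⟩ := hp
        obtain ⟨hq, rfl⟩ := hq
        subst hb' hc'
        have h3 : φ (a'', b') = φ (a'', c') :=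
          Prod.ext ((h _ hp _ hq).mp rfl) hbc
        have h4 := φ.injective h3
        exact (Prod.mk.injEq _ _ _ _ ▸ h4).2)
    refine ⟨π, fun b hb => hπ b ?_⟩
    exact Finset.mem_image.mpr ⟨(a, b), by simp [hb], rfl⟩
  choose σ hσ using h2
  refine ⟨τ, σ, ?_⟩
  rintro ⟨a, b⟩ hp
  rw [fibHom_apply, topHom_apply]
  apply Prod.ext
  · show τ a = (φ (a, b)).1
    rw [hτ a (Finset.mem_image.mpr ⟨(a, b), hp, rfl⟩), ← hg (a, b) hp]
  · exact hσ a b hp

end

end Helper37.BlockSets
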