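import Mathlib

namespace Pool.Agent.Helper37.Benzel

/-- code of a tile: middle cell `(s, a)`, upper cell `(s-1, a-u)`, lower cell `(s+1, a+v)` -/
@[ext] structure Tl where
  s : ℤ
  a : ℤ
  u : ℤ
  v : ℤ

def Tl.Mem (q : Tl) (s a : ℤ) : Prop :=
  (s = q.s - 1 ∧ a = q.a - q.u) ∨ (s = q.s ∧ a = q.a) ∨ (s = q.s + 1 ∧ a = q.a + q.v)

def Tl.Val (q : Tl) : Prop := 0 ≤ q.u ∧ q.u ≤ 1 ∧ 0 ≤ q.v ∧ q.v ≤ 1

def Reg (n j A s a : ℤ) : Prop :=
  3 * j - 1 ≤ s ∧ s ≤ 3 * n + 1 ∧ s - 2 ≤ 3 * a ∧ 3 * a ≤ 2 * s ∧ 2 * s ≤ 3 * a + 3 * n + 1 ∧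
    3 * a ≤ 3 * n - 1 + s ∧ ¬ (s = 3 * j - 1 ∧ a = A)

structure Til (n j A : ℤ) (K : Set Tl) : Prop where
  val : ∀ q ∈ K, q.Val
  sub : ∀ q ∈ K, ∀ s a, q.Mem s a → Reg n j A s a
  cov : ∀ s a, Reg n j A s a → ∃ q ∈ K, q.Mem s a
  uni : ∀ q ∈ K, ∀ q' ∈ K, ∀ s a, q.Mem s a → q'.Mem s a → q = q'

def Band (j A g d : ℤ) : Set Tl :=
  {q | (q.s = 3 * j ∧ j ≤ q.a ∧ q.a ≤ 2 * j ∧ q.a ≠ g ∧ q.v = 0 ∧
      ((A < q.a ∧ q.a < g ∧ q.u = 0) ∨ ((q.a ≤ A ∨ g < q.a) ∧ q.u = 1))) ∨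
    (q.s = 3 * j + 1 ∧ q.a = g ∧ q.u = 0 ∧ q.v = d)}

def Final (n A : ℤ) : Set Tl :=
  {q | q.s = 3 * n ∧ n ≤ q.a ∧ q.a ≤ 2 * n - 1 ∧ q.v = 1 ∧
      ((A < q.a ∧ q.u = 0) ∨ (q.a ≤ A ∧ q.u = 1))}

theorem Til.top {n j A : ℤ} {K : Set Tl} (h : Til n j A K) {q : Tl} (hq : q ∈ K) :
    Reg n j A (q.s - 1) (q.a - q.u) := h.sub q hq _ _ (Or.inl ⟨rfl, rfl⟩)

theorem Til.mid {n j A : ℤ} {K : Set Tl} (h : Til n j A K) {q : Tl} (hq : q ∈ K) :
    Reg n j A q.s q.a := h.sub q hq _ _ (Or.inr (Or.inl ⟨rfl, rfl⟩))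

theorem Til.bot {n j A : ℤ} {K : Set Tl} (h : Til n j A K) {q : Tl} (hq : q ∈ K) :
    Reg n j A (q.s + 1) (q.a + q.v) := h.sub q hq _ _ (Or.inr (Or.inr ⟨rfl, rfl⟩))

/-- the first row consists of upper cells -/
theorem Til.first {n j A : ℤ} {K : Set Tl} (h : Til n j A K) (a : ℤ)
    (ha : Reg n j A (3 * j - 1) a) :
    (∃ q ∈ K, q.s = 3 * j ∧ q.a = a ∧ q.u = 0) ∨ (∃ q ∈ K, q.s = 3 * j ∧ q.a = a + 1 ∧ q.u = 1) := by
  obtain ⟨q, hq, hm⟩ := h.cov _ _ ha
  have ht := h.top hq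
  have hmid := h.mid hq
  have hv := h.val q hq
  unfold Tl.Val at hv
  unfold Reg at ht hmid
  rcases hm with hm | hm | hm
  · rcases (by omega : q.u = 0 ∨ q.u = 1) with hu | hu
    · left; exact ⟨q, hq, by omega, by omega, hu⟩
    · right; exact ⟨q, hq, by omega, by omega, hu⟩
  · omega
  · omega

/-- cells left of the hole -/
theorem Til.left {n j A : ℤ} {K : Set Tl} (h : Til n j A K) (hjn : j ≤ n) (hA : A ≤ 2 * j - 1) (k : ℕ) :
    j - 1 + k < A → ∃ q ∈ K, q.s = 3 * j ∧ q.a = j + k ∧ q.u = 1 := by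
  induction k with
  | zero =>
    intro hk
    rcases h.first (j - 1) (by unfold Reg; push_cast at hk; omega) with ⟨q, hq, h1, h2, h3⟩ | ⟨q, hq, h1, h2, h3⟩
    · have := h.mid hq
      unfold Reg at this
      omega
    · exact ⟨q, hq, h1, by push_cast; omega, h3⟩
  | succ k ih =>
    intro hk
    push_cast at hk
    obtain ⟨q', hq', h1', h2', h3'⟩ := ih (by omega)
    rcases h.first (j + k) (by unfold Reg; omega) with ⟨q, hq, h1, h2, h3⟩ | ⟨q, hq, h1, h2, h3⟩
    · have := h.uni q hq q' hq' q.s q.a (Or.inr (Or.inl ⟨rfl, rfl⟩)) (Or.inr (Or.inl ⟨by omega, by omega⟩))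
      rw [this] at h3
      omega
    · exact ⟨q, hq, h1, by push_cast; omega, h3⟩

/-- the threshold -/
theorem Til.thresh {n j A : ℤ} {K : Set Tl} (h : Til n j A K) (hjn : j ≤ n)
    (hA0 : j - 1 ≤ A) (hA : A ≤ 2 * j - 1) :
    ∃ g : ℤ, A + 1 ≤ g ∧ g ≤ 2 * j ∧
      (∀ a, A < a → a < g → ∃ q ∈ K, q.s = 3 * j ∧ q.a = a ∧ q.u = 0) ∧
      (∀ a, g ≤ a → a < 2 * j → ∃ q ∈ K, q.s = 3 * j ∧ q.a = a + 1 ∧ q.u = 1) := by
  classical
  let p : ℕ → Prop := fun k => A + 1 + k = 2 * j ∨ ∃ q ∈ K, q.s = 3 * j ∧ q.a = A + 1 + k + 1 ∧ q.u = 1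
  have hp0 : p (2 * j - A - 1).toNat := by
    left
    omega
  have hex : ∃ k, p k := ⟨_, hp0⟩
  have hle := Nat.find_min' hex hp0
  have hsp := Nat.find_spec hex
  refine ⟨A + 1 + Nat.find hex, by omega, by omega, ?_, ?_⟩
  · intro a ha1 ha2
    have hk : ((a - A - 1).toNat : ℤ) = a - A - 1 := by omega
    have hlt : (a - A - 1).toNat < Nat.find hex := by omega
    have hR : Reg n j A (3 * j - 1) a := by
      clear hsp
      unfold Reg
      omega
    have hnp := Nat.find_min hex hlt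
    simp only [p, not_or] at hnp
    rw [hk] at hnp
    rcases h.first a hR with h1 | ⟨q, hq, h1, h2, h3⟩
    · exact h1
    · have e1 : q.a = A + 1 + (a - A - 1) + 1 := by
        clear hnp hsp
        omega
      exact absurd ⟨q, hq, h1, e1, h3⟩ hnp.2
  · intro a ha1 ha2
    have key : ∀ k : ℕ, A + 1 + Nat.find hex + k < 2 * j →
        ∃ q ∈ K, q.s = 3 * j ∧ q.a = A + 1 + Nat.find hex + k + 1 ∧ q.u = 1 := by
      intro k
      induction k with
      | zero =>
        intro hk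
        push_cast at hk
        rcases hsp with h1 | ⟨q, hq, h1, h2, h3⟩
        · omega
        · exact ⟨q, hq, h1, by push_cast; omega, h3⟩
      | succ k ih =>
        intro hk
        push_cast at hk
        obtain ⟨q', hq', h1', h2', h3'⟩ := ih (by omega)
        rcases h.first (A + 1 + Nat.find hex + k + 1) (by unfold Reg; omega) with
          ⟨q, hq, h1, h2, h3⟩ | ⟨q, hq, h1, h2, h3⟩
        · have := h.uni q hq q' hq' q.s q.a (Or.inr (Or.inl ⟨rfl, rfl⟩))
            (Or.inr (Or.inl ⟨by omega, by omega⟩))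
          rw [this] at h3
          omega
        · exact ⟨q, hq, h1, by push_cast; omega, h3⟩
    obtain ⟨q, hq, h1, h2, h3⟩ := key (a - (A + 1 + Nat.find hex)).toNat (by omega)
    exact ⟨q, hq, h1, by omega, h3⟩

theorem band_fwd {n j A : ℤ} {K : Set Tl} (hj0 : 0 ≤ j) (hjn : j < n) (hA0 : j - 1 ≤ A)
    (hA : A ≤ 2 * j - 1) (h : Til n j A K) :
    ∃ g d : ℤ, ∃ K' : Set Tl, A + 1 ≤ g ∧ g ≤ 2 * j ∧ 0 ≤ d ∧ d ≤ 1 ∧
      Til n (j + 1) (g + d) K' ∧ K = Band j A g d ∪ K' := by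
  obtain ⟨g, hg1, hg2, hmidl, hmidr⟩ := h.thresh hjn.le hA0 hA
  have hleft := h.left hjn.le hA
  -- the middle row
  have hrow : ∀ a, j ≤ a → a ≤ 2 * j → a ≠ g → ∃ q ∈ K, q.s = 3 * j ∧ q.a = a ∧
      ((A < a ∧ a < g ∧ q.u = 0) ∨ ((a ≤ A ∨ g < a) ∧ q.u = 1)) := by
    intro a h1 h2 h3
    by_cases h4 : a ≤ A
    · obtain ⟨q, hq, hs, ha, hu⟩ := hleft (a - j).toNat (by omega)
      exact ⟨q, hq, hs, by omega, Or.inr ⟨Or.inl h4, hu⟩⟩
    · by_cases h5 : a < g
      · obtain ⟨q, hq, hs, ha, hu⟩ := hmidl a (by omega) h5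
        exact ⟨q, hq, hs, ha, Or.inl ⟨by omega, h5, hu⟩⟩
      · obtain ⟨q, hq, hs, ha, hu⟩ := hmidr (a - 1) (by omega) (by omega)
        exact ⟨q, hq, hs, by omega, Or.inr ⟨Or.inr (by omega), hu⟩⟩
  -- the cell `g` of the middle row is not a middle cell
  have hnomid : ∀ q ∈ K, q.s = 3 * j → q.a ≠ g := by
    intro q hq hs hag
    have ht := h.top hq
    have hv := h.val q hq
    unfold Tl.Val at hv
    unfold Reg at ht
    rcases (by omega : q.u = 0 ∨ q.u = 1) with hu | hu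
    · obtain ⟨q', hq', hs', ha', hu'⟩ := hmidr g le_rfl (by omega)
      have := h.uni q hq q' hq' (q.s - 1) (q.a - q.u) (Or.inl ⟨rfl, rfl⟩) (Or.inl ⟨by omega, by omega⟩)
      rw [this] at hag
      omega
    · obtain ⟨q', hq', hs', ha', hu'⟩ := hmidl (g - 1) (by omega) (by omega)
      have := h.uni q hq q' hq' (q.s - 1) (q.a - q.u) (Or.inl ⟨rfl, rfl⟩) (Or.inl ⟨by omega, by omega⟩)
      rw [this] at hag
      omega
  -- lower cells to the right of `g`
  have hright : ∀ k : ℕ, g < 2 * j - k → ∃ q ∈ K, q.s = 3 * j ∧ q.a = 2 * j - k ∧ q.v = 0 := by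
    intro k
    induction k with
    | zero =>
      intro hk
      push_cast at hk
      obtain ⟨q, hq, hs, ha, -⟩ := hrow (2 * j) (by omega) le_rfl (by omega)
      have hb := h.bot hq
      have hv := h.val q hq
      unfold Tl.Val at hv
      unfold Reg at hb
      exact ⟨q, hq, hs, by push_cast; omega, by omega⟩
    | succ k ih =>
      intro hk
      push_cast at hk
      obtain ⟨q', hq', hs', ha', hv'⟩ := ih (by omega)
      obtain ⟨q, hq, hs, ha, -⟩ := hrow (2 * j - k - 1) (by omega) (by omega) (by omega)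
      have hv := h.val q hq
      unfold Tl.Val at hv
      refine ⟨q, hq, hs, by push_cast; omega, ?_⟩
      by_contra hne
      have := h.uni q hq q' hq' (q.s + 1) (q.a + q.v) (Or.inr (Or.inr ⟨rfl, rfl⟩))
        (Or.inr (Or.inr ⟨by omega, by omega⟩))
      rw [this] at ha
      omega
  have hright' : ∀ a, g < a → a ≤ 2 * j → ∃ q ∈ K, q.s = 3 * j ∧ q.a = a ∧ q.v = 0 := by
    intro a h1 h2
    obtain ⟨q, hq, h3, h4, h5⟩ := hright (2 * j - a).toNat (by omega)
    exact ⟨q, hq, h3, by omega, h5⟩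
  -- the special tile
  obtain ⟨z, hz, hzs, hza, hzu⟩ : ∃ z ∈ K, z.s = 3 * j + 1 ∧ z.a = g ∧ z.u = 0 := by
    obtain ⟨q, hq, hm⟩ := h.cov (3 * j) g (by unfold Reg; omega)
    have ht := h.top hq
    have hmid := h.mid hq
    have hv := h.val q hq
    unfold Tl.Val at hv
    unfold Reg at ht hmid
    rcases hm with hm | hm | hm
    · rcases (by omega : q.u = 0 ∨ q.u = 1) with hu | hu
      · exact ⟨q, hq, by omega, by omega, hu⟩
      · exfalso
        obtain ⟨q', hq', hs', ha', hv'⟩ := hright' (g + 1) (by omega) (by omega)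
        have := h.uni q hq q' hq' q.s q.a (Or.inr (Or.inl ⟨rfl, rfl⟩))
          (Or.inr (Or.inr ⟨by omega, by omega⟩))
        rw [this] at hm
        omega
    · exact absurd hm.2.symm (hnomid q hq hm.1.symm)
    · omega
  have hzv := h.val z hz
  unfold Tl.Val at hzv
  -- lower cells to the left of `g`
  have hlow : ∀ k : ℕ, j ≤ g - 1 - k → ∃ q ∈ K, q.s = 3 * j ∧ q.a = g - 1 - k ∧ q.v = 0 := by
    intro k
    induction k with
    | zero =>
      intro hk
      push_cast at hk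
      obtain ⟨q, hq, hs, ha, -⟩ := hrow (g - 1) (by omega) (by omega) (by omega)
      have hv := h.val q hq
      unfold Tl.Val at hv
      refine ⟨q, hq, hs, by push_cast; omega, ?_⟩
      by_contra hne
      have := h.uni q hq z hz (q.s + 1) (q.a + q.v) (Or.inr (Or.inr ⟨rfl, rfl⟩))
        (Or.inr (Or.inl ⟨by omega, by omega⟩))
      rw [this] at ha
      omega
    | succ k ih =>
      intro hk
      push_cast at hk
      obtain ⟨q', hq', hs', ha', hv'⟩ := ih (by omega)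
      obtain ⟨q, hq, hs, ha, -⟩ := hrow (g - 1 - k - 1) (by omega) (by omega) (by omega)
      have hv := h.val q hq
      unfold Tl.Val at hv
      refine ⟨q, hq, hs, by push_cast; omega, ?_⟩
      by_contra hne
      have := h.uni q hq q' hq' (q.s + 1) (q.a + q.v) (Or.inr (Or.inr ⟨rfl, rfl⟩))
        (Or.inr (Or.inr ⟨by omega, by omega⟩))
      rw [this] at ha
      omega
  -- all lower cells
  have hall : ∀ a, j ≤ a → a ≤ 2 * j → a ≠ g → ∃ q ∈ K, q.s = 3 * j ∧ q.a = a ∧ q.v = 0 ∧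
      ((A < a ∧ a < g ∧ q.u = 0) ∨ ((a ≤ A ∨ g < a) ∧ q.u = 1)) := by
    intro a h1 h2 h3
    obtain ⟨q, hq, hs, ha, hu⟩ := hrow a h1 h2 h3
    have : ∃ q' ∈ K, q'.s = 3 * j ∧ q'.a = a ∧ q'.v = 0 := by
      by_cases h4 : g < a
      · exact hright' a h4 h2
      · obtain ⟨q', hq', hs', ha', hv'⟩ := hlow (g - 1 - a).toNat (by omega)
        exact ⟨q', hq', hs', by omega, hv'⟩
    obtain ⟨q', hq', hs', ha', hv'⟩ := this
    have := h.uni q hq q' hq' q.s q.a (Or.inr (Or.inl ⟨rfl, rfl⟩))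
      (Or.inr (Or.inl ⟨by omega, by omega⟩))
    subst this
    exact ⟨q, hq, hs, ha, hv', hu⟩
  have hreg : ∀ s a, Reg n (j + 1) (g + z.v) s a → Reg n j A s a ∧ 3 * j + 2 ≤ s ∧
      ¬ (s = 3 * j + 2 ∧ a = g + z.v) := by
    intro s a hR
    unfold Reg at hR ⊢
    omega
  -- description of the tiles of `K` in the first rows
  have hdesc : ∀ q ∈ K, q.s ≤ 3 * j + 2 → q ∈ Band j A g z.v := by
    intro q hq hs
    have ht := h.top hq
    have hmid := h.mid hq
    have hv := h.val q hq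
    unfold Tl.Val at hv
    have ht' := ht
    have hmid' := hmid
    unfold Reg at ht' hmid'
    rcases (by omega : q.s = 3 * j ∨ q.s = 3 * j + 1 ∨ q.s = 3 * j + 2) with hs' | hs' | hs'
    · left
      have hne := hnomid q hq hs'
      obtain ⟨q', hq', h1, h2, h3, h4⟩ := hall q.a (by omega) (by omega) hne
      have := h.uni q hq q' hq' q.s q.a (Or.inr (Or.inl ⟨rfl, rfl⟩))
        (Or.inr (Or.inl ⟨by omega, by omega⟩))
      subst this
      exact ⟨hs', by omega, by omega, hne, h3, h4⟩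
    · right
      by_cases hne : q.a = g
      · have := h.uni q hq z hz q.s q.a (Or.inr (Or.inl ⟨rfl, rfl⟩))
          (Or.inr (Or.inl ⟨by omega, by omega⟩))
        rw [this]
        exact ⟨hzs, hza, hzu, rfl⟩
      · exfalso
        obtain ⟨q', hq', h1, h2, h3, h4⟩ := hall q.a (by omega) (by omega) hne
        have := h.uni q hq q' hq' q.s q.a (Or.inr (Or.inl ⟨rfl, rfl⟩))
          (Or.inr (Or.inr ⟨by omega, by omega⟩))
        rw [this] at hs'
        omega
    · exfalso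
      by_cases hne : q.a - q.u = g
      · have := h.uni q hq z hz (q.s - 1) (q.a - q.u) (Or.inl ⟨rfl, rfl⟩)
          (Or.inr (Or.inl ⟨by omega, by omega⟩))
        rw [this] at hs'
        omega
      · obtain ⟨q', hq', h1, h2, h3, h4⟩ := hall (q.a - q.u) (by omega) (by omega) hne
        have := h.uni q hq q' hq' (q.s - 1) (q.a - q.u) (Or.inl ⟨rfl, rfl⟩)
          (Or.inr (Or.inr ⟨by omega, by omega⟩))
        rw [this] at hs'
        omega
  refine ⟨g, z.v, {q | q ∈ K ∧ 3 * j + 3 ≤ q.s}, hg1, hg2, hzv.2.2.1, hzv.2.2.2, ?_, ?_⟩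
  · refine ⟨?_, ?_, ?_, ?_⟩
    · rintro q ⟨hq, -⟩
      exact h.val q hq
    · rintro q ⟨hq, hs⟩ s a hm
      have hR := h.sub q hq s a hm
      have hne : ¬ (s = 3 * j + 2 ∧ a = g + z.v) := by
        rintro ⟨h1, h2⟩
        have := h.uni q hq z hz s a hm (Or.inr (Or.inr ⟨by omega, by omega⟩))
        rw [this] at hs
        omega
      have hs2 : 3 * j + 2 ≤ s := by
        rcases hm with hm | hm | hm <;> omega
      unfold Reg at hR ⊢
      omega
    · intro s a hR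
      obtain ⟨h1, h2, h3⟩ := hreg s a hR
      obtain ⟨q, hq, hm⟩ := h.cov s a h1
      refine ⟨q, ⟨hq, ?_⟩, hm⟩
      by_contra hlt
      have hB := hdesc q hq (by omega)
      rcases hB with hB | hB
      · rcases hm with hm | hm | hm <;> omega
      · rcases hm with hm | hm | hm <;> omega
    · rintro q ⟨hq, -⟩ q' ⟨hq', -⟩ s a hm hm'
      exact h.uni q hq q' hq' s a hm hm'
  · ext q
    constructor
    · intro hq
      by_cases hs : 3 * j + 3 ≤ q.s
      · exact Or.inr ⟨hq, hs⟩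
      · exact Or.inl (hdesc q hq (by omega))
    · rintro (hB | hK)
      · rcases hB with ⟨h1, h2, h3, h4, h5, h6⟩ | ⟨h1, h2, h3, h4⟩
        · obtain ⟨q', hq', h1', h2', h3', h4'⟩ := hall q.a h2 h3 h4
          have : q = q' := by
            ext <;> omega
          rw [this]; exact hq'
        · have : q = z := by
            ext <;> omega
          rw [this]; exact hz
      · exact hK.1

theorem band_bwd {n j A g d : ℤ} {K' : Set Tl} (hj0 : 0 ≤ j) (hjn : j < n) (hA0 : j - 1 ≤ A)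
    (hA : A ≤ 2 * j - 1) (hg1 : A + 1 ≤ g) (hg2 : g ≤ 2 * j) (hd0 : 0 ≤ d) (hd1 : d ≤ 1)
    (h : Til n (j + 1) (g + d) K') : Til n j A (Band j A g d ∪ K') := by
  have hcross : ∀ q ∈ Band j A g d, ∀ q' ∈ K', ∀ s a, q.Mem s a → q'.Mem s a → False := by
    intro q hq q' hq' s a hm hm'
    have hR := h.sub q' hq' s a hm'
    unfold Reg at hR
    rcases hq with hB | hB
    · rcases hm with hm | hm | hm <;> omega
    · rcases hm with hm | hm | hm <;> omega
  refine ⟨?_, ?_, ?_, ?_⟩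
  · rintro q ((hB | hB) | hq)
    · unfold Tl.Val; omega
    · unfold Tl.Val; omega
    · exact h.val q hq
  · rintro q ((hB | hB) | hq) s a hm
    · unfold Reg
      rcases hm with hm | hm | hm <;> omega
    · unfold Reg
      rcases hm with hm | hm | hm <;> omega
    · have := h.sub q hq s a hm
      unfold Reg at this ⊢
      omega
  · intro s a hR
    have hR' := hR
    unfold Reg at hR'
    have mk : ∀ q : Tl, q ∈ Band j A g d → q.Mem s a →
        ∃ q ∈ Band j A g d ∪ K', q.Mem s a := fun q hq hm => ⟨q, Or.inl hq, hm⟩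
    rcases (by omega : s = 3 * j - 1 ∨ s = 3 * j ∨ s = 3 * j + 1 ∨ (s = 3 * j + 2 ∧ a = g + d) ∨
      (3 * j + 2 ≤ s ∧ ¬ (s = 3 * j + 2 ∧ a = g + d))) with hs | hs | hs | hs | hs
    · rcases (by omega : a < A ∨ (A < a ∧ a < g) ∨ (A < a ∧ g ≤ a)) with h1 | h1 | h1
      · exact mk ⟨3 * j, a + 1, 1, 0⟩ (Or.inl ⟨rfl, by dsimp only; omega, by dsimp only; omega,
          by dsimp only; omega, rfl, Or.inr ⟨by dsimp only; omega, rfl⟩⟩)
          (Or.inl ⟨by dsimp only; omega, by dsimp only; omega⟩)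
      · exact mk ⟨3 * j, a, 0, 0⟩ (Or.inl ⟨rfl, by dsimp only; omega, by dsimp only; omega,
          by dsimp only; omega, rfl, Or.inl ⟨by dsimp only; omega, by dsimp only; omega, rfl⟩⟩)
          (Or.inl ⟨by dsimp only; omega, by dsimp only; omega⟩)
      · exact mk ⟨3 * j, a + 1, 1, 0⟩ (Or.inl ⟨rfl, by dsimp only; omega, by dsimp only; omega,
          by dsimp only; omega, rfl, Or.inr ⟨by dsimp only; omega, rfl⟩⟩)
          (Or.inl ⟨by dsimp only; omega, by dsimp only; omega⟩)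
    · by_cases h1 : a = g
      · exact mk ⟨3 * j + 1, g, 0, d⟩ (Or.inr ⟨rfl, rfl, rfl, rfl⟩)
          (Or.inl ⟨by dsimp only; omega, by dsimp only; omega⟩)
      · by_cases h2 : A < a ∧ a < g
        · exact mk ⟨3 * j, a, 0, 0⟩ (Or.inl ⟨rfl, by dsimp only; omega, by dsimp only; omega,
            by dsimp only; omega, rfl, Or.inl ⟨by dsimp only; omega, by dsimp only; omega, rfl⟩⟩)
            (Or.inr (Or.inl ⟨by dsimp only; omega, by dsimp only⟩))
        · exact mk ⟨3 * j, a, 1, 0⟩ (Or.inl ⟨rfl, by dsimp only; omega, by dsimp only; omega,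
            by dsimp only; omega, rfl, Or.inr ⟨by dsimp only; omega, rfl⟩⟩)
            (Or.inr (Or.inl ⟨by dsimp only; omega, by dsimp only⟩))
    · by_cases h1 : a = g
      · exact mk ⟨3 * j + 1, g, 0, d⟩ (Or.inr ⟨rfl, rfl, rfl, rfl⟩)
          (Or.inr (Or.inl ⟨by dsimp only; omega, by dsimp only; omega⟩))
      · by_cases h2 : A < a ∧ a < g
        · exact mk ⟨3 * j, a, 0, 0⟩ (Or.inl ⟨rfl, by dsimp only; omega, by dsimp only; omega,
            by dsimp only; omega, rfl, Or.inl ⟨by dsimp only; omega, by dsimp only; omega, rfl⟩⟩)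
            (Or.inr (Or.inr ⟨by dsimp only; omega, by dsimp only; omega⟩))
        · exact mk ⟨3 * j, a, 1, 0⟩ (Or.inl ⟨rfl, by dsimp only; omega, by dsimp only; omega,
            by dsimp only; omega, rfl, Or.inr ⟨by dsimp only; omega, rfl⟩⟩)
            (Or.inr (Or.inr ⟨by dsimp only; omega, by dsimp only; omega⟩))
    · exact mk ⟨3 * j + 1, g, 0, d⟩ (Or.inr ⟨rfl, rfl, rfl, rfl⟩)
          (Or.inr (Or.inr ⟨by dsimp only; omega, by dsimp only; omega⟩))
    · obtain ⟨q, hq, hm⟩ := h.cov s a (by unfold Reg; omega)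
      exact ⟨q, Or.inr hq, hm⟩
  · rintro q (hq | hq) q' (hq' | hq') s a hm hm'
    · have h1 : q.s = q'.s ∧ q.a = q'.a := by
        rcases hq with hB | hB <;> rcases hq' with hB' | hB' <;>
          rcases hm with hm | hm | hm <;> rcases hm' with hm' | hm' | hm' <;> omega
      rcases hq with hB | hB <;> rcases hq' with hB' | hB' <;> ext <;> omega
    · exact (hcross q hq q' hq' s a hm hm').elim
    · exact (hcross q' hq' q hq s a hm' hm).elim
    · exact h.uni q hq q' hq' s a hm hm'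

theorem final_fwd {n A : ℤ} {K : Set Tl} (hn : 1 ≤ n) (hA0 : n - 1 ≤ A) (hA : A ≤ 2 * n - 1)
    (h : Til n n A K) : K = Final n A := by
  obtain ⟨g, hg1, hg2, hmidl, hmidr⟩ := h.thresh le_rfl hA0 hA
  have hleft := h.left le_rfl hA
  have hg : g = 2 * n := by
    by_contra hne
    obtain ⟨q, hq, h1, h2, h3⟩ := hmidr (2 * n - 1) (by omega) (by omega)
    have := h.mid hq
    unfold Reg at this
    omega
  subst hg
  have hrow : ∀ a, n ≤ a → a ≤ 2 * n - 1 → ∃ q ∈ K, q.s = 3 * n ∧ q.a = a ∧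
      ((A < a ∧ q.u = 0) ∨ (a ≤ A ∧ q.u = 1)) := by
    intro a h1 h2
    by_cases h4 : a ≤ A
    · obtain ⟨q, hq, hs, ha, hu⟩ := hleft (a - n).toNat (by omega)
      exact ⟨q, hq, hs, by omega, Or.inr ⟨h4, hu⟩⟩
    · obtain ⟨q, hq, hs, ha, hu⟩ := hmidl a (by omega) (by omega)
      exact ⟨q, hq, hs, ha, Or.inl ⟨by omega, hu⟩⟩
  have hlow : ∀ k : ℕ, n + k ≤ 2 * n - 1 → ∃ q ∈ K, q.s = 3 * n ∧ q.a = n + k ∧ q.v = 1 := by
    intro k
    induction k with
    | zero =>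
      intro hk
      push_cast at hk
      obtain ⟨q, hq, hs, ha, -⟩ := hrow n le_rfl (by omega)
      have hb := h.bot hq
      have hv := h.val q hq
      unfold Tl.Val at hv
      unfold Reg at hb
      exact ⟨q, hq, hs, by push_cast; omega, by omega⟩
    | succ k ih =>
      intro hk
      push_cast at hk
      obtain ⟨q', hq', hs', ha', hv'⟩ := ih (by omega)
      obtain ⟨q, hq, hs, ha, -⟩ := hrow (n + k + 1) (by omega) (by omega)
      have hv := h.val q hq
      unfold Tl.Val at hv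
      refine ⟨q, hq, hs, by push_cast; omega, ?_⟩
      by_contra hne
      have := h.uni q hq q' hq' (q.s + 1) (q.a + q.v) (Or.inr (Or.inr ⟨rfl, rfl⟩))
        (Or.inr (Or.inr ⟨by omega, by omega⟩))
      rw [this] at ha
      omega
  have hall : ∀ a, n ≤ a → a ≤ 2 * n - 1 → ∃ q ∈ K, q.s = 3 * n ∧ q.a = a ∧ q.v = 1 ∧
      ((A < a ∧ q.u = 0) ∨ (a ≤ A ∧ q.u = 1)) := by
    intro a h1 h2
    obtain ⟨q, hq, hs, ha, hu⟩ := hrow a h1 h2
    obtain ⟨q', hq', hs', ha', hv'⟩ := hlow (a - n).toNat (by omega)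
    have := h.uni q hq q' hq' q.s q.a (Or.inr (Or.inl ⟨rfl, rfl⟩))
      (Or.inr (Or.inl ⟨by omega, by omega⟩))
    subst this
    exact ⟨q, hq, hs, ha, hv', hu⟩
  ext q
  constructor
  · intro hq
    have ht := h.top hq
    have hmid := h.mid hq
    have hb := h.bot hq
    unfold Reg at ht hmid hb
    obtain ⟨q', hq', h1, h2, h3, h4⟩ := hall q.a (by omega) (by omega)
    have := h.uni q hq q' hq' q.s q.a (Or.inr (Or.inl ⟨rfl, rfl⟩))
      (Or.inr (Or.inl ⟨by omega, by omega⟩))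
    subst this
    exact ⟨h1, by omega, by omega, h3, h4⟩
  · rintro ⟨h1, h2, h3, h4, h5⟩
    obtain ⟨q', hq', h1', h2', h3', h4'⟩ := hall q.a h2 h3
    have : q = q' := by
      ext <;> omega
    rw [this]; exact hq'

theorem final_bwd {n A : ℤ} (hn : 1 ≤ n) (hA0 : n - 1 ≤ A) (hA : A ≤ 2 * n - 1) :
    Til n n A (Final n A) := by
  refine ⟨?_, ?_, ?_, ?_⟩
  · rintro q ⟨h1, h2, h3, h4, h5⟩
    unfold Tl.Val; omega
  · rintro q ⟨h1, h2, h3, h4, h5⟩ s a hm
    unfold Reg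
    rcases hm with hm | hm | hm <;> omega
  · intro s a hR
    unfold Reg at hR
    have mk : ∀ q : Tl, q ∈ Final n A → q.Mem s a →
        ∃ q ∈ Final n A, q.Mem s a := fun q hq hm => ⟨q, hq, hm⟩
    rcases (by omega : s = 3 * n - 1 ∨ s = 3 * n ∨ s = 3 * n + 1) with hs | hs | hs
    · rcases (by omega : a < A ∨ A < a) with h1 | h1
      · exact mk ⟨3 * n, a + 1, 1, 1⟩ ⟨rfl, by dsimp only; omega, by dsimp only; omega, rfl,
          Or.inr ⟨by dsimp only; omega, rfl⟩⟩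
          (Or.inl ⟨by dsimp only; omega, by dsimp only; omega⟩)
      · exact mk ⟨3 * n, a, 0, 1⟩ ⟨rfl, by dsimp only; omega, by dsimp only; omega, rfl,
          Or.inl ⟨by dsimp only; omega, rfl⟩⟩
          (Or.inl ⟨by dsimp only; omega, by dsimp only; omega⟩)
    · rcases (by omega : a ≤ A ∨ A < a) with h1 | h1
      · exact mk ⟨3 * n, a, 1, 1⟩ ⟨rfl, by dsimp only; omega, by dsimp only; omega, rfl,
          Or.inr ⟨by dsimp only; omega, rfl⟩⟩
          (Or.inr (Or.inl ⟨by dsimp only; omega, by dsimp only⟩))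
      · exact mk ⟨3 * n, a, 0, 1⟩ ⟨rfl, by dsimp only; omega, by dsimp only; omega, rfl,
          Or.inl ⟨by dsimp only; omega, rfl⟩⟩
          (Or.inr (Or.inl ⟨by dsimp only; omega, by dsimp only⟩))
    · rcases (by omega : a - 1 ≤ A ∨ A < a - 1) with h1 | h1
      · exact mk ⟨3 * n, a - 1, 1, 1⟩ ⟨rfl, by dsimp only; omega, by dsimp only; omega, rfl,
          Or.inr ⟨by dsimp only; omega, rfl⟩⟩
          (Or.inr (Or.inr ⟨by dsimp only; omega, by dsimp only; omega⟩))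
      · exact mk ⟨3 * n, a - 1, 0, 1⟩ ⟨rfl, by dsimp only; omega, by dsimp only; omega, rfl,
          Or.inl ⟨by dsimp only; omega, rfl⟩⟩
          (Or.inr (Or.inr ⟨by dsimp only; omega, by dsimp only; omega⟩))
  · rintro q ⟨h1, h2, h3, h4, h5⟩ q' ⟨h1', h2', h3', h4', h5'⟩ s a hm hm'
    have : q.a = q'.a := by
      rcases hm with hm | hm | hm <;> rcases hm' with hm' | hm' | hm' <;> omega
    ext <;> omega

end Pool.Agent.Helper37.Benzel
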