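import Mathlib

namespace Pool.Agent.Helper37.Benzel

/-- integer points of three-space, coordinates indexed by `0, 1, 2` (added cyclically) -/
abbrev Pt := Fin 3 → ℤ

/-- the unit vector `e_r` -/
def e (r : Fin 3) : Pt := Pi.single r 1

/-- the `(a,b)`-benzel: the cells `c` (coordinate sum `1`) such that the three cyclic differences
`c (r+1) - c r` lie between `-(a-1)` and `b-1` -/
def benzel (a b : ℕ) : Set Pt :=
  {c | c 0 + c 1 + c 2 = 1 ∧
    ∀ r : Fin 3, -((a : ℤ) - 1) ≤ c (r + 1) - c r ∧ c (r + 1) - c r ≤ (b : ℤ) - 1}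

/-- right stone `{u + e₀, u + e₁, u + e₂}`, where `u` has coordinate sum `0` -/
def IsRightStone (s : Set Pt) : Prop :=
  ∃ u : Pt, u 0 + u 1 + u 2 = 0 ∧ s = {u + e 0, u + e 1, u + e 2}

/-- left stone `{v - e₀, v - e₁, v - e₂}`, where `v` has coordinate sum `2` -/
def IsLeftStone (s : Set Pt) : Prop :=
  ∃ v : Pt, v 0 + v 1 + v 2 = 2 ∧ s = {v - e 0, v - e 1, v - e 2}

/-- bone `{x - d, x, x + d}` in the direction `d = e_r - e_{r+1}`, where `x` is a cell -/
def IsBone (r : Fin 3) (s : Set Pt) : Prop :=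
  ∃ x : Pt, x 0 + x 1 + x 2 = 1 ∧ s = {x - (e r - e (r + 1)), x, x + (e r - e (r + 1))}

/-- pieces allowed when the bones of direction number `q` are excluded: right stones, left stones
and the bones of the other two directions -/
def IsPiece (q : Fin 3) (s : Set Pt) : Prop :=
  IsRightStone s ∨ IsLeftStone s ∨ ∃ r : Fin 3, r ≠ q ∧ IsBone r s

/-- `P` is a tiling of `B` by allowed pieces: every member of `P` is an allowed piece contained
in `B`, and every cell of `B` lies in exactly one member of `P` -/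
def IsTiling (q : Fin 3) (B : Set Pt) (P : Set (Set Pt)) : Prop :=
  (∀ s ∈ P, IsPiece q s ∧ s ⊆ B) ∧ ∀ c ∈ B, ∃! s, s ∈ P ∧ c ∈ s

/-- the number of tilings of the `(a,b)`-benzel by right stones, left stones and the bones of the
two directions other than `q` -/
noncomputable def T112 (q : Fin 3) (a b : ℕ) : ℕ := Set.ncard {P | IsTiling q (benzel a b) P}

/-- `w` is a list of steps `(1,0)`, `(0,1)`, `(1,1)` of a path from `(0,0)` to `(n,n)` that never
goes above the line `y = x` -/
def IsSchroderPath (n : ℕ) (w : List (ℕ × ℕ)) : Prop :=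
  (∀ s ∈ w, s = (1, 0) ∨ s = (0, 1) ∨ s = (1, 1)) ∧ w.sum = (n, n) ∧
    ∀ i, (w.take i).sum.2 ≤ (w.take i).sum.1

/-- the large Schröder number: the number of such paths -/
noncomputable def schroder (n : ℕ) : ℕ := Set.ncard {w | IsSchroderPath n w}

end Pool.Agent.Helper37.Benzel
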