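import Pool.Agent.Helper37.BenzelCore
import Pool.Agent.Helper37.BenzelDefs

namespace Pool.Agent.Helper37.Benzel

/-- admissible lists -/
def Adm : ℕ → ℤ → ℤ → List (ℤ × ℤ) → Prop
  | 0, _, _, l => l = []
  | m + 1, j, A, l => ∃ g d l', l = (g, d) :: l' ∧ A + 1 ≤ g ∧ g ≤ 2 * j ∧ 0 ≤ d ∧ d ≤ 1 ∧
      Adm m (j + 1) (g + d) l'

def build : ℕ → ℤ → ℤ → List (ℤ × ℤ) → Set Tl
  | 0, j, A, _ => Final j A
  | _ + 1, _, _, [] => ∅
  | m + 1, j, A, (g, d) :: l => Band j A g d ∪ build m (j + 1) (g + d) l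

theorem build_spec (m : ℕ) : ∀ j A : ℤ, 0 ≤ j → 1 ≤ j + m → j - 1 ≤ A → A ≤ 2 * j - 1 →
    {K | Til (j + m) j A K} = build m j A '' {l | Adm m j A l} := by
  induction m with
  | zero =>
    intro j A hj0 hjm hA0 hA
    push_cast at hjm
    have hjn : j + ((0 : ℕ) : ℤ) = j := by push_cast; ring
    rw [hjn]
    ext K
    simp only [Set.mem_setOf_eq, Set.mem_image, Adm]
    constructor
    · intro h
      exact ⟨[], rfl, (final_fwd (by omega) hA0 hA h).symm⟩
    · rintro ⟨l, -, rfl⟩
      exact final_bwd (by omega) hA0 hA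
  | succ m ih =>
    intro j A hj0 hjm hA0 hA
    have hjn : j + ((m + 1 : ℕ) : ℤ) = (j + 1) + (m : ℤ) := by push_cast; ring
    rw [hjn]
    ext K
    simp only [Set.mem_setOf_eq, Set.mem_image]
    constructor
    · intro h
      obtain ⟨g, d, K', h1, h2, h3, h4, h5, h6⟩ := band_fwd hj0 (by omega) hA0 hA h
      have h5' : K' ∈ {K | Til ((j + 1) + m) (j + 1) (g + d) K} := h5
      rw [ih (j + 1) (g + d) (by omega) (by omega) (by omega) (by omega)] at h5'
      obtain ⟨l, hl, rfl⟩ := h5'
      exact ⟨(g, d) :: l, ⟨g, d, l, rfl, h1, h2, h3, h4, hl⟩, h6.symm⟩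
    · rintro ⟨l, ⟨g, d, l', rfl, h1, h2, h3, h4, hl⟩, rfl⟩
      have : build m (j + 1) (g + d) l' ∈ {K | Til ((j + 1) + m) (j + 1) (g + d) K} := by
        rw [ih (j + 1) (g + d) (by omega) (by omega) (by omega) (by omega)]
        exact ⟨l', hl, rfl⟩
      exact band_bwd hj0 (by omega) hA0 hA h1 h2 h3 h4 this

theorem build_low (m : ℕ) : ∀ j A : ℤ, 0 ≤ j → 1 ≤ j + m → j - 1 ≤ A → A ≤ 2 * j - 1 →
    ∀ l, Adm m j A l → ∀ q ∈ build m j A l, 3 * j ≤ q.s := by
  intro j A hj0 hjm hA0 hA l hl q hq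
  have : build m j A l ∈ {K | Til (j + m) j A K} := by
    rw [build_spec m j A hj0 hjm hA0 hA]
    exact ⟨l, hl, rfl⟩
  have := Til.top this hq
  unfold Reg at this
  omega

theorem build_inj (m : ℕ) : ∀ j A : ℤ, 0 ≤ j → 1 ≤ j + m → j - 1 ≤ A → A ≤ 2 * j - 1 →
    Set.InjOn (build m j A) {l | Adm m j A l} := by
  induction m with
  | zero =>
    intro j A hj0 hjm hA0 hA l hl l' hl' _
    simp only [Set.mem_setOf_eq, Adm] at hl hl'
    rw [hl, hl']
  | succ m ih =>
    intro j A hj0 hjm hA0 hA l hl l' hl' heq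
    obtain ⟨g, d, k, rfl, h1, h2, h3, h4, hk⟩ := hl
    obtain ⟨g', d', k', rfl, h1', h2', h3', h4', hk'⟩ := hl'
    have hlow := build_low m (j + 1) (g + d) (by omega) (by push_cast at hjm; omega) (by omega)
      (by omega) k hk
    have hlow' := build_low m (j + 1) (g' + d') (by omega) (by push_cast at hjm; omega) (by omega)
      (by omega) k' hk'
    change Band j A g d ∪ build m (j + 1) (g + d) k =
      Band j A g' d' ∪ build m (j + 1) (g' + d') k' at heq
    have hz : (⟨3 * j + 1, g, 0, d⟩ : Tl) ∈ Band j A g' d' ∪ build m (j + 1) (g' + d') k' := by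
      rw [← heq]
      exact Or.inl (Or.inr ⟨rfl, rfl, rfl, rfl⟩)
    have hgd : g = g' ∧ d = d' := by
      rcases hz with (hB | hB) | hB
      · exfalso
        have := hB.1
        dsimp only at this
        omega
      · exact ⟨hB.2.1, hB.2.2.2⟩
      · exfalso
        have := hlow' _ hB
        dsimp only at this
        omega
    obtain ⟨rfl, rfl⟩ := hgd
    have hsub : ∀ q : Tl, q ∈ Band j A g d → q.s ≤ 3 * j + 1 := by
      rintro q (hB | hB) <;> omega
    have hkk : build m (j + 1) (g + d) k = build m (j + 1) (g + d) k' := by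
      ext q
      constructor
      · intro hq
        have : q ∈ Band j A g d ∪ build m (j + 1) (g + d) k' := by
          rw [← heq]; exact Or.inr hq
        rcases this with hB | hB
        · have := hsub q hB
          have := hlow q hq
          omega
        · exact hB
      · intro hq
        have : q ∈ Band j A g d ∪ build m (j + 1) (g + d) k := by
          rw [heq]; exact Or.inr hq
        rcases this with hB | hB
        · have := hsub q hB
          have := hlow' q hq
          omega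
        · exact hB
    rw [ih (j + 1) (g + d) (by omega) (by push_cast at hjm; omega) (by omega) (by omega) hk hk' hkk]

theorem til_encard (m : ℕ) (j A : ℤ) (hj0 : 0 ≤ j) (hjm : 1 ≤ j + m) (hA0 : j - 1 ≤ A)
    (hA : A ≤ 2 * j - 1) :
    {K | Til (j + m) j A K}.encard = {l | Adm m j A l}.encard := by
  rw [build_spec m j A hj0 hjm hA0 hA]
  exact (build_inj m j A hj0 hjm hA0 hA).encard_image

/-! ### lists versus lattice paths -/

theorem adm_zero (j A : ℤ) : {l | Adm 0 j A l}.encard = 1 := by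
  have : {l : List (ℤ × ℤ) | Adm 0 j A l} = {[]} := by
    ext l; simp [Adm]
  rw [this, Set.encard_singleton]

theorem adm_empty (m : ℕ) (j A : ℤ) (h : 2 * j < A + 1) : {l | Adm (m + 1) j A l}.encard = 0 := by
  rw [Set.encard_eq_zero]
  ext l
  simp only [Set.mem_setOf_eq, Set.mem_empty_iff_false, iff_false]
  rintro ⟨g, d, l', -, h1, h2, -⟩
  omega

theorem encard_union3 {α : Type*} (s t u : Set α) (h1 : Disjoint s t) (h2 : Disjoint s u)
    (h3 : Disjoint t u) : (s ∪ t ∪ u).encard = s.encard + t.encard + u.encard := by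
  rw [Set.encard_union_eq, Set.encard_union_eq h1]
  exact Set.disjoint_union_left.2 ⟨h2, h3⟩

theorem adm_succ (m : ℕ) (j A : ℤ) (h : A + 1 ≤ 2 * j) : {l | Adm (m + 1) j A l}.encard =
    {l | Adm m (j + 1) (A + 1) l}.encard + {l | Adm m (j + 1) (A + 2) l}.encard +
      {l | Adm (m + 1) j (A + 1) l}.encard := by
  have hinj : ∀ x : ℤ × ℤ, Function.Injective (List.cons x) := fun x => List.cons_injective
  rw [← (hinj (A + 1, 0)).encard_image {l | Adm m (j + 1) (A + 1) l},
    ← (hinj (A + 1, 1)).encard_image {l | Adm m (j + 1) (A + 2) l}]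
  rw [← encard_union3]
  · congr 1
    ext l
    simp only [Set.mem_setOf_eq, Set.mem_union, Set.mem_image]
    constructor
    · rintro ⟨g, d, l', rfl, h1, h2, h3, h4, h5⟩
      by_cases hg : g = A + 1
      · subst hg
        rcases (by omega : d = 0 ∨ d = 1) with rfl | rfl
        · left; left
          refine ⟨l', ?_, rfl⟩
          rw [add_zero] at h5
          exact h5
        · left; right
          refine ⟨l', ?_, rfl⟩
          have : A + 1 + 1 = A + 2 := by ring
          rw [this] at h5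
          exact h5
      · right
        exact ⟨g, d, l', rfl, by omega, h2, h3, h4, h5⟩
    · rintro ((⟨l', hl', rfl⟩ | ⟨l', hl', rfl⟩) | ⟨g, d, l', rfl, h1, h2, h3, h4, h5⟩)
      · exact ⟨A + 1, 0, l', rfl, le_rfl, h, le_rfl, by norm_num, by rw [add_zero]; exact hl'⟩
      · refine ⟨A + 1, 1, l', rfl, le_rfl, h, by norm_num, le_rfl, ?_⟩
        have : A + 1 + 1 = A + 2 := by ring
        rw [this]
        exact hl'
      · exact ⟨g, d, l', rfl, by omega, h2, h3, h4, h5⟩
  · rw [Set.disjoint_left]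
    rintro l ⟨l', -, rfl⟩ ⟨l'', -, h⟩
    simp at h
  · rw [Set.disjoint_left]
    rintro l ⟨l', -, rfl⟩ ⟨g, d, l'', h, h1, -⟩
    simp only [List.cons.injEq, Prod.mk.injEq] at h
    omega
  · rw [Set.disjoint_left]
    rintro l ⟨l', -, rfl⟩ ⟨g, d, l'', h, h1, -⟩
    simp only [List.cons.injEq, Prod.mk.injEq] at h
    omega

/-- paths from `(x,y)` to `(n,n)` -/
def PathFrom (n x y : ℕ) (w : List (ℕ × ℕ)) : Prop :=
  (∀ s ∈ w, s = (1, 0) ∨ s = (0, 1) ∨ s = (1, 1)) ∧ x + w.sum.1 = n ∧ y + w.sum.2 = n ∧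
    ∀ i, y + (w.take i).sum.2 ≤ x + (w.take i).sum.1

theorem pathFrom_nil (n x y : ℕ) : PathFrom n x y [] ↔ x = n ∧ y = n ∧ y ≤ x := by
  simp [PathFrom]

theorem pathFrom_cons (n x y : ℕ) (s : ℕ × ℕ) (w : List (ℕ × ℕ)) :
    PathFrom n x y (s :: w) ↔ (s = (1, 0) ∨ s = (0, 1) ∨ s = (1, 1)) ∧ y ≤ x ∧
      PathFrom n (x + s.1) (y + s.2) w := by
  simp only [PathFrom, List.mem_cons, forall_eq_or_imp, List.sum_cons, Prod.fst_add, Prod.snd_add]
  constructor
  · rintro ⟨⟨h1, h2⟩, h3, h4, h5⟩
    refine ⟨h1, ?_, h2, by omega, by omega, ?_⟩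
    · simpa using h5 0
    · intro i
      have := h5 (i + 1)
      simp only [List.take_succ_cons, List.sum_cons, Prod.fst_add, Prod.snd_add] at this
      omega
  · rintro ⟨h1, h2, h3, h4, h5, h6⟩
    refine ⟨⟨h1, h3⟩, by omega, by omega, ?_⟩
    intro i
    cases i with
    | zero => simpa using h2
    | succ i =>
      have := h6 i
      simp only [List.take_succ_cons, List.sum_cons, Prod.fst_add, Prod.snd_add]
      omega

theorem path_zero (n x y : ℕ) (h : n < x ∨ n < y ∨ x < y) : {w | PathFrom n x y w}.encard = 0 := by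
  rw [Set.encard_eq_zero]
  ext w
  simp only [Set.mem_setOf_eq, Set.mem_empty_iff_false, iff_false]
  rintro ⟨-, h1, h2, h3⟩
  have := h3 0
  simp at this
  omega

theorem path_one (n : ℕ) : {w | PathFrom n n n w}.encard = 1 := by
  have : {w | PathFrom n n n w} = {[]} := by
    ext w
    simp only [Set.mem_setOf_eq, Set.mem_singleton_iff]
    cases w with
    | nil => simp [pathFrom_nil]
    | cons s w =>
      simp only [reduceCtorEq, iff_false]
      rw [pathFrom_cons]
      rintro ⟨h1, -, -, h2, h3, -⟩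
      rcases h1 with rfl | rfl | rfl
      · simp only at h2; omega
      · simp only at h3; omega
      · simp only at h3; omega
  rw [this, Set.encard_singleton]

theorem path_succ (n x y : ℕ) (hyx : y ≤ x) (hne : ¬ (x = n ∧ y = n)) :
    {w | PathFrom n x y w}.encard = {w | PathFrom n (x + 1) y w}.encard +
      {w | PathFrom n (x + 1) (y + 1) w}.encard + {w | PathFrom n x (y + 1) w}.encard := by
  have hinj : ∀ x : ℕ × ℕ, Function.Injective (List.cons x) := fun x => List.cons_injective
  rw [← (hinj (1, 0)).encard_image {w | PathFrom n (x + 1) y w},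
    ← (hinj (1, 1)).encard_image {w | PathFrom n (x + 1) (y + 1) w},
    ← (hinj (0, 1)).encard_image {w | PathFrom n x (y + 1) w}]
  rw [← encard_union3]
  · congr 1
    ext w
    simp only [Set.mem_setOf_eq, Set.mem_union, Set.mem_image]
    cases w with
    | nil =>
      rw [pathFrom_nil]
      constructor
      · rintro ⟨h1, h2, -⟩; exact absurd ⟨h1, h2⟩ hne
      · rintro ((⟨l', -, h⟩ | ⟨l', -, h⟩) | ⟨l', -, h⟩) <;> simp at h
    | cons s w =>
      rw [pathFrom_cons]
      constructor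
      · rintro ⟨rfl | rfl | rfl, h2, h3⟩
        · left; left; exact ⟨w, h3, rfl⟩
        · right; exact ⟨w, h3, rfl⟩
        · left; right; exact ⟨w, h3, rfl⟩
      · rintro ((⟨l', h', h⟩ | ⟨l', h', h⟩) | ⟨l', h', h⟩)
        · rw [List.cons.injEq] at h
          obtain ⟨rfl, rfl⟩ := h
          exact ⟨Or.inl rfl, hyx, h'⟩
        · rw [List.cons.injEq] at h
          obtain ⟨rfl, rfl⟩ := h
          exact ⟨Or.inr (Or.inr rfl), hyx, h'⟩
        · rw [List.cons.injEq] at h
          obtain ⟨rfl, rfl⟩ := h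
          exact ⟨Or.inr (Or.inl rfl), hyx, h'⟩
  · rw [Set.disjoint_left]
    rintro l ⟨l', -, rfl⟩ ⟨l'', -, h⟩
    simp at h
  · rw [Set.disjoint_left]
    rintro l ⟨l', -, rfl⟩ ⟨l'', -, h⟩
    simp at h
  · rw [Set.disjoint_left]
    rintro l ⟨l', -, rfl⟩ ⟨l'', -, h⟩
    simp at h

theorem path_last (n : ℕ) (k : ℕ) : ∀ a, a + k = n → {w | PathFrom n n a w}.encard = 1 := by
  induction k with
  | zero =>
    intro a ha
    have : a = n := by omega
    subst this
    exact path_one _
  | succ k ih =>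
    intro a ha
    rw [path_succ n n a (by omega) (by omega), path_zero n (n + 1) a (by omega),
      path_zero n (n + 1) (a + 1) (by omega), ih (a + 1) (by omega)]
    simp

theorem adm_eq_path (m : ℕ) : ∀ (j k a : ℕ), a + k = j + 1 →
    (m = 0 → a ≤ j) →
    {l | Adm m j (a + j - 1) l}.encard = {w | PathFrom (j + m) j a w}.encard := by
  induction m with
  | zero =>
    intro j k a h h0
    rw [adm_zero, add_zero, path_last j (j - a) a (by have := h0 rfl; omega)]
  | succ m ih =>
    intro j k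
    induction k with
    | zero =>
      intro a h _
      rw [adm_empty m j _ (by omega), path_zero _ _ _ (by omega)]
    | succ k ihk =>
      intro a h _
      rw [adm_succ m j _ (by omega), path_succ _ _ _ (by omega) (by omega)]
      have e1 : ((a : ℤ) + j - 1 + 1) = (a : ℤ) + ((j + 1 : ℕ) : ℤ) - 1 := by push_cast; ring
      have e2 : ((a : ℤ) + j - 1 + 2) = ((a + 1 : ℕ) : ℤ) + ((j + 1 : ℕ) : ℤ) - 1 := by
        push_cast; ring
      have e3 : ((a : ℤ) + j - 1 + 1) = ((a + 1 : ℕ) : ℤ) + (j : ℤ) - 1 := by push_cast; ring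
      have e4 : (j : ℤ) + 1 = ((j + 1 : ℕ) : ℤ) := by push_cast; ring
      have e5 : j + (m + 1) = (j + 1) + m := by ring
      rw [e5]
      have i1 := ih (j + 1) (j + 2 - a) a (by omega) (by omega)
      have i2 := ih (j + 1) (j + 2 - (a + 1)) (a + 1) (by omega) (by omega)
      have i3 := ihk (a + 1) (by omega) (by omega)
      rw [e5] at i3
      rw [← i1, ← i2, ← i3]
      congr 2
      · rw [e4, e1]
      · rw [e4, e2]
      · rw [e3]

theorem til_eq_path (n : ℕ) (hn : 1 ≤ n) :
    {K | Til n 0 (-1) K}.encard = {w | IsSchroderPath n w}.encard := by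
  have h1 := til_encard n 0 (-1) le_rfl (by omega) (by omega) (by omega)
  rw [zero_add] at h1
  rw [h1]
  have h2 := adm_eq_path n 0 1 0 rfl (fun _ => le_rfl)
  simp only [Nat.cast_zero, zero_add] at h2
  have e : (0 : ℤ) - 1 = -1 := by ring
  rw [e] at h2
  rw [h2]
  congr 1
  ext w
  simp only [Set.mem_setOf_eq, PathFrom, IsSchroderPath, zero_add, Prod.ext_iff]
  tauto

end Pool.Agent.Helper37.Benzel
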