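import Pool.Agent.Helper37.BenzelCount

set_option linter.unusedSimpArgs false
set_option linter.deprecated false

namespace Pool.Agent.Helper37.Benzel

theorem tri : ∀ q r : Fin 3, r = q ∨ r = q + 1 ∨ r = q + 2 := by decide

theorem tri' : ∀ q r : Fin 3, r ≠ q → r = q + 1 ∨ r = q + 2 := by decide

theorem q11 : ∀ q : Fin 3, q + 1 + 1 = q + 2 := by decide

theorem q21 : ∀ q : Fin 3, q + 2 + 1 = q := by decide

theorem q2ne : ∀ q : Fin 3, q + 2 ≠ q := by decide

theorem q1ne : ∀ q : Fin 3, q + 1 ≠ q := by decide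

/-- the cell in row `s` with position `a` -/
def phi (n : ℤ) (q : Fin 3) (s a : ℤ) : Pt :=
  fun r => if r = q + 1 then n - a else if r = q + 2 then 2 * a - s + 1 else s - a - n

def tileSet (n : ℤ) (q : Fin 3) (t : Tl) : Set Pt :=
  {phi n q (t.s - 1) (t.a - t.u), phi n q t.s t.a, phi n q (t.s + 1) (t.a + t.v)}

theorem phi_a (n : ℤ) (q : Fin 3) (s a : ℤ) : phi n q s a (q + 1) = n - a := by
  simp [phi]

theorem phi_q (n : ℤ) (q : Fin 3) (s a : ℤ) : phi n q s a q = s - a - n := by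
  fin_cases q <;> simp [phi]

theorem phi_b (n : ℤ) (q : Fin 3) (s a : ℤ) : phi n q s a (q + 2) = 2 * a - s + 1 := by
  fin_cases q <;> simp [phi]

theorem phi_inj (n : ℤ) (q : Fin 3) (s a s' a' : ℤ) (h : phi n q s a = phi n q s' a') :
    s = s' ∧ a = a' := by
  have h1 := congrFun h (q + 1)
  have h2 := congrFun h q
  rw [phi_a, phi_a] at h1
  rw [phi_q, phi_q] at h2
  omega

theorem sum_eq (q : Fin 3) (c : Pt) : c 0 + c 1 + c 2 = c q + c (q + 1) + c (q + 2) := by
  fin_cases q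
  · rfl
  · change c 0 + c 1 + c 2 = c 1 + c 2 + c 0
    ring
  · change c 0 + c 1 + c 2 = c 2 + c 0 + c 1
    ring

theorem ext3 (q : Fin 3) (c c' : Pt) (h0 : c q = c' q) (h1 : c (q + 1) = c' (q + 1))
    (h2 : c (q + 2) = c' (q + 2)) : c = c' := by
  funext r
  rcases tri q r with rfl | rfl | rfl
  · exact h0
  · exact h1
  · exact h2

theorem eq_phi (n : ℤ) (q : Fin 3) (c : Pt) (h : c 0 + c 1 + c 2 = 1) :
    c = phi n q (c q + (n - c (q + 1)) + n) (n - c (q + 1)) := by
  rw [sum_eq q] at h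
  apply ext3 q
  · rw [phi_q]; ring
  · rw [phi_a]; ring
  · rw [phi_b]; omega

theorem phi_sum (n : ℤ) (q : Fin 3) (s a : ℤ) :
    phi n q s a 0 + phi n q s a 1 + phi n q s a 2 = 1 := by
  rw [sum_eq q, phi_q, phi_a, phi_b]; ring

theorem forall_fin3 (q : Fin 3) (p : Fin 3 → Prop) : (∀ r, p r) ↔ p q ∧ p (q + 1) ∧ p (q + 2) := by
  constructor
  · intro h; exact ⟨h _, h _, h _⟩
  · rintro ⟨h0, h1, h2⟩ r
    rcases tri q r with rfl | rfl | rfl
    · exact h0
    · exact h1
    · exact h2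

theorem mem_benzel (n : ℕ) (q : Fin 3) (s a : ℤ) :
    phi n q s a ∈ benzel (n + 2) (2 * n + 1) ↔ Reg n 0 (-1) s a := by
  unfold benzel Reg
  rw [Set.mem_setOf_eq, forall_fin3 q, q11, q21, phi_q, phi_a, phi_b, phi_sum]
  push_cast
  constructor
  · rintro ⟨-, ⟨h1, h2⟩, ⟨h3, h4⟩, h5, h6⟩
    refine ⟨?_, ?_, ?_, ?_, ?_, ?_, ?_⟩ <;> omega
  · rintro ⟨h1, h2, h3, h4, h5, h6, h7⟩
    refine ⟨trivial, ⟨?_, ?_⟩, ⟨?_, ?_⟩, ?_, ?_⟩ <;> omega

theorem mem_tileSet (n : ℤ) (q : Fin 3) (t : Tl) (s a : ℤ) :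
    phi n q s a ∈ tileSet n q t ↔ t.Mem s a := by
  unfold tileSet Tl.Mem
  simp only [Set.mem_insert_iff, Set.mem_singleton_iff]
  constructor
  · rintro (h | h | h)
    · exact Or.inl (phi_inj _ _ _ _ _ _ h)
    · exact Or.inr (Or.inl (phi_inj _ _ _ _ _ _ h))
    · exact Or.inr (Or.inr (phi_inj _ _ _ _ _ _ h))
  · rintro (⟨rfl, rfl⟩ | ⟨rfl, rfl⟩ | ⟨rfl, rfl⟩)
    · exact Or.inl rfl
    · exact Or.inr (Or.inl rfl)
    · exact Or.inr (Or.inr rfl)

theorem exists_of_mem_tileSet (n : ℤ) (q : Fin 3) (t : Tl) (c : Pt) (h : c ∈ tileSet n q t) :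
    ∃ s a, c = phi n q s a ∧ t.Mem s a := by
  have h' := h
  unfold tileSet at h
  simp only [Set.mem_insert_iff, Set.mem_singleton_iff] at h
  rcases h with h | h | h
  · exact ⟨_, _, h, by rw [h, mem_tileSet] at h'; exact h'⟩
  · exact ⟨_, _, h, by rw [h, mem_tileSet] at h'; exact h'⟩
  · exact ⟨_, _, h, by rw [h, mem_tileSet] at h'; exact h'⟩

theorem tileSet_inj (n : ℤ) (q : Fin 3) (t t' : Tl) (h : tileSet n q t = tileSet n q t') :
    t = t' := by
  have h1 : ∀ s a, t.Mem s a ↔ t'.Mem s a := by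
    intro s a
    rw [← mem_tileSet n q, ← mem_tileSet n q, h]
  have a1 := (h1 (t.s - 1) (t.a - t.u)).1 (Or.inl ⟨rfl, rfl⟩)
  have a2 := (h1 t.s t.a).1 (Or.inr (Or.inl ⟨rfl, rfl⟩))
  have a3 := (h1 (t.s + 1) (t.a + t.v)).1 (Or.inr (Or.inr ⟨rfl, rfl⟩))
  unfold Tl.Mem at a1 a2 a3
  have hs : t.s = t'.s := by omega
  have ha : t.a = t'.a := by omega
  ext
  · exact hs
  · exact ha
  · omega
  · omega

theorem e_apply (r r' : Fin 3) : e r r' = if r' = r then 1 else 0 := by
  unfold e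
  rw [Pi.single_apply]

/-- value facts for the unit vectors in the rotated frame -/
theorem e_vals (q : Fin 3) :
    e q q = 1 ∧ e q (q + 1) = 0 ∧ e q (q + 2) = 0 ∧ e (q + 1) q = 0 ∧ e (q + 1) (q + 1) = 1 ∧
      e (q + 1) (q + 2) = 0 ∧ e (q + 2) q = 0 ∧ e (q + 2) (q + 1) = 0 ∧ e (q + 2) (q + 2) = 1 := by
  simp only [e_apply]
  revert q
  decide

theorem set3_rot (q : Fin 3) (f : Fin 3 → Pt) : ({f 0, f 1, f 2} : Set Pt) =
    {f (q + 1), f (q + 2), f q} := by
  fin_cases q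
  · change ({f 0, f 1, f 2} : Set Pt) = {f 1, f 2, f 0}
    ext c; simp only [Set.mem_insert_iff, Set.mem_singleton_iff]; tauto
  · change ({f 0, f 1, f 2} : Set Pt) = {f 2, f 0, f 1}
    ext c; simp only [Set.mem_insert_iff, Set.mem_singleton_iff]; tauto
  · rfl

theorem set3_rev (x y z : Pt) : ({x, y, z} : Set Pt) = {z, y, x} := by
  ext c; simp only [Set.mem_insert_iff, Set.mem_singleton_iff]; tauto

theorem piece_iff (n : ℤ) (q : Fin 3) (S : Set Pt) :
    IsPiece q S ↔ ∃ t : Tl, t.Val ∧ S = tileSet n q t := by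
  obtain ⟨v1, v2, v3, v4, v5, v6, v7, v8, v9⟩ := e_vals q
  constructor
  · rintro (⟨u, hu, rfl⟩ | ⟨u, hu, rfl⟩ | ⟨r, hr, x, hx, rfl⟩)
    · rw [sum_eq q] at hu
      refine ⟨⟨u q + (n - u (q + 1)) + n, n - u (q + 1), 1, 0⟩, ⟨by norm_num, by norm_num,
        by norm_num, by norm_num⟩, ?_⟩
      rw [set3_rot q (fun r => u + e r)]
      unfold tileSet
      dsimp only
      congr 1
      · apply ext3 q <;> simp only [phi_q, phi_a, phi_b, Pi.add_apply, v1, v2, v3, v4, v5, v6, v7, v8, v9] <;> omega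
      · congr 1
        · apply ext3 q <;> simp only [phi_q, phi_a, phi_b, Pi.add_apply, v1, v2, v3, v4, v5, v6, v7, v8, v9] <;> omega
        · congr 1
          apply ext3 q <;> simp only [phi_q, phi_a, phi_b, Pi.add_apply, v1, v2, v3, v4, v5, v6, v7, v8, v9] <;> omega
    · rw [sum_eq q] at hu
      refine ⟨⟨u q + (n - u (q + 1)) + n, n - u (q + 1), 0, 1⟩, ⟨by norm_num, by norm_num,
        by norm_num, by norm_num⟩, ?_⟩
      rw [set3_rot q (fun r => u - e r), set3_rev]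
      unfold tileSet
      dsimp only
      congr 1
      · apply ext3 q <;> simp only [phi_q, phi_a, phi_b, Pi.sub_apply, v1, v2, v3, v4, v5, v6, v7, v8, v9] <;> omega
      · congr 1
        · apply ext3 q <;> simp only [phi_q, phi_a, phi_b, Pi.sub_apply, v1, v2, v3, v4, v5, v6, v7, v8, v9] <;> omega
        · congr 1
          apply ext3 q <;> simp only [phi_q, phi_a, phi_b, Pi.sub_apply, v1, v2, v3, v4, v5, v6, v7, v8, v9] <;> omega
    · rw [sum_eq q] at hx
      rw [set3_rev]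
      rcases tri' q r hr with rfl | rfl
      · refine ⟨⟨x q + (n - x (q + 1)) + n, n - x (q + 1), 1, 1⟩, ⟨by norm_num, by norm_num,
          by norm_num, by norm_num⟩, ?_⟩
        rw [q11]
        unfold tileSet
        dsimp only
        congr 1
        · apply ext3 q <;> simp only [phi_q, phi_a, phi_b, Pi.add_apply, Pi.sub_apply, v1, v2, v3, v4, v5, v6, v7, v8, v9] <;> omega
        · congr 1
          · apply ext3 q <;> simp only [phi_q, phi_a, phi_b] <;> omega
          · congr 1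
            apply ext3 q <;> simp only [phi_q, phi_a, phi_b, Pi.add_apply, Pi.sub_apply, v1, v2, v3, v4, v5, v6, v7, v8, v9] <;> omega
      · refine ⟨⟨x q + (n - x (q + 1)) + n, n - x (q + 1), 0, 0⟩, ⟨by norm_num, by norm_num,
          by norm_num, by norm_num⟩, ?_⟩
        rw [q21]
        unfold tileSet
        dsimp only
        congr 1
        · apply ext3 q <;> simp only [phi_q, phi_a, phi_b, Pi.add_apply, Pi.sub_apply, v1, v2, v3, v4, v5, v6, v7, v8, v9] <;> omega
        · congr 1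
          · apply ext3 q <;> simp only [phi_q, phi_a, phi_b] <;> omega
          · congr 1
            apply ext3 q <;> simp only [phi_q, phi_a, phi_b, Pi.add_apply, Pi.sub_apply, v1, v2, v3, v4, v5, v6, v7, v8, v9] <;> omega
  · rintro ⟨⟨s, a, u, v⟩, ⟨hu0, hu1, hv0, hv1⟩, rfl⟩
    dsimp only at hu0 hu1 hv0 hv1
    rcases (by omega : u = 0 ∨ u = 1) with rfl | rfl
    · rcases (by omega : v = 0 ∨ v = 1) with rfl | rfl
      · right; right
        refine ⟨q + 2, q2ne q, phi n q s a, phi_sum _ _ _ _, ?_⟩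
        rw [set3_rev, q21]
        unfold tileSet
        dsimp only
        congr 1
        · apply ext3 q <;> simp only [phi_q, phi_a, phi_b, Pi.add_apply, Pi.sub_apply, v1, v2, v3, v4, v5, v6, v7, v8, v9] <;> omega
        · congr 1
          congr 1
          apply ext3 q <;> simp only [phi_q, phi_a, phi_b, Pi.add_apply, Pi.sub_apply, v1, v2, v3, v4, v5, v6, v7, v8, v9] <;> omega
      · right; left
        refine ⟨phi n q s a + e (q + 2), ?_, ?_⟩
        · rw [sum_eq q]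
          simp only [phi_q, phi_a, phi_b, Pi.add_apply, Pi.sub_apply, v1, v2, v3, v4, v5, v6, v7, v8, v9]
          ring
        rw [set3_rot q (fun r => phi n q s a + e (q + 2) - e r), set3_rev]
        unfold tileSet
        dsimp only
        congr 1
        · apply ext3 q <;> simp only [phi_q, phi_a, phi_b, Pi.add_apply, Pi.sub_apply, v1, v2, v3, v4, v5, v6, v7, v8, v9] <;> omega
        · congr 1
          · apply ext3 q <;> simp only [phi_q, phi_a, phi_b, Pi.add_apply, Pi.sub_apply, v1, v2, v3, v4, v5, v6, v7, v8, v9] <;> omega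
          · congr 1
            apply ext3 q <;> simp only [phi_q, phi_a, phi_b, Pi.add_apply, Pi.sub_apply, v1, v2, v3, v4, v5, v6, v7, v8, v9] <;> omega
    · rcases (by omega : v = 0 ∨ v = 1) with rfl | rfl
      · left
        refine ⟨phi n q s a - e (q + 2), ?_, ?_⟩
        · rw [sum_eq q]
          simp only [phi_q, phi_a, phi_b, Pi.add_apply, Pi.sub_apply, v1, v2, v3, v4, v5, v6, v7, v8, v9]
          ring
        rw [set3_rot q (fun r => phi n q s a - e (q + 2) + e r)]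
        unfold tileSet
        dsimp only
        congr 1
        · apply ext3 q <;> simp only [phi_q, phi_a, phi_b, Pi.add_apply, Pi.sub_apply, v1, v2, v3, v4, v5, v6, v7, v8, v9] <;> omega
        · congr 1
          · apply ext3 q <;> simp only [phi_q, phi_a, phi_b, Pi.add_apply, Pi.sub_apply, v1, v2, v3, v4, v5, v6, v7, v8, v9] <;> omega
          · congr 1
            apply ext3 q <;> simp only [phi_q, phi_a, phi_b, Pi.add_apply, Pi.sub_apply, v1, v2, v3, v4, v5, v6, v7, v8, v9] <;> omega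
      · right; right
        refine ⟨q + 1, q1ne q, phi n q s a, phi_sum _ _ _ _, ?_⟩
        rw [set3_rev, q11]
        unfold tileSet
        dsimp only
        congr 1
        · apply ext3 q <;> simp only [phi_q, phi_a, phi_b, Pi.add_apply, Pi.sub_apply, v1, v2, v3, v4, v5, v6, v7, v8, v9] <;> omega
        · congr 1
          congr 1
          apply ext3 q <;> simp only [phi_q, phi_a, phi_b, Pi.add_apply, Pi.sub_apply, v1, v2, v3, v4, v5, v6, v7, v8, v9] <;> omega

theorem tilings_eq (n : ℕ) (q : Fin 3) :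
    {P | IsTiling q (benzel (n + 2) (2 * n + 1)) P} =
      (fun K : Set Tl => tileSet n q '' K) '' {K | Til n 0 (-1) K} := by
  ext P
  simp only [Set.mem_setOf_eq, Set.mem_image]
  constructor
  · rintro ⟨h1, h2⟩
    refine ⟨{t | t.Val ∧ tileSet n q t ∈ P}, ⟨?_, ?_, ?_, ?_⟩, ?_⟩
    · rintro t ⟨ht, -⟩; exact ht
    · rintro t ⟨ht, htP⟩ s a hm
      have := (h1 _ htP).2 ((mem_tileSet n q t s a).2 hm)
      exact (mem_benzel n q s a).1 this
    · intro s a hR
      obtain ⟨S, ⟨hS, hc⟩, -⟩ := h2 _ ((mem_benzel n q s a).2 hR)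
      obtain ⟨t, ht, rfl⟩ := (piece_iff n q S).1 (h1 S hS).1
      exact ⟨t, ⟨ht, hS⟩, (mem_tileSet n q t s a).1 hc⟩
    · rintro t ⟨ht, htP⟩ t' ⟨ht', htP'⟩ s a hm hm'
      have hR := (h1 _ htP).2 ((mem_tileSet n q t s a).2 hm)
      obtain ⟨S, -, huniq⟩ := h2 _ hR
      have e1 := huniq _ ⟨htP, (mem_tileSet n q t s a).2 hm⟩
      have e2 := huniq _ ⟨htP', (mem_tileSet n q t' s a).2 hm'⟩
      exact tileSet_inj n q t t' (e1.trans e2.symm)
    · ext S
      simp only [Set.mem_setOf_eq, Set.mem_image]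
      constructor
      · rintro ⟨t, ⟨-, ht⟩, rfl⟩; exact ht
      · intro hS
        obtain ⟨t, ht, rfl⟩ := (piece_iff n q S).1 (h1 S hS).1
        exact ⟨t, ⟨ht, hS⟩, rfl⟩
  · rintro ⟨K, hK, rfl⟩
    refine ⟨?_, ?_⟩
    · rintro S ⟨t, ht, rfl⟩
      refine ⟨(piece_iff n q _).2 ⟨t, hK.val t ht, rfl⟩, ?_⟩
      intro c hc
      obtain ⟨s, a, rfl, hm⟩ := exists_of_mem_tileSet _ _ _ _ hc
      exact (mem_benzel n q s a).2 (hK.sub t ht s a hm)
    · intro c hc
      have hsum : c 0 + c 1 + c 2 = 1 := hc.1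
      obtain ⟨s, a, rfl⟩ : ∃ s a, c = phi n q s a := ⟨_, _, eq_phi n q c hsum⟩
      have hR := (mem_benzel n q s a).1 hc
      obtain ⟨t, ht, hm⟩ := hK.cov s a hR
      refine ⟨tileSet n q t, ⟨⟨t, ht, rfl⟩, (mem_tileSet n q t s a).2 hm⟩, ?_⟩
      rintro S ⟨⟨t', ht', rfl⟩, hc'⟩
      have hm' := (mem_tileSet n q t' s a).1 hc'
      rw [hK.uni t ht t' ht' s a hm hm']

theorem main (n : ℕ) (hn : 1 ≤ n) (q : Fin 3) : T112 q (n + 2) (2 * n + 1) = schroder n := by
  unfold T112 schroder Set.ncard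
  rw [tilings_eq, Set.InjOn.encard_image, til_eq_path n hn]
  intro K _ K' _ h
  exact Set.image_injective.2 (fun t t' => tileSet_inj n q t t') h

end Pool.Agent.Helper37.Benzel
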