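import Pool.Agent.Helper26.AF.LevelOne

/-! The question for all newforms is equivalent to the question for newforms of level one over
totally real fields containing a given totally real field. -/

namespace Pool.Agent.Results.MP_6cbef8_nt.LevelOne

open Pool.Agent.Helper26.AF

theorem result {k : Type} [Field k] [CharZero k] [IsAlgClosed k] [TopologicalSpace k]
    [IsTopologicalRing k] [T2Space k] {G : Type} [Group G] [TopologicalSpace G]
    {X : GaloisData G} (T : AVTheory k X) (N : ModularTheory T) {E : OpenSubgroup G}
    (hE : TotallyReal X E) :
    (∀ (F : OpenSubgroup G) (f : Newform k X F), N.isNewform F f → Even (F : Subgroup G).index →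
      (∀ v, Even (f.cond v)) → HasAf T f) ↔
    (∀ (F : OpenSubgroup G) (f : Newform k X F), N.isNewform F f → F ≤ E →
      Even (F : Subgroup G).index → (∀ v, f.cond v = 0) → HasAf T f) :=
  level_one_reduction T N hE

end Pool.Agent.Results.MP_6cbef8_nt.LevelOne
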