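import Pool.Agent.Helper26.AF.Local

/-! `A_f` exists if and only if the Frobenius eigenvalues of `f` are, at a dense set of Frobenius
elements, among those of a fixed abelian variety over a finite extension. -/

namespace Pool.Agent.Results.MP_6cbef8_nt.LocalGlobal

open Pool.Agent.Helper26.AF

theorem result {k : Type} [Field k] [CharZero k] [IsAlgClosed k] [TopologicalSpace k]
    [IsTopologicalRing k] [T2Space k] {G : Type} [Group G] [TopologicalSpace G]
    [IsTopologicalGroup G] {X : GaloisData G} (T : AVTheory k X) (hM : HasAbelianMonodromy T)
    {F : OpenSubgroup G} (f : Newform k X F) (hcm : NonCM f) :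
    [HasAf T f, LocallyContained T f, Approximable T f].TFAE :=
  tfae_local hcm hM

end Pool.Agent.Results.MP_6cbef8_nt.LocalGlobal
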