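import Mathlib

/-!
Definitions for the area of upward straight-line grid drawings of directed outerplanar graphs.
-/

namespace Pool.Agent.Helper37.OP

/-- A grid point, seen as a point of the real plane. -/
def toPlane (q : ℤ × ℤ) : ℝ × ℝ := ((q.1 : ℝ), (q.2 : ℝ))

/-- A simple graph is outerplanar iff its vertices can be placed around a circle so that no two
edges, drawn as chords, cross (one-page book embedding). Here `σ` lists the vertices along the
circle, and two chords `ac`, `bd` cross iff their ends alternate. -/
def IsOuterplanar {V : Type*} (G : SimpleGraph V) : Prop :=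
  ∃ σ : V → ℕ, Function.Injective σ ∧
    ∀ a b c d : V, G.Adj a c → G.Adj b d → σ a < σ b → σ b < σ c → ¬ σ c < σ d

/-- A directed outerplanar graph: a directed acyclic graph (with arc relation `E`) whose
underlying undirected simple graph is outerplanar. -/
structure IsDirectedOuterplanar {V : Type*} (E : V → V → Prop) : Prop where
  acyclic : ∀ v, ¬ Relation.TransGen E v v
  outerplanar : IsOuterplanar (SimpleGraph.fromRel E)

/-- The segment that represents the arc `(u, v)` when vertex `w` is placed at `p w`. -/
def arcSegment {V : Type*} (p : V → ℤ × ℤ) (u v : V) : Set (ℝ × ℝ) :=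
  segment ℝ (toPlane (p u)) (toPlane (p v))

/-- `p` is an upward straight-line (planar) grid drawing of the digraph with arc relation `E`:
the vertices are at distinct grid points, every arc is drawn as a segment that increases strictly
in the `y`-direction, no vertex lies on an arc of which it is not an end, and two distinct arcs
meet at most in common ends. Vertices need not lie on the outer face. -/
structure IsUpwardDrawing {V : Type*} (E : V → V → Prop) (p : V → ℤ × ℤ) : Prop where
  injective : Function.Injective p
  upward : ∀ u v, E u v → (p u).2 < (p v).2
  vertex_free : ∀ u v w, E u v → w ≠ u → w ≠ v → toPlane (p w) ∉ arcSegment p u v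
  noncrossing : ∀ u v u' v', E u v → E u' v' → (u, v) ≠ (u', v') →
    ∀ z ∈ arcSegment p u v, z ∈ arcSegment p u' v' →
      (z = toPlane (p u) ∨ z = toPlane (p v)) ∧ (z = toPlane (p u') ∨ z = toPlane (p v'))

/-- Area of a drawing: the width times the height of the smallest axis-parallel rectangle that
contains it. -/
noncomputable def area {V : Type*} (p : V → ℤ × ℤ) : ℤ :=
  ((⨆ v, (p v).1) - (⨅ v, (p v).1)) * ((⨆ v, (p v).2) - (⨅ v, (p v).2))

/-- The minimum area of an upward straight-line grid drawing of the digraph. -/
noncomputable def minArea {V : Type*} (E : V → V → Prop) : ℤ :=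
  sInf {a | ∃ p : V → ℤ × ℤ, IsUpwardDrawing E p ∧ a = area p}

/-- `A n`: the maximum, over the `n`-vertex directed outerplanar graphs that have an upward
(straight-line grid) drawing, of the minimum area of such a drawing. -/
noncomputable def A (n : ℕ) : ℤ :=
  sSup {a | ∃ E : Fin n → Fin n → Prop, IsDirectedOuterplanar E ∧
    (∃ p : Fin n → ℤ × ℤ, IsUpwardDrawing E p) ∧ a = minArea E}

end Pool.Agent.Helper37.OP
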