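import Pool.Agent.Helper37.OPGraph

/-! The reference drawing `pos` is an upward straight-line drawing, and the graph is outerplanar. -/

namespace Pool.Agent.Helper37.OP

open Pool.Agent.Helper37.Plane

/-- Normalised functional values. -/
noncomputable def g (σ : ℝ) (k r : ℕ) : ℝ := (-1 / 8) ^ k * (cY r : ℝ) - σ * ((-1 / 4) ^ k * (cX r : ℝ))

theorem cX_abs (r : ℕ) : |(cX r : ℝ)| ≤ 2 := by
  unfold cX; split_ifs <;> norm_num
theorem cY_abs (r : ℕ) : |(cY r : ℝ)| ≤ 4 := by
  unfold cY; split_ifs <;> norm_num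

theorem g_far {σ : ℝ} (hσ : 0 ≤ σ) (k r : ℕ) (hk : 3 ≤ k) : g σ k r ≤ 1 / 128 + σ / 32 := by
  unfold g
  have h1 : |(-1 / 8 : ℝ) ^ k| ≤ 1 / 512 := by
    rw [abs_pow]
    have : |(-1 / 8 : ℝ)| = 1 / 8 := by norm_num
    rw [this]
    calc (1 / 8 : ℝ) ^ k ≤ (1 / 8) ^ 3 :=
          pow_le_pow_of_le_one (by norm_num) (by norm_num) hk
      _ = 1 / 512 := by norm_num
  have h2 : |(-1 / 4 : ℝ) ^ k| ≤ 1 / 64 := by
    rw [abs_pow]
    have : |(-1 / 4 : ℝ)| = 1 / 4 := by norm_num
    rw [this]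
    calc (1 / 4 : ℝ) ^ k ≤ (1 / 4) ^ 3 :=
          pow_le_pow_of_le_one (by norm_num) (by norm_num) hk
      _ = 1 / 64 := by norm_num
  have h3 : |(-1 / 8 : ℝ) ^ k * (cY r : ℝ)| ≤ 1 / 512 * 4 := by
    rw [abs_mul]
    exact mul_le_mul h1 (cY_abs r) (abs_nonneg _) (by norm_num)
  have h4 : |(-1 / 4 : ℝ) ^ k * (cX r : ℝ)| ≤ 1 / 64 * 2 := by
    rw [abs_mul]
    exact mul_le_mul h2 (cX_abs r) (abs_nonneg _) (by norm_num)
  have h5 := (abs_le.mp h3).2
  have h6 := (abs_le.mp h4).1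
  have h7 : σ * (-(1 / 64 * 2)) ≤ σ * ((-1 / 4 : ℝ) ^ k * (cX r : ℝ)) :=
    mul_le_mul_of_nonneg_left h6 hσ
  linarith

/-- The bound for all earlier generations. -/
theorem g_bound {σ L : ℝ} (hσ : 0 ≤ σ) (hL : 1 / 128 + σ / 32 ≤ L)
    (h1 : -1 / 8 + σ / 4 ≤ L) (h2 : -3 / 8 + σ / 2 ≤ L)
    (h4 : 1 / 8 - σ / 4 ≤ L) (k r : ℕ) (hk : 1 ≤ k) (hr : r < 4) :
    g σ k r ≤ L := by
  rcases Nat.lt_or_ge k 3 with h | h
  · have hk' : k = 1 ∨ k = 2 := by omega
    have hr' : r = 0 ∨ r = 1 ∨ r = 2 ∨ r = 3 := by omega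
    rcases hk' with rfl | rfl <;> rcases hr' with rfl | rfl | rfl | rfl <;>
      simp only [g, cX, cY] <;> norm_num <;> linarith
  · exact (g_far hσ k r h).trans hL

/-- The functional of generation `i` with slope parameter `σ`. -/
noncomputable def fα (σ : ℝ) (i : ℕ) : ℝ := -σ / (-4) ^ i
noncomputable def fβ (i : ℕ) : ℝ := 1 / (-8) ^ i

theorem f_eq (σ : ℝ) (i j r : ℕ) (hj : j ≤ i) (hr : r < 4) :
    fα σ i * (toPlane (pos (4 * j + r))).1 + fβ i * (toPlane (pos (4 * j + r))).2 =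
      g σ (i - j) r := by
  obtain ⟨k, rfl⟩ : ∃ k, i = j + k := ⟨i - j, by omega⟩
  have e1 : (4 * j + r) / 4 = j := by omega
  have e2 : (4 * j + r) % 4 = r := by omega
  have e3 : j + k - j = k := by omega
  rw [e3]
  simp only [pos, toPlane, e1, e2, g, fα, fβ]
  push_cast
  have h4 : (-4 : ℝ) ^ j ≠ 0 := pow_ne_zero _ (by norm_num)
  have h8 : (-8 : ℝ) ^ j ≠ 0 := pow_ne_zero _ (by norm_num)
  have h4k : (-4 : ℝ) ^ k ≠ 0 := pow_ne_zero _ (by norm_num)
  have h8k : (-8 : ℝ) ^ k ≠ 0 := pow_ne_zero _ (by norm_num)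
  have p4 : (-1 / 4 : ℝ) ^ k = 1 / (-4) ^ k := by
    rw [one_div, ← inv_pow]; norm_num
  have p8 : (-1 / 8 : ℝ) ^ k = 1 / (-8) ^ k := by
    rw [one_div, ← inv_pow]; norm_num
  rw [pow_add, pow_add, p4, p8]
  field_simp
  ring

/-- Separation certificate. -/
def Cert (u w : ℕ) : Prop := ∃ α β : ℝ,
  α * (toPlane (pos u)).1 + β * (toPlane (pos u)).2 <
    α * (toPlane (pos w)).1 + β * (toPlane (pos w)).2 ∧
  ∀ t < w, α * (toPlane (pos t)).1 + β * (toPlane (pos t)).2 ≤
    α * (toPlane (pos u)).1 + β * (toPlane (pos u)).2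

theorem cert_of {σ L : ℝ} {i j ru rw : ℕ} (hji : j ≤ i) (hru : ru < 4) (hrw : rw < 4)
    (hu : g σ (i - j) ru = L) (hw : L < g σ 0 rw)
    (hprev : ∀ k r, 1 ≤ k → r < 4 → g σ k r ≤ L)
    (hsame : ∀ r < rw, g σ 0 r ≤ L) : Cert (4 * j + ru) (4 * i + rw) := by
  refine ⟨fα σ i, fβ i, ?_, ?_⟩
  · rw [f_eq σ i j ru hji hru, f_eq σ i i rw le_rfl hrw, Nat.sub_self, hu]
    exact hw
  · intro t ht
    rw [f_eq σ i j ru hji hru, hu]
    obtain ⟨jt, rt, hrt, rfl⟩ : ∃ jt rt, rt < 4 ∧ t = 4 * jt + rt :=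
      ⟨t / 4, t % 4, Nat.mod_lt _ (by norm_num), (Nat.div_add_mod t 4).symm⟩
    rw [f_eq σ i jt rt (by omega) hrt]
    rcases Nat.lt_or_ge jt i with h | h
    · exact hprev _ _ (by omega) hrt
    · have : jt = i := by omega
      subst this
      rw [Nat.sub_self]
      exact hsame rt (by omega)

theorem cert_xx (i : ℕ) : Cert (4 * i + 0) (4 * (i + 1) + 0) := by
  apply cert_of (σ := 3 / 4) (L := 1 / 16) (by omega) (by norm_num) (by norm_num)
  · have : i + 1 - i = 1 := by omega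
    rw [this]; simp only [g, cX, cY]; norm_num
  · simp only [g, cX, cY]; norm_num
  · intro k r hk hr
    exact g_bound (by norm_num) (by norm_num) (by norm_num) (by norm_num) (by norm_num) k r hk hr
  · intro r hr; omega

theorem bound1 (k r : ℕ) (hk : 1 ≤ k) (hr : r < 4) : g 1 k r ≤ 1 / 8 :=
  g_bound (by norm_num) (by norm_num) (by norm_num) (by norm_num) (by norm_num) k r hk hr

theorem cert_vv (i : ℕ) : Cert (4 * i + 1) (4 * (i + 1) + 1) := by
  apply cert_of (σ := 1) (L := 1 / 8) (by omega) (by norm_num) (by norm_num)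
  · have : i + 1 - i = 1 := by omega
    rw [this]; simp only [g, cX, cY]; norm_num
  · simp only [g, cX, cY]; norm_num
  · exact bound1
  · intro r hr
    have : r = 0 := by omega
    subst this
    simp only [g, cX, cY]; norm_num

theorem cert_xv (i : ℕ) : Cert (4 * i + 0) (4 * (i + 1) + 1) := by
  apply cert_of (σ := 1) (L := 1 / 8) (by omega) (by norm_num) (by norm_num)
  · have : i + 1 - i = 1 := by omega
    rw [this]; simp only [g, cX, cY]; norm_num
  · simp only [g, cX, cY]; norm_num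
  · exact bound1
  · intro r hr
    have : r = 0 := by omega
    subst this
    simp only [g, cX, cY]; norm_num

theorem cert_xv0 (i : ℕ) : Cert (4 * i + 0) (4 * i + 1) := by
  apply cert_of (σ := 9 / 10) (L := 1 / 10) (by omega) (by norm_num) (by norm_num)
  · rw [Nat.sub_self]; simp only [g, cX, cY]; norm_num
  · simp only [g, cX, cY]; norm_num
  · intro k r hk hr
    exact g_bound (by norm_num) (by norm_num) (by norm_num) (by norm_num) (by norm_num) k r hk hr
  · intro r hr
    have : r = 0 := by omega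
    subst this
    simp only [g, cX, cY]; norm_num

theorem cert_vc (i : ℕ) : Cert (4 * i + 1) (4 * i + 2) := by
  apply cert_of (σ := 0) (L := 3) (by omega) (by norm_num) (by norm_num)
  · rw [Nat.sub_self]; simp only [g, cX, cY]; norm_num
  · simp only [g, cX, cY]; norm_num
  · intro k r hk hr
    exact g_bound (by norm_num) (by norm_num) (by norm_num) (by norm_num) (by norm_num) k r hk hr
  · intro r hr
    have : r = 0 ∨ r = 1 := by omega
    rcases this with rfl | rfl <;> simp only [g, cX, cY] <;> norm_num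

theorem bound7 (k r : ℕ) (hk : 1 ≤ k) (hr : r < 4) : g (7 / 4) k r ≤ 1 / 2 :=
  g_bound (by norm_num) (by norm_num) (by norm_num) (by norm_num) (by norm_num) k r hk hr

theorem cert_cd (i : ℕ) : Cert (4 * i + 2) (4 * i + 3) := by
  apply cert_of (σ := 7 / 4) (L := 1 / 2) (by omega) (by norm_num) (by norm_num)
  · rw [Nat.sub_self]; simp only [g, cX, cY]; norm_num
  · simp only [g, cX, cY]; norm_num
  · exact bound7
  · intro r hr
    have : r = 0 ∨ r = 1 ∨ r = 2 := by omega
    rcases this with rfl | rfl | rfl <;> simp only [g, cX, cY] <;> norm_num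

theorem cert_vd (i : ℕ) : Cert (4 * i + 1) (4 * (i + 1) + 3) := by
  apply cert_of (σ := 7 / 4) (L := 1 / 2) (by omega) (by norm_num) (by norm_num)
  · have : i + 1 - i = 1 := by omega
    rw [this]; simp only [g, cX, cY]; norm_num
  · simp only [g, cX, cY]; norm_num
  · exact bound7
  · intro r hr
    have : r = 0 ∨ r = 1 ∨ r = 2 := by omega
    rcases this with rfl | rfl | rfl <;> simp only [g, cX, cY] <;> norm_num

theorem cert_of_link {u w : ℕ} (h : link u w) : Cert u w := by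
  unfold link at h
  rcases h with ⟨hu, hr⟩ | ⟨hu, hr⟩ | ⟨hu, hr⟩ | ⟨hu, hr⟩
  · rcases hr with hr | hr
    · have := cert_xx (u / 4)
      have e1 : 4 * (u / 4) + 0 = u := by omega
      have e2 : 4 * (u / 4 + 1) + 0 = w := by omega
      rwa [e1, e2] at this
    · have := cert_vv (u / 4)
      have e1 : 4 * (u / 4) + 1 = u := by omega
      have e2 : 4 * (u / 4 + 1) + 1 = w := by omega
      rwa [e1, e2] at this
  · have hr' : w % 4 = 1 ∨ w % 4 = 2 ∨ w % 4 = 3 := by omega
    rcases hr' with hr' | hr' | hr'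
    · have := cert_xv0 (u / 4)
      have e1 : 4 * (u / 4) + 0 = u := by omega
      have e2 : 4 * (u / 4) + 1 = w := by omega
      rwa [e1, e2] at this
    · have := cert_vc (u / 4)
      have e1 : 4 * (u / 4) + 1 = u := by omega
      have e2 : 4 * (u / 4) + 2 = w := by omega
      rwa [e1, e2] at this
    · have := cert_cd (u / 4)
      have e1 : 4 * (u / 4) + 2 = u := by omega
      have e2 : 4 * (u / 4) + 3 = w := by omega
      rwa [e1, e2] at this
  · have := cert_xv (u / 4)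
    have e1 : 4 * (u / 4) + 0 = u := by omega
    have e2 : 4 * (u / 4 + 1) + 1 = w := by omega
    rwa [e1, e2] at this
  · have := cert_vd (u / 4)
    have e1 : 4 * (u / 4) + 1 = u := by omega
    have e2 : 4 * (u / 4 + 1) + 3 = w := by omega
    rwa [e1, e2] at this

theorem link_lt {u w : ℕ} (h : link u w) : u < w := by unfold link at h; omega

theorem exists_link {w : ℕ} (hw : 1 ≤ w) : ∃ u, link u w := by
  by_cases h : w % 4 = 0
  · exact ⟨w - 4, by unfold link; omega⟩
  · exact ⟨w - 1, by unfold link; omega⟩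

/-- abbreviations for real positions -/
noncomputable def Q (m : ℕ) : ℝ × ℝ := toPlane (pos m)

theorem Q_ne {t w : ℕ} (h : t < w) : Q t ≠ Q w := by
  obtain ⟨u, hu⟩ := exists_link (w := w) (by omega)
  obtain ⟨α, β, h1, h2⟩ := cert_of_link hu
  intro he
  have := h2 t h
  change α * (Q t).1 + β * (Q t).2 ≤ _ at this
  rw [he] at this
  change α * (Q w).1 + β * (Q w).2 ≤ α * (Q u).1 + β * (Q u).2 at this
  change α * (Q u).1 + β * (Q u).2 < α * (Q w).1 + β * (Q w).2 at h1
  linarith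

theorem Q_inj {t w : ℕ} (h : Q t = Q w) : t = w := by
  rcases lt_trichotomy t w with h1 | h1 | h1
  · exact absurd h (Q_ne h1)
  · exact h1
  · exact absurd h.symm (Q_ne h1)

/-- On a new edge the functional of its certificate exceeds the value at the old end, except at
that end. -/
theorem Q_vfree {u w t : ℕ} (h : link u w) (h1 : t ≠ u) (h2 : t ≠ w) :
    Q t ∉ segment ℝ (Q u) (Q w) := by
  intro hz
  rw [mem_segment_iff] at hz
  obtain ⟨θ, h0, h1', hx, hy⟩ := hz
  rcases lt_or_gt_of_ne h2 with hlt | hgt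
  · obtain ⟨α, β, c1, c2⟩ := cert_of_link h
    have := c2 t hlt
    change α * (Q t).1 + β * (Q t).2 ≤ α * (Q u).1 + β * (Q u).2 at this
    change α * (Q u).1 + β * (Q u).2 < α * (Q w).1 + β * (Q w).2 at c1
    rw [hx, hy] at this
    have hθ : θ * ((α * (Q w).1 + β * (Q w).2) - (α * (Q u).1 + β * (Q u).2)) ≤ 0 := by linarith
    have hθ0 : θ = 0 := by
      by_contra hne
      have : 0 < θ := lt_of_le_of_ne h0 (Ne.symm hne)
      have := mul_pos this (sub_pos.mpr c1)
      linarith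
    rw [hθ0] at hx hy
    apply h1
    apply Q_inj
    ext
    · rw [hx]; ring
    · rw [hy]; ring
  · obtain ⟨s, hs⟩ := exists_link (w := t) (by omega)
    obtain ⟨α, β, c1, c2⟩ := cert_of_link hs
    have a1 := c2 u (by have := link_lt h; omega)
    have a2 := c2 w hgt
    change α * (Q u).1 + β * (Q u).2 ≤ α * (Q s).1 + β * (Q s).2 at a1
    change α * (Q w).1 + β * (Q w).2 ≤ α * (Q s).1 + β * (Q s).2 at a2
    change α * (Q s).1 + β * (Q s).2 < α * (Q t).1 + β * (Q t).2 at c1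
    rw [hx, hy] at c1
    have e : α * ((Q u).1 + θ * ((Q w).1 - (Q u).1)) + β * ((Q u).2 + θ * ((Q w).2 - (Q u).2)) =
      (1 - θ) * (α * (Q u).1 + β * (Q u).2) + θ * (α * (Q w).1 + β * (Q w).2) := by ring
    rw [e] at c1
    have b1 := mul_le_mul_of_nonneg_left a1 (sub_nonneg.mpr h1')
    have b2 := mul_le_mul_of_nonneg_left a2 h0
    linarith

theorem Q_cross_lt {u w u' w' : ℕ} (h : link u w) (h' : link u' w') (hlt : w' < w)
    {z : ℝ × ℝ} (hz : z ∈ segment ℝ (Q u) (Q w)) (hz' : z ∈ segment ℝ (Q u') (Q w')) :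
    z = Q u ∧ (z = Q u' ∨ z = Q w') := by
  have hzu : z = Q u := by
    obtain ⟨α, β, c1, c2⟩ := cert_of_link h
    have a1 := c2 u' (by have := link_lt h'; omega)
    have a2 := c2 w' hlt
    change α * (Q u').1 + β * (Q u').2 ≤ α * (Q u).1 + β * (Q u).2 at a1
    change α * (Q w').1 + β * (Q w').2 ≤ α * (Q u).1 + β * (Q u).2 at a2
    change α * (Q u).1 + β * (Q u).2 < α * (Q w).1 + β * (Q w).2 at c1
    rw [mem_segment_iff] at hz hz'
    obtain ⟨θ, h0, h1, hx, hy⟩ := hz
    obtain ⟨φ, k0, k1, kx, ky⟩ := hz'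
    have e1 : α * z.1 + β * z.2 = (1 - φ) * (α * (Q u').1 + β * (Q u').2) +
        φ * (α * (Q w').1 + β * (Q w').2) := by rw [kx, ky]; ring
    have e2 : α * z.1 + β * z.2 = (α * (Q u).1 + β * (Q u).2) +
        θ * ((α * (Q w).1 + β * (Q w).2) - (α * (Q u).1 + β * (Q u).2)) := by rw [hx, hy]; ring
    have b1 := mul_le_mul_of_nonneg_left a1 (sub_nonneg.mpr k1)
    have b2 := mul_le_mul_of_nonneg_left a2 k0
    have hθ : θ * ((α * (Q w).1 + β * (Q w).2) - (α * (Q u).1 + β * (Q u).2)) ≤ 0 := by linarith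
    have hθ0 : θ = 0 := by
      by_contra hne
      have : 0 < θ := lt_of_le_of_ne h0 (Ne.symm hne)
      have := mul_pos this (sub_pos.mpr c1)
      linarith
    rw [hθ0] at hx hy
    ext
    · rw [hx]; ring
    · rw [hy]; ring
  refine ⟨hzu, ?_⟩
  by_contra hcon
  push Not at hcon
  rw [hzu] at hz' hcon
  exact Q_vfree h' (fun e => hcon.1 (by rw [e])) (fun e => hcon.2 (by rw [e])) hz'

theorem Q_cross_eq {u w u' : ℕ} (h : link u w) (h' : link u' w) (hne : u ≠ u')
    {z : ℝ × ℝ} (hz : z ∈ segment ℝ (Q u) (Q w)) (hz' : z ∈ segment ℝ (Q u') (Q w)) :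
    z = Q w := by
  by_contra hzw
  obtain ⟨α, β, c1, c2⟩ := cert_of_link h
  obtain ⟨α', β', c1', c2'⟩ := cert_of_link h'
  have a1 := c2 u' (link_lt h')
  have a1' := c2' u (link_lt h)
  change α * (Q u').1 + β * (Q u').2 ≤ α * (Q u).1 + β * (Q u).2 at a1
  change α * (Q u).1 + β * (Q u).2 < α * (Q w).1 + β * (Q w).2 at c1
  change α' * (Q u).1 + β' * (Q u).2 ≤ α' * (Q u').1 + β' * (Q u').2 at a1'
  change α' * (Q u').1 + β' * (Q u').2 < α' * (Q w).1 + β' * (Q w).2 at c1'
  rw [mem_segment_iff] at hz hz'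
  obtain ⟨θ, h0, h1, hx, hy⟩ := hz
  obtain ⟨φ, k0, k1, kx, ky⟩ := hz'
  have hθ : θ < 1 := by
    rcases lt_or_eq_of_le h1 with h | h
    · exact h
    · exfalso; apply hzw
      ext
      · rw [hx, h]; ring
      · rw [hy, h]; ring
  have hφ : φ < 1 := by
    rcases lt_or_eq_of_le k1 with h | h
    · exact h
    · exfalso; apply hzw
      ext
      · rw [kx, h]; ring
      · rw [ky, h]; ring
  -- compare the parameters with both functionals
  have e1 : (1 - θ) * ((α * (Q w).1 + β * (Q w).2) - (α * (Q u).1 + β * (Q u).2)) =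
      (1 - φ) * ((α * (Q w).1 + β * (Q w).2) - (α * (Q u').1 + β * (Q u').2)) := by
    have l : α * z.1 + β * z.2 = (α * (Q w).1 + β * (Q w).2) -
      (1 - θ) * ((α * (Q w).1 + β * (Q w).2) - (α * (Q u).1 + β * (Q u).2)) := by
      rw [hx, hy]; ring
    have r : α * z.1 + β * z.2 = (α * (Q w).1 + β * (Q w).2) -
      (1 - φ) * ((α * (Q w).1 + β * (Q w).2) - (α * (Q u').1 + β * (Q u').2)) := by
      rw [kx, ky]; ring
    linarith
  have e2 : (1 - θ) * ((α' * (Q w).1 + β' * (Q w).2) - (α' * (Q u).1 + β' * (Q u).2)) =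
      (1 - φ) * ((α' * (Q w).1 + β' * (Q w).2) - (α' * (Q u').1 + β' * (Q u').2)) := by
    have l : α' * z.1 + β' * z.2 = (α' * (Q w).1 + β' * (Q w).2) -
      (1 - θ) * ((α' * (Q w).1 + β' * (Q w).2) - (α' * (Q u).1 + β' * (Q u).2)) := by
      rw [hx, hy]; ring
    have r : α' * z.1 + β' * z.2 = (α' * (Q w).1 + β' * (Q w).2) -
      (1 - φ) * ((α' * (Q w).1 + β' * (Q w).2) - (α' * (Q u').1 + β' * (Q u').2)) := by
      rw [kx, ky]; ring
    linarith
  set F := (α * (Q w).1 + β * (Q w).2)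
  set Fu := (α * (Q u).1 + β * (Q u).2)
  set Fu' := (α * (Q u').1 + β * (Q u').2)
  set G := (α' * (Q w).1 + β' * (Q w).2)
  set Gu := (α' * (Q u).1 + β' * (Q u).2)
  set Gu' := (α' * (Q u').1 + β' * (Q u').2)
  have i1 : (1 - φ) ≤ (1 - θ) := by
    have : (1 - φ) * (F - Fu) ≤ (1 - θ) * (F - Fu) := by
      rw [e1]
      exact mul_le_mul_of_nonneg_left (by linarith) (by linarith)
    exact le_of_mul_le_mul_right this (by linarith)
  have i2 : (1 - θ) ≤ (1 - φ) := by
    have : (1 - θ) * (G - Gu') ≤ (1 - φ) * (G - Gu') := by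
      rw [← e2]
      exact mul_le_mul_of_nonneg_left (by linarith) (by linarith)
    exact le_of_mul_le_mul_right this (by linarith)
  have hEq : θ = φ := by linarith
  apply hne
  apply Q_inj
  have hp : (0 : ℝ) < 1 - θ := by linarith
  ext
  · have : (1 - θ) * (Q u).1 = (1 - θ) * (Q u').1 := by
      rw [hx] at kx; rw [← hEq] at kx; linarith
    exact mul_left_cancel₀ hp.ne' this
  · have : (1 - θ) * (Q u).2 = (1 - θ) * (Q u').2 := by
      rw [hy] at ky; rw [← hEq] at ky; linarith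
    exact mul_left_cancel₀ hp.ne' this

/-- Two distinct links meet only in common ends. -/
theorem Q_cross_link {u w u' w' : ℕ} (h : link u w) (h' : link u' w') (hne : (u, w) ≠ (u', w'))
    {z : ℝ × ℝ} (hz : z ∈ segment ℝ (Q u) (Q w)) (hz' : z ∈ segment ℝ (Q u') (Q w')) :
    (z = Q u ∨ z = Q w) ∧ (z = Q u' ∨ z = Q w') := by
  rcases lt_trichotomy w' w with h1 | h1 | h1
  · have := Q_cross_lt h h' h1 hz hz'
    exact ⟨Or.inl this.1, this.2⟩
  · subst h1
    have hne' : u ≠ u' := by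
      rintro rfl; exact hne rfl
    have := Q_cross_eq h h' hne' hz hz'
    exact ⟨Or.inr this, Or.inr this⟩
  · have := Q_cross_lt h' h h1 hz' hz
    exact ⟨this.2, Or.inl this.1⟩

theorem Q_cross {a b c d : ℕ} (h : adj a b) (h' : adj c d) (hne : (a, b) ≠ (c, d))
    (hne2 : (a, b) ≠ (d, c))
    {z : ℝ × ℝ} (hz : z ∈ segment ℝ (Q a) (Q b)) (hz' : z ∈ segment ℝ (Q c) (Q d)) :
    (z = Q a ∨ z = Q b) ∧ (z = Q c ∨ z = Q d) := by
  rcases h with h | h <;> rcases h' with h' | h'
  · exact Q_cross_link h h' hne hz hz'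
  · rw [segment_symm] at hz'
    have := Q_cross_link h h' hne2 hz hz'
    exact ⟨this.1, this.2.symm⟩
  · rw [segment_symm] at hz
    have := Q_cross_link h h' (by
      intro e; apply hne2; simp only [Prod.mk.injEq] at e ⊢; exact ⟨e.2, e.1⟩) hz hz'
    exact ⟨this.1.symm, this.2⟩
  · rw [segment_symm] at hz hz'
    have := Q_cross_link h h' (by
      intro e; apply hne; simp only [Prod.mk.injEq] at e ⊢; exact ⟨e.2, e.1⟩) hz hz'
    exact ⟨this.1.symm, this.2.symm⟩

/-- The reference drawing restricted to the first `n` vertices. -/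
def posFin (n : ℕ) (v : Fin n) : ℤ × ℤ := pos v

theorem posFin_drawing (n : ℕ) : IsUpwardDrawing (arcFin n) (posFin n) where
  injective := by
    intro a b h
    have : Q a = Q b := by
      change toPlane (pos a) = toPlane (pos b)
      exact congrArg toPlane h
    exact Fin.ext (Q_inj this)
  upward u v h := h.2
  vertex_free u v w h h1 h2 := by
    have hadj : adj u v := h.1
    have k1 : (w : ℕ) ≠ u := fun e => h1 (Fin.ext e)
    have k2 : (w : ℕ) ≠ v := fun e => h2 (Fin.ext e)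
    change Q w ∉ segment ℝ (Q u) (Q v)
    rcases hadj with hl | hl
    · exact Q_vfree hl k1 k2
    · rw [segment_symm]; exact Q_vfree hl k2 k1
  noncrossing u v u' v' h h' hne z hz hz' := by
    change z ∈ segment ℝ (Q u) (Q v) at hz
    change z ∈ segment ℝ (Q u') (Q v') at hz'
    change (z = Q u ∨ z = Q v) ∧ (z = Q u' ∨ z = Q v')
    refine Q_cross h.1 h'.1 ?_ ?_ hz hz'
    · intro e
      apply hne
      simp only [Prod.mk.injEq] at e ⊢
      exact ⟨Fin.ext e.1, Fin.ext e.2⟩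
    · intro e
      simp only [Prod.mk.injEq] at e
      have l1 := h.2
      have l2 := h'.2
      rw [e.1, e.2] at l1
      exact absurd l1 (not_lt.mpr l2.le)

/-! ### Outerplanarity -/

/-- Position on the circle. -/
def key (B m : ℕ) : ℕ := if m % 4 = 0 then B - m / 4 else 3 * (m / 4) + (3 - m % 4)

theorem key_link {B u w : ℕ} (hB : 2 * w + 4 ≤ B) (h : link u w) :
    (key B u + 1 = key B w ∨ key B w + 1 = key B u) ∨
    (∃ i, key B u = 3 * i + 2 ∧ key B w = 3 * i + 5 ∧ 8 * i + 14 ≤ B) ∨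
    (∃ i, key B w = 3 * i + 2 ∧ (key B u = B - i ∨ (1 ≤ i ∧ key B u = B - (i - 1))) ∧
      8 * i + 6 ≤ B) ∨
    (∃ i, key B u = 3 * i + 2 ∧ key B w = B - i ∧ 8 * i + 6 ≤ B) := by
  unfold link at h
  rcases h with ⟨hu, hr⟩ | ⟨hu, hr⟩ | ⟨hu, hr⟩ | ⟨hu, hr⟩
  · rcases hr with hr | hr
    · left; right
      unfold key
      rw [if_pos hr, if_pos (show u % 4 = 0 by omega)]
      omega
    · right; left
      refine ⟨u / 4, ?_, ?_, ?_⟩
      · unfold key; rw [if_neg (show ¬ u % 4 = 0 by omega)]; omega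
      · unfold key; rw [if_neg (show ¬ w % 4 = 0 by omega)]; omega
      · omega
  · by_cases h1 : w % 4 = 1
    · right; right; left
      refine ⟨w / 4, ?_, ?_, ?_⟩
      · unfold key; rw [if_neg (show ¬ w % 4 = 0 by omega)]; omega
      · left; unfold key; rw [if_pos (show u % 4 = 0 by omega)]; omega
      · omega
    · left; right
      unfold key
      rw [if_neg hr, if_neg (show ¬ u % 4 = 0 by omega)]
      omega
  · right; right; left
    refine ⟨w / 4, ?_, ?_, ?_⟩
    · unfold key; rw [if_neg (show ¬ w % 4 = 0 by omega)]; omega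
    · right
      refine ⟨by omega, ?_⟩
      unfold key; rw [if_pos (show u % 4 = 0 by omega)]; omega
    · omega
  · left; left
    unfold key
    rw [if_neg (show ¬ w % 4 = 0 by omega), if_neg (show ¬ u % 4 = 0 by omega)]
    omega

/-- Shape of an edge in terms of keys `a < c`. -/
theorem key_adj {B u w : ℕ} (hu : 2 * u + 4 ≤ B) (hw : 2 * w + 4 ≤ B) (h : adj u w)
    (hlt : key B u < key B w) :
    (key B u + 1 = key B w) ∨
    (∃ i, key B u = 3 * i + 2 ∧ key B w = 3 * i + 5 ∧ 8 * i + 14 ≤ B) ∨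
    (∃ i, key B u = 3 * i + 2 ∧ (key B w = B - i ∨ (1 ≤ i ∧ key B w = B - (i - 1))) ∧
      8 * i + 6 ≤ B) := by
  rcases h with h | h
  · rcases key_link hw h with (h1 | h1) | h1 | ⟨i, h1, h2, h3⟩ | ⟨i, h1, h2, h3⟩
    · exact Or.inl h1
    · omega
    · exact Or.inr (Or.inl h1)
    · exfalso
      rcases h2 with h2 | ⟨h2, h2'⟩ <;> omega
    · exact Or.inr (Or.inr ⟨i, h1, Or.inl h2, h3⟩)
  · rcases key_link hu h with (h1 | h1) | ⟨i, h1, h2, h3⟩ | ⟨i, h1, h2, h3⟩ | ⟨i, h1, h2, h3⟩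
    · omega
    · exact Or.inl h1
    · omega
    · exact Or.inr (Or.inr ⟨i, h1, h2, h3⟩)
    · exfalso; omega

theorem key_inj {B u w : ℕ} (hu : 2 * u + 4 ≤ B) (hw : 2 * w + 4 ≤ B)
    (h : key B u = key B w) : u = w := by
  unfold key at h
  split_ifs at h with h1 h2 h2 <;> omega

theorem arcFin_outerplanar (n : ℕ) : IsOuterplanar (SimpleGraph.fromRel (arcFin n)) := by
  refine ⟨fun v => key (2 * n + 4) v, ?_, ?_⟩
  · intro a b h
    have := a.2
    have := b.2
    exact Fin.ext (key_inj (by omega) (by omega) h)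
  · intro a b c d hac hbd h1 h2 h3
    have hac' : adj a c := by
      rcases hac.2 with h | h
      · exact h.1
      · exact adj_symm h.1
    have hbd' : adj b d := by
      rcases hbd.2 with h | h
      · exact h.1
      · exact adj_symm h.1
    simp only at h1 h2 h3
    have := a.2
    have := b.2
    have := c.2
    have := d.2
    have k1 := key_adj (B := 2 * n + 4) (by omega) (by omega) hac' (by omega)
    have k2 := key_adj (B := 2 * n + 4) (by omega) (by omega) hbd' (by omega)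
    rcases k1 with k1 | ⟨i, k1, k1', k1''⟩ | ⟨i, k1, k1', k1''⟩ <;>
      rcases k2 with k2 | ⟨j, k2, k2', k2''⟩ | ⟨j, k2, k2', k2''⟩ <;> omega

theorem arcFin_acyclic (n : ℕ) (v : Fin n) : ¬ Relation.TransGen (arcFin n) v v := by
  have key : ∀ a b : Fin n, Relation.TransGen (arcFin n) a b → (pos a).2 < (pos b).2 := by
    intro a b h
    induction h with
    | single h => exact h.2
    | tail _ h ih => exact ih.trans h.2
  intro h
  exact lt_irrefl _ (key v v h)

theorem arcFin_directedOuterplanar (n : ℕ) : IsDirectedOuterplanar (arcFin n) :=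
  ⟨arcFin_acyclic n, arcFin_outerplanar n⟩

end Pool.Agent.Helper37.OP
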