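import Pool.Agent.Helper37.Spiral
import Pool.Agent.Helper37.OPDefs

/-! The graph family, and the exponential lower bound for each of its upward drawings. -/

namespace Pool.Agent.Helper37.OP

open Pool.Agent.Helper37.Plane

/-- Undirected links `u - w` with `u < w`. The vertices `4i, 4i+1, 4i+2, 4i+3` are called
`x i, v i, c i, d i`. -/
def link (u w : ℕ) : Prop :=
  (w = u + 4 ∧ (w % 4 = 0 ∨ w % 4 = 1)) ∨ (w = u + 1 ∧ w % 4 ≠ 0) ∨ (w = u + 5 ∧ w % 4 = 1) ∨
    (w = u + 6 ∧ w % 4 = 3)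

def adj (u w : ℕ) : Prop := link u w ∨ link w u

def cX (r : ℕ) : ℤ := if r = 0 then 1 else if r = 3 then -1 else 2
def cY (r : ℕ) : ℤ := if r = 0 then 1 else if r = 1 then 3 else if r = 2 then 4 else -1

/-- The reference drawing. -/
def pos (m : ℕ) : ℤ × ℤ := ((-4) ^ (m / 4) * cX (m % 4), (-8) ^ (m / 4) * cY (m % 4))

/-- The arcs. -/
def arc (u w : ℕ) : Prop := adj u w ∧ (pos u).2 < (pos w).2

/-- The digraph on the first `n` vertices. -/
def arcFin (n : ℕ) (u w : Fin n) : Prop := arc u w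

theorem adj_symm {u w : ℕ} (h : adj u w) : adj w u := h.symm

theorem pos_sign {u w : ℕ} (h : link u w) :
    (w % 4 ≠ 3 → 0 < (-1 : ℤ) ^ (w / 4) * ((pos w).2 - (pos u).2)) ∧
    (w % 4 = 3 → 0 < (-1 : ℤ) ^ (w / 4) * ((pos u).2 - (pos w).2)) := by
  have h8 : ∀ i : ℕ, (-8 : ℤ) ^ i = (-1) ^ i * 8 ^ i := by
    intro i; rw [← mul_pow]; norm_num
  have h1 : ∀ i : ℕ, (-1 : ℤ) ^ i * (-1) ^ i = 1 := by
    intro i; rw [← mul_pow]; norm_num
  have hp : ∀ i : ℕ, (0 : ℤ) < 8 ^ i := fun i => by positivity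
  obtain ⟨i, r, hr, rfl⟩ : ∃ i r, r < 4 ∧ w = 4 * i + r :=
    ⟨w / 4, w % 4, Nat.mod_lt _ (by norm_num), (Nat.div_add_mod w 4).symm⟩
  have e1 : (4 * i + r) / 4 = i := by omega
  have e2 : (4 * i + r) % 4 = r := by omega
  unfold link at h
  rw [e1, e2]
  rw [e2] at h
  simp only [pos, e1, e2]
  -- the earlier vertex is either in the same generation or in the previous one
  rcases h with ⟨hu, hr'⟩ | ⟨hu, hr'⟩ | ⟨hu, hr'⟩ | ⟨hu, hr'⟩
  · -- previous generation, same type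
    obtain ⟨i, rfl⟩ : ∃ j, i = j + 1 := ⟨i - 1, by omega⟩
    have hu' : u = 4 * i + r := by omega
    subst hu'
    have f1 : (4 * i + r) / 4 = i := by omega
    have f2 : (4 * i + r) % 4 = r := by omega
    rw [f1, f2, h8, h8, pow_succ, pow_succ]
    have := hp i; have := h1 i
    rcases hr' with rfl | rfl
    · refine ⟨fun _ => ?_, fun h => by omega⟩
      have : (-1 : ℤ) ^ i * -1 * ((-1) ^ i * -1 * (8 ^ i * 8) * cY 0 - (-1) ^ i * 8 ^ i * cY 0) =
        (-1 : ℤ) ^ i * (-1) ^ i * (9 * 8 ^ i) := by simp only [cY]; norm_num; ring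
      rw [this, h1]; linarith [hp i]
    · refine ⟨fun _ => ?_, fun h => by omega⟩
      have : (-1 : ℤ) ^ i * -1 * ((-1) ^ i * -1 * (8 ^ i * 8) * cY 1 - (-1) ^ i * 8 ^ i * cY 1) =
        (-1 : ℤ) ^ i * (-1) ^ i * (27 * 8 ^ i) := by simp only [cY]; norm_num; ring
      rw [this, h1]; linarith [hp i]
  · -- same generation
    have hr3 : r = 1 ∨ r = 2 ∨ r = 3 := by omega
    rcases hr3 with rfl | rfl | rfl
    · have hu' : u = 4 * i + 0 := by omega
      subst hu'
      have f1 : (4 * i + 0) / 4 = i := by omega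
      have f2 : (4 * i + 0) % 4 = 0 := by omega
      rw [f1, f2, h8]
      refine ⟨fun _ => ?_, fun h => by omega⟩
      have : (-1 : ℤ) ^ i * ((-1) ^ i * 8 ^ i * cY 1 - (-1) ^ i * 8 ^ i * cY 0) =
        (-1 : ℤ) ^ i * (-1) ^ i * (2 * 8 ^ i) := by simp only [cY]; norm_num; ring
      rw [this, h1]; linarith [hp i]
    · have hu' : u = 4 * i + 1 := by omega
      subst hu'
      have f1 : (4 * i + 1) / 4 = i := by omega
      have f2 : (4 * i + 1) % 4 = 1 := by omega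
      rw [f1, f2, h8]
      refine ⟨fun _ => ?_, fun h => by omega⟩
      have : (-1 : ℤ) ^ i * ((-1) ^ i * 8 ^ i * cY 2 - (-1) ^ i * 8 ^ i * cY 1) =
        (-1 : ℤ) ^ i * (-1) ^ i * (8 ^ i) := by simp only [cY]; norm_num; ring
      rw [this, h1]; linarith [hp i]
    · have hu' : u = 4 * i + 2 := by omega
      subst hu'
      have f1 : (4 * i + 2) / 4 = i := by omega
      have f2 : (4 * i + 2) % 4 = 2 := by omega
      rw [f1, f2, h8]
      refine ⟨fun h => by omega, fun _ => ?_⟩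
      have : (-1 : ℤ) ^ i * ((-1) ^ i * 8 ^ i * cY 2 - (-1) ^ i * 8 ^ i * cY 3) =
        (-1 : ℤ) ^ i * (-1) ^ i * (5 * 8 ^ i) := by simp only [cY]; norm_num; ring
      rw [this, h1]; linarith [hp i]
  · subst hr'
    obtain ⟨i, rfl⟩ : ∃ j, i = j + 1 := ⟨i - 1, by omega⟩
    have hu' : u = 4 * i + 0 := by omega
    subst hu'
    have f1 : (4 * i + 0) / 4 = i := by omega
    have f2 : (4 * i + 0) % 4 = 0 := by omega
    rw [f1, f2, h8, h8, pow_succ, pow_succ]
    refine ⟨fun _ => ?_, fun h => by omega⟩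
    have : (-1 : ℤ) ^ i * -1 * ((-1) ^ i * -1 * (8 ^ i * 8) * cY 1 - (-1) ^ i * 8 ^ i * cY 0) =
      (-1 : ℤ) ^ i * (-1) ^ i * (25 * 8 ^ i) := by simp only [cY]; norm_num; ring
    rw [this, h1]; linarith [hp i]
  · subst hr'
    obtain ⟨i, rfl⟩ : ∃ j, i = j + 1 := ⟨i - 1, by omega⟩
    have hu' : u = 4 * i + 1 := by omega
    subst hu'
    have f1 : (4 * i + 1) / 4 = i := by omega
    have f2 : (4 * i + 1) % 4 = 1 := by omega
    rw [f1, f2, h8, h8, pow_succ, pow_succ]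
    refine ⟨fun h => by omega, fun _ => ?_⟩
    have : (-1 : ℤ) ^ i * -1 * ((-1) ^ i * 8 ^ i * cY 1 - (-1) ^ i * -1 * (8 ^ i * 8) * cY 3) =
      (-1 : ℤ) ^ i * (-1) ^ i * (5 * 8 ^ i) := by simp only [cY]; norm_num; ring
    rw [this, h1]; linarith [hp i]

theorem pos_ne_of_link {u w : ℕ} (h : link u w) : (pos u).2 ≠ (pos w).2 := by
  intro he
  have := pos_sign h
  rw [he] at this
  by_cases h3 : w % 4 = 3
  · simpa using this.2 h3
  · simpa using this.1 h3

theorem arc_of_adj {u w : ℕ} (h : adj u w) : arc u w ∨ arc w u := by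
  have hne : (pos u).2 ≠ (pos w).2 := by
    rcases h with h | h
    · exact pos_ne_of_link h
    · exact (pos_ne_of_link h).symm
  rcases lt_or_gt_of_ne hne with h1 | h1
  · exact Or.inl ⟨h, h1⟩
  · exact Or.inr ⟨adj_symm h, h1⟩

/-! ### Consequences for an arbitrary upward drawing -/

section Drawing

variable {n : ℕ} {p : Fin n → ℤ × ℤ}

/-- Extension of a placement to all of `ℕ` (junk outside). -/
def ext (p : Fin n → ℤ × ℤ) (m : ℕ) : ℝ × ℝ := if h : m < n then toPlane (p ⟨m, h⟩) else 0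

theorem ext_of_lt (m : ℕ) (h : m < n) : ext p m = toPlane (p ⟨m, h⟩) := by
  simp [ext, h]

theorem toPlane_inj {a b : ℤ × ℤ} (h : toPlane a = toPlane b) : a = b := by
  simp only [toPlane, Prod.mk.injEq, Int.cast_inj] at h
  exact Prod.ext h.1 h.2

theorem ext_inj (hD : IsUpwardDrawing (arcFin n) p) {a b : ℕ} (ha : a < n) (hb : b < n)
    (h : ext p a = ext p b) : a = b := by
  rw [ext_of_lt a ha, ext_of_lt b hb] at h
  have := hD.injective (toPlane_inj h)
  simpa using this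

theorem seg_cross (hD : IsUpwardDrawing (arcFin n) p) {a b c d : ℕ} (hab : arc a b) (hcd : arc c d)
    (ha : a < n) (hb : b < n) (hc : c < n) (hd : d < n) (h1 : a ≠ c) (h2 : a ≠ d) (h3 : b ≠ c)
    (h4 : b ≠ d) : Disjoint (segment ℝ (ext p a) (ext p b)) (segment ℝ (ext p c) (ext p d)) := by
  rw [Set.disjoint_left]
  intro z hz1 hz2
  rw [ext_of_lt a ha, ext_of_lt b hb] at hz1
  rw [ext_of_lt c hc, ext_of_lt d hd] at hz2
  have := hD.noncrossing ⟨a, ha⟩ ⟨b, hb⟩ ⟨c, hc⟩ ⟨d, hd⟩ hab hcd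
    (by simp only [ne_eq, Prod.mk.injEq, Fin.mk.injEq]; omega) z hz1 hz2
  obtain ⟨e1, e2⟩ := this
  rcases e1 with e1 | e1 <;> rcases e2 with e2 | e2 <;> rw [e1] at e2 <;>
    have e3 := hD.injective (toPlane_inj e2) <;> simp at e3
  · exact h1 e3
  · exact h2 e3
  · exact h3 e3
  · exact h4 e3

theorem seg_disj (hD : IsUpwardDrawing (arcFin n) p) {a b c d : ℕ} (hab : adj a b) (hcd : adj c d)
    (ha : a < n) (hb : b < n) (hc : c < n) (hd : d < n) (h1 : a ≠ c) (h2 : a ≠ d) (h3 : b ≠ c)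
    (h4 : b ≠ d) : Disjoint (segment ℝ (ext p a) (ext p b)) (segment ℝ (ext p c) (ext p d)) := by
  rcases arc_of_adj hab with hab | hab <;> rcases arc_of_adj hcd with hcd | hcd
  · exact seg_cross hD hab hcd ha hb hc hd h1 h2 h3 h4
  · rw [segment_symm ℝ (ext p c)]
    exact seg_cross hD hab hcd ha hb hd hc h2 h1 h4 h3
  · rw [segment_symm ℝ (ext p a)]
    exact seg_cross hD hab hcd hb ha hc hd h3 h4 h1 h2
  · rw [segment_symm ℝ (ext p a), segment_symm ℝ (ext p c)]
    exact seg_cross hD hab hcd hb ha hd hc h4 h3 h2 h1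

theorem vfree (hD : IsUpwardDrawing (arcFin n) p) {a b t : ℕ} (hab : adj a b)
    (ha : a < n) (hb : b < n) (ht : t < n) (h1 : t ≠ a) (h2 : t ≠ b) :
    ext p t ∉ segment ℝ (ext p a) (ext p b) := by
  rw [ext_of_lt a ha, ext_of_lt b hb, ext_of_lt t ht]
  rcases arc_of_adj hab with hab | hab
  · exact hD.vertex_free ⟨a, ha⟩ ⟨b, hb⟩ ⟨t, ht⟩ hab (by simpa using h1) (by simpa using h2)
  · rw [segment_symm]
    exact hD.vertex_free ⟨b, hb⟩ ⟨a, ha⟩ ⟨t, ht⟩ hab (by simpa using h2) (by simpa using h1)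

theorem ysign (hD : IsUpwardDrawing (arcFin n) p) {u w : ℕ} (h : link u w) (hu : u < n)
    (hw : w < n) :
    (w % 4 ≠ 3 → 0 < (-1 : ℝ) ^ (w / 4) * ((ext p w).2 - (ext p u).2)) ∧
    (w % 4 = 3 → 0 < (-1 : ℝ) ^ (w / 4) * ((ext p u).2 - (ext p w).2)) := by
  obtain ⟨g1, g2⟩ := pos_sign h
  rw [ext_of_lt u hu, ext_of_lt w hw]
  simp only [toPlane]
  have up1 : (pos u).2 < (pos w).2 → (p ⟨u, hu⟩).2 < (p ⟨w, hw⟩).2 := fun hh =>
    hD.upward _ _ (show arc u w from ⟨Or.inl h, hh⟩)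
  have up2 : (pos w).2 < (pos u).2 → (p ⟨w, hw⟩).2 < (p ⟨u, hu⟩).2 := fun hh =>
    hD.upward _ _ (show arc w u from ⟨Or.inr h, hh⟩)
  rcases neg_one_pow_eq_or ℤ (w / 4) with he | he
  · rw [he] at g1 g2
    have he' : (-1 : ℝ) ^ (w / 4) = 1 := by exact_mod_cast congrArg (fun z : ℤ => (z : ℝ)) he
    rw [he']
    constructor
    · intro h3
      have := up1 (by linarith [g1 h3])
      have : ((p ⟨u, hu⟩).2 : ℝ) < (p ⟨w, hw⟩).2 := by exact_mod_cast this
      linarith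
    · intro h3
      have := up2 (by linarith [g2 h3])
      have : ((p ⟨w, hw⟩).2 : ℝ) < (p ⟨u, hu⟩).2 := by exact_mod_cast this
      linarith
  · rw [he] at g1 g2
    have he' : (-1 : ℝ) ^ (w / 4) = -1 := by
      have := congrArg (fun z : ℤ => (z : ℝ)) he
      push_cast at this
      exact this
    rw [he']
    constructor
    · intro h3
      have := up2 (by linarith [g1 h3])
      have : ((p ⟨w, hw⟩).2 : ℝ) < (p ⟨u, hu⟩).2 := by exact_mod_cast this
      linarith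
    · intro h3
      have := up1 (by linarith [g2 h3])
      have : ((p ⟨u, hu⟩).2 : ℝ) < (p ⟨w, hw⟩).2 := by exact_mod_cast this
      linarith

/-- Three collinear points: the middle one (in height) is on the segment of the others. -/
theorem mid_seg {a b c : ℝ × ℝ} {s : ℝ} (h0 : det a b c = 0) (h1 : s * a.2 < s * b.2)
    (h2 : s * b.2 < s * c.2) : b ∈ segment ℝ a c := by
  have hac : 0 < s * (c.2 - a.2) := by linarith [mul_sub s c.2 a.2]
  have hne : c.2 - a.2 ≠ 0 := by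
    rintro h; rw [h] at hac; simp at hac
  have hs : s ≠ 0 := by rintro rfl; simp at hac
  rw [mem_segment_iff]
  refine ⟨(b.2 - a.2) / (c.2 - a.2), ?_, ?_, ?_, ?_⟩
  · have : (b.2 - a.2) / (c.2 - a.2) = (s * (b.2 - a.2)) / (s * (c.2 - a.2)) := by
      field_simp
    rw [this]
    apply div_nonneg _ hac.le
    linarith [mul_sub s b.2 a.2]
  · have : (b.2 - a.2) / (c.2 - a.2) = (s * (b.2 - a.2)) / (s * (c.2 - a.2)) := by
      field_simp
    rw [this, div_le_one hac]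
    linarith [mul_sub s b.2 a.2, mul_sub s c.2 a.2]
  · field_simp
    simp only [det] at h0
    linear_combination h0
  · field_simp
    ring

end Drawing

end Pool.Agent.Helper37.OP
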