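import Pool.Agent.Helper37.OPGraph

/-! Exponential lower bound for the area of every upward drawing of `arcFin n`. -/

namespace Pool.Agent.Helper37.OP

open Pool.Agent.Helper37.Plane

variable {n : ℕ} {p : Fin n → ℤ × ℤ}

theorem det_swap23 (a b c : ℝ × ℝ) : det a c b = - det a b c := by simp only [det]; ring
theorem det_rot (a b c : ℝ × ℝ) : det b c a = det a b c := by simp only [det]; ring

/-- The heights around the vertex `v (j+1)`; `s` is the sign of generation `j + 1`. -/
structure Heights (p : Fin n → ℤ × ℤ) (k : ℕ) (s : ℝ) : Prop where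
  vx : s * (ext p (k + 4)).2 < s * (ext p (k + 5)).2
  xx : s * (ext p k).2 < s * (ext p (k + 4)).2
  vv : s * (ext p (k + 1)).2 < s * (ext p (k + 5)).2
  xv : s * (ext p k).2 < s * (ext p (k + 5)).2
  vx0 : s * (ext p (k + 1)).2 < s * (ext p k).2
  vx2 : s * (ext p (k + 9)).2 < s * (ext p (k + 4)).2
  vv2 : s * (ext p (k + 9)).2 < s * (ext p (k + 5)).2
  vc : s * (ext p (k + 5)).2 < s * (ext p (k + 6)).2
  vd : s * (ext p (k + 5)).2 < s * (ext p (k + 11)).2

theorem heights (hD : IsUpwardDrawing (arcFin n) p) {k : ℕ} (hk : k % 4 = 0) (hn : k + 11 < n) :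
    Heights p k ((-1) ^ ((k + 4) / 4)) := by
  have hpow1 : (-1 : ℝ) ^ (k / 4) = - (-1 : ℝ) ^ ((k + 4) / 4) := by
    have : (k + 4) / 4 = k / 4 + 1 := by omega
    rw [this, pow_succ]; ring
  have hpow2 : (-1 : ℝ) ^ ((k + 8) / 4) = - (-1 : ℝ) ^ ((k + 4) / 4) := by
    have : (k + 8) / 4 = (k + 4) / 4 + 1 := by omega
    rw [this, pow_succ]; ring
  have q5 : (k + 5) / 4 = (k + 4) / 4 := by omega
  have q6 : (k + 6) / 4 = (k + 4) / 4 := by omega
  have q1 : (k + 1) / 4 = k / 4 := by omega
  have q9 : (k + 9) / 4 = (k + 8) / 4 := by omega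
  have q11 : (k + 11) / 4 = (k + 8) / 4 := by omega
  constructor
  · have := (ysign hD (u := k + 4) (w := k + 5) (by unfold link; omega) (by omega) (by omega)).1
      (by omega)
    rw [q5] at this; linarith [mul_sub ((-1 : ℝ) ^ ((k + 4) / 4)) (ext p (k + 5)).2 (ext p (k + 4)).2]
  · have := (ysign hD (u := k) (w := k + 4) (by unfold link; omega) (by omega) (by omega)).1
      (by omega)
    linarith [mul_sub ((-1 : ℝ) ^ ((k + 4) / 4)) (ext p (k + 4)).2 (ext p k).2]
  · have := (ysign hD (u := k + 1) (w := k + 5) (by unfold link; omega) (by omega) (by omega)).1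
      (by omega)
    rw [q5] at this; linarith [mul_sub ((-1 : ℝ) ^ ((k + 4) / 4)) (ext p (k + 5)).2 (ext p (k + 1)).2]
  · have := (ysign hD (u := k) (w := k + 5) (by unfold link; omega) (by omega) (by omega)).1
      (by omega)
    rw [q5] at this; linarith [mul_sub ((-1 : ℝ) ^ ((k + 4) / 4)) (ext p (k + 5)).2 (ext p k).2]
  · have := (ysign hD (u := k) (w := k + 1) (by unfold link; omega) (by omega) (by omega)).1
      (by omega)
    rw [q1, hpow1] at this
    linarith [mul_sub ((-1 : ℝ) ^ ((k + 4) / 4)) (ext p (k + 1)).2 (ext p k).2]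
  · have := (ysign hD (u := k + 4) (w := k + 9) (by unfold link; omega) (by omega) (by omega)).1
      (by omega)
    rw [q9, hpow2] at this
    linarith [mul_sub ((-1 : ℝ) ^ ((k + 4) / 4)) (ext p (k + 9)).2 (ext p (k + 4)).2]
  · have := (ysign hD (u := k + 5) (w := k + 9) (by unfold link; omega) (by omega) (by omega)).1
      (by omega)
    rw [q9, hpow2] at this
    linarith [mul_sub ((-1 : ℝ) ^ ((k + 4) / 4)) (ext p (k + 9)).2 (ext p (k + 5)).2]
  · have := (ysign hD (u := k + 5) (w := k + 6) (by unfold link; omega) (by omega) (by omega)).1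
      (by omega)
    rw [q6] at this
    linarith [mul_sub ((-1 : ℝ) ^ ((k + 4) / 4)) (ext p (k + 6)).2 (ext p (k + 5)).2]
  · have := (ysign hD (u := k + 5) (w := k + 11) (by unfold link; omega) (by omega) (by omega)).2
      (by omega)
    rw [q11, hpow2] at this
    linarith [mul_sub ((-1 : ℝ) ^ ((k + 4) / 4)) (ext p (k + 5)).2 (ext p (k + 11)).2]

/-- No folding at the chord `v (j+1) - x j`. -/
theorem claimA (hD : IsUpwardDrawing (arcFin n) p) {k : ℕ} (hk : k % 4 = 0) (hn : k + 11 < n) :
    det (ext p (k + 5)) (ext p k) (ext p (k + 1)) *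
      det (ext p (k + 5)) (ext p k) (ext p (k + 4)) < 0 := by
  obtain ⟨vx, xx, vv, xv, vx0, vx2, vv2, vc, vd⟩ := heights hD hk hn
  set s : ℝ := (-1) ^ ((k + 4) / 4)
  apply nofold
  · intro h0
    have h0' : det (ext p (k + 1)) (ext p k) (ext p (k + 5)) = 0 := by
      rw [← h0]
      have : det (ext p (k + 5)) (ext p k) (ext p (k + 1)) =
        - det (ext p (k + 1)) (ext p k) (ext p (k + 5)) := by simp only [det]; ring
      rw [this] at h0
      linarith
    exact vfree hD (a := k + 1) (b := k + 5) (t := k) (by unfold adj link; omega) (by omega)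
      (by omega) (by omega) (by omega) (by omega) (mid_seg h0' vx0 xv)
  · intro h0
    have h0' : det (ext p k) (ext p (k + 4)) (ext p (k + 5)) = 0 := by
      rw [← h0]; simp only [det]; ring
    exact vfree hD (a := k) (b := k + 5) (t := k + 4) (by unfold adj link; omega) (by omega)
      (by omega) (by omega) (by omega) (by omega) (mid_seg h0' xx vx)
  · exact seg_disj hD (by unfold adj link; omega) (by unfold adj link; omega) (by omega)
      (by omega) (by omega) (by omega) (by omega) (by omega) (by omega) (by omega)
  · exact seg_disj hD (by unfold adj link; omega) (by unfold adj link; omega) (by omega)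
      (by omega) (by omega) (by omega) (by omega) (by omega) (by omega) (by omega)
  · exact vfree hD (by unfold adj link; omega) (by omega) (by omega) (by omega) (by omega)
      (by omega)
  · exact vfree hD (by unfold adj link; omega) (by omega) (by omega) (by omega) (by omega)
      (by omega)
  · exact vfree hD (by unfold adj link; omega) (by omega) (by omega) (by omega) (by omega)
      (by omega)
  · exact vfree hD (by unfold adj link; omega) (by omega) (by omega) (by omega) (by omega)
      (by omega)
  · intro hin
    have := hin.le (s := -s) (M := -(s * (ext p k).2)) (by linarith) (by linarith) (by linarith)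
    linarith
  · intro hin
    have h1 : Inside (ext p (k + 5)) (ext p k) (ext p (k + 1)) (ext p (k + 9)) :=
      hin.step
        (seg_disj hD (by unfold adj link; omega) (by unfold adj link; omega) (by omega)
          (by omega) (by omega) (by omega) (by omega) (by omega) (by omega) (by omega))
        (seg_disj hD (by unfold adj link; omega) (by unfold adj link; omega) (by omega)
          (by omega) (by omega) (by omega) (by omega) (by omega) (by omega) (by omega))
        (seg_disj hD (by unfold adj link; omega) (by unfold adj link; omega) (by omega)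
          (by omega) (by omega) (by omega) (by omega) (by omega) (by omega) (by omega))
    have h2 : Inside (ext p (k + 5)) (ext p k) (ext p (k + 1)) (ext p (k + 10)) :=
      h1.step
        (seg_disj hD (by unfold adj link; omega) (by unfold adj link; omega) (by omega)
          (by omega) (by omega) (by omega) (by omega) (by omega) (by omega) (by omega))
        (seg_disj hD (by unfold adj link; omega) (by unfold adj link; omega) (by omega)
          (by omega) (by omega) (by omega) (by omega) (by omega) (by omega) (by omega))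
        (seg_disj hD (by unfold adj link; omega) (by unfold adj link; omega) (by omega)
          (by omega) (by omega) (by omega) (by omega) (by omega) (by omega) (by omega))
    have h3 : Inside (ext p (k + 5)) (ext p k) (ext p (k + 1)) (ext p (k + 11)) :=
      h2.step
        (seg_disj hD (by unfold adj link; omega) (by unfold adj link; omega) (by omega)
          (by omega) (by omega) (by omega) (by omega) (by omega) (by omega) (by omega))
        (seg_disj hD (by unfold adj link; omega) (by unfold adj link; omega) (by omega)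
          (by omega) (by omega) (by omega) (by omega) (by omega) (by omega) (by omega))
        (seg_disj hD (by unfold adj link; omega) (by unfold adj link; omega) (by omega)
          (by omega) (by omega) (by omega) (by omega) (by omega) (by omega) (by omega))
    have := h3.le (s := s) (M := s * (ext p (k + 5)).2) le_rfl (by linarith) (by linarith)
    linarith

/-- No folding at the chord `v (j+1) - x (j+1)`. -/
theorem claimB (hD : IsUpwardDrawing (arcFin n) p) {k : ℕ} (hk : k % 4 = 0) (hn : k + 11 < n) :
    det (ext p (k + 5)) (ext p (k + 4)) (ext p k) *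
      det (ext p (k + 5)) (ext p (k + 4)) (ext p (k + 9)) < 0 := by
  obtain ⟨vx, xx, vv, xv, vx0, vx2, vv2, vc, vd⟩ := heights hD hk hn
  set s : ℝ := (-1) ^ ((k + 4) / 4)
  apply nofold
  · intro h0
    have h0' : det (ext p k) (ext p (k + 4)) (ext p (k + 5)) = 0 := by
      have : det (ext p (k + 5)) (ext p (k + 4)) (ext p k) =
        - det (ext p k) (ext p (k + 4)) (ext p (k + 5)) := by simp only [det]; ring
      rw [this] at h0
      linarith
    exact vfree hD (a := k) (b := k + 5) (t := k + 4) (by unfold adj link; omega) (by omega)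
      (by omega) (by omega) (by omega) (by omega) (mid_seg h0' xx vx)
  · intro h0
    have h0' : det (ext p (k + 9)) (ext p (k + 4)) (ext p (k + 5)) = 0 := by
      have : det (ext p (k + 5)) (ext p (k + 4)) (ext p (k + 9)) =
        - det (ext p (k + 9)) (ext p (k + 4)) (ext p (k + 5)) := by simp only [det]; ring
      rw [this] at h0
      linarith
    exact vfree hD (a := k + 9) (b := k + 5) (t := k + 4) (by unfold adj link; omega) (by omega)
      (by omega) (by omega) (by omega) (by omega) (mid_seg h0' vx2 vx)
  · exact seg_disj hD (by unfold adj link; omega) (by unfold adj link; omega) (by omega)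
      (by omega) (by omega) (by omega) (by omega) (by omega) (by omega) (by omega)
  · exact seg_disj hD (by unfold adj link; omega) (by unfold adj link; omega) (by omega)
      (by omega) (by omega) (by omega) (by omega) (by omega) (by omega) (by omega)
  · exact vfree hD (by unfold adj link; omega) (by omega) (by omega) (by omega) (by omega)
      (by omega)
  · exact vfree hD (by unfold adj link; omega) (by omega) (by omega) (by omega) (by omega)
      (by omega)
  · exact vfree hD (by unfold adj link; omega) (by omega) (by omega) (by omega) (by omega)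
      (by omega)
  · exact vfree hD (by unfold adj link; omega) (by omega) (by omega) (by omega) (by omega)
      (by omega)
  · intro hin
    have h1 : Inside (ext p (k + 5)) (ext p (k + 4)) (ext p (k + 9)) (ext p (k + 1)) :=
      hin.step
        (seg_disj hD (by unfold adj link; omega) (by unfold adj link; omega) (by omega)
          (by omega) (by omega) (by omega) (by omega) (by omega) (by omega) (by omega))
        (seg_disj hD (by unfold adj link; omega) (by unfold adj link; omega) (by omega)
          (by omega) (by omega) (by omega) (by omega) (by omega) (by omega) (by omega))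
        (seg_disj hD (by unfold adj link; omega) (by unfold adj link; omega) (by omega)
          (by omega) (by omega) (by omega) (by omega) (by omega) (by omega) (by omega))
    have h2 : Inside (ext p (k + 5)) (ext p (k + 4)) (ext p (k + 9)) (ext p (k + 7)) :=
      h1.step
        (seg_disj hD (by unfold adj link; omega) (by unfold adj link; omega) (by omega)
          (by omega) (by omega) (by omega) (by omega) (by omega) (by omega) (by omega))
        (seg_disj hD (by unfold adj link; omega) (by unfold adj link; omega) (by omega)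
          (by omega) (by omega) (by omega) (by omega) (by omega) (by omega) (by omega))
        (seg_disj hD (by unfold adj link; omega) (by unfold adj link; omega) (by omega)
          (by omega) (by omega) (by omega) (by omega) (by omega) (by omega) (by omega))
    have h3 : Inside (ext p (k + 5)) (ext p (k + 4)) (ext p (k + 9)) (ext p (k + 6)) :=
      h2.step
        (seg_disj hD (by unfold adj link; omega) (by unfold adj link; omega) (by omega)
          (by omega) (by omega) (by omega) (by omega) (by omega) (by omega) (by omega))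
        (seg_disj hD (by unfold adj link; omega) (by unfold adj link; omega) (by omega)
          (by omega) (by omega) (by omega) (by omega) (by omega) (by omega) (by omega))
        (seg_disj hD (by unfold adj link; omega) (by unfold adj link; omega) (by omega)
          (by omega) (by omega) (by omega) (by omega) (by omega) (by omega) (by omega))
    have := h3.le (s := s) (M := s * (ext p (k + 5)).2) le_rfl (by linarith) (by linarith)
    linarith
  · intro hin
    have h2 : Inside (ext p (k + 5)) (ext p (k + 4)) (ext p k) (ext p (k + 10)) :=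
      hin.step
        (seg_disj hD (by unfold adj link; omega) (by unfold adj link; omega) (by omega)
          (by omega) (by omega) (by omega) (by omega) (by omega) (by omega) (by omega))
        (seg_disj hD (by unfold adj link; omega) (by unfold adj link; omega) (by omega)
          (by omega) (by omega) (by omega) (by omega) (by omega) (by omega) (by omega))
        (seg_disj hD (by unfold adj link; omega) (by unfold adj link; omega) (by omega)
          (by omega) (by omega) (by omega) (by omega) (by omega) (by omega) (by omega))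
    have h3 : Inside (ext p (k + 5)) (ext p (k + 4)) (ext p k) (ext p (k + 11)) :=
      h2.step
        (seg_disj hD (by unfold adj link; omega) (by unfold adj link; omega) (by omega)
          (by omega) (by omega) (by omega) (by omega) (by omega) (by omega) (by omega))
        (seg_disj hD (by unfold adj link; omega) (by unfold adj link; omega) (by omega)
          (by omega) (by omega) (by omega) (by omega) (by omega) (by omega) (by omega))
        (seg_disj hD (by unfold adj link; omega) (by unfold adj link; omega) (by omega)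
          (by omega) (by omega) (by omega) (by omega) (by omega) (by omega) (by omega))
    have := h3.le (s := s) (M := s * (ext p (k + 5)).2) le_rfl (by linarith) (by linarith)
    linarith

/-- The turn at `v (j+1)`. -/
theorem turn_at (hD : IsUpwardDrawing (arcFin n) p) {k : ℕ} (hk : k % 4 = 0) (hn : k + 11 < n) :
    0 < det (ext p (k + 5)) (ext p (k + 1)) (ext p (k + 9)) *
        det (ext p (k + 5)) (ext p (k + 1)) (ext p k) ∧
      0 < det (ext p (k + 5)) (ext p (k + 1)) (ext p (k + 9)) *
        det (ext p (k + 5)) (ext p (k + 4)) (ext p (k + 9)) := by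
  have hA := claimA hD hk hn
  have hB := claimB hD hk hn
  obtain ⟨vx, xx, vv, xv, vx0, vx2, vv2, vc, vd⟩ := heights hD hk hn
  set s : ℝ := (-1) ^ ((k + 4) / 4)
  refine turn (s := s) ?_ ?_ ?_ ?_ hA hB
  · linarith [mul_sub s (ext p (k + 5)).2 (ext p (k + 1)).2]
  · linarith [mul_sub s (ext p (k + 5)).2 (ext p k).2]
  · linarith [mul_sub s (ext p (k + 5)).2 (ext p (k + 4)).2]
  · linarith [mul_sub s (ext p (k + 5)).2 (ext p (k + 9)).2]

/-- The path of the `v`'s. -/
def vpath (p : Fin n → ℤ × ℤ) (i : ℕ) : ℝ × ℝ := ext p (4 * i + 1)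

theorem vpath_zigzag (hD : IsUpwardDrawing (arcFin n) p) {M : ℕ} (hM : 4 * M + 3 < n) :
    Zigzag M (vpath p) where
  ext i hi := by
    obtain ⟨vx, xx, vv, xv, vx0, vx2, vv2, vc, vd⟩ := heights hD (k := 4 * i) (by omega) (by omega)
    simp only [vpath]
    have e1 : 4 * (i + 1) + 1 = 4 * i + 5 := by ring
    have e2 : 4 * (i + 2) + 1 = 4 * i + 9 := by ring
    rw [e1, e2]
    set s : ℝ := (-1) ^ ((4 * i + 4) / 4)
    have h1 : 0 < s * ((Pool.Agent.Helper37.OP.ext p (4 * i + 5)).2 -
        (Pool.Agent.Helper37.OP.ext p (4 * i + 1)).2) := by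
      rw [mul_sub]; linarith
    have h2 : 0 < s * ((Pool.Agent.Helper37.OP.ext p (4 * i + 5)).2 -
        (Pool.Agent.Helper37.OP.ext p (4 * i + 9)).2) := by
      rw [mul_sub]; linarith
    have h3 := mul_pos h1 h2
    have hs : s * s = 1 := by
      rw [← mul_pow]; norm_num
    have : s * ((Pool.Agent.Helper37.OP.ext p (4 * i + 5)).2 -
        (Pool.Agent.Helper37.OP.ext p (4 * i + 1)).2) *
        (s * ((Pool.Agent.Helper37.OP.ext p (4 * i + 5)).2 -
        (Pool.Agent.Helper37.OP.ext p (4 * i + 9)).2)) = s * s *
        (((Pool.Agent.Helper37.OP.ext p (4 * i + 5)).2 -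
        (Pool.Agent.Helper37.OP.ext p (4 * i + 1)).2) *
        ((Pool.Agent.Helper37.OP.ext p (4 * i + 5)).2 -
        (Pool.Agent.Helper37.OP.ext p (4 * i + 9)).2)) := by ring
    rw [this, hs, one_mul] at h3
    exact h3
  same i hi := by
    have t1 := (turn_at hD (k := 4 * i) (by omega) (by omega)).2
    have t2 := (turn_at hD (k := 4 * i + 4) (by omega) (by omega)).1
    simp only [vpath]
    have e1 : 4 * (i + 1) + 1 = 4 * i + 5 := by ring
    have e2 : 4 * (i + 2) + 1 = 4 * i + 9 := by ring
    have e3 : 4 * (i + 3) + 1 = 4 * i + 13 := by ring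
    rw [e1, e2, e3]
    simp only [show 4 * i + 4 + 5 = 4 * i + 9 from rfl, show 4 * i + 4 + 1 = 4 * i + 5 from rfl,
      show 4 * i + 4 + 9 = 4 * i + 13 from rfl] at t2
    -- common value
    have c1 : det (ext p (4 * i + 9)) (ext p (4 * i + 5)) (ext p (4 * i + 4)) =
      det (ext p (4 * i + 5)) (ext p (4 * i + 4)) (ext p (4 * i + 9)) := by
      simp only [det]; ring
    have c2 : det (ext p (4 * i + 1)) (ext p (4 * i + 5)) (ext p (4 * i + 9)) =
      - det (ext p (4 * i + 5)) (ext p (4 * i + 1)) (ext p (4 * i + 9)) := by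
      simp only [det]; ring
    have c3 : det (ext p (4 * i + 5)) (ext p (4 * i + 9)) (ext p (4 * i + 13)) =
      - det (ext p (4 * i + 9)) (ext p (4 * i + 5)) (ext p (4 * i + 13)) := by
      simp only [det]; ring
    rw [c1] at t2
    rw [c2, c3]
    set A := det (ext p (4 * i + 5)) (ext p (4 * i + 1)) (ext p (4 * i + 9))
    set B := det (ext p (4 * i + 9)) (ext p (4 * i + 5)) (ext p (4 * i + 13))
    set C := det (ext p (4 * i + 5)) (ext p (4 * i + 4)) (ext p (4 * i + 9))
    have hC : C ≠ 0 := by rintro h; rw [h] at t1; simp at t1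
    have hC2 : 0 < C * C := mul_self_pos.mpr hC
    have h4 : 0 < (A * C) * (B * C) := mul_pos t1 t2
    have h5 : (A * C) * (B * C) = (A * B) * (C * C) := by ring
    rw [h5] at h4
    have h6 : 0 < A * B := by
      by_contra hcon
      have := mul_nonpos_of_nonpos_of_nonneg (not_lt.mp hcon) hC2.le
      linarith
    linarith
  disj i hi := by
    simp only [vpath]
    exact seg_disj hD (by unfold adj link; omega) (by unfold adj link; omega) (by omega)
      (by omega) (by omega) (by omega) (by omega) (by omega) (by omega) (by omega)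

/-- Integer version of `det`. -/
def detZ (a b c : ℤ × ℤ) : ℤ := (b.1 - a.1) * (c.2 - a.2) - (b.2 - a.2) * (c.1 - a.1)

theorem det_toPlane (a b c : ℤ × ℤ) : det (toPlane a) (toPlane b) (toPlane c) = (detZ a b c : ℝ) := by
  simp only [det, toPlane, detZ]; push_cast; ring

theorem vpath_tri_ge (hD : IsUpwardDrawing (arcFin n) p) {M : ℕ} (hM : 4 * M + 3 < n) (i : ℕ)
    (hi : i + 2 ≤ M) : 1 ≤ tri (vpath p) i := by
  have t1 := (turn_at hD (k := 4 * i) (by omega) (by omega)).2
  simp only [tri, vpath]
  have e1 : 4 * (i + 1) + 1 = 4 * i + 5 := by ring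
  have e2 : 4 * (i + 2) + 1 = 4 * i + 9 := by ring
  rw [e1, e2]
  have c2 : det (ext p (4 * i + 1)) (ext p (4 * i + 5)) (ext p (4 * i + 9)) =
    - det (ext p (4 * i + 5)) (ext p (4 * i + 1)) (ext p (4 * i + 9)) := by
    simp only [det]; ring
  have hne : det (ext p (4 * i + 1)) (ext p (4 * i + 5)) (ext p (4 * i + 9)) ≠ 0 := by
    rw [c2]
    intro h
    have h' : det (ext p (4 * i + 5)) (ext p (4 * i + 1)) (ext p (4 * i + 9)) = 0 := by linarith
    rw [h'] at t1; simp at t1
  rw [ext_of_lt _ (show 4 * i + 1 < n by omega), ext_of_lt _ (show 4 * i + 5 < n by omega),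
    ext_of_lt _ (show 4 * i + 9 < n by omega), det_toPlane] at hne ⊢
  have : detZ (p ⟨4 * i + 1, by omega⟩) (p ⟨4 * i + 5, by omega⟩) (p ⟨4 * i + 9, by omega⟩) ≠ 0 := by
    intro h; rw [h] at hne; simp at hne
  have h1 := Int.one_le_abs this
  exact_mod_cast h1

/-- Twice the area of a triangle in a box is at most the area of the box. -/
theorem detZ_le_box {a b c : ℤ × ℤ} {x0 x1 y0 y1 : ℤ} (ha1 : x0 ≤ a.1) (ha2 : a.1 ≤ x1)
    (hb1 : x0 ≤ b.1) (hb2 : b.1 ≤ x1) (hc1 : x0 ≤ c.1) (hc2 : c.1 ≤ x1)
    (ka1 : y0 ≤ a.2) (ka2 : a.2 ≤ y1) (kb1 : y0 ≤ b.2) (kb2 : b.2 ≤ y1) (kc1 : y0 ≤ c.2)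
    (kc2 : c.2 ≤ y1) : detZ a b c ≤ (x1 - x0) * (y1 - y0) := by
  have key : detZ a b c = (a.1 - x0) * (b.2 - c.2) + (b.1 - x0) * (c.2 - a.2) +
      (c.1 - x0) * (a.2 - b.2) := by simp only [detZ]; ring
  have up : ∀ u w : ℤ, 0 ≤ u → u ≤ x1 - x0 → u * w ≤ (x1 - x0) * max w 0 := by
    intro u w hu hu'
    rcases le_total w 0 with hw | hw
    · rw [max_eq_right hw, mul_zero]
      exact mul_nonpos_of_nonneg_of_nonpos hu hw
    · rw [max_eq_left hw]
      exact mul_le_mul_of_nonneg_right hu' hw
  have h1 := up (a.1 - x0) (b.2 - c.2) (by linarith) (by linarith)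
  have h2 := up (b.1 - x0) (c.2 - a.2) (by linarith) (by linarith)
  have h3 := up (c.1 - x0) (a.2 - b.2) (by linarith) (by linarith)
  have h4 : max (b.2 - c.2) 0 + max (c.2 - a.2) 0 + max (a.2 - b.2) 0 ≤ y1 - y0 := by omega
  have h5 : 0 ≤ x1 - x0 := by linarith
  calc detZ a b c ≤ (x1 - x0) * max (b.2 - c.2) 0 + (x1 - x0) * max (c.2 - a.2) 0 +
        (x1 - x0) * max (a.2 - b.2) 0 := by rw [key]; linarith
    _ = (x1 - x0) * (max (b.2 - c.2) 0 + max (c.2 - a.2) 0 + max (a.2 - b.2) 0) := by ring
    _ ≤ (x1 - x0) * (y1 - y0) := mul_le_mul_of_nonneg_left h4 h5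

theorem abs_detZ_le_area (p : Fin n → ℤ × ℤ) (a b c : Fin n) :
    |detZ (p a) (p b) (p c)| ≤ area p := by
  have bx1 : ∀ v, (p v).1 ≤ ⨆ v, (p v).1 := fun v =>
    le_ciSup (f := fun v => (p v).1) (Set.finite_range _).bddAbove v
  have bx0 : ∀ v, ⨅ v, (p v).1 ≤ (p v).1 := fun v =>
    ciInf_le (f := fun v => (p v).1) (Set.finite_range _).bddBelow v
  have by1 : ∀ v, (p v).2 ≤ ⨆ v, (p v).2 := fun v =>
    le_ciSup (f := fun v => (p v).2) (Set.finite_range _).bddAbove v
  have by0 : ∀ v, ⨅ v, (p v).2 ≤ (p v).2 := fun v =>
    ciInf_le (f := fun v => (p v).2) (Set.finite_range _).bddBelow v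
  unfold area
  rw [abs_le]
  constructor
  · have := detZ_le_box (bx0 a) (bx1 a) (bx0 c) (bx1 c) (bx0 b) (bx1 b) (by0 a) (by1 a) (by0 c)
      (by1 c) (by0 b) (by1 b)
    have e : detZ (p a) (p c) (p b) = - detZ (p a) (p b) (p c) := by simp only [detZ]; ring
    rw [e] at this
    linarith
  · exact detZ_le_box (bx0 a) (bx1 a) (bx0 b) (bx1 b) (bx0 c) (bx1 c) (by0 a) (by1 a) (by0 b)
      (by1 b) (by0 c) (by1 c)

/-- Every upward drawing of `arcFin n` has exponential area. -/
theorem area_lower (hD : IsUpwardDrawing (arcFin n) p) (hn : 16 ≤ n) :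
    (4 : ℤ) ^ (n / 16 - 1) ≤ area p := by
  set k := n / 16 - 1 with hk
  have hM : 4 * (4 * k + 3) + 3 < n := by omega
  have hz := vpath_zigzag hD hM
  obtain ⟨i, hi, hbig⟩ := hz.main k le_rfl (fun i hi => vpath_tri_ge hD hM i hi)
  simp only [tri, vpath] at hbig
  rw [ext_of_lt _ (show 4 * i + 1 < n by omega), ext_of_lt _ (show 4 * (i + 1) + 1 < n by omega),
    ext_of_lt _ (show 4 * (i + 2) + 1 < n by omega), det_toPlane] at hbig
  have h1 : (4 : ℤ) ^ k ≤ |detZ (p ⟨4 * i + 1, by omega⟩) (p ⟨4 * (i + 1) + 1, by omega⟩)
      (p ⟨4 * (i + 2) + 1, by omega⟩)| := by exact_mod_cast hbig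
  exact h1.trans (abs_detZ_le_area p _ _ _)

end Pool.Agent.Helper37.OP
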