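import Pool.Agent.Helper37.Op.Core
import Pool.Agent.Helper37.Op.Fin
import Pool.Agent.Helper37.Rc.Num

/-!
# MP_6cbef8_nt: one congruence at one place suffices

`G` is a profinite group with finitely many open subgroups of each index (in the application the
Galois group of the maximal extension of `F` unramified outside a finite set of places), `D` a
subset whose closure has positive measure (the Frobenius elements of a set of places of positive
density), `E` a finite extension of `ℚ_p`, `n`, `m` integers and `c r` real numbers (Weil bounds).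
There is ONE element `r₀` of `D` such that, for all `V` and `T` (of dimension `n`) with integral
Frobenius polynomials over number fields of degree at most `m` satisfying these bounds, a congruence
between the Frobenius polynomials of `V` and of `T` at `r₀` modulo one ideal of large norm forces
`V` to be potentially contained in `T`.
-/

set_option autoImplicit false
open MeasureTheory Polynomial NumberField Pool.Agent.Helper27.FM Pool.Agent.Helper37.Af
  Pool.Agent.Helper37.Rc Pool.Agent.Helper37.Op

namespace Pool.Agent.Helper37.OnePlaceArchive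

/-- `f` and `g` have a common root modulo an ideal of `𝓞 M` of norm larger than `b`: there are a
homomorphism from `𝓞 M` to a commutative ring `A`, with kernel of norm larger than `b`, and a
common root of (the images of) `f` and `g` in `A`. -/
def CommonRootModLarge {M : Type*} [Field M] [NumberField M] (f g : (𝓞 M)[X]) (b : ℝ) : Prop :=
  ∃ (A : Type) (_ : CommRing A) (φ : 𝓞 M →+* A) (z : A),
    b < (Ideal.absNorm (RingHom.ker φ) : ℝ) ∧ f.eval₂ φ z = 0 ∧ g.eval₂ φ z = 0

/-- All complex roots of `f`, for all complex embeddings of `M`, have absolute value at most `b`. -/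
def RootsBounded {M : Type*} [Field M] [NumberField M] (f : (𝓞 M)[X]) (b : ℝ) : Prop :=
  ∀ (σ : M →+* ℂ) (z : ℂ), f.eval₂ (σ.comp (algebraMap (𝓞 M) M)) z = 0 → ‖z‖ ≤ b

theorem result (p : ℕ) [hp : Fact p.Prime]
    -- the coefficient field, a finite extension of `ℚ_p`
    {E : Type*} [NontriviallyNormedField E] [IsUltrametricDist E] [ProperSpace E]
    [NormedAlgebra ℚ_[p] E]
    -- a profinite group with finitely many open subgroups of each index, with a Haar measure
    {G : Type*} [Group G] [TopologicalSpace G] [IsTopologicalGroup G] [CompactSpace G]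
    [TotallyDisconnectedSpace G] [MeasurableSpace G] [BorelSpace G]
    (μ : Measure G) [μ.IsHaarMeasure] [μ.Regular]
    (hfin : ∀ m : ℕ, {U : Subgroup G | IsOpen (U : Set G) ∧ U.index ≤ m}.Finite)
    -- a subset whose closure has positive measure
    {D : Set G} (hD : μ (closure D) ≠ 0)
    -- the dimension of `T`, a bound for the degree of `M`, and bounds for the roots
    (n m : ℕ) (c : G → ℝ) :
    ∃ (R : Set G) (r₀ : G), R ⊆ D ∧ R.Finite ∧ r₀ ∈ R ∧
      ∀ (V : G →* GL (Fin 2) E) (T : G →* GL (Fin n) E) (M : Type) [Field M] [NumberField M]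
        (ι : M →+* E) (f g : G → (𝓞 M)[X]),
        Continuous V → StronglyIrreducible V → Continuous T → Semisimple T →
        IdempotentGenerated p V T → Module.finrank ℚ M ≤ m →
        -- the Frobenius polynomials of `V` and `T` at the elements of `R` are those of `f`, `g`
        (∀ r ∈ R, (V r : Matrix (Fin 2) (Fin 2) E).charpoly =
          (f r).map (ι.comp (algebraMap (𝓞 M) M))) →
        (∀ r ∈ R, (T r : Matrix (Fin n) (Fin n) E).charpoly =
          (g r).map (ι.comp (algebraMap (𝓞 M) M))) →
        -- their complex roots are bounded by `c r`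
        (∀ r ∈ R, RootsBounded (f r) (c r) ∧ RootsBounded (g r) (c r)) →
        -- one congruence modulo an ideal of large norm, at `r₀`
        CommonRootModLarge (f r₀) (g r₀) ((2 * c r₀) ^ (2 * n * Module.finrank ℚ M)) →
        PotentiallyContained V T := by
  have hE0 : CharZero E := charZero_of_injective_algebraMap (algebraMap ℚ_[p] E).injective
  obtain ⟨R, r₀, hRD, hRf, hr₀D, hR⟩ := exists_place p (E := E) μ hfin hD n
    (fun r => {q : E[X] | ∃ (M : Type) (_ : Field M) (_ : NumberField M) (ι : M →+* E)
      (f : (𝓞 M)[X]), Module.finrank ℚ M ≤ m ∧ f.Monic ∧ f.natDegree = 2 ∧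
      (∀ (σ : M →+* ℂ) (z : ℂ), f.eval₂ (σ.comp (algebraMap (𝓞 M) M)) z = 0 → ‖z‖ ≤ c r) ∧
      q = f.map (ι.comp (algebraMap (𝓞 M) M))} ∪
      {q : E[X] | ∃ (M : Type) (_ : Field M) (_ : NumberField M) (ι : M →+* E)
      (f : (𝓞 M)[X]), Module.finrank ℚ M ≤ m ∧ f.Monic ∧ f.natDegree = n ∧
      (∀ (σ : M →+* ℂ) (z : ℂ), f.eval₂ (σ.comp (algebraMap (𝓞 M) M)) z = 0 → ‖z‖ ≤ c r) ∧
      q = f.map (ι.comp (algebraMap (𝓞 M) M))})
    (fun r => (finite_polys E 2 m (c r)).union (finite_polys E n m (c r)))
  refine ⟨insert r₀ R, r₀, Set.insert_subset hr₀D hRD, hRf.insert r₀, Set.mem_insert _ _,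
    fun V T M _ _ ι f g hV hirr hT hss hid hm hVf hTg hc hcong => ?_⟩
  have hι : Function.Injective (ι.comp (algebraMap (𝓞 M) M)) :=
    ι.injective.comp (FaithfulSMul.algebraMap_injective (𝓞 M) M)
  have hmonic : ∀ q : (𝓞 M)[X], (q.map (ι.comp (algebraMap (𝓞 M) M))).Monic → q.Monic :=
    fun q hq => monic_of_injective hι hq
  have hfm : ∀ r ∈ insert r₀ R, (f r).Monic := fun r hr =>
    hmonic _ (by rw [← hVf r hr]; exact Matrix.charpoly_monic _)
  have hgm : ∀ r ∈ insert r₀ R, (g r).Monic := fun r hr =>
    hmonic _ (by rw [← hTg r hr]; exact Matrix.charpoly_monic _)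
  have hf2 : ∀ r ∈ insert r₀ R, (f r).natDegree = 2 := fun r hr => by
    rw [← natDegree_map_eq_of_injective hι, ← hVf r hr, Matrix.charpoly_natDegree_eq_dim,
      Fintype.card_fin]
  have hgn : ∀ r ∈ insert r₀ R, (g r).natDegree = n := fun r hr => by
    rw [← natDegree_map_eq_of_injective hι, ← hTg r hr, Matrix.charpoly_natDegree_eq_dim,
      Fintype.card_fin]
  refine hR V T hV hirr hT hss hid (fun r hr => ⟨Or.inl ?_, Or.inr ?_⟩) ?_
  · have hr' := Set.mem_insert_of_mem r₀ hr
    exact ⟨M, inferInstance, inferInstance, ι, f r, hm, hfm r hr', hf2 r hr', (hc r hr').1,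
      hVf r hr'⟩
  · have hr' := Set.mem_insert_of_mem r₀ hr
    exact ⟨M, inferInstance, inferInstance, ι, g r, hm, hgm r hr', hgn r hr', (hc r hr').2,
      hTg r hr'⟩
  · have hr' := Set.mem_insert r₀ R
    obtain ⟨A, _, φ, z, hb, h1, h2⟩ := hcong
    -- the bound is nonnegative, because `f r₀` has a complex root
    have hc0 : 0 ≤ c r₀ := by
      obtain ⟨σ⟩ : Nonempty (M →+* ℂ) := inferInstance
      have hdeg : ((f r₀).map (σ.comp (algebraMap (𝓞 M) M))).degree ≠ 0 := by
        rw [degree_eq_natDegree ((hfm r₀ hr').map _).ne_zero, (hfm r₀ hr').natDegree_map,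
          hf2 r₀ hr']
        norm_num
      obtain ⟨w, hw⟩ := IsAlgClosed.exists_root _ hdeg
      rw [IsRoot, eval_map] at hw
      exact (norm_nonneg w).trans ((hc r₀ hr').1 σ w hw)
    rw [hVf r₀ hr', hTg r₀ hr']
    exact not_isCoprime_of_common_root (hfm r₀ hr') (hgm r₀ hr') (hf2 r₀ hr') (hgn r₀ hr') hc0
      (hc r₀ hr').1 (hc r₀ hr').2 φ z h1 h2 hb ι

end Pool.Agent.Helper37.OnePlaceArchive
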