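import Mathlib

/-! Elementary plane geometry with signed areas. -/

namespace Pool.Agent.Helper37.Plane

/-- Twice the signed area of the triangle `a b c`. -/
def det (a b c : ℝ × ℝ) : ℝ := (b.1 - a.1) * (c.2 - a.2) - (b.2 - a.2) * (c.1 - a.1)

theorem mem_segment_iff {a b z : ℝ × ℝ} :
    z ∈ segment ℝ a b ↔ ∃ t : ℝ, 0 ≤ t ∧ t ≤ 1 ∧ z.1 = a.1 + t * (b.1 - a.1) ∧
      z.2 = a.2 + t * (b.2 - a.2) := by
  rw [segment_eq_image]
  constructor
  · rintro ⟨t, ⟨h0, h1⟩, rfl⟩
    refine ⟨t, h0, h1, ?_, ?_⟩
    · simp; ring
    · simp; ring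
  · rintro ⟨t, h0, h1, h2, h3⟩
    refine ⟨t, ⟨h0, h1⟩, ?_⟩
    ext
    · simp [h2]; ring
    · simp [h3]; ring

/-- Crossing criterion. -/
theorem seg_inter {a b c d : ℝ × ℝ} (h1 : det a b c * det a b d ≤ 0)
    (h2 : det c d a * det c d b ≤ 0) (hne : det a b c ≠ det a b d) :
    ∃ z, z ∈ segment ℝ a b ∧ z ∈ segment ℝ c d := by
  have key : det c d b - det c d a = det a b c - det a b d := by
    simp only [det]; ring
  have hK : det a b c - det a b d ≠ 0 := sub_ne_zero.mpr hne
  set K := det a b c - det a b d with hKdef
  have ht : 0 ≤ det a b c / K ∧ det a b c / K ≤ 1 := by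
    rcases lt_or_gt_of_ne hK with hneg | hpos
    · constructor
      · apply div_nonneg_of_nonpos _ hneg.le
        nlinarith
      · rw [div_le_one_of_neg hneg]
        nlinarith
    · constructor
      · apply div_nonneg _ hpos.le
        nlinarith
      · rw [div_le_one hpos]
        nlinarith
  have hs : 0 ≤ -det c d a / K ∧ -det c d a / K ≤ 1 := by
    rcases lt_or_gt_of_ne hK with hneg | hpos
    · constructor
      · apply div_nonneg_of_nonpos _ hneg.le
        nlinarith
      · rw [div_le_one_of_neg hneg]
        nlinarith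
    · constructor
      · apply div_nonneg _ hpos.le
        nlinarith
      · rw [div_le_one hpos]
        nlinarith
  refine ⟨(c.1 + det a b c / K * (d.1 - c.1), c.2 + det a b c / K * (d.2 - c.2)), ?_, ?_⟩
  · rw [mem_segment_iff]
    refine ⟨-det c d a / K, hs.1, hs.2, ?_, ?_⟩
    · field_simp
      rw [hKdef]
      simp only [det]; ring
    · field_simp
      rw [hKdef]
      simp only [det]; ring
  · rw [mem_segment_iff]
    exact ⟨det a b c / K, ht.1, ht.2, rfl, rfl⟩

/-- `p` lies strictly inside the triangle `a b c`. -/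
def Inside (a b c p : ℝ × ℝ) : Prop :=
  0 < det a b p * det a b c ∧ 0 < det b c p * det a b c ∧ 0 < det c a p * det a b c

theorem det_sum (a b c p : ℝ × ℝ) : det a b p + det b c p + det c a p = det a b c := by
  simp only [det]; ring

/-- Barycentric identity in the second coordinate. -/
theorem bary_snd (a b c p : ℝ × ℝ) :
    det a b p * c.2 + det b c p * a.2 + det c a p * b.2 = det a b c * p.2 := by
  simp only [det]; ring

theorem bary_fst (a b c p : ℝ × ℝ) :
    det a b p * c.1 + det b c p * a.1 + det c a p * b.1 = det a b c * p.1 := by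
  simp only [det]; ring

/-- Heights inside a triangle are bounded by the heights of the vertices. -/
theorem Inside.le {a b c p : ℝ × ℝ} (h : Inside a b c p) {s M : ℝ} (ha : s * a.2 ≤ M)
    (hb : s * b.2 ≤ M) (hc : s * c.2 ≤ M) : s * p.2 ≤ M := by
  obtain ⟨h1, h2, h3⟩ := h
  have hs := det_sum a b c p
  have hb2 := bary_snd a b c p
  have hD : det a b c ≠ 0 := by
    rintro h0
    rw [h0] at h1
    simp at h1
  have hD2 : 0 < det a b c * det a b c := mul_self_pos.mpr hD
  have e : det a b c * det a b c * (s * p.2) =
      (det a b p * det a b c) * (s * c.2) + (det b c p * det a b c) * (s * a.2) +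
        (det c a p * det a b c) * (s * b.2) := by
    linear_combination (-(s * det a b c)) * hb2
  have e2 : det a b c * det a b c * M =
      (det a b p * det a b c) * M + (det b c p * det a b c) * M +
        (det c a p * det a b c) * M := by
    linear_combination (-(det a b c * M)) * hs
  have : det a b c * det a b c * (s * p.2) ≤ det a b c * det a b c * M := by
    rw [e, e2]
    have i1 := mul_le_mul_of_nonneg_left hc h1.le
    have i2 := mul_le_mul_of_nonneg_left ha h2.le
    have i3 := mul_le_mul_of_nonneg_left hb h3.le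
    linarith
  exact le_of_mul_le_mul_left this hD2

/-- A point with nonnegative barycentric coordinates, one of them zero, is on a side. -/
theorem mem_side {a b c p : ℝ × ℝ} (hD : 0 < det a b c) (h1 : det a b p = 0)
    (h2 : 0 ≤ det b c p) (h3 : 0 ≤ det c a p) : p ∈ segment ℝ a b := by
  have hs := det_sum a b c p
  have hf := bary_fst a b c p
  have hg := bary_snd a b c p
  rw [h1] at hs hf hg
  rw [mem_segment_iff]
  refine ⟨det c a p / det a b c, by positivity, ?_, ?_, ?_⟩
  · rw [div_le_one hD]; linarith
  · field_simp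
    linear_combination (-1 : ℝ) * hf + a.1 * hs
  · field_simp
    linear_combination (-1 : ℝ) * hg + a.2 * hs

theorem det_lin (a b p q : ℝ × ℝ) (t : ℝ) :
    det a b (p.1 + t * (q.1 - p.1), p.2 + t * (q.2 - p.2)) =
      det a b p + t * (det a b q - det a b p) := by
  simp only [det]; ring

/-- If `p` is strictly inside the positively oriented triangle `a b c` and `q` is not, the segment
`p q` meets a side. -/
theorem exit_pos {a b c p q : ℝ × ℝ} (h1 : 0 < det a b p) (h2 : 0 < det b c p)
    (h3 : 0 < det c a p) (hq : ¬ (0 < det a b q ∧ 0 < det b c q ∧ 0 < det c a q)) :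
    ∃ z ∈ segment ℝ p q, z ∈ segment ℝ a b ∨ z ∈ segment ℝ b c ∨ z ∈ segment ℝ c a := by
  have hD : 0 < det a b c := by rw [← det_sum a b c p]; linarith
  -- parameter where each functional vanishes
  let f : Fin 3 → ℝ := ![det a b p, det b c p, det c a p]
  let g : Fin 3 → ℝ := ![det a b q, det b c q, det c a q]
  have hf : ∀ i, 0 < f i := by
    intro i; fin_cases i <;> simp [f, h1, h2, h3]
  -- the exit parameter
  obtain ⟨i0, hi0, hmin⟩ : ∃ i0, g i0 ≤ 0 ∧ ∀ j, g j ≤ 0 → f i0 / (f i0 - g i0) ≤ f j / (f j - g j) := by
    have hne : (Finset.univ.filter (fun i : Fin 3 => g i ≤ 0)).Nonempty := by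
      by_contra hcon
      rw [Finset.not_nonempty_iff_eq_empty, Finset.filter_eq_empty_iff] at hcon
      apply hq
      refine ⟨?_, ?_, ?_⟩
      · simpa [g] using hcon (Finset.mem_univ 0)
      · simpa [g] using hcon (Finset.mem_univ 1)
      · simpa [g] using hcon (Finset.mem_univ 2)
    obtain ⟨i0, hi0, hm⟩ := Finset.exists_min_image _ (fun i => f i / (f i - g i)) hne
    simp only [Finset.mem_filter, Finset.mem_univ, true_and] at hi0 hm
    exact ⟨i0, hi0, hm⟩
  set t := f i0 / (f i0 - g i0) with ht
  have hden : 0 < f i0 - g i0 := by linarith [hf i0]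
  have ht0 : 0 < t := div_pos (hf i0) hden
  have ht1 : t ≤ 1 := by rw [ht, div_le_one hden]; linarith
  have hzero : f i0 + t * (g i0 - f i0) = 0 := by
    rw [ht]; field_simp; ring
  have hnonneg : ∀ j, 0 ≤ f j + t * (g j - f j) := by
    intro j
    by_cases hj : g j ≤ 0
    · have hdj : 0 < f j - g j := by linarith [hf j]
      have := hmin j hj
      rw [le_div_iff₀ hdj] at this
      linarith
    · rw [not_le] at hj
      have := hf j
      nlinarith
  set z : ℝ × ℝ := (p.1 + t * (q.1 - p.1), p.2 + t * (q.2 - p.2)) with hz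
  have hzseg : z ∈ segment ℝ p q := by
    rw [mem_segment_iff]; exact ⟨t, ht0.le, ht1, rfl, rfl⟩
  have e1 : det a b z = f 0 + t * (g 0 - f 0) := det_lin a b p q t
  have e2 : det b c z = f 1 + t * (g 1 - f 1) := det_lin b c p q t
  have e3 : det c a z = f 2 + t * (g 2 - f 2) := det_lin c a p q t
  have n1 : 0 ≤ det a b z := by rw [e1]; exact hnonneg 0
  have n2 : 0 ≤ det b c z := by rw [e2]; exact hnonneg 1
  have n3 : 0 ≤ det c a z := by rw [e3]; exact hnonneg 2
  refine ⟨z, hzseg, ?_⟩
  have hDb : 0 < det b c a := by
    have : det b c a = det a b c := by simp only [det]; ring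
    rw [this]; exact hD
  have hDc : 0 < det c a b := by
    have : det c a b = det a b c := by simp only [det]; ring
    rw [this]; exact hD
  fin_cases i0
  · left
    refine mem_side hD ?_ n2 n3
    rw [e1]; exact hzero
  · right; left
    refine mem_side hDb ?_ n3 n1
    rw [e2]; exact hzero
  · right; right
    refine mem_side hDc ?_ n1 n2
    rw [e3]; exact hzero

/-- Staying inside a triangle along a segment that avoids the sides. -/
theorem Inside.step {a b c p q : ℝ × ℝ} (h : Inside a b c p)
    (h1 : Disjoint (segment ℝ p q) (segment ℝ a b))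
    (h2 : Disjoint (segment ℝ p q) (segment ℝ b c))
    (h3 : Disjoint (segment ℝ p q) (segment ℝ c a)) : Inside a b c q := by
  obtain ⟨i1, i2, i3⟩ := h
  have hD : det a b c ≠ 0 := by
    rintro h0
    rw [h0] at i1
    simp at i1
  rcases lt_or_gt_of_ne hD with hneg | hpos
  · -- negatively oriented: use the triangle `b a c`
    have j1 : 0 < det b a p := by
      have : det b a p = - det a b p := by simp only [det]; ring
      rw [this]; nlinarith
    have j2 : 0 < det a c p := by
      have : det a c p = - det c a p := by simp only [det]; ring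
      rw [this]; nlinarith
    have j3 : 0 < det c b p := by
      have : det c b p = - det b c p := by simp only [det]; ring
      rw [this]; nlinarith
    by_contra hcon
    obtain ⟨z, hz, hz'⟩ := exit_pos (q := q) j1 j2 j3 (by
      rintro ⟨k1, k2, k3⟩
      apply hcon
      have e1 : det b a q = - det a b q := by simp only [det]; ring
      have e2 : det a c q = - det c a q := by simp only [det]; ring
      have e3 : det c b q = - det b c q := by simp only [det]; ring
      rw [e1] at k1; rw [e2] at k2; rw [e3] at k3
      exact ⟨mul_pos_of_neg_of_neg (by linarith) hneg, mul_pos_of_neg_of_neg (by linarith) hneg,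
        mul_pos_of_neg_of_neg (by linarith) hneg⟩)
    rcases hz' with hz' | hz' | hz'
    · rw [segment_symm] at hz'; exact Set.disjoint_left.mp h1 hz hz'
    · rw [segment_symm] at hz'; exact Set.disjoint_left.mp h3 hz hz'
    · rw [segment_symm] at hz'; exact Set.disjoint_left.mp h2 hz hz'
  · have j1 : 0 < det a b p := by nlinarith
    have j2 : 0 < det b c p := by nlinarith
    have j3 : 0 < det c a p := by nlinarith
    by_contra hcon
    obtain ⟨z, hz, hz'⟩ := exit_pos (q := q) j1 j2 j3 (by
      rintro ⟨k1, k2, k3⟩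
      exact hcon ⟨mul_pos k1 hpos, mul_pos k2 hpos, mul_pos k3 hpos⟩)
    rcases hz' with hz' | hz' | hz'
    · exact Set.disjoint_left.mp h1 hz hz'
    · exact Set.disjoint_left.mp h2 hz hz'
    · exact Set.disjoint_left.mp h3 hz hz'

end Pool.Agent.Helper37.Plane
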