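import Pool.Agent.Helper37.Af.Main
import Pool.Agent.Helper37.Mv.Rel
import Pool.Agent.Helper37.Mv.Ren

/-!
# MP_6cbef8_nt: polynomial relations between Hilbert newforms and abelian varieties

`V i` are strongly irreducible two-dimensional `p`-adic representations of a profinite group, none
a twist of another one (in the application `ρ_f` and its conjugates by the automorphisms of `F`, so
that `⊗ V i` is the `f`-part of the cohomology of a Hilbert modular variety), and `T j` are finitely
many representations.  For each `V i` and `T j` either `T j` is semisimple and the Lie algebra of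
`(V i, T j)` is generated by idempotents (in the application the Tate module of an abelian variety),
or `ad⁰ V i` does not occur in `End (T j)`.  Then a polynomial relation between the `V i` and the
`T j`, nontrivial in the `V i` and valid on a set of positive measure, exists if and only if some
`V i` is contained in some `T j` on an open subgroup, and if and only if some `ad⁰ V i` occurs in
some `End (T j)`.
-/

set_option autoImplicit false
open MeasureTheory Pool.Agent.Helper27.FM Pool.Agent.Helper37.Af Pool.Agent.Helper37.Mv

namespace Pool.Agent.Helper37.PolynomialRelationArchive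

theorem result (p : ℕ) [hp : Fact p.Prime]
    -- the coefficient field, for example a finite extension of `ℚ_p`, or `ℂ_p`
    {E : Type*} [NontriviallyNormedField E] [IsUltrametricDist E] [CompleteSpace E]
    [NormedAlgebra ℚ_[p] E]
    -- a profinite group with a Haar measure
    {G : Type*} [Group G] [TopologicalSpace G] [IsTopologicalGroup G] [CompactSpace G]
    [TotallyDisconnectedSpace G] [MeasurableSpace G] [BorelSpace G]
    (μ : Measure G) [μ.IsHaarMeasure]
    -- finitely many strongly irreducible representations, none a twist of another one
    {ι : Type*} [Finite ι] (V : ι → G →* GL (Fin 2) E) (hV : ∀ i, Continuous (V i))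
    (hirr : ∀ i, StronglyIrreducible (V i)) (hne : ∀ i k, i ≠ k → ¬ IsTwist (V i) (V k))
    -- finitely many representations of any dimensions
    {J : Type*} [Finite J] (n : J → ℕ) (T : ∀ j, G →* GL (Fin (n j)) E)
    (hT : ∀ j, Continuous (T j))
    (h : ∀ i j, ¬ AdOccurs (V i) (T j) ∨
      (Semisimple (T j) ∧ IdempotentGenerated p (V i) (T j))) :
    List.TFAE [
      ∃ P : MvPolynomial (Vars ι J n) E,
        μ {g | MvPolynomial.eval (allEntries (fun i => (V i g : Matrix (Fin 2) (Fin 2) E))
          (fun j => T j g)) P = 0 ∧ NontrivialAt V T P g} ≠ 0,
      ∃ i j, AdOccurs (V i) (T j),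
      ∃ i j, PotentiallyContained (V i) (T j)] := by
  tfae_have 1 → 2 := by
    rintro ⟨P, hP⟩
    by_contra hcon
    push Not at hcon
    exact hP (no_relation p μ hV hirr hne hT hcon P)
  tfae_have 2 → 3 := by
    rintro ⟨i, j, hj⟩
    rcases h i j with h1 | ⟨h1, h2⟩
    · exact absurd hj h1
    · exact ⟨i, j, contained_of_adOccurs p (hV i) (hirr i) (hT j) h1 h2 hj⟩
  tfae_have 3 → 1 := by
    rintro ⟨i, j, hj⟩
    have : CharZero E := charZeroE p
    exact related_single μ i (related_of_contained μ j hj)
  tfae_finish

end Pool.Agent.Helper37.PolynomialRelationArchive
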