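import Pool.Agent.Helper26.AF.Residual

/-! `A_f` exists if and only if for infinitely many primes `l` of the coefficient field the
residual representation of `f` at `l` is contained in the one of an abelian variety of bounded
dimension with good reduction outside a fixed finite set. -/

namespace Pool.Agent.Results.MP_6cbef8_nt.ResidualCriterion

open Pool.Agent.Helper26.AF

theorem result {k : Type} [Field k] [CharZero k] [IsAlgClosed k] [TopologicalSpace k]
    [IsTopologicalRing k] [T2Space k] {G : Type} [Group G] [TopologicalSpace G]
    [IsTopologicalGroup G] {X : GaloisData G} (T : AVTheory k X) (hM : HasAbelianMonodromy T)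
    (hn : ∀ (K : OpenSubgroup G) (v : X.Pl K), X.norm K v ≠ 0)
    {F : OpenSubgroup G} (f : Newform k X F) (hcm : NonCM f) :
    HasAf T f ↔ ResiduallyContained T f :=
  residual_criterion hcm hM hn

end Pool.Agent.Results.MP_6cbef8_nt.ResidualCriterion
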