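import Pool.Agent.Helper37.Plane

/-! No folding, turning, and the exponential decay along an alternating spiral. -/

namespace Pool.Agent.Helper37.Plane

theorem ray_overlap {u v w1 w2 : ℝ × ℝ} (h0 : det u w1 w2 = 0)
    (hs : 0 < det u v w1 * det u v w2) :
    w1 ∈ segment ℝ u w2 ∨ w2 ∈ segment ℝ u w1 := by
  have hw1 : det u v w1 ≠ 0 := by
    rintro h; rw [h] at hs; simp at hs
  have hw2 : det u v w2 ≠ 0 := by
    rintro h; rw [h] at hs; simp at hs
  -- w2 - u = t (w1 - u) with t = det u v w2 / det u v w1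
  have k1 : (w2.1 - u.1) * det u v w1 = (w1.1 - u.1) * det u v w2 := by
    have : (w2.1 - u.1) * det u v w1 - (w1.1 - u.1) * det u v w2 = - (v.1 - u.1) * det u w1 w2 := by
      simp only [det]; ring
    rw [h0] at this; linarith
  have k2 : (w2.2 - u.2) * det u v w1 = (w1.2 - u.2) * det u v w2 := by
    have : (w2.2 - u.2) * det u v w1 - (w1.2 - u.2) * det u v w2 = - (v.2 - u.2) * det u w1 w2 := by
      simp only [det]; ring
    rw [h0] at this; linarith
  have hpos : 0 < det u v w1 * det u v w1 := mul_self_pos.mpr hw1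
  have hpos2 : 0 < det u v w2 * det u v w2 := mul_self_pos.mpr hw2
  by_cases hle : det u v w2 * det u v w1 ≤ det u v w1 * det u v w1
  · right
    rw [mem_segment_iff]
    refine ⟨det u v w2 / det u v w1, ?_, ?_, ?_, ?_⟩
    · have : det u v w2 / det u v w1 = (det u v w1 * det u v w2) / (det u v w1 * det u v w1) := by
        field_simp
      rw [this]; positivity
    · have : det u v w2 / det u v w1 = (det u v w2 * det u v w1) / (det u v w1 * det u v w1) := by
        field_simp
      rw [this, div_le_one hpos]; exact hle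
    · field_simp; linarith
    · field_simp; linarith
  · left
    rw [not_le] at hle
    have hle' : det u v w1 * det u v w2 ≤ det u v w2 * det u v w2 := by
      -- |w1| < |w2| with same sign
      rcases lt_or_gt_of_ne hw1 with h1 | h1
      · have : det u v w2 < 0 := by nlinarith
        nlinarith
      · have : 0 < det u v w2 := by nlinarith
        nlinarith
    rw [mem_segment_iff]
    refine ⟨det u v w1 / det u v w2, ?_, ?_, ?_, ?_⟩
    · have : det u v w1 / det u v w2 = (det u v w1 * det u v w2) / (det u v w2 * det u v w2) := by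
        field_simp
      rw [this]; positivity
    · have : det u v w1 / det u v w2 = (det u v w1 * det u v w2) / (det u v w2 * det u v w2) := by
        field_simp
      rw [this, div_le_one hpos2]; exact hle'
    · field_simp; linarith
    · field_simp; linarith

/-- Two triangles `u v w1`, `u v w2` with a common side whose other sides do not cross lie on
opposite sides of `u v`, unless one apex is inside the other triangle. -/
theorem nofold {u v w1 w2 : ℝ × ℝ} (n1 : det u v w1 ≠ 0) (n2 : det u v w2 ≠ 0)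
    (d1 : Disjoint (segment ℝ u w1) (segment ℝ v w2))
    (d2 : Disjoint (segment ℝ u w2) (segment ℝ v w1))
    (s1 : w1 ∉ segment ℝ u w2) (s2 : w2 ∉ segment ℝ u w1)
    (s3 : w1 ∉ segment ℝ v w2) (s4 : w2 ∉ segment ℝ v w1)
    (i1 : ¬ Inside u v w2 w1) (i2 : ¬ Inside u v w1 w2) : det u v w1 * det u v w2 < 0 := by
  by_contra hcon
  have hs : 0 < det u v w1 * det u v w2 := by
    rcases lt_or_eq_of_le (not_lt.mp hcon) with h | h
    · exact h
    · exfalso
      rcases mul_eq_zero.mp h.symm with h | h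
      · exact n1 h
      · exact n2 h
  have hs' : 0 < det v u w1 * det v u w2 := by
    have e1 : det v u w1 = - det u v w1 := by simp only [det]; ring
    have e2 : det v u w2 = - det u v w2 := by simp only [det]; ring
    rw [e1, e2]; linarith
  have hS : det u w1 w2 ≠ 0 := by
    intro h0
    rcases ray_overlap h0 hs with h | h
    · exact s1 h
    · exact s2 h
  have hT : det v w1 w2 ≠ 0 := by
    intro h0
    rcases ray_overlap h0 hs' with h | h
    · exact s3 h
    · exact s4 h
  -- sign of the configuration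
  have a1 : det v w2 w1 = - det v w1 w2 := by simp only [det]; ring
  have a2 : det w2 u w1 = det u w1 w2 := by simp only [det]; ring
  have a3 : det w1 u w2 = - det u w1 w2 := by simp only [det]; ring
  have a4 : det v w2 u = det u v w2 := by simp only [det]; ring
  have a5 : det u w1 v = - det u v w1 := by simp only [det]; ring
  have a6 : det u w2 v = - det u v w2 := by simp only [det]; ring
  have a7 : det v w1 u = det u v w1 := by simp only [det]; ring
  have a8 : det u w2 w1 = - det u w1 w2 := by simp only [det]; ring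
  -- σ = common sign of det u v w1, det u v w2
  rcases lt_or_gt_of_ne n1 with hn | hp
  · have hn2 : det u v w2 < 0 := by nlinarith
    rcases lt_or_gt_of_ne hS with hS | hS <;> rcases lt_or_gt_of_ne hT with hT | hT
    · -- S<0, T<0 : crossing of u w1 and v w2
      obtain ⟨z, hz1, hz2⟩ := seg_inter (a := u) (b := w1) (c := v) (d := w2)
        (by rw [a5]; nlinarith) (by rw [a4, a1]; nlinarith)
        (by rw [a5]; intro h; nlinarith)
      exact Set.disjoint_left.mp d1 hz1 hz2
    · -- S<0, T>0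
      apply i1
      refine ⟨hs, ?_, ?_⟩
      · rw [a1]; nlinarith
      · rw [a2]; nlinarith
    · apply i2
      refine ⟨by linarith, ?_, ?_⟩
      · nlinarith
      · rw [a3]; nlinarith
    · obtain ⟨z, hz1, hz2⟩ := seg_inter (a := u) (b := w2) (c := v) (d := w1)
        (by rw [a6, a8]; nlinarith) (by rw [a7]; nlinarith)
        (by rw [a6, a8]; intro h; nlinarith)
      exact Set.disjoint_left.mp d2 hz1 hz2
  · have hp2 : 0 < det u v w2 := by nlinarith
    rcases lt_or_gt_of_ne hS with hS | hS <;> rcases lt_or_gt_of_ne hT with hT | hT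
    · obtain ⟨z, hz1, hz2⟩ := seg_inter (a := u) (b := w2) (c := v) (d := w1)
        (by rw [a6, a8]; nlinarith) (by rw [a7]; nlinarith)
        (by rw [a6, a8]; intro h; nlinarith)
      exact Set.disjoint_left.mp d2 hz1 hz2
    · apply i2
      refine ⟨by linarith, ?_, ?_⟩
      · nlinarith
      · rw [a3]; nlinarith
    · apply i1
      refine ⟨hs, ?_, ?_⟩
      · rw [a1]; nlinarith
      · rw [a2]; nlinarith
    · obtain ⟨z, hz1, hz2⟩ := seg_inter (a := u) (b := w1) (c := v) (d := w2)
        (by rw [a5]; nlinarith) (by rw [a4, a1]; nlinarith)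
        (by rw [a5]; intro h; nlinarith)
      exact Set.disjoint_left.mp d1 hz1 hz2

/-- Transitivity of orientation in an open half-plane. -/
theorem trans_pos {o a b c : ℝ × ℝ} {s : ℝ} (ha : 0 < s * (o.2 - a.2)) (hb : 0 < s * (o.2 - b.2))
    (hc : 0 < s * (o.2 - c.2)) (h1 : 0 < det o a b) (h2 : 0 < det o b c) : 0 < det o a c := by
  have id : det o a c * (o.2 - b.2) = det o a b * (o.2 - c.2) + det o b c * (o.2 - a.2) := by
    simp only [det]; ring
  have : 0 < det o a c * (s * (o.2 - b.2)) := by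
    have e : det o a c * (s * (o.2 - b.2)) =
      det o a b * (s * (o.2 - c.2)) + det o b c * (s * (o.2 - a.2)) := by
      linear_combination s * id
    rw [e]
    have := mul_pos h1 hc
    have := mul_pos h2 ha
    linarith
  by_contra hcon
  have := mul_nonpos_of_nonpos_of_nonneg (not_lt.mp hcon) hb.le
  linarith

theorem trans_neg {o a b c : ℝ × ℝ} {s : ℝ} (ha : 0 < s * (o.2 - a.2)) (hb : 0 < s * (o.2 - b.2))
    (hc : 0 < s * (o.2 - c.2)) (h1 : det o a b < 0) (h2 : det o b c < 0) : det o a c < 0 := by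
  have e1 : det o c b = - det o b c := by simp only [det]; ring
  have e2 : det o b a = - det o a b := by simp only [det]; ring
  have e3 : det o c a = - det o a c := by simp only [det]; ring
  have := trans_pos hc hb ha (by rw [e1]; linarith) (by rw [e2]; linarith)
  rw [e3] at this; linarith

/-- Around `o` the four neighbours `a b c d`, all on the same side of the horizontal line through
`o`, with `a, c` on opposite sides of `o b` and `b, d` on opposite sides of `o c`, appear in
rotational order. -/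
theorem turn {o a b c d : ℝ × ℝ} {s : ℝ} (ha : 0 < s * (o.2 - a.2)) (hb : 0 < s * (o.2 - b.2))
    (hc : 0 < s * (o.2 - c.2)) (hd : 0 < s * (o.2 - d.2))
    (h1 : det o b a * det o b c < 0) (h2 : det o c b * det o c d < 0) :
    0 < det o a d * det o a b ∧ 0 < det o a d * det o c d := by
  have e1 : det o b a = - det o a b := by simp only [det]; ring
  have e2 : det o c b = - det o b c := by simp only [det]; ring
  rw [e1] at h1
  rw [e2] at h2
  have hbc : det o b c ≠ 0 := by rintro h; rw [h] at h1; simp at h1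
  rcases lt_or_gt_of_ne hbc with hn | hp
  · have hab : det o a b < 0 := by nlinarith
    have hcd : det o c d < 0 := by nlinarith
    have hac := trans_neg ha hb hc hab hn
    have had := trans_neg ha hc hd hac hcd
    exact ⟨mul_pos_of_neg_of_neg had hab, mul_pos_of_neg_of_neg had hcd⟩
  · have hab : 0 < det o a b := by nlinarith
    have hcd : 0 < det o c d := by nlinarith
    have hac := trans_pos ha hb hc hab hp
    have had := trans_pos ha hc hd hac hcd
    exact ⟨mul_pos had hab, mul_pos had hcd⟩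

/-- Base case of the decay lemma (algebraic part). -/
theorem base_alg {a b c d : ℝ × ℝ} (h1 : b.2 < c.2) (h2 : c.2 ≤ a.2) (h3 : d.2 < c.2)
    (hD : 0 < det a b c) (hE : 0 < det b c d)
    (hF : det a b c * (d.2 - b.2) ≤ det b c d * (a.2 - b.2)) :
    det a b d ≤ 0 ∧ det c d a ≤ 0 := by
  have hc : 0 < c.2 - b.2 := by linarith
  -- c2 * cross(a,d) = cross(c,d) a2 - cross(c,a) d2  (b = origin)
  have id1 : (c.2 - b.2) * (- det a b d) = det b c d * (a.2 - b.2) - det a b c * (d.2 - b.2) := by
    simp only [det]; ring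
  have r1 : det a b d ≤ 0 := by
    by_contra hcon
    have := mul_pos hc (not_le.mp hcon)
    linarith
  refine ⟨r1, ?_⟩
  have id2 : det c d a = det a b d + det b c d - det a b c := by
    simp only [det]; ring
  have : (c.2 - b.2) * det c d a ≤ 0 := by
    rw [id2]
    have e : (c.2 - b.2) * (det a b d + det b c d - det a b c) =
      det b c d * (c.2 - a.2) + det a b c * (d.2 - c.2) := by
      linear_combination (-1 : ℝ) * id1
    rw [e]
    nlinarith
  by_contra hcon
  have := mul_pos hc (not_le.mp hcon)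
  linarith

/-- The decay lemma for four consecutive points of a spiral, positive turns, `b` low. -/
theorem decay_pp {a b c d : ℝ × ℝ} (h1 : b.2 < c.2) (h2 : c.2 ≤ a.2) (h3 : d.2 < c.2)
    (hD : 0 < det a b c) (hE : 0 < det b c d)
    (hdis : Disjoint (segment ℝ a b) (segment ℝ c d)) :
    det b c d * (a.2 - b.2) < det a b c * (d.2 - b.2) := by
  by_contra hcon
  obtain ⟨r1, r2⟩ := base_alg h1 h2 h3 hD hE (not_lt.mp hcon)
  have e : det c d b = det b c d := by simp only [det]; ring
  obtain ⟨z, hz1, hz2⟩ := seg_inter (a := a) (b := b) (c := c) (d := d)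
    (mul_nonpos_of_nonneg_of_nonpos hD.le r1)
    (by rw [e]; exact mul_nonpos_of_nonpos_of_nonneg r2 hE.le)
    (by intro h; linarith)
  exact Set.disjoint_left.mp hdis hz1 hz2

theorem disjoint_of_map {f : ℝ × ℝ → ℝ × ℝ}
    (hlin : ∀ (x y : ℝ × ℝ), ∀ z ∈ segment ℝ (f x) (f y), f z ∈ segment ℝ x y)
    {a b c d : ℝ × ℝ} (h : Disjoint (segment ℝ a b) (segment ℝ c d)) :
    Disjoint (segment ℝ (f a) (f b)) (segment ℝ (f c) (f d)) := by
  rw [Set.disjoint_left] at h ⊢
  intro z hz1 hz2
  exact h (hlin _ _ _ hz1) (hlin _ _ _ hz2)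

/-- Reflection in the `y`-axis. -/
def refX (z : ℝ × ℝ) : ℝ × ℝ := (-z.1, z.2)
/-- Reflection in the `x`-axis. -/
def refY (z : ℝ × ℝ) : ℝ × ℝ := (z.1, -z.2)

theorem refX_seg (x y z : ℝ × ℝ) (h : z ∈ segment ℝ (refX x) (refX y)) : refX z ∈ segment ℝ x y := by
  rw [mem_segment_iff] at h ⊢
  obtain ⟨t, h0, h1, h2, h3⟩ := h
  simp only [refX] at h2 h3 ⊢
  exact ⟨t, h0, h1, by rw [h2]; ring, h3⟩

theorem refY_seg (x y z : ℝ × ℝ) (h : z ∈ segment ℝ (refY x) (refY y)) : refY z ∈ segment ℝ x y := by
  rw [mem_segment_iff] at h ⊢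
  obtain ⟨t, h0, h1, h2, h3⟩ := h
  simp only [refY] at h2 h3 ⊢
  exact ⟨t, h0, h1, h2, by rw [h3]; ring⟩

theorem det_refX (a b c : ℝ × ℝ) : det (refX a) (refX b) (refX c) = - det a b c := by
  simp only [det, refX]; ring
theorem det_refY (a b c : ℝ × ℝ) : det (refY a) (refY b) (refY c) = - det a b c := by
  simp only [det, refY]; ring

theorem disj_refX {a b c d : ℝ × ℝ} (h : Disjoint (segment ℝ a b) (segment ℝ c d)) :
    Disjoint (segment ℝ (refX a) (refX b)) (segment ℝ (refX c) (refX d)) :=
  disjoint_of_map refX_seg h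

theorem disj_refY {a b c d : ℝ × ℝ} (h : Disjoint (segment ℝ a b) (segment ℝ c d)) :
    Disjoint (segment ℝ (refY a) (refY b)) (segment ℝ (refY c) (refY d)) :=
  disjoint_of_map refY_seg h

/-- The decay lemma, `b` low, any turn sign. -/
theorem decay_p {a b c d : ℝ × ℝ} (h1 : b.2 < c.2) (h2 : c.2 ≤ a.2) (h3 : d.2 < c.2)
    (hs : 0 < det a b c * det b c d)
    (hdis : Disjoint (segment ℝ a b) (segment ℝ c d)) :
    |det b c d| * (a.2 - b.2) < |det a b c| * (d.2 - b.2) := by
  have hne : det a b c ≠ 0 := by rintro h; rw [h] at hs; simp at hs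
  rcases lt_or_gt_of_ne hne with hn | hp
  · have hn2 : det b c d < 0 := by nlinarith
    have := decay_pp (a := refX a) (b := refX b) (c := refX c) (d := refX d) h1 h2 h3
      (by rw [det_refX]; linarith) (by rw [det_refX]; linarith) (disj_refX hdis)
    rw [det_refX, det_refX] at this
    rw [abs_of_neg hn, abs_of_neg hn2]
    exact this
  · have hp2 : 0 < det b c d := by nlinarith
    rw [abs_of_pos hp, abs_of_pos hp2]
    exact decay_pp h1 h2 h3 hp hp2 hdis

/-- The decay lemma in general: `b` and `c` are local extrema in height. -/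
theorem decay {a b c d : ℝ × ℝ} (hb : 0 < (b.2 - a.2) * (b.2 - c.2))
    (hc : 0 < (c.2 - b.2) * (c.2 - d.2)) (hH : |c.2 - b.2| ≤ |b.2 - a.2|)
    (hs : 0 < det a b c * det b c d)
    (hdis : Disjoint (segment ℝ a b) (segment ℝ c d)) :
    |det b c d| * |b.2 - a.2| < |det a b c| * (|c.2 - b.2| - |d.2 - c.2|) := by
  have hne : b.2 - c.2 ≠ 0 := by rintro h; rw [h] at hb; simp at hb
  rcases lt_or_gt_of_ne hne with hn | hp
  · -- b below c
    have h1 : b.2 < c.2 := by linarith
    have h3 : d.2 < c.2 := by nlinarith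
    have h4 : b.2 < a.2 := by nlinarith
    have e1 : |c.2 - b.2| = c.2 - b.2 := abs_of_pos (by linarith)
    have e2 : |b.2 - a.2| = a.2 - b.2 := by rw [abs_of_neg (by linarith)]; ring
    have e3 : |d.2 - c.2| = c.2 - d.2 := by rw [abs_of_neg (by linarith)]; ring
    rw [e1, e2] at hH
    have := decay_p h1 (by linarith) h3 hs hdis
    rw [e1, e2, e3]
    have e4 : c.2 - b.2 - (c.2 - d.2) = d.2 - b.2 := by ring
    rw [e4]; exact this
  · have h1 : c.2 < b.2 := by linarith
    have h3 : c.2 < d.2 := by nlinarith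
    have h4 : a.2 < b.2 := by nlinarith
    have e1 : |c.2 - b.2| = b.2 - c.2 := by rw [abs_of_neg (by linarith)]; ring
    have e2 : |b.2 - a.2| = b.2 - a.2 := abs_of_pos (by linarith)
    have e3 : |d.2 - c.2| = d.2 - c.2 := abs_of_pos (by linarith)
    rw [e1, e2] at hH
    have := decay_p (a := refY a) (b := refY b) (c := refY c) (d := refY d)
      (by simp only [refY]; linarith) (by simp only [refY]; linarith) (by simp only [refY]; linarith)
      (by rw [det_refY, det_refY]; linarith) (disj_refY hdis)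
    rw [det_refY, det_refY, abs_neg, abs_neg] at this
    simp only [refY] at this
    rw [e1, e2, e3]
    have e4 : b.2 - c.2 - (d.2 - c.2) = b.2 - d.2 := by ring
    rw [e4]
    have e5 : -a.2 - -b.2 = b.2 - a.2 := by ring
    have e6 : -d.2 - -b.2 = b.2 - d.2 := by ring
    rw [e5, e6] at this
    exact this

/-- The hypotheses of an alternating path all of whose turns have the same sign, without crossings
between edges at distance one. -/
structure Zigzag (M : ℕ) (P : ℕ → ℝ × ℝ) : Prop where
  ext : ∀ i, i + 2 ≤ M → 0 < ((P (i + 1)).2 - (P i).2) * ((P (i + 1)).2 - (P (i + 2)).2)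
  same : ∀ i, i + 3 ≤ M → 0 < det (P i) (P (i + 1)) (P (i + 2)) *
    det (P (i + 1)) (P (i + 2)) (P (i + 3))
  disj : ∀ i, i + 3 ≤ M → Disjoint (segment ℝ (P i) (P (i + 1)))
    (segment ℝ (P (i + 2)) (P (i + 3)))

theorem Zigzag.shift {M : ℕ} {P : ℕ → ℝ × ℝ} (h : Zigzag M P) (j : ℕ) (hj : j ≤ M) :
    Zigzag (M - j) (fun i => P (j + i)) where
  ext i hi := h.ext (j + i) (by omega)
  same i hi := h.same (j + i) (by omega)
  disj i hi := h.disj (j + i) (by omega)

theorem Zigzag.rev {M : ℕ} {P : ℕ → ℝ × ℝ} (h : Zigzag M P) (m : ℕ) (hm : m ≤ M) :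
    Zigzag m (fun i => P (m - i)) where
  ext i hi := by
    have := h.ext (m - (i + 2)) (by omega)
    have e1 : m - (i + 2) + 1 = m - (i + 1) := by omega
    have e2 : m - (i + 2) + 2 = m - i := by omega
    rw [e1, e2] at this
    simpa [mul_comm] using this
  same i hi := by
    have := h.same (m - (i + 3)) (by omega)
    have e1 : m - (i + 3) + 1 = m - (i + 2) := by omega
    have e2 : m - (i + 3) + 2 = m - (i + 1) := by omega
    have e3 : m - (i + 3) + 3 = m - i := by omega
    rw [e1, e2, e3] at this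
    have f1 : det (P (m - (i + 3))) (P (m - (i + 2))) (P (m - (i + 1))) =
      - det (P (m - (i + 1))) (P (m - (i + 2))) (P (m - (i + 3))) := by
      simp only [det]; ring
    have f2 : det (P (m - (i + 2))) (P (m - (i + 1))) (P (m - i)) =
      - det (P (m - i)) (P (m - (i + 1))) (P (m - (i + 2))) := by
      simp only [det]; ring
    rw [f1, f2] at this
    linarith
  disj i hi := by
    have := h.disj (m - (i + 3)) (by omega)
    have e1 : m - (i + 3) + 1 = m - (i + 2) := by omega
    have e2 : m - (i + 3) + 2 = m - (i + 1) := by omega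
    have e3 : m - (i + 3) + 3 = m - i := by omega
    rw [e1, e2, e3] at this
    rw [segment_symm ℝ (P (m - i)), segment_symm ℝ (P (m - (i + 2)))]
    exact this.symm

/-- Twice the area of the `i`-th triangle. -/
def tri (P : ℕ → ℝ × ℝ) (i : ℕ) : ℝ := |det (P i) (P (i + 1)) (P (i + 2))|

/-- Height of the `i`-th edge. -/
def ht (P : ℕ → ℝ × ℝ) (i : ℕ) : ℝ := |(P (i + 1)).2 - (P i).2|

theorem Zigzag.step {M : ℕ} {P : ℕ → ℝ × ℝ} (h : Zigzag M P) (i : ℕ) (hi : i + 3 ≤ M)
    (hH : ht P (i + 1) ≤ ht P i) :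
    tri P (i + 1) * ht P i < tri P i * (ht P (i + 1) - ht P (i + 2)) :=
  decay (h.ext i (by omega)) (h.ext (i + 1) (by omega)) hH (h.same i hi) (h.disj i hi)

theorem Zigzag.ht_pos {M : ℕ} {P : ℕ → ℝ × ℝ} (h : Zigzag M P) (i : ℕ) (hi : i + 2 ≤ M) :
    0 < ht P i := by
  have := h.ext i hi
  unfold ht
  apply abs_pos.mpr
  rintro h0
  rw [h0] at this
  simp at this

theorem Zigzag.tri_pos {M : ℕ} {P : ℕ → ℝ × ℝ} (h : Zigzag M P) (i : ℕ) (hi : i + 3 ≤ M) :
    0 < tri P i := by
  have := h.same i hi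
  unfold tri
  apply abs_pos.mpr
  rintro h0
  rw [h0] at this
  simp at this

/-- Once the edge heights start to decrease, they keep decreasing. -/
theorem Zigzag.ht_succ {M : ℕ} {P : ℕ → ℝ × ℝ} (h : Zigzag M P) (i : ℕ) (hi : i + 3 ≤ M)
    (hH : ht P (i + 1) ≤ ht P i) : ht P (i + 2) < ht P (i + 1) := by
  have h1 := h.step i hi hH
  have h2 := h.ht_pos i (by omega)
  have h3 := h.tri_pos i hi
  have h4 : 0 ≤ tri P (i + 1) := abs_nonneg _
  by_contra hcon
  have : tri P i * (ht P (i + 1) - ht P (i + 2)) ≤ 0 :=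
    mul_nonpos_of_nonneg_of_nonpos h3.le (by linarith)
  have : 0 ≤ tri P (i + 1) * ht P i := mul_nonneg h4 h2.le
  linarith

theorem Zigzag.ht_all {M : ℕ} {P : ℕ → ℝ × ℝ} (h : Zigzag M P) (h0 : ht P 1 ≤ ht P 0) :
    ∀ i, i + 2 ≤ M → ht P (i + 1) ≤ ht P i := by
  intro i
  induction i with
  | zero => intro _; exact h0
  | succ i ih =>
    intro hi
    exact (h.ht_succ i (by omega) (ih (by omega))).le

/-- Quartering every two steps. -/
theorem Zigzag.quarter {M : ℕ} {P : ℕ → ℝ × ℝ} (h : Zigzag M P) (h0 : ht P 1 ≤ ht P 0) (i : ℕ)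
    (hi : i + 4 ≤ M) : 4 * tri P (i + 2) ≤ tri P i := by
  have a1 := h.step i (by omega) (h.ht_all h0 i (by omega))
  have a2 := h.step (i + 1) (by omega) (h.ht_all h0 (i + 1) (by omega))
  have b0 := h.ht_pos i (by omega)
  have b1 := h.ht_pos (i + 1) (by omega)
  have b2 := h.ht_pos (i + 2) (by omega)
  have c0 := h.ht_all h0 i (by omega)
  have c1 := h.ht_succ i (by omega) c0
  have c2 := h.ht_succ (i + 1) (by omega) c1.le
  have t0 := h.tri_pos i (by omega)
  have t1 := h.tri_pos (i + 1) (by omega)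
  have b3 : 0 ≤ ht P (i + 3) := abs_nonneg _
  have t2 : 0 ≤ tri P (i + 2) := abs_nonneg _
  simp only [show i + 1 + 1 = i + 2 from rfl, show i + 1 + 2 = i + 3 from rfl] at a2 c2
  -- names
  set H0 := ht P i
  set H1 := ht P (i + 1)
  set H2 := ht P (i + 2)
  set H3 := ht P (i + 3)
  set A0 := tri P i
  set A1 := tri P (i + 1)
  set A2 := tri P (i + 2)
  -- A2 * H1 ≤ A1 * H2 , A1 * H0 ≤ A0 * (H1 - H2)
  have d2 : A2 * H1 ≤ A1 * H2 := by
    have : A1 * (H2 - H3) ≤ A1 * H2 := mul_le_mul_of_nonneg_left (by linarith) t1.le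
    linarith
  have e1 : A2 * H1 * H0 ≤ A0 * ((H1 - H2) * H2) := by
    have s1 : A2 * H1 * H0 ≤ A1 * H2 * H0 := mul_le_mul_of_nonneg_right d2 b0.le
    have s2 : A1 * H0 * H2 ≤ A0 * (H1 - H2) * H2 := mul_le_mul_of_nonneg_right a1.le b2.le
    calc A2 * H1 * H0 ≤ A1 * H2 * H0 := s1
      _ = A1 * H0 * H2 := by ring
      _ ≤ A0 * (H1 - H2) * H2 := s2
      _ = A0 * ((H1 - H2) * H2) := by ring
  have e2 : 4 * ((H1 - H2) * H2) ≤ H1 * H0 := by
    nlinarith [sq_nonneg (H1 - 2 * H2)]
  have e3 : (4 * A2) * (H1 * H0) ≤ A0 * (H1 * H0) := by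
    calc (4 * A2) * (H1 * H0) = 4 * (A2 * H1 * H0) := by ring
      _ ≤ 4 * (A0 * ((H1 - H2) * H2)) := by linarith
      _ = A0 * (4 * ((H1 - H2) * H2)) := by ring
      _ ≤ A0 * (H1 * H0) := mul_le_mul_of_nonneg_left e2 t0.le
  exact le_of_mul_le_mul_right e3 (mul_pos b1 b0)

theorem Zigzag.big {M : ℕ} {P : ℕ → ℝ × ℝ} (h : Zigzag M P) (h0 : ht P 1 ≤ ht P 0) (k : ℕ)
    (hk : 2 * k + 2 ≤ M) : 4 ^ k * tri P (2 * k) ≤ tri P 0 := by
  induction k with
  | zero => simp
  | succ k ih =>
    have h1 := ih (by omega)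
    have h2 := h.quarter h0 (2 * k) (by omega)
    have e : 2 * (k + 1) = 2 * k + 2 := by ring
    rw [e, pow_succ]
    calc 4 ^ k * 4 * tri P (2 * k + 2) = 4 ^ k * (4 * tri P (2 * k + 2)) := by ring
      _ ≤ 4 ^ k * tri P (2 * k) := by gcongr
      _ ≤ tri P 0 := h1

/-- Main estimate: if all triangles of the zigzag have (twice) area at least one, some triangle
has exponentially large area. -/
theorem Zigzag.main {M : ℕ} {P : ℕ → ℝ × ℝ} (h : Zigzag M P) (k : ℕ) (hM : 4 * k + 3 ≤ M)
    (h1 : ∀ i, i + 2 ≤ M → 1 ≤ tri P i) : ∃ i, i + 2 ≤ M ∧ (4 : ℝ) ^ k ≤ tri P i := by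
  by_cases hdec : ht P (2 * k + 2) ≤ ht P (2 * k + 1)
  · -- decreasing from 2k+1 on
    have hz := h.shift (2 * k + 1) (by omega)
    have := hz.big (by simpa [ht, add_assoc] using hdec) k (by omega)
    refine ⟨2 * k + 1, by omega, ?_⟩
    have h2 := h1 (2 * k + 1 + 2 * k) (by omega)
    have e1 : tri (fun i => P (2 * k + 1 + i)) (2 * k) = tri P (2 * k + 1 + 2 * k) := by
      simp only [tri]; rfl
    have e0 : tri (fun i => P (2 * k + 1 + i)) 0 = tri P (2 * k + 1) := rfl
    rw [e1, e0] at this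
    have h4 : (0 : ℝ) ≤ 4 ^ k := by positivity
    nlinarith
  · -- reversed path
    rw [not_le] at hdec
    have hz := h.rev (2 * k + 3) (by omega)
    have e0 : ht (fun i => P (2 * k + 3 - i)) 0 = ht P (2 * k + 2) := by
      simp only [ht]
      have : 2 * k + 3 - (0 + 1) = 2 * k + 2 := by omega
      rw [this, Nat.sub_zero, abs_sub_comm]
    have e1 : ht (fun i => P (2 * k + 3 - i)) 1 = ht P (2 * k + 1) := by
      simp only [ht]
      have a1 : 2 * k + 3 - (1 + 1) = 2 * k + 1 := by omega
      have a2 : 2 * k + 3 - 1 = 2 * k + 2 := by omega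
      rw [a1, a2, abs_sub_comm]
    have := hz.big (by rw [e0, e1]; exact hdec.le) k (by omega)
    have f0 : tri (fun i => P (2 * k + 3 - i)) 0 = tri P (2 * k + 1) := by
      simp only [tri]
      have a1 : 2 * k + 3 - (0 + 1) = 2 * k + 2 := by omega
      have a2 : 2 * k + 3 - (0 + 2) = 2 * k + 1 := by omega
      have a0 : 2 * k + 3 - 0 = 2 * k + 3 := by omega
      rw [a0, a1, a2]
      have : det (P (2 * k + 3)) (P (2 * k + 2)) (P (2 * k + 1)) =
        - det (P (2 * k + 1)) (P (2 * k + 1 + 1)) (P (2 * k + 1 + 2)) := by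
        simp only [det, show 2 * k + 1 + 1 = 2 * k + 2 from rfl, show 2 * k + 1 + 2 = 2 * k + 3 from rfl]
        ring
      rw [this, abs_neg]
    have f1 : tri (fun i => P (2 * k + 3 - i)) (2 * k) = tri P 1 := by
      simp only [tri]
      have a0 : 2 * k + 3 - (2 * k) = 3 := by omega
      have a1 : 2 * k + 3 - (2 * k + 1) = 2 := by omega
      have a2 : 2 * k + 3 - (2 * k + 2) = 1 := by omega
      rw [a0, a1, a2]
      have : det (P 3) (P 2) (P 1) = - det (P 1) (P (1 + 1)) (P (1 + 2)) := by
        simp only [det]; ring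
      rw [this, abs_neg]
    rw [f0, f1] at this
    refine ⟨2 * k + 1, by omega, ?_⟩
    have h2 := h1 1 (by omega)
    have h4 : (0 : ℝ) ≤ 4 ^ k := by positivity
    nlinarith

end Pool.Agent.Helper37.Plane
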