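import Pool.Agent.Helper26.AF.Tfae

/-! `A_f` exists if and only if the projective representation of `f` is cut out, up to a finite
extension, by the torsion points of some abelian variety over a finite extension. -/

namespace Pool.Agent.Results.MP_6cbef8_nt.TorsionFields

open Pool.Agent.Helper26.AF

theorem result {k : Type} [Field k] [CharZero k] [IsAlgClosed k] [TopologicalSpace k]
    [IsTopologicalRing k] [T2Space k] {G : Type} [Group G] [TopologicalSpace G]
    [IsTopologicalGroup G] {X : GaloisData G} (T : AVTheory k X) {F : OpenSubgroup G}
    (f : Newform k X F) (hcm : NonCM f) (hL : HasLie T f) :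
    [HasAf T f, Potentially T f, TensorOccurs T f, InTorsionField T f].TFAE := by
  tfae_have 1 → 2 := potentially_of_hasAf
  tfae_have 2 → 1 := hasAf_of_potentially T f
  tfae_have 2 → 3 := tensor_of_potentially hcm
  tfae_have 3 → 4 := torsion_of_tensor
  tfae_have 4 → 2 := potentially_of_torsion hcm hL
  tfae_finish

end Pool.Agent.Results.MP_6cbef8_nt.TorsionFields
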