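import Pool.Agent.Helper37.TwoCompDefs

namespace Helper37.TwoComp

/-- position of the pair `{i,j}` -/
def code (i j : ℕ) : ℕ := if i < j then j * (j - 1) / 2 + i else i * (i - 1) / 2 + j

theorem code_comm (i j : ℕ) (h : i ≠ j) : code i j = code j i := by
  unfold code
  rcases lt_or_gt_of_ne h with h | h
  · rw [if_pos h, if_neg (by omega)]
  · rw [if_neg (by omega), if_pos h]

/-- graph of a bit mask -/
def gr (n m : ℕ) : SimpleGraph (Fin n) where
  Adj i j := i ≠ j ∧ m.testBit (code i j) = true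
  symm := by
    constructor
    intro i j h
    refine ⟨h.1.symm, ?_⟩
    rw [← code_comm _ _ (fun h' => h.1 (Fin.ext h'))]
    exact h.2
  loopless := ⟨fun i h => h.1 rfl⟩

theorem gr_inf (n m m' : ℕ) : gr n m ⊓ gr n m' = gr n (m &&& m') := by
  ext i j
  simp only [SimpleGraph.inf_adj, gr, Nat.testBit_and, Bool.and_eq_true]
  tauto

/-- one round of propagation -/
def spread (n m : ℕ) (R : ℕ) : ℕ :=
  (List.range n).foldl (fun R j => (List.range j).foldl (fun R i =>
    if m.testBit (code i j) && (R.testBit i || R.testBit j) then R ||| (1 <<< i) ||| (1 <<< j)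
    else R) R) R

def iter (n m : ℕ) : ℕ → ℕ → ℕ
  | 0, R => R
  | k + 1, R => iter n m k (spread n m R)

def ok (n m : ℕ) : Bool :=
  (List.range n).any fun b => iter n m 3 (1 ||| (1 <<< b)) == 2 ^ n - 1

def Sound (n m b : ℕ) (hn : 0 < n) (R : ℕ) : Prop :=
  ∀ v : Fin n, R.testBit v = true →
    (gr n m).Reachable ⟨0, hn⟩ v ∨ ∃ hb : b < n, (gr n m).Reachable ⟨b, hb⟩ v

theorem foldl_inv {α β : Type*} (P : α → Prop) (f : α → β → α) (l : List β)
    (hf : ∀ a, ∀ b ∈ l, P a → P (f a b)) : ∀ a, P a → P (l.foldl f a) := by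
  induction l with
  | nil => intro a h; exact h
  | cons x l ih =>
    intro a h
    rw [List.foldl_cons]
    exact ih (fun a b hb ha => hf a b (List.mem_cons_of_mem _ hb) ha) _ (hf a x (List.mem_cons_self ..) h)

theorem tb1 (k : ℕ) : Nat.testBit 1 k = decide (k = 0) := by
  cases k with
  | zero => rfl
  | succ k => simp [Nat.testBit_succ]

theorem testBit_one_shl (i v : ℕ) : (1 <<< i).testBit v = decide (v = i) := by
  rw [Nat.testBit_shiftLeft, tb1]
  by_cases h : v = i
  · subst h; simp
  · by_cases h2 : i ≤ v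
    · have : v - i ≠ 0 := by omega
      simp [h, this]
    · simp [h, h2]

theorem spread_sound (n m b : ℕ) (hn : 0 < n) (R : ℕ) (h : Sound n m b hn R) :
    Sound n m b hn (spread n m R) := by
  unfold spread
  refine foldl_inv (Sound n m b hn) _ _ ?_ R h
  intro R j hj hR
  refine foldl_inv (Sound n m b hn) _ _ ?_ R hR
  intro R i hi hR
  rw [List.mem_range] at hi hj
  split_ifs with hc
  · rw [Bool.and_eq_true, Bool.or_eq_true] at hc
    obtain ⟨h1, h2⟩ := hc
    have hin : i < n := by omega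
    have hadj : (gr n m).Adj ⟨i, hin⟩ ⟨j, hj⟩ := by
      refine ⟨?_, h1⟩
      intro h'
      rw [Fin.mk.injEq] at h'
      omega
    have key : ∀ w : Fin n, (gr n m).Reachable w ⟨i, hin⟩ ↔ (gr n m).Reachable w ⟨j, hj⟩ := by
      intro w
      exact ⟨fun h => h.trans hadj.reachable, fun h => h.trans hadj.symm.reachable⟩
    have hij : ((gr n m).Reachable ⟨0, hn⟩ ⟨i, hin⟩ ∨ ∃ hb : b < n, (gr n m).Reachable ⟨b, hb⟩ ⟨i, hin⟩) ∧
        ((gr n m).Reachable ⟨0, hn⟩ ⟨j, hj⟩ ∨ ∃ hb : b < n, (gr n m).Reachable ⟨b, hb⟩ ⟨j, hj⟩) := by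
      rcases h2 with h2 | h2
      · have := hR ⟨i, hin⟩ h2
        refine ⟨this, ?_⟩
        rcases this with h | ⟨hb, h⟩
        · exact Or.inl ((key _).1 h)
        · exact Or.inr ⟨hb, (key _).1 h⟩
      · have := hR ⟨j, hj⟩ h2
        refine ⟨?_, this⟩
        rcases this with h | ⟨hb, h⟩
        · exact Or.inl ((key _).2 h)
        · exact Or.inr ⟨hb, (key _).2 h⟩
    intro v hv
    rw [Nat.testBit_or, Nat.testBit_or, testBit_one_shl, testBit_one_shl, Bool.or_eq_true,
      Bool.or_eq_true, decide_eq_true_eq, decide_eq_true_eq] at hv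
    rcases hv with (hv | hv) | hv
    · exact hR v hv
    · have : v = ⟨i, hin⟩ := Fin.ext hv
      rw [this]; exact hij.1
    · have : v = ⟨j, hj⟩ := Fin.ext hv
      rw [this]; exact hij.2
  · exact hR

theorem iter_sound (n m b : ℕ) (hn : 0 < n) (k : ℕ) : ∀ R : ℕ, Sound n m b hn R →
    Sound n m b hn (iter n m k R) := by
  induction k with
  | zero => intro R h; exact h
  | succ k ih => intro R h; exact ih _ (spread_sound n m b hn R h)

theorem ok_sound (n m : ℕ) (hn : 0 < n) (h : ok n m = true) :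
    Nat.card (gr n m).ConnectedComponent ≤ 2 := by
  unfold ok at h
  rw [List.any_eq_true] at h
  obtain ⟨b, hb, h⟩ := h
  rw [List.mem_range] at hb
  rw [beq_iff_eq] at h
  have hs : Sound n m b hn (1 ||| (1 <<< b)) := by
    intro v hv
    rw [Nat.testBit_or, testBit_one_shl, tb1, Bool.or_eq_true, decide_eq_true_eq,
      decide_eq_true_eq] at hv
    rcases hv with hv | hv
    · left
      have : v = ⟨0, hn⟩ := Fin.ext hv
      rw [this]
    · right
      refine ⟨hb, ?_⟩
      have : v = ⟨b, hb⟩ := Fin.ext hv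
      rw [this]
  have hf := iter_sound n m b hn 3 _ hs
  rw [h] at hf
  have hall : ∀ v : Fin n, (gr n m).Reachable ⟨0, hn⟩ v ∨ (gr n m).Reachable ⟨b, hb⟩ v := by
    intro v
    have : (2 ^ n - 1).testBit v = true := by
      rw [Nat.testBit_two_pow_sub_one]
      simp
    rcases hf v this with h | ⟨_, h⟩
    · exact Or.inl h
    · exact Or.inr h
  let f : Bool → (gr n m).ConnectedComponent := fun c =>
    if c then (gr n m).connectedComponentMk ⟨0, hn⟩ else (gr n m).connectedComponentMk ⟨b, hb⟩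
  have hsurj : Function.Surjective f := by
    intro c
    induction c using SimpleGraph.ConnectedComponent.ind with
    | _ v =>
      rcases hall v with h | h
      · refine ⟨true, ?_⟩
        simp only [f, if_true]
        exact SimpleGraph.ConnectedComponent.sound h
      · refine ⟨false, ?_⟩
        simp only [f]
        exact SimpleGraph.ConnectedComponent.sound h
  have := Nat.card_le_card_of_surjective f hsurj
  simpa using this

/-- the masks below `2 ^ k` are determined by the graph -/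
theorem gr_inj (n k m m' : ℕ) (hk : ∀ c < k, ∃ i j : Fin n, i ≠ j ∧ code i j = c)
    (hm : m < 2 ^ k) (hm' : m' < 2 ^ k) (h : gr n m = gr n m') : m = m' := by
  apply Nat.eq_of_testBit_eq
  intro c
  by_cases hc : c < k
  · obtain ⟨i, j, hij, hcode⟩ := hk c hc
    have h1 : (gr n m).Adj i j ↔ (gr n m').Adj i j := by rw [h]
    simp only [gr, hcode] at h1
    rw [Bool.eq_iff_iff]
    constructor
    · intro h2; exact (h1.1 ⟨hij, h2⟩).2
    · intro h2; exact (h1.2 ⟨hij, h2⟩).2
  · rw [Nat.testBit_lt_two_pow (lt_of_lt_of_le hm (Nat.pow_le_pow_right (by norm_num) (by omega))),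
      Nat.testBit_lt_two_pow (lt_of_lt_of_le hm' (Nat.pow_le_pow_right (by norm_num) (by omega)))]

theorem family (n k : ℕ) (hn : 0 < n) (L : List ℕ) (good : ℕ)
    (hk : ∀ c < k, ∃ i j : Fin n, i ≠ j ∧ code i j = c)
    (hL : L.Nodup) (hlt : ∀ m ∈ L, m < 2 ^ k)
    (hgood : ∀ m ∈ L, ∀ m' ∈ L, m ≠ m' → good.testBit (m &&& m') = true)
    (hok : ∀ m < 2 ^ k, good.testBit m = true → ok n m = true) :
    ∃ F : Finset (SimpleGraph (Fin n)), MeetInAtMostTwo F ∧ F.card = L.length := by
  classical
  refine ⟨L.toFinset.image (gr n), ?_, ?_⟩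
  · intro G hG G' hG' hne
    rw [Finset.mem_image] at hG hG'
    obtain ⟨m, hm, rfl⟩ := hG
    obtain ⟨m', hm', rfl⟩ := hG'
    rw [List.mem_toFinset] at hm hm'
    rw [gr_inf]
    apply ok_sound n _ hn
    apply hok
    · exact lt_of_le_of_lt Nat.and_le_left (hlt m hm)
    · exact hgood m hm m' hm' (fun h => hne (by rw [h]))
  · rw [Finset.card_image_of_injOn, List.toFinset_card_of_nodup hL]
    intro m hm m' hm' h
    rw [Finset.mem_coe, List.mem_toFinset] at hm hm'
    exact gr_inj n k m m' hk (hlt m hm) (hlt m' hm') h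

end Helper37.TwoComp
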