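import Mathlib

namespace Helper37.TwoComp

/-- `F` is a family of graphs on the labelled vertex set `Fin n` such that the intersection of any
two distinct members has at most two connected components, the components being counted on the
whole vertex set (an isolated vertex is a component). -/
def MeetInAtMostTwo {n : ℕ} (F : Finset (SimpleGraph (Fin n))) : Prop :=
  ∀ G ∈ F, ∀ G' ∈ F, G ≠ G' → Nat.card (G ⊓ G').ConnectedComponent ≤ 2

end Helper37.TwoComp
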