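import Pool.Agent.Helper37.TwoComp

namespace Helper37.TwoComp

def good4 : ℕ := 18446744069414518504
def good5 : ℕ := 179769313486231590772930519078902473361797697894230657273430081157726007791066530760342096761681665783834506618694811892724171006347363505781045109603506244431291667224084977249649779258886900763889612106269227233875525830196583874676448986507110834364573933772505946686108970060308073659862758003360133605376

def fam4 : List ℕ :=
  [15, 23, 27, 29, 30, 31, 39, 43, 45, 46, 47, 51, 53, 54, 55, 57, 58, 59, 60, 61, 62, 63]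

def fam5 : List ℕ :=
  [191, 255, 319, 383, 395, 399, 407, 411, 413, 414, 415, 423, 427, 429, 430, 431, 435, 439, 441,
  442, 443, 445, 446, 447, 459, 463, 471, 475, 477, 478, 479, 487, 491, 493, 494, 495, 499, 503,
  505, 506, 507, 509, 510, 511, 575, 639, 651, 655, 663, 667, 669, 670, 671, 679, 683, 685, 686,
  687, 691, 695, 697, 698, 699, 701, 702, 703, 715, 719, 727, 731, 733, 734, 735, 743, 747, 749,
  750, 751, 755, 759, 761, 762, 763, 765, 766, 767, 779, 783, 791, 795, 797, 798, 799, 807, 811,
  813, 814, 815, 819, 823, 825, 826, 827, 829, 830, 831, 843, 847, 855, 859, 861, 862, 863, 871,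
  875, 877, 878, 879, 883, 887, 889, 890, 891, 893, 894, 895, 899, 903, 905, 906, 907, 909, 910,
  911, 915, 919, 921, 922, 923, 925, 926, 927, 931, 935, 937, 938, 939, 941, 942, 943, 947, 949,
  950, 951, 953, 954, 955, 956, 957, 958, 959, 963, 967, 969, 970, 971, 973, 974, 975, 979, 983,
  985, 986, 987, 989, 990, 991, 995, 999, 1001, 1002, 1003, 1005, 1006, 1007, 1011, 1013, 1014,
  1015, 1017, 1018, 1019, 1020, 1021, 1022, 1023]

theorem ex4 : ∃ F : Finset (SimpleGraph (Fin 4)), MeetInAtMostTwo F ∧ F.card = 22 :=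
  family 4 6 (by norm_num) fam4 good4 (by decide) (by decide +kernel) (by decide +kernel)
    (by decide +kernel) (by decide +kernel)

theorem ex5 : ∃ F : Finset (SimpleGraph (Fin 5)), MeetInAtMostTwo F ∧ F.card = 196 :=
  family 5 10 (by norm_num) fam5 good5 (by decide) (by decide +kernel) (by decide +kernel)
    (by decide +kernel) (by decide +kernel)

theorem main : ∀ n ∈ ({4, 5} : Finset ℕ), ∃ F : Finset (SimpleGraph (Fin n)),
    MeetInAtMostTwo F ∧ ((n : ℝ) + 1) / 2 ^ n * 2 ^ (n.choose 2) < F.card := by
  intro n hn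
  rw [Finset.mem_insert, Finset.mem_singleton] at hn
  rcases hn with rfl | rfl
  · obtain ⟨F, hF, hc⟩ := ex4
    refine ⟨F, hF, ?_⟩
    rw [hc]
    norm_num [Nat.choose]
  · obtain ⟨F, hF, hc⟩ := ex5
    refine ⟨F, hF, ?_⟩
    rw [hc]
    norm_num [Nat.choose]

end Helper37.TwoComp
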