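import Pool.Agent.Helper50.DetH

/-!
# MP_6cbef8_nt: few Frobenii decide, uniformly in the group, with an explicit constant

`E` is a finite extension of `ℚ_p`; the index sets, the dimensions `n j` and a bound `d` for degrees
are given.  `Decides p E μ n d R Z` says: a polynomial relation of degree at most `d` between
strongly irreducible two-dimensional `V i`, none a twist of another one, and `T j`, which holds on
`R`, and which is not trivial in the `V i` on a part of `Z` of positive measure, forces some `V i`
to be potentially contained in some `T j`.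

Let `A` be a set of representatives of the residue field of `E`, `N` the dimension of the space of
polynomials of degree at most `d` in the entries, and `K = |A| ^ N`.  For EVERY profinite group `G`:

* a set `R` which meets every coset `g u W`, `u ∈ U`, `W` an open subgroup of `U` of index at most
  `K`, decides on the coset `g U`, for every open subgroup `U` and every `g`;
* if `G` has only finitely many open subgroups of each index, then every subset `D` of `G` has a
  finite subset `R` which decides on the closure of `D`.

In the application `G` is the Galois group of the maximal extension of a number field `F` unramified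
outside a finite set `S` of places, and `R` consists of the Frobenius elements at the places whose
norm is at most a power of the norm of `S` (effective Chebotarev theorem), possibly with a
prescribed class in a fixed extension.
-/

set_option autoImplicit false
open MeasureTheory Pool.Agent.Helper27.FM Pool.Agent.Helper37.Af Pool.Agent.Helper37.Fd
  Pool.Agent.Helper37.Mv Pool.Agent.Helper37.Fc

namespace Pool.Agent.Results.MP_6cbef8_nt.UniformCheck

/-- The set `R` decides on the set `Z`: a polynomial relation of degree at most `d` which holds on
`R` and is not trivial on a part of `Z` of positive measure forces a potential containment. -/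
def Decides (p : ℕ) [Fact p.Prime] (E : Type*) [NontriviallyNormedField E] [NormedAlgebra ℚ_[p] E]
    {G : Type*} [Group G] [TopologicalSpace G] [MeasurableSpace G] (μ : Measure G)
    {ι : Type*} {J : Type*} (n : J → ℕ) (d : ℕ) (R Z : Set G) : Prop :=
  ∀ (V : ι → G →* GL (Fin 2) E) (T : ∀ j, G →* GL (Fin (n j)) E)
    (P : MvPolynomial (Vars ι J n) E),
    (∀ i, Continuous (V i)) → (∀ i, StronglyIrreducible (V i)) →
    (∀ i k, i ≠ k → ¬ IsTwist (V i) (V k)) → (∀ j, Continuous (T j)) →
    (∀ i j, ¬ AdOccurs (V i) (T j) ∨
      (Semisimple (T j) ∧ IdempotentGenerated p (V i) (T j))) →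
    P.totalDegree ≤ d →
    (∀ r ∈ R, MvPolynomial.eval (allEntries (fun i => (V i r : Matrix (Fin 2) (Fin 2) E))
      (fun j => T j r)) P = 0) →
    μ {g | g ∈ Z ∧ NontrivialAt V T P g} ≠ 0 →
    ∃ i j, PotentiallyContained (V i) (T j)

theorem result (p : ℕ) [hp : Fact p.Prime]
    -- the coefficient field, a finite extension of `ℚ_p`
    (E : Type*) [NontriviallyNormedField E] [IsUltrametricDist E] [ProperSpace E]
    [NormedAlgebra ℚ_[p] E]
    -- index sets, dimensions and a bound for the degree
    (ι : Type*) [Finite ι] {J : Type*} [Finite J] (n : J → ℕ) (d : ℕ)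
    -- representatives of the residue field
    (A : Finset E) (hA : ∀ x : E, ‖x‖ ≤ 1 → ∃ a ∈ A, ‖x - a‖ < 1)
    -- an arbitrary profinite group, with a Haar measure
    {G : Type*} [Group G] [TopologicalSpace G] [IsTopologicalGroup G] [CompactSpace G]
    [TotallyDisconnectedSpace G] [MeasurableSpace G] [BorelSpace G] (μ : Measure G)
    [μ.IsHaarMeasure] [μ.Regular] :
    -- every set which meets the cosets of the subgroups of small index decides on a coset
    (∀ (U : Subgroup G) (g : G) (R : Set G), IsOpen (U : Set G) →
      (∀ W : Subgroup U, IsOpen (W : Set U) →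
        W.index ≤ A.card ^ Module.finrank E
          (MvPolynomial.restrictTotalDegree (Vars ι J n) E d) →
        ∀ u : U, ∃ w ∈ W, g * (u * w : U) ∈ R) →
      Decides p E μ (ι := ι) n d R {x | g⁻¹ * x ∈ U}) ∧
    -- every subset has a finite part which decides on its closure
    ((∀ m : ℕ, {U : Subgroup G | IsOpen (U : Set G) ∧ U.index ≤ m}.Finite) →
      ∀ D : Set G, ∃ R : Set G, R ⊆ D ∧ R.Finite ∧
        Decides p E μ (ι := ι) n d R (closure D)) := by
  have key : ∀ R Z : Set G, (∀ (f : C(G, E)) (S : Submodule E C(G, E)),
      FiniteDimensional E S → Module.finrank E S ≤ Module.finrank E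
        (MvPolynomial.restrictTotalDegree (Vars ι J n) E d) → (∀ h, rt h f ∈ S) →
      (∀ r ∈ R, f r = 0) → μ {x | x ∈ Z ∧ f x ≠ 0} = 0) →
      Decides p E μ (ι := ι) n d R Z := by
    intro R Z hR V T P hV hirr htw hT h hP hr hne
    obtain ⟨f, S, hS, hfr, hSf, hf⟩ := exists_polym hV hT d P hP
    have hf0 := hR f S hS hfr hSf (fun r hrR => by rw [hf]; exact hr r hrR)
    by_contra hcon
    push Not at hcon
    have hocc : ∀ i j, ¬ AdOccurs (V i) (T j) := by
      intro i j hij
      rcases h i j with h1 | ⟨h1, h2⟩
      · exact h1 hij
      · exact hcon i j (contained_of_adOccurs p (hV i) (hirr i) (hT j) h1 h2 hij)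
    refine hne (measure_mono_null ?_ (measure_union_null hf0
      (no_relation p μ hV hirr htw hT hocc P)))
    rintro g ⟨hgZ, hg⟩
    by_cases hfg : f g = 0
    · exact Or.inr ⟨by rw [← hf]; exact hfg, hg⟩
    · exact Or.inl ⟨hgZ, hfg⟩
  refine ⟨fun U g R hU hR => key R _ fun f S hSf hfr hS h0 => ?_, fun hfin D => ?_⟩
  · have h1 : {x | x ∈ {x | g⁻¹ * x ∈ U} ∧ f x ≠ 0} = ∅ := by
      ext x
      simp only [Set.mem_setOf_eq, Set.mem_empty_iff_false, iff_false, not_and, not_not]
      intro hx
      have h2 := Helper50.DetH.det_index A hA _ hU g R hR f S hSf hfr hS h0 ⟨g⁻¹ * x, hx⟩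
      rwa [mul_inv_cancel_left] at h2
    rw [h1, measure_empty]
  · obtain ⟨R, hRD, hRf, hR⟩ := almost_determination p E μ hfin D (Module.finrank E
      (MvPolynomial.restrictTotalDegree (Vars ι J n) E d))
    exact ⟨R, hRD, hRf, key R _ hR⟩

end Pool.Agent.Results.MP_6cbef8_nt.UniformCheck
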